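import Mathlib

/-!
# PRT: partition numbers near perfect powers (problem MP_174f8d_nt)

Common definitions.  See `PRT_BLUEPRINT.md` in the team store.
-/

namespace PRT

open Complex Metric

/-- the number of partitions of `n` -/
noncomputable def pc (n : ℕ) : ℕ := Fintype.card (Nat.Partition n)

/-! ### analytic side -/

/-- Euler product `∏_{n ≥ 1} (1 - q^n)` -/
noncomputable def euler (q : ℂ) : ℂ := ∏' n : ℕ, (1 - q ^ (n + 1))

/-- generating function of the partition numbers in the variable `q = e^{-z}` -/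
noncomputable def Phat (z : ℂ) : ℂ := (euler (cexp (-z)))⁻¹

/-- `C = π √(2/3)` -/
noncomputable def Cst : ℝ := Real.pi * Real.sqrt (2 / 3)

/-- `S_b(x) = (√b sinh(2√(bx))/x - cosh(2√(bx))/(2 x^{3/2}))/√π`, the value of
`(1/2πi)∫ z^{1/2} e^{b/z + x z} dz`. -/
noncomputable def Sb (b x : ℝ) : ℝ :=
  (Real.sqrt b * Real.sinh (2 * Real.sqrt (b * x)) / x
    - Real.cosh (2 * Real.sqrt (b * x)) / (2 * (x * Real.sqrt x))) / Real.sqrt Real.pi

/-- the two-term approximation of `p(n)` -/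
noncomputable def Fmain (n : ℕ) : ℝ :=
  (Sb (Real.pi ^ 2 / 6) ((n : ℝ) - 1 / 24)
    + (-1) ^ n * Real.sqrt 2 * Sb (Real.pi ^ 2 / 24) ((n : ℝ) - 1 / 24)) / Real.sqrt (2 * Real.pi)

/-- ratio of the second to the first main term (complex variable `w = n - 1/24`) -/
noncomputable def rr (w : ℂ) : ℂ :=
  (1 / (Real.sqrt 2 : ℂ)) * cexp (-(Cst : ℂ) * w ^ ((1 : ℂ) / 2) / 2)
    * (1 - 2 / ((Cst : ℂ) * w ^ ((1 : ℂ) / 2))) / (1 - 1 / ((Cst : ℂ) * w ^ ((1 : ℂ) / 2)))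

/-- the phase `φ_{k,e}`: `exp (φ_{k,e}(n))` is the smooth approximation of `p(n)^{1/k}` for
`(-1)^n = e`. -/
noncomputable def phi (k : ℕ) (e : ℂ) (z : ℂ) : ℂ :=
  (1 / (k : ℂ)) * ((Cst : ℂ) * (z - 1 / 24) ^ ((1 : ℂ) / 2) - Complex.log (z - 1 / 24)
    - (Real.log (4 * Real.sqrt 3) : ℂ)
    + Complex.log (1 - 1 / ((Cst : ℂ) * (z - 1 / 24) ^ ((1 : ℂ) / 2)))
    + Complex.log (1 + e * rr (z - 1 / 24)))

/-! ### core -/

/-- iterated difference quotients (Newton divided differences) of `f` at the nodes `x 0, x 1, …`;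
`dd f x j z = f[x 0, …, x (j-1), z]`. -/
noncomputable def dd (f : ℂ → ℂ) (x : ℕ → ℂ) : ℕ → ℂ → ℂ
  | 0 => f
  | (j + 1) => dslope (dd f x j) (x j)

/-- `Fj φ P j = e^{-φ} D^j (P e^φ)` -/
noncomputable def Fj (φ : ℂ → ℂ) (P : Polynomial ℂ) : ℕ → ℂ → ℂ
  | 0 => fun z => P.eval z
  | (j + 1) => fun z => deriv (Fj φ P j) z + deriv φ z * Fj φ P j z

/-- binomial polynomial `C(X - N, i)` -/
noncomputable def binP (N : ℕ) (i : ℕ) : Polynomial ℂ :=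
  Polynomial.C (1 / (i.factorial : ℂ)) *
    ∏ s ∈ Finset.range i, (Polynomial.X - Polynomial.C ((N : ℂ) + s))

/-- `S = 2c√N / log N` -/
noncomputable def SS (c : ℝ) (N : ℕ) : ℝ := 2 * c * Real.sqrt N / Real.log N

noncomputable def mm (c η : ℝ) (N : ℕ) : ℕ := ⌈(1 + η) * SS c N⌉₊
noncomputable def ll (c η : ℝ) (N : ℕ) : ℕ := ⌈η * SS c N⌉₊
noncomputable def gg (c η : ℝ) (N : ℕ) : ℕ := mm c η N + ⌈SS c N⌉₊

/-- window length `H = N^{1/2+ω}` -/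
noncomputable def HH (ω : ℝ) (N : ℕ) : ℝ := (N : ℝ) ^ (1 / 2 + ω)

/-- `σ = c/(2√N)` -/
noncomputable def sig (c : ℝ) (N : ℕ) : ℝ := c / (2 * Real.sqrt N)

/-- `φ` is a good phase on the disc of radius `ϱ N` around `N` -/
structure PhiGood (c ϵ ϱ : ℝ) (N : ℕ) (φ : ℂ → ℂ) : Prop where
  diff : DifferentiableOn ℂ φ (ball (N : ℂ) (ϱ * N))
  deriv_near : ∀ z ∈ ball (N : ℂ) (ϱ * N), ‖deriv φ z - (sig c N : ℂ)‖ ≤ ϵ * sig c N
  re_near : |(φ N).re - c * Real.sqrt N| ≤ ϵ * c * Real.sqrt N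

/-- the parameters used throughout -/
structure Par (c κ η ϵ ϱ : ℝ) : Prop where
  hc : 0 < c
  hη : 0 < η
  hη1 : η ≤ 1 / 20
  hϵ : ϵ = η / 16
  hϱ : 0 < ϱ
  hϱϵ : ϱ ≤ ϵ
  hκ : 20 * η * c ≤ κ

/-- lower bound constant of the small value estimate; `ρ = ϱ N / 16` -/
noncomputable def LBN (c η ϵ ϱ : ℝ) (N : ℕ) : ℝ :=
  sig c N ^ (mm c η N) * (1 - ϵ) ^ (2 * mm c η N) *
    ((1 - ϵ) ^ (2 * mm c η N) /
      ((1 + 2 * ϵ) ^ (mm c η N) * ((ll c η N : ℝ) * 8 ^ (ll c η N)))) ^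
      (Real.log (2 * (ϱ * N / 16) / HH (η ^ 2 / 32) N) / Real.log 2)

end PRT
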