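import Mathlib
import Pool.Agent.PRT.Defs

namespace PRT

open Complex Metric

/-- either the columns are dependent or some maximal minor does not vanish -/
theorem alt_det {g M : ℕ} (A : Matrix (Fin g) (Fin M) ℝ) :
    (∃ v : Fin M → ℝ, v ≠ 0 ∧ A.mulVec v = 0) ∨
      ∃ f : Fin M → Fin g, Function.Injective f ∧ (A.submatrix f id).det ≠ 0 := by
  by_cases h : ∃ v : Fin M → ℝ, v ≠ 0 ∧ A.mulVec v = 0
  · exact Or.inl h
  right
  push Not at h
  have hinj : Function.Injective A.mulVecLin := by
    rw [injective_iff_map_eq_zero]
    intro v hv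
    by_contra hne
    exact h v hne hv
  have hrank : A.rank = M := by
    unfold Matrix.rank
    rw [LinearMap.finrank_range_of_inj hinj]
    simp
  have hspan : Module.finrank ℝ (Submodule.span ℝ (Set.range A.row)) = M := by
    rw [← Matrix.rank_eq_finrank_span_row, hrank]
  have htop : Submodule.span ℝ (Set.range A.row) = ⊤ := by
    apply Submodule.eq_top_of_finrank_eq
    rw [hspan]
    simp
  obtain ⟨κ, a, ha, hs, hli⟩ := exists_linearIndependent' ℝ A.row
  have hfin : Finite κ := Finite.of_injective a ha
  have : Fintype κ := Fintype.ofFinite κ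
  have hcard : Fintype.card κ = M := by
    have h1 := finrank_span_eq_card hli
    rw [hs, hspan] at h1
    exact h1.symm
  have e : Fin M ≃ κ := (Fintype.equivFinOfCardEq hcard).symm
  refine ⟨a ∘ e, ha.comp e.injective, ?_⟩
  have hli2 : LinearIndependent ℝ (A.submatrix (a ∘ e) id).row := by
    have h2 := hli.comp e e.injective
    exact h2
  have h3 := Matrix.linearIndependent_rows_iff_isUnit.1 hli2
  exact ((Matrix.isUnit_iff_isUnit_det _).1 h3).ne_zero

end PRT
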