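import Mathlib
import Pool.Agent.PRT.Defs

namespace PRT

open Complex Metric

theorem arc_norm_ge {a φ : ℝ} (ha : 0 ≤ a) :
    2 * |Real.sin (φ / 2)| ≤ ‖cexp ((a : ℂ) + φ * I) - 1‖ := by
  have hre : (cexp ((a : ℂ) + φ * I) - 1).re = Real.exp a * Real.cos φ - 1 := by
    simp [Complex.exp_re]
  have him : (cexp ((a : ℂ) + φ * I) - 1).im = Real.exp a * Real.sin φ := by
    simp [Complex.exp_im]
  have h1 : 1 ≤ Real.exp a := Real.one_le_exp ha
  have hsq : (2 * |Real.sin (φ / 2)|) ^ 2 ≤ ‖cexp ((a : ℂ) + φ * I) - 1‖ ^ 2 := by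
    rw [← Complex.normSq_eq_norm_sq, Complex.normSq_apply, hre, him]
    have hs : Real.sin (φ / 2) ^ 2 = 1 / 2 - Real.cos φ / 2 := by
      have := Real.sin_sq_eq_half_sub (φ / 2)
      rw [this]
      congr 2
      ring_nf
    rw [mul_pow, sq_abs, hs]
    have hc : Real.cos φ ≤ 1 := Real.cos_le_one φ
    have hcs : Real.sin φ ^ 2 = 1 - Real.cos φ ^ 2 := Real.sin_sq φ
    have he : Real.exp a * Real.sin φ * (Real.exp a * Real.sin φ)
        = Real.exp a ^ 2 * (1 - Real.cos φ ^ 2) := by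
      rw [← hcs]; ring
    rw [he]
    nlinarith [mul_nonneg (sub_nonneg.2 h1) (sub_nonneg.2 hc), sq_nonneg (Real.exp a - 1)]
  exact le_of_sq_le_sq hsq (norm_nonneg _)

theorem arc_sin_ge {T x : ℝ} (hT : 0 < T) (h1 : T ≤ x) (h2 : x ≤ Real.pi - T) :
    2 / Real.pi * T ≤ |Real.sin x| := by
  have hpi := Real.pi_pos
  rcases le_total x (Real.pi / 2) with h | h
  · have := Real.mul_le_sin (by linarith : 0 ≤ x) h
    refine le_trans ?_ (le_trans this (le_abs_self _))
    gcongr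
  · have := Real.mul_le_sin (by linarith : 0 ≤ Real.pi - x) (by linarith)
    rw [Real.sin_pi_sub] at this
    refine le_trans ?_ (le_trans this (le_abs_self _))
    have : T ≤ Real.pi - x := by linarith
    gcongr

theorem arc_lower {y T θ : ℝ} (hy : 0 ≤ y) (hT : 0 < T) (hT' : T ≤ Real.pi / 2)
    (hθ : (T ≤ θ ∧ θ ≤ Real.pi - T) ∨ (Real.pi + T ≤ θ ∧ θ ≤ 2 * Real.pi - T)) :
    2 / Real.pi * T ≤ ‖cexp ((y : ℂ) + θ * I) - 1‖ ∧
      2 / Real.pi * T ≤ ‖cexp (2 * ((y : ℂ) + θ * I)) - 1‖ := by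
  have hpi := Real.pi_pos
  constructor
  · refine le_trans ?_ (arc_norm_ge (φ := θ) hy)
    have h := arc_sin_ge (T := T / 2) (x := θ / 2) (by linarith)
      (by rcases hθ with h | h <;> linarith [h.1]) (by rcases hθ with h | h <;> linarith [h.2])
    calc 2 / Real.pi * T = 2 * (2 / Real.pi * (T / 2)) := by ring
      _ ≤ _ := by gcongr
  · have h2 : (2 : ℂ) * ((y : ℂ) + θ * I) = ((2 * y : ℝ) : ℂ) + ((2 * θ : ℝ) : ℂ) * I := by
      push_cast; ring
    rw [h2]
    refine le_trans ?_ (arc_norm_ge (φ := 2 * θ) (by linarith : 0 ≤ 2 * y))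
    have hh : 2 * θ / 2 = θ := by ring
    rw [hh]
    have h : 2 / Real.pi * T ≤ |Real.sin θ| := by
      rcases hθ with h | h
      · exact arc_sin_ge hT h.1 h.2
      · have := arc_sin_ge (x := θ - Real.pi) hT (by linarith [h.1]) (by linarith [h.2])
        rwa [Real.sin_sub_pi, abs_neg] at this
    have h0 : 0 ≤ 2 / Real.pi * T := by positivity
    linarith [abs_nonneg (Real.sin θ)]

end PRT
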