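import Mathlib
import Pool.Agent.PRT.Defs

namespace PRT

open Complex Metric

namespace GFx

open Nat.Partition (restricted)

/-- number of partitions of `n` with all parts at most `K` -/
noncomputable def r (K n : ℕ) : ℕ := (restricted n (fun i => i ≤ K)).card

lemma r_zero (n : ℕ) : r 0 n = if n = 0 then 1 else 0 := by
  unfold r
  split_ifs with h
  · subst h
    rw [Finset.card_eq_one]
    refine ⟨default, ?_⟩
    ext p
    simp only [restricted, Finset.mem_filter, Finset.mem_univ, true_and, Finset.mem_singleton]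
    constructor
    · intro _
      exact Subsingleton.elim _ _
    · intro _ i hi
      have := Nat.Partition.le_of_mem_parts hi
      omega
  · rw [Finset.card_eq_zero, Finset.eq_empty_iff_forall_notMem]
    intro p hp
    simp only [restricted, Finset.mem_filter, Finset.mem_univ, true_and] at hp
    apply h
    have h1 : p.parts = 0 := by
      rw [Multiset.eq_zero_iff_forall_notMem]
      intro i hi
      have h2 := hp i hi
      have h3 := p.parts_pos hi
      omega
    have h4 := p.parts_sum
    rw [h1, Multiset.sum_zero] at h4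
    exact h4.symm

lemma r_succ_of_lt {K n : ℕ} (h : n < K + 1) : r (K + 1) n = r K n := by
  unfold r
  congr 1
  ext p
  simp only [restricted, Finset.mem_filter, Finset.mem_univ, true_and]
  constructor
  · intro hp i hi
    have := Nat.Partition.le_of_mem_parts hi
    omega
  · intro hp i hi
    have := hp i hi
    omega

lemma r_succ_of_le {K n : ℕ} (h : K + 1 ≤ n) :
    r (K + 1) n = r K n + r (K + 1) (n - (K + 1)) := by
  unfold r
  rw [← Finset.card_filter_add_card_filter_not (s := restricted n (fun i => i ≤ K + 1))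
    (fun p => K + 1 ∉ p.parts)]
  congr 1
  · congr 1
    ext p
    simp only [restricted, Finset.mem_filter, Finset.mem_univ, true_and]
    constructor
    · rintro ⟨hp, hK⟩ i hi
      have := hp i hi
      rcases Nat.lt_or_ge K i with h1 | h1
      · have : i = K + 1 := by omega
        subst this
        exact absurd hi hK
      · exact h1
    · intro hp
      refine ⟨fun i hi => (hp i hi).trans (Nat.le_succ K), fun hK => ?_⟩
      have := hp _ hK
      omega
  · apply Finset.card_bij (fun p hp => Nat.Partition.partitionWithPartEquiv (by omega) h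
      ⟨p, by
        simp only [Finset.mem_filter, not_not] at hp
        exact hp.2⟩)
    · intro p hp
      simp only [restricted, Finset.mem_filter, Finset.mem_univ, true_and, not_not] at hp ⊢
      intro i hi
      rw [Nat.Partition.partitionWithPartEquiv_apply_parts] at hi
      exact hp.1 i (Multiset.mem_of_mem_erase hi)
    · intro p hp p' hp' he
      have := (Nat.Partition.partitionWithPartEquiv _ h).injective he
      exact congrArg Subtype.val this
    · intro q hq
      refine ⟨((Nat.Partition.partitionWithPartEquiv (by omega) h).symm q).1, ?_, ?_⟩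
      · simp only [restricted, Finset.mem_filter, Finset.mem_univ, true_and, not_not] at hq ⊢
        rw [Nat.Partition.partitionWithPartEquiv_symm_apply_parts]
        refine ⟨fun i hi => ?_, Multiset.mem_cons_self _ _⟩
        rcases Multiset.mem_cons.mp hi with h1 | h1
        · exact h1.le
        · exact hq i h1
      · simp

lemma r_le_pc (K n : ℕ) : r K n ≤ pc n := by
  unfold r pc
  exact Finset.card_le_univ _

lemma r_eq_pc {K n : ℕ} (h : n ≤ K) : r K n = pc n := by
  unfold r pc
  rw [← Finset.card_univ]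
  congr 1
  ext p
  simp only [restricted, Finset.mem_filter, Finset.mem_univ, true_and, iff_true]
  intro i hi
  exact (Nat.Partition.le_of_mem_parts hi).trans h

/-- finite sums, real variable -/
lemma sum_le {t : ℝ} (ht0 : 0 ≤ t) (ht1 : t < 1) (K : ℕ) :
    ∀ N : ℕ, ∑ n ∈ Finset.range N, (r K n : ℝ) * t ^ n ≤
      (∏ i ∈ Finset.range K, (1 - t ^ (i + 1)))⁻¹ := by
  induction K with
  | zero =>
    intro N
    simp only [Finset.range_zero, Finset.prod_empty, inv_one]
    have h1 : ∀ n ∈ Finset.range N, (r 0 n : ℝ) * t ^ n ≤ if n = 0 then 1 else 0 := by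
      intro n _
      rw [r_zero]
      split_ifs with h
      · subst h; simp
      · simp
    refine (Finset.sum_le_sum h1).trans ?_
    rw [Finset.sum_ite_eq']
    split_ifs <;> norm_num
  | succ K ih =>
    intro N
    have hpos : 0 < 1 - t ^ (K + 1) := by
      have : t ^ (K + 1) < 1 := pow_lt_one₀ ht0 ht1 (by omega)
      linarith
    set s : ℝ := ∑ n ∈ Finset.range N, (r (K + 1) n : ℝ) * t ^ n with hs
    have key : s ≤ ∑ n ∈ Finset.range N, (r K n : ℝ) * t ^ n + t ^ (K + 1) * s := by
      rcases le_or_gt N (K + 1) with hN | hN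
      · have h1 : s = ∑ n ∈ Finset.range N, (r K n : ℝ) * t ^ n := by
          rw [hs]
          refine Finset.sum_congr rfl fun n hn => ?_
          rw [r_succ_of_lt (by rw [Finset.mem_range] at hn; omega)]
        have h2 : 0 ≤ s := Finset.sum_nonneg fun n _ => by positivity
        have h3 : 0 ≤ t ^ (K + 1) * s := by positivity
        linarith
      · obtain ⟨M, rfl⟩ : ∃ M, N = (K + 1) + M := ⟨N - (K + 1), by omega⟩
        have h1 : s = ∑ n ∈ Finset.range (K + 1), (r K n : ℝ) * t ^ n +
            ∑ m ∈ Finset.range M, ((r K (K + 1 + m) : ℝ) * t ^ (K + 1 + m) +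
              t ^ (K + 1) * ((r (K + 1) m : ℝ) * t ^ m)) := by
          rw [hs, Finset.sum_range_add]
          congr 1
          · refine Finset.sum_congr rfl fun n hn => ?_
            rw [r_succ_of_lt (by rw [Finset.mem_range] at hn; omega)]
          · refine Finset.sum_congr rfl fun m _ => ?_
            rw [r_succ_of_le (by omega), show K + 1 + m - (K + 1) = m by omega]
            push_cast
            ring
        have h2 : ∑ n ∈ Finset.range (K + 1 + M), (r K n : ℝ) * t ^ n =
            ∑ n ∈ Finset.range (K + 1), (r K n : ℝ) * t ^ n +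
            ∑ m ∈ Finset.range M, (r K (K + 1 + m) : ℝ) * t ^ (K + 1 + m) := by
          rw [Finset.sum_range_add]
        have h3 : ∑ m ∈ Finset.range M, (r (K + 1) m : ℝ) * t ^ m ≤ s := by
          rw [hs]
          apply Finset.sum_le_sum_of_subset_of_nonneg
          · intro m hm
            rw [Finset.mem_range] at hm ⊢
            omega
          · intro m _ _
            positivity
        have h4 : t ^ (K + 1) * ∑ m ∈ Finset.range M, (r (K + 1) m : ℝ) * t ^ m ≤
            t ^ (K + 1) * s := mul_le_mul_of_nonneg_left h3 (by positivity)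
        calc s = ∑ n ∈ Finset.range (K + 1), (r K n : ℝ) * t ^ n +
            ∑ m ∈ Finset.range M, (r K (K + 1 + m) : ℝ) * t ^ (K + 1 + m) +
            t ^ (K + 1) * ∑ m ∈ Finset.range M, (r (K + 1) m : ℝ) * t ^ m := by
              rw [h1, Finset.sum_add_distrib, Finset.mul_sum]
              ring
          _ ≤ _ := by rw [h2]; linarith
    have h5 : s * (1 - t ^ (K + 1)) ≤ (∏ i ∈ Finset.range K, (1 - t ^ (i + 1)))⁻¹ := by
      have := ih N
      linarith
    rw [Finset.prod_range_succ, mul_inv]
    calc s = (s * (1 - t ^ (K + 1))) * (1 - t ^ (K + 1))⁻¹ := by field_simp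
      _ ≤ _ := mul_le_mul_of_nonneg_right h5 (by positivity)

/-- the finite products are bounded below -/
lemma prod_ge {t : ℝ} (ht0 : 0 ≤ t) (ht1 : t < 1) (K : ℕ) :
    Real.exp (-(1 / (1 - t) ^ 2)) ≤ ∏ i ∈ Finset.range K, (1 - t ^ (i + 1)) := by
  have h1 : ∀ i ∈ Finset.range K, Real.exp (-(t ^ i / (1 - t))) ≤ 1 - t ^ (i + 1) := by
    intro i _
    have hx : t ^ (i + 1) < 1 := pow_lt_one₀ ht0 ht1 (by omega)
    have hy : 0 < 1 - t ^ (i + 1) := by linarith
    have h2 := Real.one_sub_inv_le_log_of_pos hy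
    have h3 : t ^ (i + 1) ≤ t ^ i := pow_le_pow_of_le_one ht0 ht1.le (by omega)
    have h4 : t ^ (i + 1) ≤ t := by
      calc t ^ (i + 1) ≤ t ^ 1 := pow_le_pow_of_le_one ht0 ht1.le (by omega)
        _ = t := pow_one t
    have h5 : -(t ^ i / (1 - t)) ≤ 1 - (1 - t ^ (i + 1))⁻¹ := by
      have e1 : 1 - (1 - t ^ (i + 1))⁻¹ = -(t ^ (i + 1) / (1 - t ^ (i + 1))) := by
        field_simp
        ring
      rw [e1, neg_le_neg_iff]
      exact div_le_div₀ (by positivity) h3 (by linarith) (by linarith)
    calc Real.exp (-(t ^ i / (1 - t))) ≤ Real.exp (Real.log (1 - t ^ (i + 1))) :=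
          Real.exp_le_exp.mpr (h5.trans h2)
      _ = 1 - t ^ (i + 1) := Real.exp_log hy
  calc Real.exp (-(1 / (1 - t) ^ 2))
      ≤ Real.exp (∑ i ∈ Finset.range K, -(t ^ i / (1 - t))) := by
        apply Real.exp_le_exp.mpr
        rw [Finset.sum_neg_distrib, neg_le_neg_iff, ← Finset.sum_div]
        have h6 : ∑ i ∈ Finset.range K, t ^ i ≤ 1 / (1 - t) := by
          have := (hasSum_geometric_of_lt_one ht0 ht1)
          rw [one_div]
          exact sum_le_hasSum _ (fun i _ => by positivity) this
        calc (∑ i ∈ Finset.range K, t ^ i) / (1 - t) ≤ (1 / (1 - t)) / (1 - t) :=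
              div_le_div_of_nonneg_right h6 (by linarith)
          _ = 1 / (1 - t) ^ 2 := by
              rw [div_div, sq]
    _ = ∏ i ∈ Finset.range K, Real.exp (-(t ^ i / (1 - t))) := Real.exp_sum _ _
    _ ≤ _ := Finset.prod_le_prod (fun i _ => (Real.exp_pos _).le) h1

lemma summable_pc {t : ℝ} (ht0 : 0 ≤ t) (ht1 : t < 1) :
    Summable (fun n : ℕ => (pc n : ℝ) * t ^ n) := by
  apply summable_of_sum_range_le (c := (Real.exp (-(1 / (1 - t) ^ 2)))⁻¹)
    (fun n => by positivity)
  intro N
  have h1 : ∑ n ∈ Finset.range N, (pc n : ℝ) * t ^ n = ∑ n ∈ Finset.range N, (r N n : ℝ) * t ^ n := by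
    refine Finset.sum_congr rfl fun n hn => ?_
    rw [r_eq_pc (by rw [Finset.mem_range] at hn; omega)]
  rw [h1]
  refine (sum_le ht0 ht1 N N).trans ?_
  exact inv_anti₀ (Real.exp_pos _) (prod_ge ht0 ht1 N)

lemma summable_r {q : ℂ} (hq : ‖q‖ < 1) (K : ℕ) :
    Summable (fun n : ℕ => (r K n : ℂ) * q ^ n) := by
  apply Summable.of_norm
  refine Summable.of_nonneg_of_le (fun n => norm_nonneg _) (fun n => ?_)
    (summable_pc (norm_nonneg q) hq)
  rw [norm_mul, norm_pow, Complex.norm_natCast]
  exact mul_le_mul_of_nonneg_right (by exact_mod_cast r_le_pc K n) (by positivity)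

lemma tsum_r {q : ℂ} (hq : ‖q‖ < 1) (K : ℕ) :
    (∑' n : ℕ, (r K n : ℂ) * q ^ n) * ∏ i ∈ Finset.range K, (1 - q ^ (i + 1)) = 1 := by
  induction K with
  | zero =>
    simp only [Finset.range_zero, Finset.prod_empty, mul_one]
    rw [tsum_eq_single 0]
    · rw [r_zero]; simp
    · intro n hn
      rw [r_zero, if_neg hn]; simp
  | succ K ih =>
    set S : ℂ := ∑' n : ℕ, (r (K + 1) n : ℂ) * q ^ n with hS
    have h1 := (summable_r hq (K + 1)).sum_add_tsum_nat_add (K + 1)
    have h2 := (summable_r hq K).sum_add_tsum_nat_add (K + 1)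
    have h3 : ∑ n ∈ Finset.range (K + 1), (r (K + 1) n : ℂ) * q ^ n =
        ∑ n ∈ Finset.range (K + 1), (r K n : ℂ) * q ^ n := by
      refine Finset.sum_congr rfl fun n hn => ?_
      rw [r_succ_of_lt (by rw [Finset.mem_range] at hn; omega)]
    have h4 : ∀ n : ℕ, (r (K + 1) (n + (K + 1)) : ℂ) * q ^ (n + (K + 1)) =
        (r K (n + (K + 1)) : ℂ) * q ^ (n + (K + 1)) + q ^ (K + 1) * ((r (K + 1) n : ℂ) * q ^ n) := by
      intro n
      rw [r_succ_of_le (by omega), show n + (K + 1) - (K + 1) = n by omega]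
      push_cast
      ring
    have h5 : ∑' n : ℕ, (r (K + 1) (n + (K + 1)) : ℂ) * q ^ (n + (K + 1)) =
        ∑' n : ℕ, (r K (n + (K + 1)) : ℂ) * q ^ (n + (K + 1)) + q ^ (K + 1) * S := by
      simp_rw [h4]
      rw [Summable.tsum_add, tsum_mul_left]
      · exact (summable_nat_add_iff (K + 1)).mpr (summable_r hq K)
      · exact (summable_r hq (K + 1)).mul_left _
    have h6 : S * (1 - q ^ (K + 1)) = ∑' n : ℕ, (r K n : ℂ) * q ^ n := by
      have e1 : S = ∑ n ∈ Finset.range (K + 1), (r K n : ℂ) * q ^ n +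
          (∑' n : ℕ, (r K (n + (K + 1)) : ℂ) * q ^ (n + (K + 1)) + q ^ (K + 1) * S) := by
        rw [← h5, ← h3]
        exact h1.symm
      rw [← h2]
      linear_combination e1
    rw [Finset.prod_range_succ]
    calc S * ((∏ i ∈ Finset.range K, (1 - q ^ (i + 1))) * (1 - q ^ (K + 1)))
        = (S * (1 - q ^ (K + 1))) * ∏ i ∈ Finset.range K, (1 - q ^ (i + 1)) := by ring
      _ = 1 := by rw [h6]; exact ih

end GFx

open GFx

theorem euler_ne_zero {q : ℂ} (hq : ‖q‖ < 1) : euler q ≠ 0 := by
  unfold euler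
  have h : ∀ n : ℕ, 1 + -q ^ (n + 1) ≠ 0 := by
    intro n h0
    have h1 : q ^ (n + 1) = 1 := by linear_combination -h0
    have h2 : ‖q ^ (n + 1)‖ < 1 := by
      rw [norm_pow]
      exact pow_lt_one₀ (norm_nonneg _) hq (by omega)
    rw [h1, norm_one] at h2
    exact lt_irrefl _ h2
  have hs : Summable (fun n : ℕ => ‖-q ^ (n + 1)‖) := by
    simp_rw [norm_neg, norm_pow]
    exact (summable_nat_add_iff 1).mpr (summable_geometric_of_lt_one (norm_nonneg _) hq)
  have := tprod_one_add_ne_zero_of_summable (f := fun n : ℕ => -q ^ (n + 1)) h hs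
  simpa [sub_eq_add_neg] using this

/-- generating function of the partition numbers (analytic version) -/
theorem hasSum_pc {q : ℂ} (hq : ‖q‖ < 1) :
    HasSum (fun n : ℕ => (pc n : ℂ) * q ^ n) (euler q)⁻¹ := by
  have hs : Summable (fun n : ℕ => (pc n : ℂ) * q ^ n) := by
    apply Summable.of_norm
    refine (summable_pc (norm_nonneg q) hq).congr (fun n => ?_)
    rw [norm_mul, norm_pow, Complex.norm_natCast]
  have h1 : Filter.Tendsto (fun K : ℕ => ∑' n : ℕ, (r K n : ℂ) * q ^ n) Filter.atTop
      (nhds (∑' n : ℕ, (pc n : ℂ) * q ^ n)) := by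
    apply tendsto_tsum_of_dominated_convergence (bound := fun n => (pc n : ℝ) * ‖q‖ ^ n)
      (summable_pc (norm_nonneg q) hq)
    · intro n
      apply tendsto_const_nhds.congr'
      filter_upwards [Filter.eventually_ge_atTop n] with K hK
      rw [r_eq_pc hK]
    · refine Filter.Eventually.of_forall fun K n => ?_
      rw [norm_mul, norm_pow, Complex.norm_natCast]
      exact mul_le_mul_of_nonneg_right (by exact_mod_cast r_le_pc K n) (by positivity)
  have h2 : Filter.Tendsto (fun K : ℕ => ∏ i ∈ Finset.range K, (1 - q ^ (i + 1))) Filter.atTop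
      (nhds (euler q)) :=
    (ModularForm.multipliable_one_sub_pow hq).hasProd.tendsto_prod_nat
  have h3 : (∑' n : ℕ, (pc n : ℂ) * q ^ n) * euler q = 1 := by
    apply tendsto_nhds_unique (h1.mul h2)
    simp_rw [tsum_r hq]
    exact tendsto_const_nhds
  have h4 : (∑' n : ℕ, (pc n : ℂ) * q ^ n) = (euler q)⁻¹ :=
    eq_inv_of_mul_eq_one_left h3
  rw [← h4]
  exact hs.hasSum

theorem Phat_eq {z : ℂ} (hz : 0 < z.re) :
    HasSum (fun n : ℕ => (pc n : ℂ) * cexp (-(n * z))) (Phat z) := by
  have hq : ‖cexp (-z)‖ < 1 := by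
    rw [Complex.norm_exp, Real.exp_lt_one_iff, Complex.neg_re]
    linarith
  unfold Phat
  convert hasSum_pc hq using 2 with n
  rw [← Complex.exp_nat_mul]
  congr 2
  ring

end PRT
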