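import Mathlib
import Pool.Agent.PRT.GF

namespace PRT

open Complex Metric

/-- the norm of the general term on the vertical line `Re z = y` -/
theorem norm_term_line (n : ℕ) (y θ : ℝ) :
    ‖(pc n : ℂ) * cexp (-(n * ((y : ℂ) + θ * I)))‖ = ‖(pc n : ℂ) * cexp (-(n * (y : ℂ)))‖ := by
  rw [norm_mul, norm_mul, Complex.norm_exp, Complex.norm_exp]
  congr 2
  simp

theorem summable_term_line {y : ℝ} (hy : 0 < y) :
    Summable (fun n : ℕ => ‖(pc n : ℂ) * cexp (-(n * (y : ℂ)))‖) := by
  have h := (Phat_eq (z := (y : ℂ)) (by simpa using hy)).summable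
  exact h.norm

/-- `Phat` is continuous on vertical lines -/
theorem Phat_continuous {y : ℝ} (hy : 0 < y) :
    Continuous (fun θ : ℝ => Phat ((y : ℂ) + θ * I)) := by
  have h : (fun θ : ℝ => Phat ((y : ℂ) + θ * I)) =
      fun θ : ℝ => ∑' n : ℕ, (pc n : ℂ) * cexp (-(n * ((y : ℂ) + θ * I))) := by
    funext θ
    exact ((Phat_eq (z := (y : ℂ) + θ * I) (by simpa using hy)).tsum_eq).symm
  rw [h]
  refine continuous_tsum (u := fun n : ℕ => ‖(pc n : ℂ) * cexp (-(n * (y : ℂ)))‖) ?_
    (summable_term_line hy) ?_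
  · intro n
    fun_prop
  · intro n θ
    rw [norm_term_line]

/-- orthogonality -/
theorem integral_exp_line (m : ℤ) (a : ℝ) :
    ∫ θ : ℝ in a..(a + 2 * Real.pi), cexp ((m : ℂ) * (θ * I)) = if m = 0 then 2 * Real.pi else 0 := by
  split_ifs with h
  · subst h
    simp
  · have hc : (m : ℂ) * I ≠ 0 := mul_ne_zero (by exact_mod_cast h) I_ne_zero
    have := integral_exp_mul_complex (a := a) (b := a + 2 * Real.pi) hc
    have e : (fun θ : ℝ => cexp ((m : ℂ) * (θ * I))) = fun θ : ℝ => cexp ((m : ℂ) * I * θ) := by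
      funext θ
      congr 1
      ring
    rw [e, this]
    have e2 : cexp ((m : ℂ) * I * ((a + 2 * Real.pi : ℝ) : ℂ)) = cexp ((m : ℂ) * I * (a : ℂ)) := by
      have : (m : ℂ) * I * ((a + 2 * Real.pi : ℝ) : ℂ) =
          (m : ℂ) * I * (a : ℂ) + m * (2 * Real.pi * I) := by
        push_cast
        ring
      rw [this, Complex.exp_add, Complex.exp_int_mul_two_pi_mul_I, mul_one]
    rw [e2, sub_self, zero_div]
    simp

/-- coefficient extraction -/
theorem pc_eq_integral (n : ℕ) {y : ℝ} (hy : 0 < y) (a : ℝ) :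
    (pc n : ℂ) = (1 / (2 * Real.pi)) * ∫ θ : ℝ in a..(a + 2 * Real.pi),
      Phat ((y : ℂ) + θ * I) * cexp (n * ((y : ℂ) + θ * I)) := by
  have hpi : (Real.pi : ℂ) ≠ 0 := by exact_mod_cast Real.pi_ne_zero
  set F : ℕ → ℝ → ℂ := fun m θ =>
    (pc m : ℂ) * cexp (-(m * ((y : ℂ) + θ * I))) * cexp (n * ((y : ℂ) + θ * I)) with hF
  have hnorm : ∀ m θ, ‖F m θ‖ = ‖(pc m : ℂ) * cexp (-(m * (y : ℂ)))‖ * Real.exp (n * y) := by
    intro m θ
    rw [hF]
    simp only
    rw [norm_mul, norm_term_line, Complex.norm_exp (n * ((y : ℂ) + θ * I))]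
    congr 2
    simp
  have hsum : HasSum (fun m => ∫ θ : ℝ in a..(a + 2 * Real.pi), F m θ)
      (∫ θ : ℝ in a..(a + 2 * Real.pi),
        Phat ((y : ℂ) + θ * I) * cexp (n * ((y : ℂ) + θ * I))) := by
    refine intervalIntegral.hasSum_integral_of_dominated_convergence
      (fun m _ => ‖(pc m : ℂ) * cexp (-(m * (y : ℂ)))‖ * Real.exp (n * y)) ?_ ?_ ?_ ?_ ?_
    · intro m
      apply Continuous.aestronglyMeasurable
      rw [hF]
      fun_prop
    · intro m
      refine Filter.Eventually.of_forall fun θ _ => ?_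
      rw [hnorm]
    · refine Filter.Eventually.of_forall fun θ _ => ?_
      exact (summable_term_line hy).mul_right _
    · exact intervalIntegrable_const
    · refine Filter.Eventually.of_forall fun θ _ => ?_
      rw [hF]
      exact (Phat_eq (z := (y : ℂ) + θ * I) (by simpa using hy)).mul_right _
  have hval : ∀ m, (∫ θ : ℝ in a..(a + 2 * Real.pi), F m θ) =
      if m = n then (pc n : ℂ) * (2 * Real.pi) else 0 := by
    intro m
    have e : (fun θ : ℝ => F m θ) = fun θ : ℝ =>
        ((pc m : ℂ) * cexp ((((n : ℤ) - (m : ℤ) : ℤ) : ℂ) * (y : ℂ))) *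
          cexp ((((n : ℤ) - (m : ℤ) : ℤ) : ℂ) * (θ * I)) := by
      funext θ
      rw [hF]
      simp only
      rw [mul_assoc, mul_assoc, ← Complex.exp_add, ← Complex.exp_add]
      congr 2
      push_cast
      ring
    rw [e, intervalIntegral.integral_const_mul, integral_exp_line]
    by_cases h : m = n
    · subst h
      simp
    · have h2 : ((n : ℤ) - (m : ℤ)) ≠ 0 := by
        intro h3
        apply h
        omega
      rw [if_neg h2, if_neg h]
      simp
  have h1 := hsum.tsum_eq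
  have h2 : ∑' m, (∫ θ : ℝ in a..(a + 2 * Real.pi), F m θ) = (pc n : ℂ) * (2 * Real.pi) := by
    rw [tsum_congr hval, tsum_ite_eq]
  rw [h2] at h1
  rw [← h1]
  field_simp

end PRT
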