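import Mathlib
import Pool.Agent.PRT.GF

namespace PRT

open Complex Metric

theorem Phat_near_one : ∃ K : ℝ, 0 < K ∧ ∀ w : ℂ, 1 ≤ w.re →
    ‖Phat w - 1‖ ≤ K * Real.exp (-w.re) := by
  have h1 : Summable (fun n : ℕ => (pc n : ℝ) * Real.exp (-(n : ℝ))) := by
    have h := (Phat_eq (z := 1) (by simp)).summable.norm
    refine h.congr ?_
    intro n
    rw [norm_mul, Complex.norm_exp, Complex.norm_natCast]
    simp
  have h2 : Summable (fun n : ℕ => (pc (n + 1) : ℝ) * Real.exp (-(n : ℝ))) := by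
    have h := ((summable_nat_add_iff 1).2 h1).mul_right (Real.exp 1)
    refine h.congr ?_
    intro n
    rw [mul_assoc, ← Real.exp_add]
    congr 2
    push_cast
    ring
  have hnn : ∀ n : ℕ, 0 ≤ (pc (n + 1) : ℝ) * Real.exp (-(n : ℝ)) := fun n => by positivity
  refine ⟨(∑' n : ℕ, (pc (n + 1) : ℝ) * Real.exp (-(n : ℝ))) + 1,
    by
      have h0 : 0 ≤ ∑' n : ℕ, (pc (n + 1) : ℝ) * Real.exp (-(n : ℝ)) := tsum_nonneg hnn
      linarith, ?_⟩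
  intro w hw
  have hP := Phat_eq (z := w) (by linarith)
  have hpc0 : pc 0 = 1 := by simp [pc]
  have hP' : HasSum (fun n : ℕ => (pc (n + 1) : ℂ) * cexp (-(((n + 1 : ℕ) : ℂ) * w)))
      (Phat w - 1) := by
    have := (hasSum_nat_add_iff' 1).2 hP
    simpa [hpc0] using this
  have hb : ∀ n : ℕ, ‖(pc (n + 1) : ℂ) * cexp (-(((n + 1 : ℕ) : ℂ) * w))‖
      ≤ ((pc (n + 1) : ℝ) * Real.exp (-(n : ℝ))) * Real.exp (-w.re) := by
    intro n
    rw [norm_mul, Complex.norm_exp, Complex.norm_natCast, mul_assoc, ← Real.exp_add]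
    refine mul_le_mul_of_nonneg_left (Real.exp_le_exp.2 ?_) (by positivity)
    have : ((((n + 1 : ℕ) : ℂ) * w)).re = ((n : ℝ) + 1) * w.re := by
      simp
    rw [Complex.neg_re, this]
    nlinarith [(Nat.cast_nonneg n : (0 : ℝ) ≤ n)]
  calc ‖Phat w - 1‖ ≤ ∑' n : ℕ, ((pc (n + 1) : ℝ) * Real.exp (-(n : ℝ))) * Real.exp (-w.re) :=
        hP'.norm_le_of_bounded (h2.mul_right _).hasSum hb
    _ = (∑' n : ℕ, (pc (n + 1) : ℝ) * Real.exp (-(n : ℝ))) * Real.exp (-w.re) := tsum_mul_right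
    _ ≤ ((∑' n : ℕ, (pc (n + 1) : ℝ) * Real.exp (-(n : ℝ))) + 1) * Real.exp (-w.re) := by
        have := Real.exp_pos (-w.re)
        nlinarith

/-- the Euler product is `1 + O(q)` -/
theorem euler_near_one_aux {q : ℂ} (hq : ‖q‖ ≤ 1 / 4) : ‖euler q - 1‖ ≤ 4 * ‖q‖ := by
  have hq1 : ‖q‖ < 1 := by linarith
  have hs : Summable (fun n : ℕ => ‖-(q ^ (n + 1))‖) := by
    have := (summable_geometric_of_lt_one (norm_nonneg q) hq1).mul_left ‖q‖
    refine this.congr ?_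
    intro n
    rw [norm_neg, norm_pow, pow_succ]
    ring
  have hm : Multipliable (fun n : ℕ => 1 + -(q ^ (n + 1))) := by
    exact multipliable_one_add_of_summable hs
  have he : euler q = ∏' n : ℕ, (1 + -(q ^ (n + 1))) := by
    unfold euler
    congr 1
  have ht := hm.hasProd.tendsto_prod_nat
  rw [← he] at ht
  have hsum : ∀ N : ℕ, ∑ i ∈ Finset.range N, ‖-(q ^ (i + 1))‖ ≤ 2 * ‖q‖ := by
    intro N
    have h0 : ∑' n : ℕ, ‖-(q ^ (n + 1))‖ = ‖q‖ * (1 - ‖q‖)⁻¹ := by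
      have h := tsum_geometric_of_lt_one (norm_nonneg q) hq1
      rw [← h, ← tsum_mul_left]
      congr 1
      ext n
      rw [norm_neg, norm_pow, pow_succ]
      ring
    have h2 : (1 - ‖q‖)⁻¹ ≤ 2 := by
      rw [inv_le_comm₀ (by linarith) (by norm_num)]
      linarith
    calc ∑ i ∈ Finset.range N, ‖-(q ^ (i + 1))‖ ≤ ∑' n : ℕ, ‖-(q ^ (n + 1))‖ :=
          hs.sum_le_tsum _ (fun _ _ => norm_nonneg _)
      _ = ‖q‖ * (1 - ‖q‖)⁻¹ := h0
      _ ≤ ‖q‖ * 2 := mul_le_mul_of_nonneg_left h2 (norm_nonneg q)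
      _ = 2 * ‖q‖ := by ring
  have hexp : ∀ s : ℝ, 0 ≤ s → s ≤ 1 / 2 → Real.exp s - 1 ≤ 2 * s := by
    intro s h0 h1
    have h := Real.abs_exp_sub_one_le (x := s) (by rw [abs_of_nonneg h0]; linarith)
    rw [abs_of_nonneg h0] at h
    exact le_trans (le_abs_self _) h
  refine le_of_tendsto (((ht.sub_const 1)).norm) (Filter.Eventually.of_forall ?_)
  intro N
  calc ‖∏ i ∈ Finset.range N, (1 + -(q ^ (i + 1))) - 1‖
      ≤ Real.exp (∑ i ∈ Finset.range N, ‖-(q ^ (i + 1))‖) - 1 :=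
        Finset.norm_prod_one_add_sub_one_le _ _
    _ ≤ Real.exp (2 * ‖q‖) - 1 := by
        have := Real.exp_le_exp.2 (hsum N)
        linarith
    _ ≤ 2 * (2 * ‖q‖) := hexp _ (by positivity) (by linarith)
    _ = 4 * ‖q‖ := by ring

theorem W_near_one : ∃ K : ℝ, 0 < K ∧ ∀ w : ℂ, 3 ≤ w.re →
    ‖Phat (2 * w) ^ 3 / (Phat (4 * w) * Phat w) - 1‖ ≤ K * Real.exp (-w.re) := by
  obtain ⟨K, hK, hP⟩ := Phat_near_one
  obtain ⟨M, hM⟩ : ∃ M : ℝ, M = K + 4 := ⟨_, rfl⟩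
  have hM0 : 0 < M := by rw [hM]; linarith
  refine ⟨M * (3 * (1 + M) ^ 2 * (1 + M) ^ 2 + (1 + M) + 1), by positivity, ?_⟩
  intro w hw
  obtain ⟨t, ht⟩ : ∃ t : ℝ, t = Real.exp (-w.re) := ⟨_, rfl⟩
  have ht0 : 0 < t := by rw [ht]; exact Real.exp_pos _
  have ht4 : t ≤ 1 / 4 := by
    have h1 : (4 : ℝ) ≤ Real.exp w.re := by
      have := Real.add_one_le_exp w.re
      linarith
    rw [ht, Real.exp_neg, inv_le_comm₀ (Real.exp_pos _) (by norm_num)]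
    simpa using h1
  have ht1 : t ≤ 1 := by linarith
  have hE : ∀ z : ℂ, w.re ≤ z.re → ‖euler (cexp (-z)) - 1‖ ≤ M * t := by
    intro z hz
    have hn : ‖cexp (-z)‖ ≤ t := by
      rw [Complex.norm_exp, ht, Complex.neg_re]
      exact Real.exp_le_exp.2 (by linarith)
    have := euler_near_one_aux (q := cexp (-z)) (by linarith)
    nlinarith
  have ha : ‖Phat (2 * w) - 1‖ ≤ M * t := by
    have h1 : (2 * w).re = 2 * w.re := by simp
    have h2 := hP (2 * w) (by rw [h1]; linarith)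
    have h3 : Real.exp (-(2 * w).re) ≤ t := by
      rw [h1, ht]
      exact Real.exp_le_exp.2 (by linarith)
    nlinarith
  have h4 := hE (4 * w) (by
    have h1 : (4 * w).re = 4 * w.re := by simp
    rw [h1]; linarith)
  have h1 := hE w le_rfl
  have hq : Phat (2 * w) ^ 3 / (Phat (4 * w) * Phat w)
      = Phat (2 * w) ^ 3 * (euler (cexp (-(4 * w))) * euler (cexp (-w))) := by
    rw [show Phat (4 * w) = (euler (cexp (-(4 * w))))⁻¹ from rfl,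
      show Phat w = (euler (cexp (-w)))⁻¹ from rfl, ← mul_inv, div_inv_eq_mul]
  rw [hq, ← ht]
  generalize Phat (2 * w) = a at ha ⊢
  generalize euler (cexp (-(4 * w))) = b at h4 ⊢
  generalize euler (cexp (-w)) = c at h1 ⊢
  have hn : ∀ x : ℂ, ‖x - 1‖ ≤ M * t → ‖x‖ ≤ 1 + M := by
    intro x hx
    calc ‖x‖ = ‖1 + (x - 1)‖ := by ring_nf
      _ ≤ ‖(1 : ℂ)‖ + ‖x - 1‖ := norm_add_le _ _
      _ ≤ 1 + M * t := by rw [norm_one]; linarith
      _ ≤ 1 + M := by nlinarith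
  have hna := hn a ha
  have hnb := hn b h4
  have hnc := hn c h1
  have hM1 : 1 ≤ 1 + M := by linarith
  have ha3 : ‖a ^ 3 - 1‖ ≤ M * t * (3 * (1 + M) ^ 2) := by
    have : a ^ 3 - 1 = (a - 1) * (a ^ 2 + a + 1) := by ring
    rw [this, norm_mul]
    refine mul_le_mul ha ?_ (norm_nonneg _) (by positivity)
    calc ‖a ^ 2 + a + 1‖ ≤ ‖a ^ 2 + a‖ + ‖(1 : ℂ)‖ := norm_add_le _ _
      _ ≤ ‖a ^ 2‖ + ‖a‖ + ‖(1 : ℂ)‖ := by gcongr; exact norm_add_le _ _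
      _ = ‖a‖ ^ 2 + ‖a‖ + 1 := by rw [norm_pow, norm_one]
      _ ≤ (1 + M) ^ 2 + (1 + M) + 1 := by gcongr
      _ ≤ 3 * (1 + M) ^ 2 := by nlinarith
  have hsplit : a ^ 3 * (b * c) - 1 = (a ^ 3 - 1) * (b * c) + (b - 1) * c + (c - 1) := by ring
  rw [hsplit]
  calc ‖(a ^ 3 - 1) * (b * c) + (b - 1) * c + (c - 1)‖
      ≤ ‖(a ^ 3 - 1) * (b * c) + (b - 1) * c‖ + ‖c - 1‖ := norm_add_le _ _
    _ ≤ ‖(a ^ 3 - 1) * (b * c)‖ + ‖(b - 1) * c‖ + ‖c - 1‖ := by gcongr; exact norm_add_le _ _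
    _ = ‖a ^ 3 - 1‖ * (‖b‖ * ‖c‖) + ‖b - 1‖ * ‖c‖ + ‖c - 1‖ := by simp only [norm_mul]
    _ ≤ M * t * (3 * (1 + M) ^ 2) * ((1 + M) * (1 + M)) + M * t * (1 + M) + M * t := by
        gcongr
    _ = M * (3 * (1 + M) ^ 2 * (1 + M) ^ 2 + (1 + M) + 1) * t := by ring

end PRT
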