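import Mathlib
import Pool.Agent.PRT.Defs
import Pool.Agent.H27.A1

namespace PRT

open Complex Metric

private theorem inv_ne {y : ℝ} (hy : 0 < y) (θ : ℝ) : ((y : ℂ) + θ * I) ∈ slitPlane := by
  left
  simpa using hy

private theorem inv_re (y θ : ℝ) : ((y : ℂ) + θ * I).re = y := by simp

private theorem inv_im (y θ : ℝ) : ((y : ℂ) + θ * I).im = θ := by simp

private theorem inv_lower {y : ℝ} (hy : 0 < y) (θ : ℝ) :
    min 1 y / 2 * (1 + ‖θ‖) ≤ ‖(y : ℂ) + θ * I‖ := by
  have h1 : |y| ≤ ‖(y : ℂ) + θ * I‖ := by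
    have := Complex.abs_re_le_norm ((y : ℂ) + θ * I)
    rwa [inv_re] at this
  have h2 : |θ| ≤ ‖(y : ℂ) + θ * I‖ := by
    have := Complex.abs_im_le_norm ((y : ℂ) + θ * I)
    rwa [inv_im] at this
  rw [abs_of_pos hy] at h1
  rw [Real.norm_eq_abs]
  have h3 : min 1 y ≤ y := min_le_right _ _
  have h4 : min 1 y * |θ| ≤ |θ| := by
    have := mul_le_mul_of_nonneg_right (min_le_left 1 y) (abs_nonneg θ)
    linarith
  nlinarith

private theorem inv_cont {s x y : ℝ} (hy : 0 < y) :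
    Continuous (fun θ : ℝ => ((y : ℂ) + θ * I) ^ (-(s : ℂ)) * cexp (x * ((y : ℂ) + θ * I))) := by
  have h0 : Continuous (fun θ : ℝ => (y : ℂ) + θ * I) := by fun_prop
  refine Continuous.mul ?_ (by fun_prop)
  exact h0.cpow continuous_const (fun θ => inv_ne hy θ)

private theorem inv_norm {s x y θ : ℝ} :
    ‖((y : ℂ) + θ * I) ^ (-(s : ℂ)) * cexp (x * ((y : ℂ) + θ * I))‖ =
      ‖(y : ℂ) + θ * I‖ ^ (-s) * Real.exp (x * y) := by
  rw [norm_mul, ← ofReal_neg, Complex.norm_cpow_real, Complex.norm_exp]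
  congr 2
  rw [re_ofReal_mul, inv_re]

theorem invLaplace_integrable {s x y : ℝ} (hs : 1 < s) (hy : 0 < y) :
    MeasureTheory.Integrable
      (fun θ : ℝ => ((y : ℂ) + θ * I) ^ (-(s : ℂ)) * cexp (x * ((y : ℂ) + θ * I))) := by
  have hm : 0 < min 1 y / 2 := by
    have : 0 < min 1 y := lt_min one_pos hy
    linarith
  have h1 : MeasureTheory.Integrable (fun θ : ℝ => (1 + ‖θ‖) ^ (-s)) :=
    integrable_one_add_norm (by simpa using hs)
  refine MeasureTheory.Integrable.mono'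
    (h1.const_mul ((min 1 y / 2) ^ (-s) * Real.exp (x * y))) (inv_cont hy).aestronglyMeasurable ?_
  refine Filter.Eventually.of_forall fun θ => ?_
  rw [inv_norm]
  have h2 := inv_lower hy θ
  have h3 : 0 < 1 + ‖θ‖ := by positivity
  have h4 : ‖(y : ℂ) + θ * I‖ ^ (-s) ≤ (min 1 y / 2 * (1 + ‖θ‖)) ^ (-s) :=
    Real.rpow_le_rpow_of_nonpos (mul_pos hm h3) h2 (by linarith)
  rw [Real.mul_rpow hm.le h3.le] at h4
  calc ‖(y : ℂ) + θ * I‖ ^ (-s) * Real.exp (x * y)
      ≤ ((min 1 y / 2) ^ (-s) * (1 + ‖θ‖) ^ (-s)) * Real.exp (x * y) :=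
        mul_le_mul_of_nonneg_right h4 (Real.exp_pos _).le
    _ = _ := by ring

/-- the function with the Fourier transform in question -/
private noncomputable def invf (s y : ℝ) : ℝ → ℂ :=
  Set.indicator (Set.Ioi 0) (fun t : ℝ => (t : ℂ) ^ ((s : ℂ) - 1) * cexp (-((y : ℂ) * t)))

private theorem invf_int {s y : ℝ} (hs : 1 < s) (hy : 0 < y) :
    MeasureTheory.Integrable (invf s y) := by
  unfold invf
  rw [MeasureTheory.integrable_indicator_iff measurableSet_Ioi]
  refine Pool.Agent.H27.integrableOn_cpow_exp ?_ ?_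
  · rw [ofReal_re]
    linarith
  · rw [ofReal_re]
    exact hy

private theorem invf_fourier {s y : ℝ} (hs : 1 < s) (hy : 0 < y) (ξ : ℝ) :
    FourierTransform.fourier (invf s y) ξ =
      ((y : ℂ) + ((2 * Real.pi * ξ : ℝ) : ℂ) * I) ^ (-(s : ℂ)) * Complex.Gamma s := by
  rw [Real.fourier_real_eq_integral_exp_smul]
  have h1 : (fun v : ℝ => cexp (((-2 * Real.pi * v * ξ : ℝ) : ℂ) * I) • invf s y v) =
      Set.indicator (Set.Ioi 0) (fun t : ℝ => (t : ℂ) ^ ((s : ℂ) - 1) *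
        cexp (-(((y : ℂ) + ((2 * Real.pi * ξ : ℝ) : ℂ) * I) * t))) := by
    funext v
    unfold invf
    by_cases hv : v ∈ Set.Ioi (0 : ℝ)
    · rw [Set.indicator_of_mem hv, Set.indicator_of_mem hv, smul_eq_mul, mul_left_comm,
        ← Complex.exp_add]
      congr 2
      push_cast
      ring
    · rw [Set.indicator_of_notMem hv, Set.indicator_of_notMem hv, smul_zero]
  rw [h1, MeasureTheory.integral_indicator measurableSet_Ioi]
  refine Pool.Agent.H27.laplace_eq ?_ ?_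
  · rw [ofReal_re]
    linarith
  · rw [inv_re]
    exact hy

/-- inverse Laplace transform of a power -/
theorem invLaplace {s x y : ℝ} (hs : 1 < s) (hx : 0 < x) (hy : 0 < y) :
    (1 / (2 * Real.pi) : ℂ) * ∫ θ : ℝ, ((y : ℂ) + θ * I) ^ (-(s : ℂ)) * cexp (x * ((y : ℂ) + θ * I))
      = ((x ^ (s - 1) / Real.Gamma s : ℝ) : ℂ) := by
  have hpi : (0 : ℝ) < 2 * Real.pi := by positivity
  -- Fourier transform is integrable
  have hF : MeasureTheory.Integrable (FourierTransform.fourier (invf s y)) := by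
    have h1 : MeasureTheory.Integrable
        (fun θ : ℝ => ((y : ℂ) + θ * I) ^ (-(s : ℂ)) * cexp ((0 : ℝ) * ((y : ℂ) + θ * I))) :=
      invLaplace_integrable hs hy
    have h2 := (h1.comp_mul_left' hpi.ne').mul_const (Complex.Gamma s)
    refine h2.congr (Filter.Eventually.of_forall fun ξ => ?_)
    simp only
    rw [invf_fourier hs hy, ofReal_zero, zero_mul, Complex.exp_zero, mul_one]
  have hc : ContinuousAt (invf s y) x := by
    have h1 : ContinuousAt (fun t : ℝ => (t : ℂ) ^ ((s : ℂ) - 1) * cexp (-((y : ℂ) * t))) x := by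
      refine ContinuousAt.mul ?_ (by fun_prop)
      exact continuousAt_ofReal_cpow_const _ _ (Or.inr hx.ne')
    refine h1.congr ?_
    filter_upwards [Ioi_mem_nhds hx] with t ht
    unfold invf
    rw [Set.indicator_of_mem ht]
  have hinv := (invf_int hs hy).fourierInv_fourier_eq hF hc
  rw [Real.fourierInv_eq'] at hinv
  have hG : Complex.Gamma s ≠ 0 := by
    apply Complex.Gamma_ne_zero_of_re_pos
    rw [ofReal_re]
    linarith
  -- rewrite the integrand
  have h1 : ∀ v : ℝ, cexp (((2 * Real.pi * inner ℝ v x : ℝ) : ℂ) * I) •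
      FourierTransform.fourier (invf s y) v =
      (fun θ : ℝ => ((y : ℂ) + θ * I) ^ (-(s : ℂ)) * cexp (x * ((y : ℂ) + θ * I))) (2 * Real.pi * v) *
        (Complex.Gamma s * cexp (-((x : ℂ) * y))) := by
    intro v
    rw [invf_fourier hs hy, smul_eq_mul]
    have e1 : (inner ℝ v x : ℝ) = x * v := by
      simp
    rw [e1]
    have e2 : cexp ((x : ℂ) * ((y : ℂ) + ((2 * Real.pi * v : ℝ) : ℂ) * I)) =
        cexp (((2 * Real.pi * (x * v) : ℝ) : ℂ) * I) * cexp ((x : ℂ) * y) := by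
      rw [← Complex.exp_add]
      congr 1
      push_cast
      ring
    have e3 : cexp ((x : ℂ) * y) * cexp (-((x : ℂ) * y)) = 1 := by
      rw [← Complex.exp_add, add_neg_cancel, Complex.exp_zero]
    simp only
    rw [e2]
    linear_combination (-(cexp (((2 * Real.pi * (x * v) : ℝ) : ℂ) * I) *
      ((y : ℂ) + ((2 * Real.pi * v : ℝ) : ℂ) * I) ^ (-(s : ℂ)) * Complex.Gamma s)) * e3
  rw [MeasureTheory.integral_congr_ae (Filter.Eventually.of_forall h1),
    MeasureTheory.integral_mul_const] at hinv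
  have h2 := MeasureTheory.Measure.integral_comp_mul_left
    (fun θ : ℝ => ((y : ℂ) + θ * I) ^ (-(s : ℂ)) * cexp (x * ((y : ℂ) + θ * I))) (2 * Real.pi)
  rw [h2] at hinv
  have h3 : invf s y x = (x : ℂ) ^ ((s : ℂ) - 1) * cexp (-((y : ℂ) * x)) := by
    unfold invf
    rw [Set.indicator_of_mem (Set.mem_Ioi.2 hx)]
  rw [h3, abs_of_pos (inv_pos.2 hpi), real_smul] at hinv
  set J : ℂ := ∫ θ : ℝ, ((y : ℂ) + θ * I) ^ (-(s : ℂ)) * cexp (x * ((y : ℂ) + θ * I)) with hJ
  have e3 : cexp (-((x : ℂ) * y)) ≠ 0 := Complex.exp_ne_zero _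
  have e4 : cexp (-((y : ℂ) * x)) = cexp (-((x : ℂ) * y)) := by
    congr 1
    ring
  rw [e4] at hinv
  have h5 : ((2 * Real.pi)⁻¹ : ℝ) * J * Complex.Gamma s = (x : ℂ) ^ ((s : ℂ) - 1) := by
    apply mul_right_cancel₀ e3
    rw [← hinv]
    ring
  have h6 : ((x ^ (s - 1) / Real.Gamma s : ℝ) : ℂ) = (x : ℂ) ^ ((s : ℂ) - 1) / Complex.Gamma s := by
    push_cast
    rw [← Complex.Gamma_ofReal, ofReal_cpow hx.le]
    push_cast
    rfl
  rw [h6, eq_div_iff hG, ← h5]
  push_cast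
  ring

end PRT
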