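import Mathlib
import Pool.Agent.PRT.INV

namespace PRT

open Complex Metric MeasureTheory Set

theorem seg_ne {y : ℝ} (hy : 0 < y) (θ : ℝ) : ((y : ℂ) + θ * I) ≠ 0 := by
  intro h
  have := congrArg Complex.re h
  simp at this
  linarith

theorem seg_slit {y : ℝ} (hy : 0 < y) (θ : ℝ) : ((y : ℂ) + θ * I) ∈ slitPlane := by
  rw [mem_slitPlane_iff]
  left
  simpa using hy

theorem seg_norm_ge (y θ : ℝ) : |θ| ≤ ‖(y : ℂ) + θ * I‖ := by
  have := Complex.abs_im_le_norm ((y : ℂ) + θ * I)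
  simpa using this

theorem seg_norm_ge' {y : ℝ} (hy : 0 < y) (θ : ℝ) : y ≤ ‖(y : ℂ) + θ * I‖ := by
  have := Complex.abs_re_le_norm ((y : ℂ) + θ * I)
  have h2 : |y| ≤ ‖(y : ℂ) + θ * I‖ := by simpa using this
  rwa [abs_of_pos hy] at h2

theorem seg_norm_le {y : ℝ} (hy : 0 < y) (θ : ℝ) : ‖(y : ℂ) + θ * I‖ ≤ y + |θ| := by
  calc ‖(y : ℂ) + θ * I‖ ≤ ‖(y : ℂ)‖ + ‖(θ : ℂ) * I‖ := norm_add_le _ _
    _ = y + |θ| := by
      rw [norm_mul, Complex.norm_I, Complex.norm_real, Complex.norm_real, mul_one,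
        Real.norm_eq_abs, Real.norm_eq_abs, abs_of_pos hy]

theorem seg_norm_exp (x y θ : ℝ) : ‖cexp (x * ((y : ℂ) + θ * I))‖ = Real.exp (x * y) := by
  rw [Complex.norm_exp]
  congr 1
  simp

theorem seg_norm_cpow (y θ α : ℝ) : ‖((y : ℂ) + θ * I) ^ (α : ℂ)‖ = ‖(y : ℂ) + θ * I‖ ^ α :=
  Complex.norm_cpow_real _ _

/-- the integrand -/
noncomputable def segf (x y α θ : ℝ) : ℂ :=
  ((y : ℂ) + θ * I) ^ (α : ℂ) * cexp (x * ((y : ℂ) + θ * I))

theorem segf_norm (x y α θ : ℝ) :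
    ‖segf x y α θ‖ = ‖(y : ℂ) + θ * I‖ ^ α * Real.exp (x * y) := by
  rw [segf, norm_mul, seg_norm_cpow, seg_norm_exp]

theorem segf_norm_le {x y α θ : ℝ} (hθ : θ ≠ 0) (hα : α ≤ 0) :
    ‖segf x y α θ‖ ≤ |θ| ^ α * Real.exp (x * y) := by
  rw [segf_norm]
  exact mul_le_mul_of_nonneg_right
    (Real.rpow_le_rpow_of_nonpos (abs_pos.2 hθ) (seg_norm_ge y θ) hα) (Real.exp_pos _).le

theorem segf_continuous {x y α : ℝ} (hy : 0 < y) : Continuous (segf x y α) := by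
  unfold segf
  apply Continuous.mul
  · apply Continuous.cpow (by fun_prop) continuous_const
    intro θ
    exact seg_slit hy θ
  · fun_prop

theorem segf_intervalIntegrable {x y α a b : ℝ} (hy : 0 < y) :
    IntervalIntegrable (segf x y α) volume a b :=
  (segf_continuous hy).intervalIntegrable _ _

/-- truncation of the inversion integral -/
theorem seg_tail {s x y T : ℝ} (hs : 1 < s) (hx : 0 < x) (hy : 0 < y) (hT : 0 < T) :
    ‖(∫ θ in (-T)..T, segf x y (-s) θ) - ((2 * Real.pi * (x ^ (s - 1) / Real.Gamma s) : ℝ) : ℂ)‖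
      ≤ 2 * Real.exp (x * y) * (T ^ (1 - s) / (s - 1)) := by
  have hint : Integrable (segf x y (-s)) := by
    have := invLaplace_integrable (s := s) (x := x) (y := y) hs hy
    refine this.congr ?_
    filter_upwards with θ
    simp [segf]
  have hfull : ∫ θ, segf x y (-s) θ = ((2 * Real.pi * (x ^ (s - 1) / Real.Gamma s) : ℝ) : ℂ) := by
    have h := invLaplace (s := s) (x := x) (y := y) hs hx hy
    have hpi : (Real.pi : ℂ) ≠ 0 := by exact_mod_cast Real.pi_ne_zero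
    have h2 : ∫ θ : ℝ, ((y : ℂ) + θ * I) ^ (-(s : ℂ)) * cexp (x * ((y : ℂ) + θ * I))
        = ∫ θ, segf x y (-s) θ := by
      congr 1
      ext θ
      simp [segf]
    rw [h2] at h
    have h3 : ∫ θ, segf x y (-s) θ
        = (2 * Real.pi : ℂ) * ((1 / (2 * Real.pi) : ℂ) * ∫ θ, segf x y (-s) θ) := by
      field_simp
    rw [h3, h]
    push_cast
    ring
  rw [← hfull, intervalIntegral.integral_of_le (by linarith)]
  have hcompl := integral_add_compl (measurableSet_Ioc (a := -T) (b := T)) hint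
  rw [← hcompl, sub_add_cancel_left, norm_neg]
  have hset : (Ioc (-T) T)ᶜ = Iic (-T) ∪ Ioi T := by
    ext t
    simp only [mem_compl_iff, mem_Ioc, mem_union, mem_Iic, mem_Ioi, not_and_or, not_lt, not_le]
  have hdisj : Disjoint (Iic (-T)) (Ioi T) := by
    rw [Set.disjoint_left]
    intro t ht ht2
    simp only [mem_Iic, mem_Ioi] at ht ht2
    linarith
  have hgint : IntegrableOn (fun t : ℝ => Real.exp (x * y) * t ^ (-s)) (Ioi T) :=
    (integrableOn_Ioi_rpow_of_lt (by linarith) hT).const_mul _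
  have hval : ∫ t in Ioi T, Real.exp (x * y) * t ^ (-s)
      = Real.exp (x * y) * (T ^ (1 - s) / (s - 1)) := by
    rw [integral_const_mul, integral_Ioi_rpow_of_lt (by linarith) hT]
    congr 1
    rw [show -s + 1 = 1 - s by ring, show (1 - s) = -(s - 1) by ring, div_neg, neg_div, neg_neg]
  have hb1 : ∫ t in Ioi T, ‖segf x y (-s) t‖ ≤ Real.exp (x * y) * (T ^ (1 - s) / (s - 1)) := by
    rw [← hval]
    apply setIntegral_mono_on hint.norm.integrableOn hgint measurableSet_Ioi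
    intro t ht
    have ht' : 0 < t := lt_trans hT ht
    have := segf_norm_le (x := x) (y := y) (α := -s) ht'.ne' (by linarith)
    rw [abs_of_pos ht'] at this
    linarith
  have hb2 : ∫ t in Iic (-T), ‖segf x y (-s) t‖ ≤ Real.exp (x * y) * (T ^ (1 - s) / (s - 1)) := by
    have h4 := integral_comp_neg_Iic (-T) (fun t => ‖segf x y (-s) (-t)‖)
    simp only [neg_neg] at h4
    rw [h4, ← hval]
    apply setIntegral_mono_on _ hgint measurableSet_Ioi
    · intro t ht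
      have ht' : 0 < t := lt_trans hT ht
      have := segf_norm_le (x := x) (y := y) (α := -s) (neg_ne_zero.2 ht'.ne') (by linarith)
      rw [abs_neg, abs_of_pos ht'] at this
      linarith
    · exact (hint.norm.comp_neg).integrableOn
  calc ‖∫ t in (Ioc (-T) T)ᶜ, segf x y (-s) t‖
      ≤ ∫ t in (Ioc (-T) T)ᶜ, ‖segf x y (-s) t‖ := norm_integral_le_integral_norm _
    _ = (∫ t in Iic (-T), ‖segf x y (-s) t‖) + ∫ t in Ioi T, ‖segf x y (-s) t‖ := by
      rw [hset, setIntegral_union hdisj measurableSet_Ioi hint.norm.integrableOn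
        hint.norm.integrableOn]
    _ ≤ 2 * Real.exp (x * y) * (T ^ (1 - s) / (s - 1)) := by linarith

theorem segf_hasDerivAt {x y α : ℝ} (hx : 0 < x) (hy : 0 < y) (θ : ℝ) :
    HasDerivAt (fun θ : ℝ => segf x y α θ / (x * I))
      (segf x y α θ + (α / x : ℂ) * segf x y (α - 1) θ) θ := by
  have hxne : (x : ℂ) ≠ 0 := by exact_mod_cast hx.ne'
  have h1 : HasDerivAt (fun w : ℂ => (y : ℂ) + w * I) I (θ : ℂ) := by
    simpa using ((hasDerivAt_id (θ : ℂ)).mul_const I).const_add (y : ℂ)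
  have h2 : HasDerivAt (fun w : ℂ => ((y : ℂ) + w * I) ^ (α : ℂ))
      ((α : ℂ) * ((y : ℂ) + θ * I) ^ ((α : ℂ) - 1) * I) (θ : ℂ) :=
    h1.cpow_const (seg_slit hy θ)
  have h3 : HasDerivAt (fun w : ℂ => cexp (x * ((y : ℂ) + w * I)))
      (cexp (x * ((y : ℂ) + θ * I)) * (x * I)) (θ : ℂ) := (h1.const_mul (x : ℂ)).cexp
  have h4 := ((h2.mul h3).div_const ((x : ℂ) * I)).comp_ofReal
  refine h4.congr_deriv ?_
  unfold segf
  push_cast
  field_simp
  ring

/-- integration by parts on the segment -/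
theorem seg_ibp {x y α T : ℝ} (hx : 0 < x) (hy : 0 < y) :
    (∫ θ in (-T)..T, segf x y α θ) = (segf x y α T - segf x y α (-T)) / (x * I)
      - (α / x : ℂ) * ∫ θ in (-T)..T, segf x y (α - 1) θ := by
  have h := intervalIntegral.integral_eq_sub_of_hasDerivAt (a := -T) (b := T)
    (f := fun θ : ℝ => segf x y α θ / (x * I))
    (f' := fun θ => segf x y α θ + (α / x : ℂ) * segf x y (α - 1) θ)
    (fun θ _ => segf_hasDerivAt hx hy θ)
    ((segf_intervalIntegrable hy).add ((segf_intervalIntegrable hy).const_mul _))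
  rw [intervalIntegral.integral_add (segf_intervalIntegrable hy)
    ((segf_intervalIntegrable hy).const_mul _), intervalIntegral.integral_const_mul] at h
  rw [sub_div, ← h]
  ring

theorem seg_bdry {x y α T M : ℝ} (hx : 1 ≤ x) (hM : ‖segf x y α T‖ ≤ M)
    (hM' : ‖segf x y α (-T)‖ ≤ M) :
    ‖(segf x y α T - segf x y α (-T)) / (x * I)‖ ≤ 2 * M := by
  have h0 : 0 ≤ M := le_trans (norm_nonneg _) hM
  rw [norm_div, norm_mul, Complex.norm_I, mul_one, Complex.norm_real, Real.norm_eq_abs,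
    abs_of_pos (by linarith)]
  rw [div_le_iff₀ (by linarith)]
  have h1 : ‖segf x y α T - segf x y α (-T)‖ ≤ ‖segf x y α T‖ + ‖segf x y α (-T)‖ :=
    norm_sub_le _ _
  nlinarith

theorem seg_J1 {x y T : ℝ} (hx : 1 ≤ x) (hy : 0 < y) (hT : 0 < T) :
    ‖(∫ θ in (-T)..T, segf x y (-(1 / 2)) θ)
        - ((2 * Real.pi * (x ^ (-(1 / 2) : ℝ) / Real.sqrt Real.pi) : ℝ) : ℂ)‖
      ≤ 4 * Real.exp (x * y) * T ^ (-(1 / 2) : ℝ) := by
  have hx0 : 0 < x := by linarith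
  rw [seg_ibp hx0 hy]
  have h1 : ‖(segf x y (-(1 / 2)) T - segf x y (-(1 / 2)) (-T)) / (x * I)‖
      ≤ 2 * (T ^ (-(1 / 2) : ℝ) * Real.exp (x * y)) := by
    apply seg_bdry hx
    · have := segf_norm_le (x := x) (y := y) (α := -(1 / 2)) hT.ne' (by norm_num)
      rwa [abs_of_pos hT] at this
    · have := segf_norm_le (x := x) (y := y) (α := -(1 / 2)) (neg_ne_zero.2 hT.ne') (by norm_num)
      rwa [abs_neg, abs_of_pos hT] at this
  have h2 := seg_tail (s := 3 / 2) (by norm_num) hx0 hy hT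
  have hG : Real.Gamma (3 / 2) = Real.sqrt Real.pi / 2 := by
    rw [show (3 / 2 : ℝ) = 1 / 2 + 1 by norm_num, Real.Gamma_add_one (by norm_num),
      Real.Gamma_one_half_eq]
    ring
  have hsp : 0 < Real.sqrt Real.pi := Real.sqrt_pos.2 Real.pi_pos
  rw [hG, show (3 / 2 - 1 : ℝ) = 1 / 2 by norm_num, show (1 - 3 / 2 : ℝ) = -(1 / 2) by norm_num]
    at h2
  set A : ℂ := ∫ θ in (-T)..T, segf x y (-(3 / 2)) θ with hA
  have hA' : ∫ θ in (-T)..T, segf x y (-(1 / 2) - 1) θ = A := by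
    rw [hA, show (-(1 / 2) - 1 : ℝ) = -(3 / 2) by norm_num]
  rw [hA']
  set B : ℂ := (segf x y (-(1 / 2)) T - segf x y (-(1 / 2)) (-T)) / (x * I) with hB
  have hxr : x ^ (-(1 / 2) : ℝ) = x ^ (1 / 2 : ℝ) / x := by
    rw [show (-(1 / 2) : ℝ) = 1 / 2 - 1 by norm_num, Real.rpow_sub_one hx0.ne']
  have h3 : B - ((-(1 / 2) : ℝ) / x : ℂ) * A
        - ((2 * Real.pi * (x ^ (-(1 / 2) : ℝ) / Real.sqrt Real.pi) : ℝ) : ℂ)
      = B + ((1 / (2 * x) : ℝ) : ℂ) *
        (A - ((2 * Real.pi * (x ^ (1 / 2 : ℝ) / (Real.sqrt Real.pi / 2)) : ℝ) : ℂ)) := by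
    rw [hxr]
    push_cast
    have hxne : (x : ℂ) ≠ 0 := by exact_mod_cast hx0.ne'
    have hspc : (Real.sqrt Real.pi : ℂ) ≠ 0 := by exact_mod_cast hsp.ne'
    field_simp
    ring
  rw [h3]
  have hTr : 0 < T ^ (-(1 / 2) : ℝ) := Real.rpow_pos_of_pos hT _
  have hex := Real.exp_pos (x * y)
  calc ‖B + ((1 / (2 * x) : ℝ) : ℂ) *
        (A - ((2 * Real.pi * (x ^ (1 / 2 : ℝ) / (Real.sqrt Real.pi / 2)) : ℝ) : ℂ))‖
      ≤ ‖B‖ + ‖((1 / (2 * x) : ℝ) : ℂ) *
        (A - ((2 * Real.pi * (x ^ (1 / 2 : ℝ) / (Real.sqrt Real.pi / 2)) : ℝ) : ℂ))‖ :=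
        norm_add_le _ _
    _ ≤ 2 * (T ^ (-(1 / 2) : ℝ) * Real.exp (x * y))
        + (1 / 2) * (2 * Real.exp (x * y) * (T ^ (-(1 / 2) : ℝ) / (1 / 2))) := by
        rw [norm_mul, Complex.norm_real, Real.norm_eq_abs, abs_of_pos (by positivity)]
        gcongr
        linarith
    _ = 4 * Real.exp (x * y) * T ^ (-(1 / 2) : ℝ) := by ring

theorem seg_J0 {x y T : ℝ} (hx : 1 ≤ x) (hy : 0 < y) (hyT : y ≤ T) (hT : T ≤ 4) :
    ‖(∫ θ in (-T)..T, segf x y (1 / 2) θ)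
        - ((2 * Real.pi * (-(1 / 2) * x ^ (-(3 / 2) : ℝ) / Real.sqrt Real.pi) : ℝ) : ℂ)‖
      ≤ 6 * Real.exp (x * y) + 2 * Real.exp (x * y) * T ^ (-(1 / 2) : ℝ) := by
  have hx0 : 0 < x := by linarith
  have hT0 : 0 < T := by linarith
  rw [seg_ibp hx0 hy]
  have hb : ∀ θ : ℝ, |θ| = T → ‖segf x y (1 / 2) θ‖ ≤ 3 * Real.exp (x * y) := by
    intro θ hθ
    rw [segf_norm]
    gcongr
    have h5 := seg_norm_le hy θ
    calc ‖(y : ℂ) + θ * I‖ ^ (1 / 2 : ℝ) ≤ (9 : ℝ) ^ (1 / 2 : ℝ) := by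
          apply Real.rpow_le_rpow (norm_nonneg _) (by linarith) (by norm_num)
      _ = 3 := by
          rw [show (9 : ℝ) = 3 ^ (2 : ℝ) by norm_num, ← Real.rpow_mul (by norm_num)]
          norm_num
  have h1 : ‖(segf x y (1 / 2) T - segf x y (1 / 2) (-T)) / (x * I)‖
      ≤ 2 * (3 * Real.exp (x * y)) := by
    apply seg_bdry hx
    · exact hb T (abs_of_pos hT0)
    · exact hb (-T) (by rw [abs_neg, abs_of_pos hT0])
  have h2 := seg_J1 hx hy hT0
  set A : ℂ := ∫ θ in (-T)..T, segf x y (-(1 / 2)) θ with hA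
  have hA' : ∫ θ in (-T)..T, segf x y (1 / 2 - 1) θ = A := by
    rw [hA, show (1 / 2 - 1 : ℝ) = -(1 / 2) by norm_num]
  rw [hA']
  set B : ℂ := (segf x y (1 / 2) T - segf x y (1 / 2) (-T)) / (x * I) with hB
  have hsp : 0 < Real.sqrt Real.pi := Real.sqrt_pos.2 Real.pi_pos
  have hxr : x ^ (-(3 / 2) : ℝ) = x ^ (-(1 / 2) : ℝ) / x := by
    rw [show (-(3 / 2) : ℝ) = -(1 / 2) - 1 by norm_num, Real.rpow_sub_one hx0.ne']
  have h3 : B - (((1 / 2 : ℝ) : ℂ) / x : ℂ) * A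
        - ((2 * Real.pi * (-(1 / 2) * x ^ (-(3 / 2) : ℝ) / Real.sqrt Real.pi) : ℝ) : ℂ)
      = B - ((1 / (2 * x) : ℝ) : ℂ) *
        (A - ((2 * Real.pi * (x ^ (-(1 / 2) : ℝ) / Real.sqrt Real.pi) : ℝ) : ℂ)) := by
    rw [hxr]
    push_cast
    have hxne : (x : ℂ) ≠ 0 := by exact_mod_cast hx0.ne'
    have hspc : (Real.sqrt Real.pi : ℂ) ≠ 0 := by exact_mod_cast hsp.ne'
    field_simp
    ring
  rw [h3]
  have hTr : 0 < T ^ (-(1 / 2) : ℝ) := Real.rpow_pos_of_pos hT0 _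
  have hex := Real.exp_pos (x * y)
  calc ‖B - ((1 / (2 * x) : ℝ) : ℂ) *
        (A - ((2 * Real.pi * (x ^ (-(1 / 2) : ℝ) / Real.sqrt Real.pi) : ℝ) : ℂ))‖
      ≤ ‖B‖ + ‖((1 / (2 * x) : ℝ) : ℂ) *
        (A - ((2 * Real.pi * (x ^ (-(1 / 2) : ℝ) / Real.sqrt Real.pi) : ℝ) : ℂ))‖ :=
        norm_sub_le _ _
    _ ≤ 2 * (3 * Real.exp (x * y))
        + (1 / 2) * (4 * Real.exp (x * y) * T ^ (-(1 / 2) : ℝ)) := by
        rw [norm_mul, Complex.norm_real, Real.norm_eq_abs, abs_of_pos (by positivity)]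
        gcongr
        linarith
    _ = 6 * Real.exp (x * y) + 2 * Real.exp (x * y) * T ^ (-(1 / 2) : ℝ) := by ring

/-- `1 / Γ(j - 1/2)` -/
noncomputable def gj (j : ℕ) : ℝ :=
  (2 * (j : ℝ) - 1) * 4 ^ j * (j.factorial : ℝ) / (2 * ((2 * j).factorial : ℝ) * Real.sqrt Real.pi)

theorem gj_succ (k : ℕ) : gj (k + 2) * ((k : ℝ) + 1 / 2) = gj (k + 1) := by
  have hsp : 0 < Real.sqrt Real.pi := Real.sqrt_pos.2 Real.pi_pos
  unfold gj
  have h1 : ((k + 2).factorial : ℝ) = (k + 2) * (k + 1).factorial := by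
    rw [Nat.factorial_succ]; push_cast; ring
  have h2 : ((2 * (k + 2)).factorial : ℝ) = (2 * k + 4) * ((2 * k + 3) * (2 * (k + 1)).factorial) := by
    rw [show 2 * (k + 2) = (2 * (k + 1) + 1) + 1 by ring, Nat.factorial_succ, Nat.factorial_succ]
    push_cast
    ring
  rw [h1, h2]
  have h3 : (0 : ℝ) < ((2 * (k + 1)).factorial : ℝ) := by exact_mod_cast Nat.factorial_pos _
  push_cast
  field_simp
  ring

theorem gj_mul (k : ℕ) : gj (k + 1) * Real.Gamma ((k : ℝ) + 1 / 2) = 1 := by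
  induction k with
  | zero =>
    have hsp : 0 < Real.sqrt Real.pi := Real.sqrt_pos.2 Real.pi_pos
    simp only [Nat.cast_zero, zero_add]
    rw [Real.Gamma_one_half_eq]
    unfold gj
    simp [Nat.factorial]
    field_simp
    norm_num
  | succ k ih =>
    have h1 : Real.Gamma ((k : ℝ) + 1 / 2 + 1) = ((k : ℝ) + 1 / 2) * Real.Gamma ((k : ℝ) + 1 / 2) :=
      Real.Gamma_add_one (by positivity)
    have h2 : (((k + 1 : ℕ) : ℝ) + 1 / 2) = (k : ℝ) + 1 / 2 + 1 := by push_cast; ring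
    rw [h2, h1, ← mul_assoc, show k + 1 + 1 = k + 2 by ring, gj_succ, ih]

theorem gj_gamma (k : ℕ) : 1 / Real.Gamma ((k : ℝ) + 3 / 2) = gj (k + 2) := by
  have h := gj_mul (k + 1)
  have h2 : (((k + 1 : ℕ) : ℝ) + 1 / 2) = (k : ℝ) + 3 / 2 := by push_cast; ring
  rw [h2] at h
  have hpos : 0 < Real.Gamma ((k : ℝ) + 3 / 2) := Real.Gamma_pos_of_pos (by positivity)
  rw [div_eq_iff hpos.ne']
  exact h.symm

theorem seg_series {b x : ℝ} (hb : 0 < b) (hx : 0 < x) :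
    HasSum (fun j : ℕ => b ^ j / (j.factorial : ℝ) * (x ^ ((j : ℝ) - 3 / 2) * gj j)) (Sb b x) := by
  set r : ℝ := 2 * Real.sqrt (b * x) with hr
  have hbx : 0 < b * x := by positivity
  have hr2 : r ^ 2 = 4 * (b * x) := by
    rw [hr, mul_pow, Real.sq_sqrt hbx.le]; norm_num
  have hc := Real.hasSum_cosh r
  have hs := Real.hasSum_sinh r
  have hs2 : HasSum (fun j : ℕ => (2 * (j : ℝ)) * (r ^ (2 * j) / ((2 * j).factorial : ℝ)))
      (r * Real.sinh r) := by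
    rw [← hasSum_nat_add_iff' 1]
    simp only [Finset.range_one, Finset.sum_singleton, Nat.cast_zero, mul_zero, zero_mul, sub_zero]
    have h := hs.mul_left r
    refine h.congr_fun ?_
    intro k
    have h1 : ((2 * (k + 1)).factorial : ℝ) = (2 * k + 2) * (2 * k + 1).factorial := by
      rw [show 2 * (k + 1) = (2 * k + 1) + 1 by ring, Nat.factorial_succ]
      push_cast
      ring
    have h3 : (0 : ℝ) < ((2 * k + 1).factorial : ℝ) := by exact_mod_cast Nat.factorial_pos _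
    rw [h1]
    push_cast
    field_simp
    ring
  have hall := (hs2.sub hc).mul_left (x ^ (-(3 / 2) : ℝ) / (2 * Real.sqrt Real.pi))
  have hsp : 0 < Real.sqrt Real.pi := Real.sqrt_pos.2 Real.pi_pos
  have hxs : 0 < Real.sqrt x := Real.sqrt_pos.2 hx
  have hval : x ^ (-(3 / 2) : ℝ) / (2 * Real.sqrt Real.pi) * (r * Real.sinh r - Real.cosh r)
      = Sb b x := by
    unfold Sb
    rw [← hr]
    have h4 : x ^ (-(3 / 2) : ℝ) = 1 / (x * Real.sqrt x) := by
      rw [show (-(3 / 2) : ℝ) = -(1 + 1 / 2) by norm_num, Real.rpow_neg hx.le,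
        Real.rpow_add hx, Real.rpow_one, ← Real.sqrt_eq_rpow, one_div]
    have h5 : r = 2 * (Real.sqrt b * Real.sqrt x) := by
      rw [hr, Real.sqrt_mul hb.le]
    rw [h4]
    have h6 : r * Real.sinh r = 2 * (Real.sqrt b * Real.sqrt x) * Real.sinh r := by
      rw [← h5]
    rw [h6]
    field_simp
  rw [hval] at hall
  refine hall.congr_fun ?_
  intro j
  unfold gj
  have h7 : r ^ (2 * j) = 4 ^ j * (b ^ j * x ^ j) := by
    rw [pow_mul, hr2, mul_pow, mul_pow]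
  have h8 : x ^ ((j : ℝ) - 3 / 2) = x ^ j * x ^ (-(3 / 2) : ℝ) := by
    rw [sub_eq_add_neg, Real.rpow_add hx, Real.rpow_natCast]
  have h9 : (0 : ℝ) < ((2 * j).factorial : ℝ) := by exact_mod_cast Nat.factorial_pos _
  have h10 : (0 : ℝ) < (j.factorial : ℝ) := by exact_mod_cast Nat.factorial_pos _
  rw [h7, h8]
  field_simp

/-- termwise bound -/
theorem seg_term {x y T : ℝ} (hx : 1 ≤ x) (hy : 0 < y) (hyT : y ≤ T) (hT : T ≤ 4) (j : ℕ) :
    ‖(∫ θ in (-T)..T, segf x y (1 / 2 - j) θ)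
        - ((2 * Real.pi * (x ^ ((j : ℝ) - 3 / 2) * gj j) : ℝ) : ℂ)‖
      ≤ Real.exp (x * y) * (4 * T ^ (3 / 2 - (j : ℝ))
        + (if j = 0 then 6 + 2 * T ^ (-(1 / 2) : ℝ) else 0)
        + (if j = 1 then 4 * T ^ (-(1 / 2) : ℝ) else 0)) := by
  have hx0 : 0 < x := by linarith
  have hT0 : 0 < T := by linarith
  have hex := Real.exp_pos (x * y)
  have hsp : 0 < Real.sqrt Real.pi := Real.sqrt_pos.2 Real.pi_pos
  have hTp : 0 < T ^ (3 / 2 - (j : ℝ)) := Real.rpow_pos_of_pos hT0 _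
  match j, hTp with
  | 0, hTp =>
    have h := seg_J0 hx hy hyT hT
    have hg : gj 0 = -(1 / 2) / Real.sqrt Real.pi := by
      unfold gj
      simp
      field_simp
    have h2 : (1 / 2 - ((0 : ℕ) : ℝ)) = 1 / 2 := by simp
    have h3 : (((0 : ℕ) : ℝ) - 3 / 2) = -(3 / 2) := by simp
    rw [h2, h3, hg]
    have h4 : x ^ (-(3 / 2) : ℝ) * (-(1 / 2) / Real.sqrt Real.pi)
        = -(1 / 2) * x ^ (-(3 / 2) : ℝ) / Real.sqrt Real.pi := by ring
    rw [h4]
    simp only [if_true, zero_ne_one, if_false]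
    nlinarith
  | 1, hTp =>
    have h := seg_J1 hx hy hT0
    have hg : gj 1 = 1 / Real.sqrt Real.pi := by
      unfold gj
      simp [Nat.factorial]
      field_simp
      norm_num
    have h2 : (1 / 2 - ((1 : ℕ) : ℝ)) = -(1 / 2) := by norm_num
    have h3 : (((1 : ℕ) : ℝ) - 3 / 2) = -(1 / 2) := by norm_num
    rw [h2, h3, hg]
    have h4 : x ^ (-(1 / 2) : ℝ) * (1 / Real.sqrt Real.pi)
        = x ^ (-(1 / 2) : ℝ) / Real.sqrt Real.pi := by ring
    rw [h4]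
    simp only [if_true, one_ne_zero, if_false]
    nlinarith
  | (k + 2), hTp =>
    have h := seg_tail (s := (k : ℝ) + 3 / 2) (by have : (0:ℝ) ≤ k := k.cast_nonneg; linarith)
      hx0 hy hT0
    have h2 : (1 / 2 - ((k + 2 : ℕ) : ℝ)) = -((k : ℝ) + 3 / 2) := by push_cast; ring
    have h3 : (((k + 2 : ℕ) : ℝ) - 3 / 2) = (k : ℝ) + 3 / 2 - 1 := by push_cast; ring
    have h5 : (3 / 2 - ((k + 2 : ℕ) : ℝ)) = 1 - ((k : ℝ) + 3 / 2) := by push_cast; ring
    rw [h5] at hTp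
    rw [h2, h3, h5, ← gj_gamma k]
    have h4 : x ^ ((k : ℝ) + 3 / 2 - 1) * (1 / Real.Gamma ((k : ℝ) + 3 / 2))
        = x ^ ((k : ℝ) + 3 / 2 - 1) / Real.Gamma ((k : ℝ) + 3 / 2) := by ring
    rw [h4]
    have h6 : k + 2 ≠ 0 := by omega
    have h7 : k + 2 ≠ 1 := by omega
    rw [if_neg h6, if_neg h7]
    refine h.trans ?_
    have hk : (0 : ℝ) ≤ k := k.cast_nonneg
    have h8 : T ^ (1 - ((k : ℝ) + 3 / 2)) / ((k : ℝ) + 3 / 2 - 1)
        ≤ T ^ (1 - ((k : ℝ) + 3 / 2)) / (1 / 2) := by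
      gcongr
      linarith
    calc 2 * Real.exp (x * y) * (T ^ (1 - ((k : ℝ) + 3 / 2)) / ((k : ℝ) + 3 / 2 - 1))
        ≤ 2 * Real.exp (x * y) * (T ^ (1 - ((k : ℝ) + 3 / 2)) / (1 / 2)) := by gcongr
      _ = Real.exp (x * y) * (4 * T ^ (1 - ((k : ℝ) + 3 / 2)) + 0 + 0) := by ring

/-- expansion of the exponential -/
theorem seg_expand {b x y T : ℝ} (hb : 0 < b) (hy : 0 < y) (hT : 0 < T) :
    HasSum (fun j : ℕ => ((b ^ j / (j.factorial : ℝ) : ℝ) : ℂ) *
        ∫ θ in (-T)..T, segf x y (1 / 2 - j) θ)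
      (∫ θ : ℝ in (-T)..T, ((y : ℂ) + θ * I) ^ ((1 : ℂ) / 2)
        * cexp (b / ((y : ℂ) + θ * I)) * cexp (x * ((y : ℂ) + θ * I))) := by
  have h : HasSum (fun j : ℕ => ∫ θ in (-T)..T, ((b ^ j / (j.factorial : ℝ) : ℝ) : ℂ) *
        segf x y (1 / 2 - j) θ)
      (∫ θ : ℝ in (-T)..T, ((y : ℂ) + θ * I) ^ ((1 : ℂ) / 2)
        * cexp (b / ((y : ℂ) + θ * I)) * cexp (x * ((y : ℂ) + θ * I))) := by
    set M : ℝ := (y + T) ^ (1 / 2 : ℝ) * Real.exp (x * y) with hM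
    have hMpos : 0 < M := by positivity
    have hterm : ∀ (j : ℕ) (θ : ℝ), segf x y (1 / 2 - j) θ
        = ((y : ℂ) + θ * I) ^ ((1 : ℂ) / 2) * cexp (x * ((y : ℂ) + θ * I))
          * (1 / ((y : ℂ) + θ * I)) ^ j := by
      intro j θ
      unfold segf
      have hne := seg_ne hy θ
      have h1 : ((1 / 2 - (j : ℝ) : ℝ) : ℂ) = (1 : ℂ) / 2 - (j : ℂ) := by push_cast; ring
      rw [h1, Complex.cpow_sub _ _ hne, Complex.cpow_natCast, div_pow, one_pow]
      ring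
    apply intervalIntegral.hasSum_integral_of_dominated_convergence
      (fun (j : ℕ) (_ : ℝ) => (b / y) ^ j / (j.factorial : ℝ) * M)
    · intro j
      exact (continuous_const.mul (segf_continuous hy)).aestronglyMeasurable
    · intro j
      filter_upwards with θ hθ
      have hθ' : |θ| ≤ T := by
        rw [uIoc_of_le (by linarith)] at hθ
        rw [abs_le]
        exact ⟨hθ.1.le, hθ.2⟩
      have hz := seg_norm_ge' hy θ
      have hz0 : 0 < ‖(y : ℂ) + θ * I‖ := lt_of_lt_of_le hy hz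
      have h1 : ‖segf x y (1 / 2 - j) θ‖ ≤ M * (1 / y) ^ j := by
        rw [hterm, norm_mul, norm_mul, seg_norm_exp, norm_pow, norm_div, norm_one]
        have h2 : ‖((y : ℂ) + θ * I) ^ ((1 : ℂ) / 2)‖ = ‖(y : ℂ) + θ * I‖ ^ (1 / 2 : ℝ) := by
          rw [← seg_norm_cpow]; push_cast; rfl
        rw [h2, hM]
        have h3 : ‖(y : ℂ) + θ * I‖ ≤ y + T := (seg_norm_le hy θ).trans (by linarith)
        gcongr
      rw [norm_mul, Complex.norm_real, Real.norm_eq_abs, abs_of_nonneg (by positivity)]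
      calc b ^ j / (j.factorial : ℝ) * ‖segf x y (1 / 2 - j) θ‖
          ≤ b ^ j / (j.factorial : ℝ) * (M * (1 / y) ^ j) := by gcongr
        _ = (b / y) ^ j / (j.factorial : ℝ) * M := by
          rw [div_pow, div_pow, one_pow]; ring
    · filter_upwards with θ _
      exact (Real.summable_pow_div_factorial (b / y)).mul_right M
    · exact intervalIntegrable_const
    · filter_upwards with θ _
      have h1 := NormedSpace.expSeries_div_hasSum_exp ((b : ℂ) / ((y : ℂ) + θ * I))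
      rw [← Complex.exp_eq_exp_ℂ] at h1
      have h2 := h1.mul_left (((y : ℂ) + θ * I) ^ ((1 : ℂ) / 2) * cexp (x * ((y : ℂ) + θ * I)))
      have h3 : ((y : ℂ) + θ * I) ^ ((1 : ℂ) / 2) * cexp (x * ((y : ℂ) + θ * I))
          * cexp (b / ((y : ℂ) + θ * I)) = ((y : ℂ) + θ * I) ^ ((1 : ℂ) / 2)
          * cexp (b / ((y : ℂ) + θ * I)) * cexp (x * ((y : ℂ) + θ * I)) := by ring
      rw [h3] at h2
      refine h2.congr_fun ?_
      intro j
      rw [hterm, div_pow, div_pow, one_pow]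
      push_cast
      ring
  refine h.congr_fun ?_
  intro j
  rw [intervalIntegral.integral_const_mul]

/-- the segment integral of the main term -/
theorem seg_main {b x y T : ℝ} (hb : 1 / 3 ≤ b) (hb2 : b ≤ 2) (hx : 1 ≤ x) (hy : 0 < y)
    (hyT : y ≤ T) (hT : T ≤ 4) :
    ‖(1 / (2 * Real.pi) : ℂ) * (∫ θ : ℝ in (-T)..T, ((y : ℂ) + θ * I) ^ ((1 : ℂ) / 2)
        * cexp (b / ((y : ℂ) + θ * I)) * cexp (x * ((y : ℂ) + θ * I))) - (Sb b x : ℂ)‖
      ≤ 100 * Real.exp (x * y + b / T) := by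
  have hx0 : 0 < x := by linarith
  have hT0 : 0 < T := by linarith
  have hb0 : 0 < b := by linarith
  have hex := Real.exp_pos (x * y)
  have h1 := seg_expand (x := x) hb0 hy hT0
  have h2 := Complex.hasSum_ofReal.2 ((seg_series hb0 hx0).mul_left (2 * Real.pi))
  have h3 := h1.sub h2
  set A : ℂ := ∫ θ : ℝ in (-T)..T, ((y : ℂ) + θ * I) ^ ((1 : ℂ) / 2)
        * cexp (b / ((y : ℂ) + θ * I)) * cexp (x * ((y : ℂ) + θ * I)) with hA
  set u : ℝ := T ^ (-(1 / 2) : ℝ) with hu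
  have hupos : 0 < u := Real.rpow_pos_of_pos hT0 _
  have hT32pos : 0 < T ^ (3 / 2 : ℝ) := Real.rpow_pos_of_pos hT0 _
  -- the bound series
  have hg1 : HasSum (fun j : ℕ => (4 * T ^ (3 / 2 : ℝ)) * ((b / T) ^ j / (j.factorial : ℝ)))
      ((4 * T ^ (3 / 2 : ℝ)) * Real.exp (b / T)) := by
    have := NormedSpace.expSeries_div_hasSum_exp (b / T)
    rw [← Real.exp_eq_exp_ℝ] at this
    exact this.mul_left _
  have hg2 : HasSum (fun j : ℕ => if j = 0 then 6 + 2 * u else 0) (6 + 2 * u) :=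
    hasSum_ite_eq 0 (6 + 2 * u)
  have hg3 : HasSum (fun j : ℕ => if j = 1 then b * (4 * u) else 0) (b * (4 * u)) :=
    hasSum_ite_eq 1 (b * (4 * u))
  have hg := ((hg1.add hg2).add hg3).mul_left (Real.exp (x * y))
  have hbd : ‖A - ((2 * Real.pi * Sb b x : ℝ) : ℂ)‖ ≤ Real.exp (x * y) *
      ((4 * T ^ (3 / 2 : ℝ)) * Real.exp (b / T) + (6 + 2 * u) + b * (4 * u)) := by
    refine h3.norm_le_of_bounded hg ?_
    intro j
    have hj := seg_term hx hy hyT hT j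
    have hfac : (0 : ℝ) < (j.factorial : ℝ) := by exact_mod_cast Nat.factorial_pos _
    have e1 : ((b ^ j / (j.factorial : ℝ) : ℝ) : ℂ) * (∫ θ in (-T)..T, segf x y (1 / 2 - j) θ)
        - ((2 * Real.pi * (b ^ j / (j.factorial : ℝ) * (x ^ ((j : ℝ) - 3 / 2) * gj j)) : ℝ) : ℂ)
        = ((b ^ j / (j.factorial : ℝ) : ℝ) : ℂ) * ((∫ θ in (-T)..T, segf x y (1 / 2 - j) θ)
        - ((2 * Real.pi * (x ^ ((j : ℝ) - 3 / 2) * gj j) : ℝ) : ℂ)) := by
      push_cast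
      ring
    calc ‖((b ^ j / (j.factorial : ℝ) : ℝ) : ℂ) * (∫ θ in (-T)..T, segf x y (1 / 2 - j) θ)
        - ((2 * Real.pi * (b ^ j / (j.factorial : ℝ) * (x ^ ((j : ℝ) - 3 / 2) * gj j)) : ℝ) : ℂ)‖
        = (b ^ j / (j.factorial : ℝ)) * ‖(∫ θ in (-T)..T, segf x y (1 / 2 - j) θ)
        - ((2 * Real.pi * (x ^ ((j : ℝ) - 3 / 2) * gj j) : ℝ) : ℂ)‖ := by
          rw [e1, norm_mul, Complex.norm_real, Real.norm_eq_abs, abs_of_nonneg (by positivity)]
      _ ≤ (b ^ j / (j.factorial : ℝ)) * (Real.exp (x * y) * (4 * T ^ (3 / 2 - (j : ℝ))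
        + (if j = 0 then 6 + 2 * u else 0) + (if j = 1 then 4 * u else 0))) := by gcongr
      _ = Real.exp (x * y) * ((4 * T ^ (3 / 2 : ℝ)) * ((b / T) ^ j / (j.factorial : ℝ))
        + (if j = 0 then 6 + 2 * u else 0) + (if j = 1 then b * (4 * u) else 0)) := by
          have e2 : T ^ (3 / 2 - (j : ℝ)) = T ^ (3 / 2 : ℝ) / T ^ j := by
            rw [Real.rpow_sub hT0, Real.rpow_natCast]
          rw [e2, div_pow]
          match j with
          | 0 => simp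
          | 1 => simp; ring
          | (k + 2) =>
            have h6 : k + 2 ≠ 0 := by omega
            have h7 : k + 2 ≠ 1 := by omega
            simp only [h6, h7, if_false]
            ring
  -- numerical bounds
  have hebT : 1 ≤ Real.exp (b / T) := Real.one_le_exp (by positivity)
  have hu2 : u ^ 2 = 1 / T := by
    rw [hu, ← Real.rpow_natCast, ← Real.rpow_mul hT0.le]
    norm_num
    rw [Real.rpow_neg_one]
  have huexp : u ≤ Real.exp (b / T) := by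
    have h5 : b / T + 1 ≤ Real.exp (b / T) := Real.add_one_le_exp _
    have h6 : b / T = b * u ^ 2 := by rw [hu2]; ring
    have h7 : (1 / 3) * u ^ 2 ≤ b * u ^ 2 := by gcongr
    nlinarith [sq_nonneg (u - 1), sq_nonneg (2 * u - 3)]
  have hT32 : T ^ (3 / 2 : ℝ) ≤ 8 := by
    calc T ^ (3 / 2 : ℝ) ≤ (4 : ℝ) ^ (3 / 2 : ℝ) := by gcongr
      _ = 8 := by
        rw [show (4 : ℝ) = 2 ^ (2 : ℝ) by norm_num, ← Real.rpow_mul (by norm_num)]
        norm_num
  have hpi := Real.pi_gt_three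
  have hpine : (Real.pi : ℂ) ≠ 0 := by exact_mod_cast Real.pi_ne_zero
  have e3 : (1 / (2 * Real.pi) : ℂ) * A - (Sb b x : ℂ)
      = ((1 / (2 * Real.pi) : ℝ) : ℂ) * (A - ((2 * Real.pi * Sb b x : ℝ) : ℂ)) := by
    push_cast
    field_simp
  rw [e3, norm_mul, Complex.norm_real, Real.norm_eq_abs, abs_of_pos (by positivity), Real.exp_add]
  have h8 : 1 / (2 * Real.pi) ≤ 1 := by
    rw [div_le_one (by positivity)]; linarith
  have h9 : (4 * T ^ (3 / 2 : ℝ)) * Real.exp (b / T) + (6 + 2 * u) + b * (4 * u)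
      ≤ 100 * Real.exp (b / T) := by
    have h10 : (4 * T ^ (3 / 2 : ℝ)) * Real.exp (b / T) ≤ (4 * 8) * Real.exp (b / T) := by gcongr
    have h11 : b * (4 * u) ≤ 2 * (4 * u) := by gcongr
    linarith
  calc 1 / (2 * Real.pi) * ‖A - ((2 * Real.pi * Sb b x : ℝ) : ℂ)‖
      ≤ 1 * (Real.exp (x * y) *
      ((4 * T ^ (3 / 2 : ℝ)) * Real.exp (b / T) + (6 + 2 * u) + b * (4 * u))) := by gcongr
    _ ≤ 1 * (Real.exp (x * y) * (100 * Real.exp (b / T))) := by gcongr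
    _ = 100 * (Real.exp (x * y) * Real.exp (b / T)) := by ring

end PRT
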