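import Mathlib
import Pool.Agent.PRT.Defs

namespace PRT

open Complex Metric

/-- the modular transformation `z ↦ 4π²/z` (from `ModularForm.eta_comp_eq_csqrt_I_inv`) -/
theorem Phat_S {z : ℂ} (hz : 0 < z.re) :
    Phat z = (z / (2 * Real.pi)) ^ ((1 : ℂ) / 2) * cexp (Real.pi ^ 2 / (6 * z) - z / 24)
      * Phat (4 * Real.pi ^ 2 / z) := by
  have hpi : (Real.pi : ℂ) ≠ 0 := by exact_mod_cast Real.pi_ne_zero
  have hz0 : z ≠ 0 := by
    intro h
    rw [h] at hz
    simp at hz
  have hI : (I : ℂ) ≠ 0 := I_ne_zero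
  -- the point of the upper half plane
  have hτ : ((I * (z / (2 * Real.pi)) : ℂ)) ∈ UpperHalfPlane.upperHalfPlaneSet := by
    show 0 < (I * (z / (2 * Real.pi)) : ℂ).im
    have : (I * (z / (2 * Real.pi)) : ℂ).im = z.re / (2 * Real.pi) := by
      rw [show (2 * Real.pi : ℂ) = ((2 * Real.pi : ℝ) : ℂ) by push_cast; ring]
      rw [I_mul_im, Complex.div_ofReal_re]
    rw [this]
    have := Real.pi_pos
    positivity
  have hmain := ModularForm.eta_comp_eq_csqrt_I_inv hτ
  have e1 : ModularForm.eta (I * (z / (2 * Real.pi))) = cexp (-(z / 24)) * euler (cexp (-z)) := by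
    unfold ModularForm.eta euler
    congr 1
    · rw [Function.Periodic.qParam]
      congr 1
      push_cast
      field_simp
      ring_nf
      simp
    · congr 1
      funext n
      rw [ModularForm.eta_q_eq_pow]
      congr 3
      field_simp
      ring_nf
      simp
  have e2 : ModularForm.eta (-1 / (I * (z / (2 * Real.pi)))) =
      cexp (-(Real.pi ^ 2 / (6 * z))) * euler (cexp (-(4 * Real.pi ^ 2 / z))) := by
    unfold ModularForm.eta euler
    congr 1
    · rw [Function.Periodic.qParam]
      congr 1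
      push_cast
      field_simp
      ring_nf
    · congr 1
      funext n
      rw [ModularForm.eta_q_eq_pow]
      congr 3
      field_simp
      ring_nf
  have hw0 : z / (2 * Real.pi) ≠ 0 := by
    refine div_ne_zero hz0 ?_
    simp [hpi]
  have hwre : 0 < (z / (2 * Real.pi)).re := by
    rw [show (2 * Real.pi : ℂ) = ((2 * Real.pi : ℝ) : ℂ) by push_cast; ring]
    rw [Complex.div_ofReal_re]
    have := Real.pi_pos
    positivity
  have hsq : (Complex.sqrt I)⁻¹ * Complex.sqrt (I * (z / (2 * Real.pi))) =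
      (z / (2 * Real.pi)) ^ ((1 : ℂ) / 2) := by
    have hlog : Complex.log (I * (z / (2 * Real.pi))) =
        Complex.log I + Complex.log (z / (2 * Real.pi)) := by
      apply Complex.log_mul hI hw0
      have h1 := Complex.abs_arg_lt_pi_div_two_iff.mpr (Or.inl hwre)
      rw [abs_lt] at h1
      have h2 : Complex.arg I = Real.pi / 2 := Complex.arg_I
      have := Real.pi_pos
      constructor <;> rw [h2] <;> linarith
    unfold Complex.sqrt
    rw [Complex.cpow_def_of_ne_zero hI, Complex.cpow_def_of_ne_zero (mul_ne_zero hI hw0),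
      Complex.cpow_def_of_ne_zero hw0, hlog, ← Complex.exp_neg, ← Complex.exp_add]
    congr 1
    ring
  have hmain' : ModularForm.eta (-1 / (I * (z / (2 * Real.pi)))) =
      (z / (2 * Real.pi)) ^ ((1 : ℂ) / 2) * ModularForm.eta (I * (z / (2 * Real.pi))) := by
    rw [← hsq]
    have := hmain
    simp only [Function.comp, Pi.smul_apply, Pi.mul_apply, smul_eq_mul] at this
    rw [this]
    ring
  rw [e1, e2] at hmain'
  have hne1 : euler (cexp (-z)) ≠ 0 := by
    intro h
    have h2 := ModularForm.eta_ne_zero hτ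
    rw [e1, h, mul_zero] at h2
    exact h2 rfl
  have hτ2 : ((-1 / (I * (z / (2 * Real.pi))) : ℂ)) ∈ UpperHalfPlane.upperHalfPlaneSet := by
    show 0 < (-1 / (I * (z / (2 * Real.pi))) : ℂ).im
    have : (-1 / (I * (z / (2 * Real.pi))) : ℂ) = I * (z / (2 * Real.pi))⁻¹ := by
      rw [div_eq_mul_inv, mul_inv, Complex.inv_I]
      ring
    rw [this, I_mul_im, Complex.inv_re]
    exact div_pos hwre (Complex.normSq_pos.mpr hw0)
  have hne2 : euler (cexp (-(4 * Real.pi ^ 2 / z))) ≠ 0 := by
    intro h
    have h2 := ModularForm.eta_ne_zero hτ2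
    rw [e2, h, mul_zero] at h2
    exact h2 rfl
  unfold Phat
  have hexp : cexp (Real.pi ^ 2 / (6 * z) - z / 24) =
      cexp (-(z / 24)) * (cexp (-(Real.pi ^ 2 / (6 * z))))⁻¹ := by
    rw [← Complex.exp_neg, ← Complex.exp_add]
    congr 1
    ring
  rw [hexp]
  have hE := Complex.exp_ne_zero (-(Real.pi ^ 2 / (6 * z)))
  generalize euler (cexp (-(4 * Real.pi ^ 2 / z))) = a at *
  generalize euler (cexp (-z)) = b at *
  generalize cexp (-(Real.pi ^ 2 / (6 * z))) = c at *
  generalize cexp (-(z / 24)) = d at *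
  generalize (z / (2 * Real.pi : ℂ)) ^ ((1 : ℂ) / 2) = e at *
  field_simp
  linear_combination hmain'

end PRT
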