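import Mathlib
import Pool.Agent.PRT.TR1

namespace PRT

open Complex Metric

private theorem tr2_summable {x : ℂ} (hx : ‖x‖ < 1) (a b : ℕ) (ha : 1 ≤ a) :
    Summable fun k : ℕ => ‖-(x ^ (a * k + b))‖ := by
  have h0 : 0 ≤ ‖x‖ := norm_nonneg x
  have h1 : ‖x‖ ^ a < 1 := pow_lt_one₀ h0 hx (by omega)
  have h2 : Summable fun k : ℕ => (‖x‖ ^ a) ^ k * ‖x‖ ^ b :=
    (summable_geometric_of_lt_one (by positivity) h1).mul_right _
  refine h2.congr ?_
  intro k
  rw [norm_neg, norm_pow, pow_add, pow_mul]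

private theorem tr2_mult {x : ℂ} (hx : ‖x‖ < 1) (a b : ℕ) (ha : 1 ≤ a) :
    Multipliable fun k : ℕ => 1 - x ^ (a * k + b) := by
  have h := multipliable_one_add_of_summable (tr2_summable hx a b ha)
  simpa [sub_eq_add_neg] using h

/-- odd part of the Euler product -/
private noncomputable def tr2_odd (x : ℂ) : ℂ := ∏' k : ℕ, (1 - x ^ (2 * k + 1))

private theorem tr2_split {x : ℂ} (hx : ‖x‖ < 1) : euler x = tr2_odd x * euler (x ^ 2) := by
  have h := tprod_even_mul_odd (f := fun n : ℕ => 1 - x ^ (n + 1))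
    (tr2_mult hx 2 1 (by norm_num)) (by
      have h1 := tr2_mult hx 2 2 (by norm_num)
      exact h1)
  unfold euler tr2_odd
  rw [← h]
  congr 1
  apply tprod_congr
  intro k
  rw [← pow_mul]
  congr 2

private theorem tr2_odd_mul {x : ℂ} (hx : ‖x‖ < 1) : tr2_odd x * tr2_odd (-x) = tr2_odd (x ^ 2) := by
  have hx' : ‖-x‖ < 1 := by rwa [norm_neg]
  unfold tr2_odd
  rw [← (tr2_mult hx 2 1 (by norm_num)).tprod_mul (tr2_mult hx' 2 1 (by norm_num))]
  apply tprod_congr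
  intro k
  have h1 : (-x) ^ (2 * k + 1) = -(x ^ (2 * k + 1)) := Odd.neg_pow ⟨k, rfl⟩ x
  rw [h1, ← pow_mul]
  ring

private theorem tr2_euler {x : ℂ} (hx : ‖x‖ < 1) :
    euler x * euler (-x) * euler (x ^ 4) = euler (x ^ 2) ^ 3 := by
  have hx' : ‖-x‖ < 1 := by rwa [norm_neg]
  have hx2 : ‖x ^ 2‖ < 1 := by
    rw [norm_pow]
    exact pow_lt_one₀ (norm_nonneg x) hx (by norm_num)
  have h1 := tr2_split hx
  have h2 := tr2_split hx'
  have h3 := tr2_split hx2
  have h4 := tr2_odd_mul hx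
  have e1 : (-x) ^ 2 = x ^ 2 := by ring
  have e2 : (x ^ 2) ^ 2 = x ^ 4 := by ring
  rw [e1] at h2
  rw [e2] at h3
  calc euler x * euler (-x) * euler (x ^ 4)
      = (tr2_odd x * tr2_odd (-x)) * euler (x ^ 2) ^ 2 * euler (x ^ 4) := by
        rw [h1, h2]
        ring
    _ = (tr2_odd (x ^ 2) * euler (x ^ 4)) * euler (x ^ 2) ^ 2 := by
        rw [h4]
        ring
    _ = euler (x ^ 2) ^ 3 := by
        rw [← h3]
        ring

private theorem tr2_ne {x : ℂ} (hx : ‖x‖ < 1) : euler x ≠ 0 := by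
  have h := tprod_one_add_ne_zero_of_summable (f := fun n : ℕ => -(x ^ (n + 1))) (by
    intro i h0
    have h1 : x ^ (i + 1) = 1 := by linear_combination -h0
    have h2 : ‖x‖ ^ (i + 1) < 1 := pow_lt_one₀ (norm_nonneg x) hx (by omega)
    rw [← norm_pow, h1, norm_one] at h2
    exact lt_irrefl _ h2) (by simpa using tr2_summable hx 1 1 le_rfl)
  unfold euler
  simpa [sub_eq_add_neg] using h

private theorem tr2_cpow {a : ℝ} (ha : 0 < a) {w : ℂ} (hw : w ≠ 0) :
    ((a : ℂ) * w) ^ ((1 : ℂ) / 2) = (Real.sqrt a : ℂ) * w ^ ((1 : ℂ) / 2) := by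
  have ha' : (a : ℂ) ≠ 0 := by
    rw [Ne, Complex.ofReal_eq_zero]
    exact ha.ne'
  rw [Complex.cpow_def_of_ne_zero (mul_ne_zero ha' hw), Complex.cpow_def_of_ne_zero hw,
    Complex.log_ofReal_mul ha hw, add_mul, Complex.exp_add]
  congr 1
  have h1 : Real.sqrt a = Real.exp (Real.log a * (1 / 2)) := by
    rw [Real.sqrt_eq_rpow, Real.rpow_def_of_pos ha]
  rw [h1, Complex.ofReal_exp]
  push_cast
  rfl

/-- behaviour near `q = -1` -/
theorem Phat_pi {z : ℂ} (hz : 0 < z.re) :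
    Phat (z + Real.pi * I) = (Real.sqrt 2 : ℂ) * (z / (2 * Real.pi)) ^ ((1 : ℂ) / 2)
      * cexp (Real.pi ^ 2 / (24 * z) - z / 24)
      * (Phat (2 * Real.pi ^ 2 / z) ^ 3
        / (Phat (4 * Real.pi ^ 2 / z) * Phat (Real.pi ^ 2 / z))) := by
  have hz0 : z ≠ 0 := by
    intro h
    rw [h, Complex.zero_re] at hz
    exact lt_irrefl _ hz
  have hpi : (Real.pi : ℂ) ≠ 0 := by
    rw [Ne, Complex.ofReal_eq_zero]
    exact Real.pi_ne_zero
  set q : ℂ := cexp (-z) with hq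
  have hq1 : ‖q‖ < 1 := by
    rw [hq, Complex.norm_exp, Complex.neg_re, Real.exp_lt_one_iff]
    linarith
  have hE := tr2_euler hq1
  have hq2 : ‖q ^ 2‖ < 1 := by
    rw [norm_pow]
    exact pow_lt_one₀ (norm_nonneg q) hq1 (by norm_num)
  have hq4 : ‖q ^ 4‖ < 1 := by
    rw [norm_pow]
    exact pow_lt_one₀ (norm_nonneg q) hq1 (by norm_num)
  have hn1 := tr2_ne hq1
  have hn2 := tr2_ne hq2
  have hn4 := tr2_ne hq4
  have hnm : euler (-q) ≠ 0 := tr2_ne (by rwa [norm_neg])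
  -- the values of Phat
  have hP0 : Phat (z + Real.pi * I) = (euler (-q))⁻¹ := by
    unfold Phat
    congr 2
    have h1 : -(z + Real.pi * I) = -z + -(Real.pi * I) := by ring
    rw [h1, Complex.exp_add, Complex.exp_neg (Real.pi * I), Complex.exp_pi_mul_I]
    rw [hq]
    norm_num
  have hP1 : Phat z = (euler q)⁻¹ := rfl
  have hP2 : Phat (2 * z) = (euler (q ^ 2))⁻¹ := by
    unfold Phat
    congr 2
    rw [hq, ← Complex.exp_nat_mul]
    congr 1
    push_cast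
    ring
  have hP4 : Phat (4 * z) = (euler (q ^ 4))⁻¹ := by
    unfold Phat
    congr 2
    rw [hq, ← Complex.exp_nat_mul]
    congr 1
    push_cast
    ring
  have hP1n : Phat z ≠ 0 := by rw [hP1]; exact inv_ne_zero hn1
  have hP4n : Phat (4 * z) ≠ 0 := by rw [hP4]; exact inv_ne_zero hn4
  have hmain : Phat (z + Real.pi * I) = Phat (2 * z) ^ 3 / (Phat z * Phat (4 * z)) := by
    rw [hP0, hP1, hP2, hP4]
    field_simp
    linear_combination -hE
  have hz2 : 0 < (2 * z).re := by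
    have : (2 * z).re = 2 * z.re := by simp
    rw [this]
    linarith
  have hz4 : 0 < (4 * z).re := by
    have : (4 * z).re = 4 * z.re := by simp
    rw [this]
    linarith
  have hS1 := Phat_S hz
  have hS2 := Phat_S hz2
  have hS4 := Phat_S hz4
  set w : ℂ := z / (2 * Real.pi) with hw
  have hw0 : w ≠ 0 := div_ne_zero hz0 (mul_ne_zero two_ne_zero hpi)
  have hc2 : (2 * z / (2 * Real.pi)) ^ ((1 : ℂ) / 2) = (Real.sqrt 2 : ℂ) * w ^ ((1 : ℂ) / 2) := by
    rw [← tr2_cpow (by norm_num : (0 : ℝ) < 2) hw0]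
    congr 1
    rw [hw]
    push_cast
    ring
  have hc4 : (4 * z / (2 * Real.pi)) ^ ((1 : ℂ) / 2) = (2 : ℂ) * w ^ ((1 : ℂ) / 2) := by
    have h4 : Real.sqrt 4 = 2 := by
      rw [show (4 : ℝ) = 2 ^ 2 by norm_num]
      exact Real.sqrt_sq (by norm_num)
    have h5 : ((Real.sqrt 4 : ℝ) : ℂ) = 2 := by
      rw [h4]
      norm_num
    have h6 := tr2_cpow (by norm_num : (0 : ℝ) < 4) hw0
    rw [h5] at h6
    rw [← h6]
    congr 1
    rw [hw]
    push_cast
    ring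
  set u : ℂ := w ^ ((1 : ℂ) / 2) with hu
  have hu0 : u ≠ 0 := by
    rw [hu, Ne, Complex.cpow_eq_zero_iff]
    intro h
    exact hw0 h.1
  have ha2 : 4 * (Real.pi : ℂ) ^ 2 / (2 * z) = 2 * (Real.pi : ℂ) ^ 2 / z := by
    field_simp
    norm_num
  have ha4 : 4 * (Real.pi : ℂ) ^ 2 / (4 * z) = (Real.pi : ℂ) ^ 2 / z := by
    field_simp
  rw [hc2, ha2] at hS2
  rw [hc4, ha4] at hS4
  have hr2 : (Real.sqrt 2 : ℂ) ^ 2 = 2 := by
    rw [← Complex.ofReal_pow, Real.sq_sqrt (by norm_num)]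
    norm_num
  set e1 : ℂ := cexp (Real.pi ^ 2 / (6 * z) - z / 24) with he1
  set e2 : ℂ := cexp (Real.pi ^ 2 / (6 * (2 * z)) - 2 * z / 24) with he2
  set e4 : ℂ := cexp (Real.pi ^ 2 / (6 * (4 * z)) - 4 * z / 24) with he4
  set e0 : ℂ := cexp (Real.pi ^ 2 / (24 * z) - z / 24) with he0
  have he : e2 ^ 3 = e0 * e1 * e4 := by
    rw [he0, he1, he2, he4, ← Complex.exp_nat_mul, ← Complex.exp_add, ← Complex.exp_add]
    congr 1
    push_cast
    field_simp
    ring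
  have he1n : e1 ≠ 0 := Complex.exp_ne_zero _
  have he4n : e4 ≠ 0 := Complex.exp_ne_zero _
  set A := Phat (2 * Real.pi ^ 2 / z) with hA
  set B := Phat (4 * Real.pi ^ 2 / z) with hB
  set G := Phat (Real.pi ^ 2 / z) with hG
  have hBn : B ≠ 0 := by
    intro h
    rw [hS1, h, mul_zero] at hP1n
    exact hP1n rfl
  have hGn : G ≠ 0 := by
    intro h
    rw [hS4, h, mul_zero] at hP4n
    exact hP4n rfl
  rw [hmain, hS1, hS2, hS4]
  field_simp
  rw [hr2, he]
  ring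

end PRT
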