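import Mathlib
import Pool.Agent.PRT.TR2
import Pool.Agent.PRT.NEAR
import Pool.Agent.PRT.COEF
import Pool.Agent.PRT.SEG

namespace PRT

open Complex Metric

private lemma maj1_cpow {z : ℂ} (hz : 0 < z.re) :
    (z / (2 * Real.pi)) ^ ((1 : ℂ) / 2)
      = z ^ ((1 : ℂ) / 2) / ((Real.sqrt (2 * Real.pi) : ℝ) : ℂ) := by
  have h2pi : (0 : ℝ) < 2 * Real.pi := by positivity
  have hz0 : z ≠ 0 := by rintro rfl; simp at hz
  have e1 : z / (2 * Real.pi) = (((2 * Real.pi)⁻¹ : ℝ) : ℂ) * z := by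
    push_cast; field_simp
  have hs : ((Real.sqrt (2 * Real.pi) : ℝ) : ℂ)
      = cexp (((Real.log (2 * Real.pi) : ℝ) : ℂ) * (1 / 2)) := by
    rw [Real.sqrt_eq_rpow, Real.rpow_def_of_pos h2pi, ofReal_exp]
    push_cast; rfl
  have e2 : cexp (((-Real.log (2 * Real.pi) : ℝ) : ℂ) * (1 / 2))
      = (cexp (((Real.log (2 * Real.pi) : ℝ) : ℂ) * (1 / 2)))⁻¹ := by
    rw [← Complex.exp_neg]
    congr 1
    push_cast; ring
  rw [e1, cpow_def_of_ne_zero
    (mul_ne_zero (ofReal_ne_zero.mpr (inv_pos.mpr h2pi).ne') hz0),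
    log_ofReal_mul (inv_pos.mpr h2pi) hz0, add_mul, exp_add, ← cpow_def_of_ne_zero hz0,
    Real.log_inv, hs, e2]
  rw [mul_comm]
  exact (div_eq_mul_inv _ _).symm

private lemma maj1_integrand {n : ℕ} {y t : ℝ} (hy : 0 < y) :
    Phat ((y : ℂ) + ((t + Real.pi : ℝ) : ℂ) * I)
        * cexp (n * ((y : ℂ) + ((t + Real.pi : ℝ) : ℂ) * I))
      = (((-1) ^ n * Real.sqrt 2 / Real.sqrt (2 * Real.pi) : ℝ) : ℂ)
        * (((y : ℂ) + t * I) ^ ((1 : ℂ) / 2)
          * cexp (((Real.pi ^ 2 / 24 : ℝ) : ℂ) / ((y : ℂ) + t * I))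
          * cexp ((((n : ℝ) - 1 / 24 : ℝ) : ℂ) * ((y : ℂ) + t * I)))
        * (Phat (2 * ((Real.pi : ℂ) ^ 2 / ((y : ℂ) + t * I))) ^ 3
          / (Phat (4 * ((Real.pi : ℂ) ^ 2 / ((y : ℂ) + t * I)))
            * Phat ((Real.pi : ℂ) ^ 2 / ((y : ℂ) + t * I)))) := by
  set z : ℂ := (y : ℂ) + t * I with hzdef
  have hz : 0 < z.re := by simp [hzdef, hy]
  have hz0 : z ≠ 0 := by intro h; rw [h] at hz; simp at hz
  have e0 : (y : ℂ) + ((t + Real.pi : ℝ) : ℂ) * I = z + Real.pi * I := by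
    rw [hzdef]; push_cast; ring
  have e1 : cexp (n * (z + Real.pi * I)) = cexp (n * z) * (-1) ^ n := by
    rw [mul_add, Complex.exp_add]
    congr 1
    rw [Complex.exp_nat_mul, Complex.exp_pi_mul_I]
  have e2 : cexp (Real.pi ^ 2 / (24 * z) - z / 24) * cexp (n * z)
      = cexp (((Real.pi ^ 2 / 24 : ℝ) : ℂ) / z)
        * cexp ((((n : ℝ) - 1 / 24 : ℝ) : ℂ) * z) := by
    rw [← Complex.exp_add, ← Complex.exp_add]
    congr 1
    push_cast
    field_simp
    ring
  rw [e0, Phat_pi hz, e1, maj1_cpow hz]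
  have e3 : (2 : ℂ) * (Real.pi : ℂ) ^ 2 / z = 2 * ((Real.pi : ℂ) ^ 2 / z) := by ring
  have e4 : (4 : ℂ) * (Real.pi : ℂ) ^ 2 / z = 4 * ((Real.pi : ℂ) ^ 2 / z) := by ring
  rw [e3, e4]
  set W := Phat (2 * ((Real.pi : ℂ) ^ 2 / z)) ^ 3
          / (Phat (4 * ((Real.pi : ℂ) ^ 2 / z)) * Phat ((Real.pi : ℂ) ^ 2 / z)) with hW
  calc _ = (Real.sqrt 2 : ℂ) * (z ^ ((1 : ℂ) / 2) / ((Real.sqrt (2 * Real.pi) : ℝ) : ℂ))
          * (cexp (Real.pi ^ 2 / (24 * z) - z / 24) * cexp (n * z)) * W * (-1) ^ n := by ring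
    _ = _ := by
      rw [e2]; push_cast; ring

/-- major arc at `q = -1` -/
theorem major1 : ∃ K : ℝ, 0 < K ∧ ∀ n : ℕ, 2 ≤ n → ∀ y T : ℝ, 0 < y → y ≤ T →
    y ^ 2 + T ^ 2 ≤ y →
    ‖(1 / (2 * Real.pi) : ℂ) * (∫ θ : ℝ in (Real.pi - T)..(Real.pi + T),
        Phat ((y : ℂ) + θ * I) * cexp (n * ((y : ℂ) + θ * I)))
        - (((-1) ^ n * Real.sqrt 2 * Sb (Real.pi ^ 2 / 24) ((n : ℝ) - 1 / 24)
            / Real.sqrt (2 * Real.pi) : ℝ) : ℂ)‖
      ≤ K * Real.exp (n * y + (Real.pi ^ 2 / 24) / T) := by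
  obtain ⟨K0, hK0, hW⟩ := W_near_one
  refine ⟨K0 + 100, by positivity, ?_⟩
  intro n hn y T hy hyT hyT2
  have hT : 0 < T := lt_of_lt_of_le hy hyT
  have hT1 : T ≤ 1 := by
    by_contra hc
    push Not at hc
    nlinarith
  have hy1 : y ≤ 1 := hyT.trans hT1
  have hpi := Real.pi_gt_three
  have hpi2 : Real.pi ^ 2 ≤ 10 := by
    have := Real.pi_lt_d2
    nlinarith
  set x : ℝ := (n : ℝ) - 1 / 24 with hx
  set b : ℝ := Real.pi ^ 2 / 24 with hb
  have hn2 : (2 : ℝ) ≤ n := by exact_mod_cast hn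
  have hx1 : 1 ≤ x := by rw [hx]; linarith
  have hb1 : 1 / 3 ≤ b := by rw [hb]; nlinarith
  have hb2 : b ≤ 2 := by rw [hb]; linarith
  set c : ℝ := (-1) ^ n * Real.sqrt 2 / Real.sqrt (2 * Real.pi) with hc
  have hcabs : |c| ≤ 1 := by
    rw [hc, abs_div, abs_mul, abs_pow, abs_neg, abs_one, one_pow, one_mul,
      abs_of_nonneg (Real.sqrt_nonneg _), abs_of_nonneg (Real.sqrt_nonneg _)]
    apply div_le_one_of_le₀ _ (Real.sqrt_nonneg _)
    apply Real.sqrt_le_sqrt
    linarith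
  set M : ℝ → ℂ := fun t => ((y : ℂ) + t * I) ^ ((1 : ℂ) / 2)
        * cexp ((b : ℂ) / ((y : ℂ) + t * I)) * cexp ((x : ℂ) * ((y : ℂ) + t * I)) with hM
  set F : ℝ → ℂ := fun θ => Phat ((y : ℂ) + θ * I) * cexp (n * ((y : ℂ) + θ * I)) with hF
  have hFc : Continuous F := by
    apply (Phat_continuous hy).mul
    fun_prop
  have hzre : ∀ t : ℝ, ((y : ℂ) + t * I).re = y := by intro t; simp
  have hz0 : ∀ t : ℝ, (y : ℂ) + t * I ≠ 0 := by
    intro t h
    have := hzre t
    rw [h] at this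
    simp at this
    exact hy.ne this
  have hMc : Continuous M := by
    apply Continuous.mul
    · apply Continuous.mul
      · apply Continuous.cpow
        · fun_prop
        · fun_prop
        · intro t
          left
          rw [hzre]; exact hy
      · apply Complex.continuous_exp.comp
        apply Continuous.div
        · fun_prop
        · fun_prop
        · exact hz0
    · fun_prop
  have hseg := seg_main (b := b) (x := x) (y := y) (T := T) hb1 hb2 hx1 hy hyT (by linarith)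
  have hshift : (∫ θ : ℝ in (Real.pi - T)..(Real.pi + T), F θ)
      = ∫ t : ℝ in (-T)..T, F (t + Real.pi) := by
    rw [intervalIntegral.integral_comp_add_right]
    congr 1 <;> ring
  have hxy : Real.exp (x * y) ≤ Real.exp (n * y + b / T) := by
    apply Real.exp_le_exp.mpr
    have h1 : x * y ≤ n * y := by
      apply mul_le_mul_of_nonneg_right _ hy.le
      rw [hx]; linarith
    have h2 : 0 ≤ b / T := by positivity
    linarith
  have hbound : ∀ t ∈ Set.uIoc (-T) T, ‖F (t + Real.pi) - (c : ℂ) * M t‖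
      ≤ K0 * Real.exp (x * y) := by
    intro t ht
    rw [Set.uIoc_of_le (by linarith)] at ht
    have ht2 : t ^ 2 ≤ T ^ 2 := by
      apply sq_le_sq'
      · linarith [ht.1]
      · exact ht.2
    set z : ℂ := (y : ℂ) + t * I with hz
    have hzr : z.re = y := hzre t
    have hzi : z.im = t := by simp [hz]
    have hns : normSq z = y ^ 2 + t ^ 2 := by
      rw [normSq_apply, hzr, hzi]; ring
    have hnspos : 0 < y ^ 2 + t ^ 2 := by positivity
    have hinv : (z⁻¹).re = y / (y ^ 2 + t ^ 2) := by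
      rw [inv_re, hzr, hns]
    have hinv1 : 1 ≤ (z⁻¹).re := by
      rw [hinv, le_div_iff₀ hnspos]; linarith
    have hwre : ((Real.pi : ℂ) ^ 2 / z).re = Real.pi ^ 2 * (z⁻¹).re := by
      rw [div_eq_mul_inv]
      have : (Real.pi : ℂ) ^ 2 = ((Real.pi ^ 2 : ℝ) : ℂ) := by push_cast; rfl
      rw [this, re_ofReal_mul]
    have hw3 : 3 ≤ ((Real.pi : ℂ) ^ 2 / z).re := by
      rw [hwre]; nlinarith
    have hWt := hW _ hw3
    have hint := maj1_integrand (n := n) (t := t) hy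
    have hFeq : F (t + Real.pi) - (c : ℂ) * M t = (c : ℂ) * M t *
        (Phat (2 * ((Real.pi : ℂ) ^ 2 / z)) ^ 3
          / (Phat (4 * ((Real.pi : ℂ) ^ 2 / z)) * Phat ((Real.pi : ℂ) ^ 2 / z)) - 1) := by
      simp only [hF, hM]
      rw [hint]
      ring
    rw [hFeq, norm_mul, norm_mul]
    have hMn : ‖M t‖ ≤ Real.exp (b * (z⁻¹).re) * Real.exp (x * y) := by
      simp only [hM]
      rw [norm_mul, norm_mul, Complex.norm_exp, Complex.norm_exp]
      have h1 : ((b : ℂ) / ((y : ℂ) + t * I)).re = b * (z⁻¹).re := by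
        rw [← hz, div_eq_mul_inv, re_ofReal_mul]
      have h2 : ((x : ℂ) * ((y : ℂ) + t * I)).re = x * y := by
        rw [re_ofReal_mul, hzre]
      rw [h1, h2]
      have h3 : ‖((y : ℂ) + t * I) ^ ((1 : ℂ) / 2)‖ ≤ 1 := by
        rw [← hz]
        have : ((1 : ℂ) / 2) = (((1 / 2 : ℝ)) : ℂ) := by push_cast; rfl
        rw [this, Complex.norm_cpow_real]
        apply Real.rpow_le_one (norm_nonneg _) _ (by norm_num)
        rw [← sq_le_one_iff₀ (norm_nonneg _), ← normSq_eq_norm_sq, hns]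
        linarith
      calc _ ≤ 1 * Real.exp (b * (z⁻¹).re) * Real.exp (x * y) := by gcongr
        _ = _ := by ring
    have hcn : ‖(c : ℂ)‖ ≤ 1 := by
      rw [norm_real]; exact hcabs
    calc ‖(c : ℂ)‖ * ‖M t‖ * _
        ≤ 1 * (Real.exp (b * (z⁻¹).re) * Real.exp (x * y))
            * (K0 * Real.exp (-((Real.pi : ℂ) ^ 2 / z).re)) := by
          gcongr
      _ = K0 * Real.exp (x * y) * Real.exp (b * (z⁻¹).re - Real.pi ^ 2 * (z⁻¹).re) := by
          rw [hwre, Real.exp_sub, Real.exp_neg]; field_simp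
      _ ≤ K0 * Real.exp (x * y) * 1 := by
          gcongr
          rw [Real.exp_le_one_iff, ← sub_mul]
          apply mul_nonpos_of_nonpos_of_nonneg
          · rw [hb]; nlinarith
          · linarith
      _ = _ := by ring
  have hFi : IntervalIntegrable (fun t : ℝ => F (t + Real.pi)) MeasureTheory.volume (-T) T :=
    (hFc.comp (by fun_prop)).intervalIntegrable _ _
  have hMi : IntervalIntegrable (fun t : ℝ => (c : ℂ) * M t) MeasureTheory.volume (-T) T :=
    (continuous_const.mul hMc).intervalIntegrable _ _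
  have hdiff : (∫ t : ℝ in (-T)..T, F (t + Real.pi)) - (c : ℂ) * ∫ t : ℝ in (-T)..T, M t
      = ∫ t : ℝ in (-T)..T, (F (t + Real.pi) - (c : ℂ) * M t) := by
    rw [intervalIntegral.integral_sub hFi hMi, intervalIntegral.integral_const_mul]
  have herr : ‖∫ t : ℝ in (-T)..T, (F (t + Real.pi) - (c : ℂ) * M t)‖
      ≤ K0 * Real.exp (x * y) * |T - (-T)| :=
    intervalIntegral.norm_integral_le_of_norm_le_const hbound
  have h2pi : ‖(1 / (2 * Real.pi) : ℂ)‖ = 1 / (2 * Real.pi) := by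
    have : (1 / (2 * Real.pi) : ℂ) = ((1 / (2 * Real.pi) : ℝ) : ℂ) := by push_cast; rfl
    rw [this, norm_real, Real.norm_of_nonneg (by positivity)]
  have htarget : (1 / (2 * Real.pi) : ℂ) * (∫ θ : ℝ in (Real.pi - T)..(Real.pi + T), F θ)
        - (((-1) ^ n * Real.sqrt 2 * Sb b x / Real.sqrt (2 * Real.pi) : ℝ) : ℂ)
      = (1 / (2 * Real.pi) : ℂ) * (∫ t : ℝ in (-T)..T, (F (t + Real.pi) - (c : ℂ) * M t))
        + (c : ℂ) * ((1 / (2 * Real.pi) : ℂ) * (∫ t : ℝ in (-T)..T, M t) - (Sb b x : ℂ)) := by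
    rw [← hdiff, hshift, hc]
    push_cast
    ring
  rw [htarget]
  calc _ ≤ ‖(1 / (2 * Real.pi) : ℂ) * (∫ t : ℝ in (-T)..T, (F (t + Real.pi) - (c : ℂ) * M t))‖
        + ‖(c : ℂ) * ((1 / (2 * Real.pi) : ℂ) * (∫ t : ℝ in (-T)..T, M t)
            - (Sb b x : ℂ))‖ := norm_add_le _ _
    _ ≤ 1 / (2 * Real.pi) * (K0 * Real.exp (x * y) * |T - (-T)|)
        + 1 * (100 * Real.exp (x * y + b / T)) := by
        rw [norm_mul, norm_mul, h2pi]
        have hcn : ‖(c : ℂ)‖ ≤ 1 := by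
          rw [norm_real]; exact hcabs
        gcongr
    _ ≤ K0 * Real.exp (n * y + b / T) + 100 * Real.exp (n * y + b / T) := by
        have h1 : 1 / (2 * Real.pi) * (K0 * Real.exp (x * y) * |T - (-T)|)
            ≤ K0 * Real.exp (n * y + b / T) := by
          have h2 : |T - (-T)| = 2 * T := by
            rw [abs_of_nonneg (by linarith)]; ring
          rw [h2]
          have h3 : 1 / (2 * Real.pi) * (K0 * Real.exp (x * y) * (2 * T))
              = K0 * Real.exp (x * y) * (T / Real.pi) := by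
            field_simp
          rw [h3]
          have h4 : T / Real.pi ≤ 1 := by
            rw [div_le_one (by positivity)]; linarith
          calc _ ≤ K0 * Real.exp (n * y + b / T) * 1 := by gcongr
            _ = _ := by ring
        have h5 : Real.exp (x * y + b / T) ≤ Real.exp (n * y + b / T) := by
          apply Real.exp_le_exp.mpr
          have h6 : x * y ≤ n * y := by
            apply mul_le_mul_of_nonneg_right _ hy.le
            rw [hx]; linarith
          linarith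
        linarith
    _ = _ := by ring

end PRT
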