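import Mathlib
import Pool.Agent.PRT.Defs

namespace PRT

open Complex Metric

/-- the logarithm of a finite product of the Euler product -/
theorem minor_fin {q : ℂ} (hq : ‖q‖ < 1) (K : ℕ) :
    ‖∏ n ∈ Finset.range K, (1 - q ^ (n + 1))‖ =
      Real.exp (-(∑ n ∈ Finset.range K, -Complex.log (1 - q ^ (n + 1))).re) := by
  have h1 : ∀ n : ℕ, (1 : ℂ) - q ^ (n + 1) ≠ 0 := by
    intro n h
    have h2 : ‖q ^ (n + 1)‖ < 1 := by
      rw [norm_pow]
      exact pow_lt_one₀ (norm_nonneg _) hq (by omega)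
    rw [← sub_eq_zero.1 h] at h2
    simp at h2
  have h3 : ∏ n ∈ Finset.range K, (1 - q ^ (n + 1)) =
      cexp (∑ n ∈ Finset.range K, Complex.log (1 - q ^ (n + 1))) := by
    rw [Complex.exp_sum]
    exact Finset.prod_congr rfl fun n _ => (Complex.exp_log (h1 n)).symm
  rw [h3, Complex.norm_exp]
  congr 1
  rw [Finset.sum_neg_distrib, Complex.neg_re, neg_neg]

/-- the coefficients of the bound -/
noncomputable def mc (y B : ℝ) (m : ℕ) : ℝ :=
  1 / y * (1 / (m : ℝ) ^ 2) + (if m = 1 then 1 / (B * y) - 1 / y else 0) +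
    (if m = 2 then 1 / (2 * (B * y)) - 1 / (4 * y) else 0)

theorem mc_sum (y B : ℝ) : HasSum (mc y B)
    (1 / y * (Real.pi ^ 2 / 6) + (1 / (B * y) - 1 / y) + (1 / (2 * (B * y)) - 1 / (4 * y))) := by
  have h1 := hasSum_zeta_two.mul_left (1 / y)
  have h2 : HasSum (fun m : ℕ => if m = 1 then 1 / (B * y) - 1 / y else 0)
      (1 / (B * y) - 1 / y) := hasSum_ite_eq 1 _
  have h3 : HasSum (fun m : ℕ => if m = 2 then 1 / (2 * (B * y)) - 1 / (4 * y) else 0)
      (1 / (2 * (B * y)) - 1 / (4 * y)) := hasSum_ite_eq 2 _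
  exact (h1.add h2).add h3

/-- one term of the double sum -/
theorem minor_term {y B θ : ℝ} (hy : 0 < y) (hB : 0 < B)
    (h1 : B * y ≤ ‖cexp ((y : ℂ) + θ * I) - 1‖)
    (h2 : B * y ≤ ‖cexp (2 * ((y : ℂ) + θ * I)) - 1‖) (K m : ℕ) :
    ‖∑ n ∈ Finset.range K, (cexp (-((y : ℂ) + θ * I)) ^ (n + 1)) ^ m / (m : ℂ)‖ ≤
      (1 + Real.exp (-(y * K))) * mc y B m := by
  rcases Nat.eq_zero_or_pos m with hm | hm
  · subst hm
    simp [mc]
  have hm0 : (m : ℂ) ≠ 0 := by exact_mod_cast hm.ne'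
  have hmR : (0 : ℝ) < m := by exact_mod_cast hm
  set z : ℂ := (y : ℂ) + θ * I with hz
  have hzre : z.re = y := by simp [hz]
  set w : ℂ := cexp (-((m : ℂ) * z)) with hw
  have hwn : ‖w‖ = Real.exp (-(m * y)) := by
    rw [hw, Complex.norm_exp]
    congr 1
    rw [Complex.neg_re, Complex.mul_re, Complex.natCast_re, Complex.natCast_im, hzre]
    ring
  have hw1 : ‖w‖ < 1 := by
    rw [hwn, Real.exp_lt_one_iff] <;> nlinarith
  have hw1' : w ≠ 1 := by
    intro h; rw [h] at hw1; simp at hw1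
  have hw0 : w ≠ 0 := Complex.exp_ne_zero _
  have h3 : ∑ n ∈ Finset.range K, (cexp (-z) ^ (n + 1)) ^ m / (m : ℂ) =
      (1 / (m : ℂ)) * (w / (1 - w) * (1 - w ^ K)) := by
    have h4 : ∀ n : ℕ, (cexp (-z) ^ (n + 1)) ^ m = w * w ^ n := by
      intro n
      rw [hw, ← pow_mul, ← Complex.exp_nat_mul, ← Complex.exp_nat_mul, ← Complex.exp_add]
      congr 1
      push_cast
      ring
    simp only [h4, div_eq_mul_inv]
    rw [← Finset.sum_mul, ← Finset.mul_sum, geom_sum_eq hw1']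
    have h5 : w - 1 ≠ 0 := sub_ne_zero.2 hw1'
    have h6 : 1 - w ≠ 0 := sub_ne_zero.2 hw1'.symm
    field_simp
    ring
  have h5 : ‖w / (1 - w)‖ = 1 / ‖cexp ((m : ℂ) * z) - 1‖ := by
    have h6 : w / (1 - w) = 1 / (cexp ((m : ℂ) * z) - 1) := by
      have h7 : cexp ((m : ℂ) * z) = w⁻¹ := by
        rw [hw, ← Complex.exp_neg, neg_neg]
      have h8 : 1 - w ≠ 0 := sub_ne_zero.2 hw1'.symm
      rw [h7]
      have h9 : w⁻¹ - 1 = (1 - w) / w := by field_simp
      rw [h9, one_div_div]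
    rw [h6, norm_div, norm_one]
  have h7 : ‖1 - w ^ K‖ ≤ 1 + Real.exp (-(y * K)) := by
    refine (norm_sub_le _ _).trans ?_
    rw [norm_one, norm_pow, hwn, ← Real.exp_nat_mul]
    gcongr
    have h8 : (1 : ℝ) ≤ m := by exact_mod_cast hm
    have h9 : (0 : ℝ) ≤ K := Nat.cast_nonneg K
    have h10 : 0 ≤ (K : ℝ) * y * ((m : ℝ) - 1) := by
      apply mul_nonneg (by positivity) (by linarith)
    nlinarith
  have h8 : 1 / (m : ℝ) * (1 / ‖cexp ((m : ℂ) * z) - 1‖) ≤ mc y B m := by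
    have hBy : 0 < B * y := by positivity
    by_cases hm1 : m = 1
    · subst hm1
      have h9 : 1 / ‖cexp (((1 : ℕ) : ℂ) * z) - 1‖ ≤ 1 / (B * y) := by
        apply one_div_le_one_div_of_le hBy
        simpa using h1
      have h10 : mc y B 1 = 1 / (B * y) := by
        unfold mc; simp
      rw [h10]
      simpa using h9
    · by_cases hm2 : m = 2
      · subst hm2
        have h9 : 1 / ‖cexp (((2 : ℕ) : ℂ) * z) - 1‖ ≤ 1 / (B * y) := by
          apply one_div_le_one_div_of_le hBy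
          simpa using h2
        have h10 : mc y B 2 = 1 / 2 * (1 / (B * y)) := by
          unfold mc; simp; ring
        rw [h10]
        have : (((2 : ℕ) : ℝ)) = 2 := by norm_num
        rw [this]
        linarith
      · have h9 : (m : ℝ) * y ≤ ‖cexp ((m : ℂ) * z) - 1‖ := by
          have h10 : ‖cexp ((m : ℂ) * z)‖ = Real.exp (m * y) := by
            rw [Complex.norm_exp]
            congr 1
            rw [Complex.mul_re, Complex.natCast_re, Complex.natCast_im, hzre]
            ring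
          have h11 := norm_sub_norm_le (cexp ((m : ℂ) * z)) 1
          rw [h10, norm_one] at h11
          have h12 := Real.add_one_le_exp ((m : ℝ) * y)
          linarith
        have h10 : mc y B m = 1 / (m : ℝ) * (1 / ((m : ℝ) * y)) := by
          unfold mc
          rw [if_neg hm1, if_neg hm2]
          field_simp
          ring
        rw [h10]
        have h11 : 1 / ‖cexp ((m : ℂ) * z) - 1‖ ≤ 1 / ((m : ℝ) * y) :=
          one_div_le_one_div_of_le (by positivity) h9
        gcongr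
  rw [h3, norm_mul, norm_mul, h5, norm_div, norm_one, Complex.norm_natCast]
  calc 1 / (m : ℝ) * (1 / ‖cexp ((m : ℂ) * z) - 1‖ * ‖1 - w ^ K‖)
      = (1 / (m : ℝ) * (1 / ‖cexp ((m : ℂ) * z) - 1‖)) * ‖1 - w ^ K‖ := by ring
    _ ≤ mc y B m * (1 + Real.exp (-(y * K))) := by
        apply mul_le_mul h8 h7 (norm_nonneg _)
        refine le_trans ?_ h8
        positivity
    _ = (1 + Real.exp (-(y * K))) * mc y B m := by ring

/-- minor arc bound -/
theorem Phat_minor {y B θ : ℝ} (hy : 0 < y) (hB : 0 < B)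
    (h1 : B * y ≤ ‖cexp ((y : ℂ) + θ * I) - 1‖)
    (h2 : B * y ≤ ‖cexp (2 * ((y : ℂ) + θ * I)) - 1‖) :
    ‖Phat ((y : ℂ) + θ * I)‖ ≤ Real.exp ((Real.pi ^ 2 / 6 - 5 / 4) / y + 2 / (B * y)) := by
  set z : ℂ := (y : ℂ) + θ * I with hz
  have hzre : z.re = y := by simp [hz]
  have hq : ‖cexp (-z)‖ < 1 := by
    rw [Complex.norm_exp, Complex.neg_re, hzre, Real.exp_lt_one_iff]
    linarith
  set Bd : ℝ := (Real.pi ^ 2 / 6 - 5 / 4) / y + 2 / (B * y) with hBd
  have hsum : 1 / y * (Real.pi ^ 2 / 6) + (1 / (B * y) - 1 / y) + (1 / (2 * (B * y)) - 1 / (4 * y)) ≤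
      Bd := by
    have h3 : Bd - (1 / y * (Real.pi ^ 2 / 6) + (1 / (B * y) - 1 / y) +
        (1 / (2 * (B * y)) - 1 / (4 * y))) = 1 / (2 * (B * y)) := by
      rw [hBd]
      field_simp
      ring
    have h4 : 0 < 1 / (2 * (B * y)) := by positivity
    linarith
  have hfin : ∀ K : ℕ, Real.exp (-((1 + Real.exp (-(y * K))) * Bd)) ≤
      ‖∏ n ∈ Finset.range K, (1 - cexp (-z) ^ (n + 1))‖ := by
    intro K
    rw [minor_fin hq K]
    apply Real.exp_le_exp.2
    apply neg_le_neg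
    have h3 : HasSum (fun m : ℕ => ∑ n ∈ Finset.range K, (cexp (-z) ^ (n + 1)) ^ m / (m : ℂ))
        (∑ n ∈ Finset.range K, -Complex.log (1 - cexp (-z) ^ (n + 1))) := by
      apply hasSum_sum
      intro n _
      apply Complex.hasSum_taylorSeries_neg_log
      rw [norm_pow]
      exact pow_lt_one₀ (norm_nonneg _) hq (by omega)
    have h4 := h3.norm_le_of_bounded ((mc_sum y B).mul_left (1 + Real.exp (-(y * K))))
      (minor_term hy hB h1 h2 K)
    refine (Complex.re_le_norm _).trans (h4.trans ?_)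
    have := Real.exp_pos (-(y * K))
    exact mul_le_mul_of_nonneg_left hsum (by positivity)
  have hprod : Filter.Tendsto (fun K : ℕ => ‖∏ n ∈ Finset.range K, (1 - cexp (-z) ^ (n + 1))‖)
      Filter.atTop (nhds ‖euler (cexp (-z))‖) := by
    have h3 : Multipliable (fun n : ℕ => 1 - cexp (-z) ^ (n + 1)) :=
      ModularForm.multipliable_one_sub_pow hq
    exact (h3.hasProd.tendsto_prod_nat).norm
  have hexp : Filter.Tendsto (fun K : ℕ => Real.exp (-((1 + Real.exp (-(y * K))) * Bd)))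
      Filter.atTop (nhds (Real.exp (-((1 + 0) * Bd)))) := by
    have h3 : Filter.Tendsto (fun K : ℕ => Real.exp (-(y * (K : ℝ)))) Filter.atTop (nhds 0) := by
      apply Real.tendsto_exp_neg_atTop_nhds_zero.comp
      exact Filter.Tendsto.const_mul_atTop hy tendsto_natCast_atTop_atTop
    exact (Real.continuous_exp.tendsto _).comp ((((tendsto_const_nhds).add h3).mul_const Bd).neg)
  have hlim := le_of_tendsto_of_tendsto' hexp hprod hfin
  rw [add_zero, one_mul] at hlim
  unfold Phat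
  rw [norm_inv]
  have h5 : (Real.exp (-Bd))⁻¹ = Real.exp Bd := by rw [← Real.exp_neg, neg_neg]
  rw [← h5]
  exact inv_anti₀ (Real.exp_pos _) hlim

end PRT
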