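import Mathlib
import Pool.Agent.PRT.MAJ0
import Pool.Agent.PRT.MAJ1
import Pool.Agent.PRT.MINA
import Pool.Agent.PRT.ARC

namespace PRT

open Complex Metric

theorem asy_minor_int {n : ℕ} {y T B : ℝ} (hy : 0 < y) (hB : 0 < B) (hT : 0 < T)
    (hT' : T ≤ Real.pi / 2) (hBT : B * y ≤ 2 / Real.pi * T) {a b : ℝ} (hab : a ≤ b)
    (h : ∀ θ, a ≤ θ → θ ≤ b →
      (T ≤ θ ∧ θ ≤ Real.pi - T) ∨ (Real.pi + T ≤ θ ∧ θ ≤ 2 * Real.pi - T)) :
    ‖∫ θ : ℝ in a..b, Phat ((y : ℂ) + θ * I) * cexp (n * ((y : ℂ) + θ * I))‖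
      ≤ Real.exp (n * y + ((Real.pi ^ 2 / 6 - 5 / 4) / y + 2 / (B * y))) * (b - a) := by
  have key : ∀ θ ∈ Set.uIoc a b,
      ‖Phat ((y : ℂ) + θ * I) * cexp (n * ((y : ℂ) + θ * I))‖
        ≤ Real.exp (n * y + ((Real.pi ^ 2 / 6 - 5 / 4) / y + 2 / (B * y))) := by
    intro θ hθ
    rw [Set.uIoc_of_le hab] at hθ
    obtain ⟨h1, h2⟩ := arc_lower hy.le hT hT' (h θ hθ.1.le hθ.2)
    have hm := Phat_minor hy hB (hBT.trans h1) (hBT.trans h2)
    rw [norm_mul, Real.exp_add, mul_comm (Real.exp _)]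
    refine mul_le_mul hm ?_ (norm_nonneg _) (Real.exp_pos _).le
    rw [Complex.norm_exp]
    apply le_of_eq
    congr 1
    simp
  have := intervalIntegral.norm_integral_le_of_norm_le_const key
  rwa [abs_of_nonneg (sub_nonneg.2 hab)] at this

theorem asy_step {K0 K1 : ℝ}
    (h0 : ∀ n : ℕ, 2 ≤ n → ∀ y T : ℝ, 0 < y → y ≤ T →
      y ^ 2 + T ^ 2 ≤ y →
      ‖(1 / (2 * Real.pi) : ℂ) * (∫ θ : ℝ in (-T)..T,
          Phat ((y : ℂ) + θ * I) * cexp (n * ((y : ℂ) + θ * I)))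
          - ((Sb (Real.pi ^ 2 / 6) ((n : ℝ) - 1 / 24) / Real.sqrt (2 * Real.pi) : ℝ) : ℂ)‖
        ≤ K0 * Real.exp (n * y + (Real.pi ^ 2 / 6) / T))
    (h1 : ∀ n : ℕ, 2 ≤ n → ∀ y T : ℝ, 0 < y → y ≤ T →
      y ^ 2 + T ^ 2 ≤ y →
      ‖(1 / (2 * Real.pi) : ℂ) * (∫ θ : ℝ in (Real.pi - T)..(Real.pi + T),
          Phat ((y : ℂ) + θ * I) * cexp (n * ((y : ℂ) + θ * I)))
          - (((-1) ^ n * Real.sqrt 2 * Sb (Real.pi ^ 2 / 24) ((n : ℝ) - 1 / 24)
              / Real.sqrt (2 * Real.pi) : ℝ) : ℂ)‖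
        ≤ K1 * Real.exp (n * y + (Real.pi ^ 2 / 24) / T))
    {n : ℕ} (hn : 2 ≤ n) {y T B : ℝ} (hy : 0 < y) (hB : 0 < B) (hyT : y ≤ T)
    (hT' : T ≤ Real.pi / 2) (hBT : B * y ≤ 2 / Real.pi * T) (hyy : y ^ 2 + T ^ 2 ≤ y) :
    |(pc n : ℝ) - Fmain n| ≤ K0 * Real.exp (n * y + (Real.pi ^ 2 / 6) / T)
      + K1 * Real.exp (n * y + (Real.pi ^ 2 / 24) / T)
      + Real.exp (n * y + ((Real.pi ^ 2 / 6 - 5 / 4) / y + 2 / (B * y))) := by
  have hT : 0 < T := hy.trans_le hyT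
  have hpi := Real.pi_pos
  set f : ℝ → ℂ := fun θ => Phat ((y : ℂ) + θ * I) * cexp (n * ((y : ℂ) + θ * I)) with hf
  have hcont : Continuous f := by
    refine (Phat_continuous hy).mul ?_
    fun_prop
  have hint : ∀ a b : ℝ, IntervalIntegrable f MeasureTheory.volume a b :=
    fun a b => hcont.intervalIntegrable a b
  have hpc := pc_eq_integral n hy (-T)
  have hsplit : (∫ θ : ℝ in (-T)..(-T + 2 * Real.pi), f θ)
      = (∫ θ : ℝ in (-T)..T, f θ) + (∫ θ : ℝ in T..(Real.pi - T), f θ)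
        + (∫ θ : ℝ in (Real.pi - T)..(Real.pi + T), f θ)
        + (∫ θ : ℝ in (Real.pi + T)..(-T + 2 * Real.pi), f θ) := by
    rw [intervalIntegral.integral_add_adjacent_intervals (hint _ _) (hint _ _),
      intervalIntegral.integral_add_adjacent_intervals (hint _ _) (hint _ _),
      intervalIntegral.integral_add_adjacent_intervals (hint _ _) (hint _ _)]
  have hM1 := asy_minor_int (n := n) (a := T) (b := Real.pi - T) hy hB hT hT' hBT (by linarith)
    (fun θ h1 h2 => Or.inl ⟨h1, h2⟩)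
  have hM2 := asy_minor_int (n := n) (a := Real.pi + T) (b := -T + 2 * Real.pi) hy hB hT hT' hBT
    (by linarith) (fun θ h1 h2 => Or.inr ⟨h1, by linarith⟩)
  have hA0 := h0 n hn y T hy hyT hyy
  have hA1 := h1 n hn y T hy hyT hyy
  set M := Real.exp (n * y + ((Real.pi ^ 2 / 6 - 5 / 4) / y + 2 / (B * y))) with hMdef
  have hMpos : 0 < M := Real.exp_pos _
  change ‖∫ θ : ℝ in T..(Real.pi - T), f θ‖ ≤ _ at hM1
  change ‖∫ θ : ℝ in (Real.pi + T)..(-T + 2 * Real.pi), f θ‖ ≤ _ at hM2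
  change ‖(1 / (2 * Real.pi) : ℂ) * (∫ θ : ℝ in (-T)..T, f θ) - _‖ ≤ _ at hA0
  change ‖(1 / (2 * Real.pi) : ℂ) * (∫ θ : ℝ in (Real.pi - T)..(Real.pi + T), f θ) - _‖ ≤ _
    at hA1
  change (pc n : ℂ) = (1 / (2 * Real.pi)) * ∫ θ : ℝ in (-T)..(-T + 2 * Real.pi), f θ at hpc
  rw [hsplit] at hpc
  have hF : ((Fmain n : ℝ) : ℂ)
      = ((Sb (Real.pi ^ 2 / 6) ((n : ℝ) - 1 / 24) / Real.sqrt (2 * Real.pi) : ℝ) : ℂ)
        + (((-1) ^ n * Real.sqrt 2 * Sb (Real.pi ^ 2 / 24) ((n : ℝ) - 1 / 24)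
              / Real.sqrt (2 * Real.pi) : ℝ) : ℂ) := by
    rw [← Complex.ofReal_add]
    congr 1
    unfold Fmain
    rw [add_div]
  have hnorm : |(pc n : ℝ) - Fmain n| = ‖(pc n : ℂ) - ((Fmain n : ℝ) : ℂ)‖ := by
    rw [← Complex.ofReal_natCast, ← Complex.ofReal_sub, Complex.norm_real, Real.norm_eq_abs]
  rw [hnorm, hF, hpc]
  set I1 := ∫ θ : ℝ in (-T)..T, f θ
  set I2 := ∫ θ : ℝ in T..(Real.pi - T), f θ
  set I3 := ∫ θ : ℝ in (Real.pi - T)..(Real.pi + T), f θ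
  set I4 := ∫ θ : ℝ in (Real.pi + T)..(-T + 2 * Real.pi), f θ
  set A0 := ((Sb (Real.pi ^ 2 / 6) ((n : ℝ) - 1 / 24) / Real.sqrt (2 * Real.pi) : ℝ) : ℂ)
  set A1 := (((-1) ^ n * Real.sqrt 2 * Sb (Real.pi ^ 2 / 24) ((n : ℝ) - 1 / 24)
              / Real.sqrt (2 * Real.pi) : ℝ) : ℂ)
  have heq : (1 / (2 * Real.pi) : ℂ) * (I1 + I2 + I3 + I4) - (A0 + A1)
      = ((1 / (2 * Real.pi) : ℂ) * I1 - A0) + ((1 / (2 * Real.pi) : ℂ) * I3 - A1)
        + (1 / (2 * Real.pi) : ℂ) * (I2 + I4) := by ring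
  rw [heq]
  refine (norm_add_le _ _).trans ?_
  refine add_le_add ((norm_add_le _ _).trans (add_le_add hA0 hA1)) ?_
  have hc : ‖(1 / (2 * Real.pi) : ℂ)‖ = 1 / (2 * Real.pi) := by
    rw [norm_div, norm_mul, norm_one, Complex.norm_real, Real.norm_eq_abs, abs_of_pos hpi]
    simp
  rw [norm_mul, hc]
  have h24 : ‖I2 + I4‖ ≤ M * (2 * Real.pi) := by
    refine (norm_add_le _ _).trans ?_
    have : M * (Real.pi - T - T) + M * (-T + 2 * Real.pi - (Real.pi + T)) ≤ M * (2 * Real.pi) := by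
      nlinarith [mul_pos hMpos hT]
    exact (add_le_add hM1 hM2).trans this
  calc 1 / (2 * Real.pi) * ‖I2 + I4‖ ≤ 1 / (2 * Real.pi) * (M * (2 * Real.pi)) := by
        gcongr
    _ = M := by field_simp

open Filter in
/-- asymptotic formula with exponentially small relative error -/
theorem pc_asymp : ∀ᶠ n : ℕ in atTop,
    |(pc n : ℝ) - Fmain n| ≤ Real.exp (0.495 * Cst * Real.sqrt n) := by
  obtain ⟨K0, hK0, h0⟩ := major0
  obtain ⟨K1, hK1, h1⟩ := major1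
  have hpi := Real.pi_pos
  set s := Real.sqrt 6 with hs
  have hs0 : 0 < s := Real.sqrt_pos.2 (by norm_num)
  have hss : s * s = 6 := Real.mul_self_sqrt (by norm_num)
  have hsqrt : Tendsto (fun n : ℕ => Real.sqrt n) atTop atTop :=
    Real.tendsto_sqrt_atTop.comp tendsto_natCast_atTop_atTop
  have hC : Cst = 2 * (Real.pi / s) := by
    unfold Cst
    have : Real.sqrt (2 / 3) = 2 / s := by
      rw [Real.sqrt_eq_iff_mul_self_eq (by norm_num) (by positivity)]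
      rw [div_mul_div_comm, hss]; norm_num
    rw [this]; ring
  have hev1 : ∀ᶠ n : ℕ in atTop, (10 : ℝ) ^ 7 ≤ Real.sqrt n := hsqrt.eventually_ge_atTop _
  have hev2 : ∀ᶠ n : ℕ in atTop,
      Real.log (K0 + K1 + 1) ≤ 0.005 * (Real.pi / s) * Real.sqrt n := by
    have : Tendsto (fun n : ℕ => 0.005 * (Real.pi / s) * Real.sqrt n) atTop atTop :=
      hsqrt.const_mul_atTop (by positivity)
    exact this.eventually_ge_atTop _
  filter_upwards [hev1, hev2, eventually_ge_atTop 2] with n hn1 hn2 hn3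
  set r := Real.sqrt n with hr
  have hr0 : 0 < r := by linarith [show (0 : ℝ) < 10 ^ 7 by norm_num]
  have hrr : r * r = n := Real.mul_self_sqrt (by positivity)
  set u := Real.pi * r / s with hu
  have hu0 : 0 < u := by positivity
  set y := 0.49 * Real.pi / (s * r) with hyd
  have hy0 : 0 < y := by positivity
  have hny : (n : ℝ) * y = 0.49 * u := by
    rw [← hrr, hyd, hu]; field_simp
  have hyinv : 1 / y = 6 * u / (0.49 * Real.pi ^ 2) := by
    rw [hyd, hu]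
    field_simp
    nlinarith
  have hysmall : y ≤ 1 / (10 ^ 6 + 1) := by
    have hs2 : 2 < s := by nlinarith
    have h3 : Real.pi < 3.15 := Real.pi_lt_d2
    rw [hyd, div_le_div_iff₀ (by positivity) (by norm_num)]
    nlinarith [mul_pos hs0 hr0]
  have hstep := asy_step h0 h1 hn3 (y := y) (T := 1000 * y) (B := 2000 / Real.pi) hy0
    (by positivity) (by linarith)
    (by
      have : (3 : ℝ) < Real.pi := Real.pi_gt_three
      have : 1000 * y ≤ 1000 * (1 / (10 ^ 6 + 1)) := by linarith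
      norm_num at this ⊢
      linarith)
    (by apply le_of_eq; ring)
    (by nlinarith)
  refine hstep.trans ?_
  have he : Real.exp (0.495 * Cst * r) = Real.exp (0.005 * u) * Real.exp (0.985 * u) := by
    rw [← Real.exp_add]; congr 1; rw [hC, hu]; ring
  rw [he]
  have hpi2 : Real.pi < 3.1416 := Real.pi_lt_d4
  have hpi3 : (3 : ℝ) < Real.pi := Real.pi_gt_three
  have hexp0 : (n : ℝ) * y + (Real.pi ^ 2 / 6) / (1000 * y) ≤ 0.985 * u := by
    have : (Real.pi ^ 2 / 6) / (1000 * y) = u / 490 := by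
      have : (Real.pi ^ 2 / 6) / (1000 * y) = (Real.pi ^ 2 / 6) / 1000 * (1 / y) := by
        field_simp
      rw [this, hyinv]
      field_simp
      ring
    rw [this, hny]; linarith
  have hexp1 : (n : ℝ) * y + (Real.pi ^ 2 / 24) / (1000 * y) ≤ 0.985 * u := by
    have : (Real.pi ^ 2 / 24) / (1000 * y) = u / 1960 := by
      have : (Real.pi ^ 2 / 24) / (1000 * y) = (Real.pi ^ 2 / 24) / 1000 * (1 / y) := by
        field_simp
      rw [this, hyinv]
      field_simp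
      ring
    rw [this, hny]; linarith
  have hexp2 : (n : ℝ) * y + ((Real.pi ^ 2 / 6 - 5 / 4) / y + 2 / (2000 / Real.pi * y))
      ≤ 0.985 * u := by
    have h1' : (Real.pi ^ 2 / 6 - 5 / 4) / y + 2 / (2000 / Real.pi * y)
        = (Real.pi ^ 2 / 6 - 5 / 4 + Real.pi / 1000) * (1 / y) := by
      field_simp
      ring
    rw [h1', hyinv, hny]
    have h2' : (Real.pi ^ 2 / 6 - 5 / 4 + Real.pi / 1000) * (6 * u / (0.49 * Real.pi ^ 2))
        ≤ 0.495 * u := by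
      rw [mul_div_assoc', div_le_iff₀ (by positivity)]
      have : (Real.pi ^ 2 / 6 - 5 / 4 + Real.pi / 1000) * 6 ≤ 0.495 * (0.49 * Real.pi ^ 2) := by
        nlinarith
      nlinarith [mul_le_mul_of_nonneg_right this hu0.le]
    linarith
  have hK : K0 + K1 + 1 ≤ Real.exp (0.005 * u) := by
    rw [← Real.log_le_iff_le_exp (by positivity)]
    refine hn2.trans (le_of_eq ?_)
    rw [hu]; ring
  have e0 := Real.exp_le_exp.2 hexp0
  have e1 := Real.exp_le_exp.2 hexp1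
  have e2 := Real.exp_le_exp.2 hexp2
  have hE : 0 < Real.exp (0.985 * u) := Real.exp_pos _
  calc K0 * Real.exp (n * y + (Real.pi ^ 2 / 6) / (1000 * y))
      + K1 * Real.exp (n * y + (Real.pi ^ 2 / 24) / (1000 * y))
      + Real.exp (n * y + ((Real.pi ^ 2 / 6 - 5 / 4) / y + 2 / (2000 / Real.pi * y)))
      ≤ K0 * Real.exp (0.985 * u) + K1 * Real.exp (0.985 * u) + Real.exp (0.985 * u) := by
        gcongr
    _ = (K0 + K1 + 1) * Real.exp (0.985 * u) := by ring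
    _ ≤ Real.exp (0.005 * u) * Real.exp (0.985 * u) := by gcongr

end PRT
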