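import Mathlib
import Pool.Agent.PRT.Defs

namespace PRT

open Complex Metric

theorem binP_monic_prod (N i : ℕ) :
    (∏ s ∈ Finset.range i, (Polynomial.X - Polynomial.C ((N : ℂ) + s))).Monic :=
  Polynomial.monic_prod_of_monic _ _ fun _ _ => Polynomial.monic_X_sub_C _

theorem cast_descFactorial_prod (y i : ℕ) :
    ((y.descFactorial i : ℕ) : ℂ) = ∏ s ∈ Finset.range i, ((y : ℂ) - s) := by
  induction i with
  | zero => simp
  | succ i ih =>
    rw [Nat.descFactorial_succ, Finset.prod_range_succ, Nat.cast_mul, ih, mul_comm]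
    rcases le_or_gt i y with h | h
    · rw [Nat.cast_sub h]
    · have h0 : ∏ s ∈ Finset.range i, ((y : ℂ) - s) = 0 := by
        refine Finset.prod_eq_zero (Finset.mem_range.2 h) (sub_self _)
      rw [h0, zero_mul, zero_mul]

theorem binP_natDegree (N i : ℕ) : (binP N i).natDegree = i := by
  unfold binP
  rw [Polynomial.natDegree_C_mul (by
    exact one_div_ne_zero (by exact_mod_cast i.factorial_ne_zero))]
  rw [Polynomial.natDegree_prod_of_monic _ _ fun _ _ => Polynomial.monic_X_sub_C _]
  simp only [Polynomial.natDegree_X_sub_C, Finset.sum_const, Finset.card_range, smul_eq_mul,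
    mul_one]

theorem binP_ne_zero (N i : ℕ) : binP N i ≠ 0 := by
  unfold binP
  refine mul_ne_zero ?_ (binP_monic_prod N i).ne_zero
  rw [Ne, Polynomial.C_eq_zero]
  exact one_div_ne_zero (by exact_mod_cast i.factorial_ne_zero)

/-- value at an integer `x ≥ N` -/
theorem binP_eval_nat {N i x : ℕ} (hx : N ≤ x) :
    (binP N i).eval (x : ℂ) = ((x - N).choose i : ℂ) := by
  obtain ⟨y, rfl⟩ := Nat.exists_eq_add_of_le hx
  have h0 : (N + y - N : ℕ) = y := by omega
  rw [h0]
  unfold binP
  rw [Polynomial.eval_mul, Polynomial.eval_C, Polynomial.eval_prod]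
  have h1 : ∏ s ∈ Finset.range i,
      Polynomial.eval (((N + y : ℕ) : ℂ)) (Polynomial.X - Polynomial.C ((N : ℂ) + s))
      = ((y.descFactorial i : ℕ) : ℂ) := by
    rw [cast_descFactorial_prod]
    refine Finset.prod_congr rfl fun s _ => ?_
    simp
  rw [h1, Nat.descFactorial_eq_factorial_mul_choose]
  push_cast
  have : (i.factorial : ℂ) ≠ 0 := by exact_mod_cast i.factorial_ne_zero
  field_simp

theorem binP_bound {N i : ℕ} {R : ℝ} (hi : (i : ℝ) ≤ R) :
    ∀ z ∈ closedBall (N : ℂ) R, ‖(binP N i).eval z‖ ≤ (2 * R) ^ i / (i.factorial : ℝ) := by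
  intro z hz
  unfold binP
  rw [Polynomial.eval_mul, Polynomial.eval_C, Polynomial.eval_prod, norm_mul, norm_prod]
  have h1 : ‖(1 / (i.factorial : ℂ))‖ = 1 / (i.factorial : ℝ) := by
    rw [norm_div, norm_one, Complex.norm_natCast]
  have h2 : ∏ s ∈ Finset.range i, ‖Polynomial.eval z (Polynomial.X - Polynomial.C ((N : ℂ) + s))‖
      ≤ ∏ _s ∈ Finset.range i, (2 * R) := by
    refine Finset.prod_le_prod (fun s _ => norm_nonneg _) fun s hs => ?_
    have hs' : (s : ℝ) ≤ i := by exact_mod_cast (Finset.mem_range.1 hs).le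
    have : Polynomial.eval z (Polynomial.X - Polynomial.C ((N : ℂ) + s)) = (z - N) - s := by
      simp; ring
    rw [this]
    calc ‖(z - N) - (s : ℂ)‖ ≤ ‖z - N‖ + ‖(s : ℂ)‖ := norm_sub_le _ _
      _ ≤ R + R := by
        refine add_le_add ?_ ?_
        · simpa [dist_eq_norm] using hz
        · rw [Complex.norm_natCast]; linarith
      _ = 2 * R := by ring
  rw [Finset.prod_const, Finset.card_range] at h2
  rw [h1, div_eq_mul_one_div ((2 * R) ^ i), mul_comm]
  exact mul_le_mul_of_nonneg_right h2 (by positivity)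

/-- degree of a combination -/
theorem binP_sum_degree {N m : ℕ} (v : Fin m → ℂ) :
    (∑ i : Fin m, Polynomial.C (v i) * binP N i).degree < m := by
  rw [← Polynomial.mem_degreeLT]
  refine Submodule.sum_mem _ fun i _ => ?_
  rw [Polynomial.mem_degreeLT]
  by_cases h : v i = 0
  · rw [h, Polynomial.C_0, zero_mul, Polynomial.degree_zero]
    exact WithBot.bot_lt_coe _
  · rw [Polynomial.degree_C_mul h, Polynomial.degree_eq_natDegree (binP_ne_zero N i),
      binP_natDegree]
    exact_mod_cast i.2

/-- linear independence -/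
theorem binP_linIndep {N m : ℕ} (v : Fin m → ℂ)
    (h : ∑ i : Fin m, Polynomial.C (v i) * binP N i = 0) : v = 0 := by
  -- evaluate at `N, N+1, ...` and use strong induction
  have key : ∀ j : ℕ, ∀ hj : j < m, v ⟨j, hj⟩ = 0 := by
    intro j
    induction j using Nat.strong_induction_on with
    | _ j ih =>
      intro hj
      have h1 := congrArg (Polynomial.eval ((N + j : ℕ) : ℂ)) h
      rw [Polynomial.eval_finsetSum, Polynomial.eval_zero] at h1
      rw [Finset.sum_eq_single ⟨j, hj⟩] at h1
      · rw [Polynomial.eval_mul, Polynomial.eval_C, binP_eval_nat (Nat.le_add_right N j)] at h1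
        simpa using h1
      · intro b _ hb
        rw [Polynomial.eval_mul, Polynomial.eval_C, binP_eval_nat (Nat.le_add_right N j)]
        rcases lt_or_ge b.1 j with hlt | hge
        · have := ih b.1 hlt b.2
          rw [this, zero_mul]
        · have hbj : j < b.1 := lt_of_le_of_ne hge fun he => hb (Fin.ext he.symm)
          have : (N + j - N).choose b.1 = 0 := Nat.choose_eq_zero_of_lt (by omega)
          rw [this]; simp
      · intro hh; exact absurd (Finset.mem_univ _) hh
  funext i
  exact key i.1 i.2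

end PRT
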