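import Mathlib
import Pool.Agent.PRT.Defs

namespace PRT

open Complex Metric

/-- iterated difference quotients of a holomorphic function are holomorphic -/
theorem dd_diff {f : ℂ → ℂ} {x : ℕ → ℂ} {c : ℂ} {R' : ℝ}
    (hf : DifferentiableOn ℂ f (ball c R')) (hx : ∀ j, x j ∈ ball c R') (j : ℕ) :
    DifferentiableOn ℂ (dd f x j) (ball c R') := by
  induction j with
  | zero => exact hf
  | succ j ih =>
    show DifferentiableOn ℂ (dslope (dd f x j) (x j)) (ball c R')
    exact (Complex.differentiableOn_dslope (isOpen_ball.mem_nhds (hx j))).2 ih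

/-- Newton's interpolation formula with remainder -/
theorem dd_newton (f : ℂ → ℂ) (x : ℕ → ℂ) (r : ℕ) (z : ℂ) :
    f z = ∑ j ∈ Finset.range r, dd f x j (x j) * ∏ s ∈ Finset.range j, (z - x s)
      + (∏ s ∈ Finset.range r, (z - x s)) * dd f x r z := by
  induction r with
  | zero => simp [dd]
  | succ r ih =>
    have h : (z - x r) * dd f x (r + 1) z = dd f x r z - dd f x r (x r) := by
      have := sub_smul_dslope (dd f x r) (x r) z
      rw [smul_eq_mul] at this
      exact this
    rw [Finset.sum_range_succ, Finset.prod_range_succ, mul_assoc _ (z - x r), h]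
    rw [ih]
    ring

/-- bound for divided differences (maximum principle) -/
theorem dd_bound {f : ℂ → ℂ} {x : ℕ → ℂ} {c : ℂ} {R R' H B : ℝ} (hH : 0 ≤ H) (hHR : H < R)
    (hRR : R < R') (hf : DifferentiableOn ℂ f (ball c R')) (hx : ∀ j, ‖x j - c‖ ≤ H)
    (hB : ∀ z ∈ closedBall c R, ‖f z‖ ≤ B) (j : ℕ) :
    ∀ z ∈ closedBall c R, ‖dd f x j z‖ ≤ (2 / (R - H)) ^ j * B := by
  have hR : 0 < R - H := by linarith
  have hx' : ∀ j, x j ∈ ball c R' := by
    intro j
    rw [mem_ball, dist_eq_norm]
    linarith [hx j]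
  have hxR : ∀ j, x j ∈ closedBall c R := by
    intro j
    rw [mem_closedBall, dist_eq_norm]
    linarith [hx j]
  induction j with
  | zero => intro z hz; simpa [dd] using hB z hz
  | succ j ih =>
    have hd : DiffContOnCl ℂ (dd f x (j + 1)) (ball c R) := by
      apply DifferentiableOn.diffContOnCl
      apply (dd_diff hf hx' (j + 1)).mono
      exact closure_ball_subset_closedBall.trans (closedBall_subset_ball hRR)
    intro z hz
    have hcl : closure (ball c R) = closedBall c R := closure_ball c (by linarith)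
    refine Complex.norm_le_of_forall_mem_frontier_norm_le isBounded_ball hd ?_ (hcl ▸ hz)
    intro w hw
    rw [frontier_ball c (by linarith : R ≠ 0)] at hw
    rw [mem_sphere, dist_eq_norm] at hw
    have h1 : R - H ≤ ‖w - x j‖ := by
      have : ‖w - c‖ ≤ ‖w - x j‖ + ‖x j - c‖ := by
        have := norm_add_le (w - x j) (x j - c)
        simpa using this
      linarith [hx j]
    have hne : w ≠ x j := by
      intro h
      rw [h, sub_self, norm_zero] at h1
      linarith
    have h2 : (w - x j) * dd f x (j + 1) w = dd f x j w - dd f x j (x j) := by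
      have := sub_smul_dslope (dd f x j) (x j) w
      rw [smul_eq_mul] at this
      exact this
    have hw' : w ∈ closedBall c R := by
      rw [mem_closedBall, dist_eq_norm]; exact hw.le
    have h3 : ‖w - x j‖ * ‖dd f x (j + 1) w‖ ≤ 2 * ((2 / (R - H)) ^ j * B) := by
      rw [← norm_mul, h2]
      calc _ ≤ ‖dd f x j w‖ + ‖dd f x j (x j)‖ := norm_sub_le _ _
        _ ≤ (2 / (R - H)) ^ j * B + (2 / (R - H)) ^ j * B := add_le_add (ih w hw') (ih _ (hxR j))
        _ = _ := by ring
    have h4 : (R - H) * ‖dd f x (j + 1) w‖ ≤ 2 * ((2 / (R - H)) ^ j * B) :=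
      (mul_le_mul_of_nonneg_right h1 (norm_nonneg _)).trans h3
    calc ‖dd f x (j + 1) w‖ ≤ (2 * ((2 / (R - H)) ^ j * B)) / (R - H) := by
          rw [le_div_iff₀ hR]; linarith
      _ = _ := by rw [pow_succ]; ring

end PRT
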