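import Mathlib
import Pool.Agent.PRT.DD

namespace PRT

open Complex Metric

/-- interpolation determinant bound -/
theorem det_bound {M : ℕ} (f : Fin M → ℂ → ℂ) (x : Fin M → ℂ) {c : ℂ} {R R' H : ℝ}
    (B : Fin M → ℝ) (hH : 0 ≤ H) (hHR : H < R) (hRR : R < R')
    (hf : ∀ i, DifferentiableOn ℂ (f i) (ball c R')) (hx : ∀ r, ‖x r - c‖ ≤ H)
    (hB : ∀ i, ∀ z ∈ closedBall c R, ‖f i z‖ ≤ B i) :
    ‖(Matrix.of fun r i => f i (x r)).det‖ ≤
      (M.factorial : ℝ) * (4 * H / (R - H)) ^ (M * (M - 1) / 2) * ∏ i, B i := by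
  set y : ℕ → ℂ := fun n => if h : n < M then x ⟨n, h⟩ else c with hy
  have hyx : ∀ r : Fin M, y r = x r := by
    intro r
    simp only [hy, r.2, dif_pos]
  have hyH : ∀ j, ‖y j - c‖ ≤ H := by
    intro j
    simp only [hy]
    split_ifs with h
    · exact hx _
    · simpa using hH
  have hRH : 0 < R - H := by linarith
  set L : Matrix (Fin M) (Fin M) ℂ :=
    Matrix.of fun r j => ∏ s ∈ Finset.range (j : ℕ), (y r - y s) with hL
  set D : Matrix (Fin M) (Fin M) ℂ :=
    Matrix.of fun j i => dd (f i) y j (y j) with hD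
  have hmul : (Matrix.of fun r i => f i (x r)) = L * D := by
    ext r i
    rw [Matrix.mul_apply]
    have h1 := dd_newton (f i) y M (y r)
    have h2 : ∏ s ∈ Finset.range M, (y r - y s) = 0 :=
      Finset.prod_eq_zero (Finset.mem_range.2 r.2) (sub_self _)
    rw [h2, zero_mul, add_zero] at h1
    show f i (x r) = _
    rw [← hyx, h1, ← Fin.sum_univ_eq_sum_range
      (fun j => dd (f i) y j (y j) * ∏ s ∈ Finset.range j, (y r - y s)) M]
    refine Finset.sum_congr rfl fun j _ => ?_
    rw [mul_comm]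
    rfl
  have hsum : ∑ j : Fin M, (j : ℕ) = M * (M - 1) / 2 := by
    rw [Fin.sum_univ_eq_sum_range (fun j => j) M, Finset.sum_range_id]
  -- the triangular factor
  have hLd : ‖L.det‖ ≤ (2 * H) ^ (M * (M - 1) / 2) := by
    have htri : L.BlockTriangular OrderDual.toDual := by
      intro r j hrj
      have hlt : (r : ℕ) < j := by
        have := OrderDual.toDual_lt_toDual.1 hrj
        exact this
      show ∏ s ∈ Finset.range (j : ℕ), (y r - y s) = 0
      exact Finset.prod_eq_zero (Finset.mem_range.2 hlt) (sub_self _)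
    rw [Matrix.det_of_isLowerTriangular L htri, norm_prod]
    calc ∏ j : Fin M, ‖L j j‖ ≤ ∏ j : Fin M, (2 * H) ^ (j : ℕ) := by
          refine Finset.prod_le_prod (fun j _ => norm_nonneg _) fun j _ => ?_
          show ‖∏ s ∈ Finset.range (j : ℕ), (y j - y s)‖ ≤ _
          rw [norm_prod]
          calc ∏ s ∈ Finset.range (j : ℕ), ‖y j - y s‖
              ≤ ∏ _s ∈ Finset.range (j : ℕ), 2 * H := by
                refine Finset.prod_le_prod (fun s _ => norm_nonneg _) fun s _ => ?_
                calc ‖y j - y s‖ = ‖(y j - c) - (y s - c)‖ := by congr 1; ring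
                  _ ≤ ‖y j - c‖ + ‖y s - c‖ := norm_sub_le _ _
                  _ ≤ 2 * H := by linarith [hyH j, hyH s]
            _ = (2 * H) ^ (j : ℕ) := by rw [Finset.prod_const, Finset.card_range]
      _ = (2 * H) ^ (M * (M - 1) / 2) := by rw [Finset.prod_pow_eq_pow_sum, hsum]
  -- the factor of divided differences
  have hB0 : ∀ i, 0 ≤ B i := fun i =>
    (norm_nonneg _).trans (hB i c (mem_closedBall_self (by linarith)))
  have hDb : ∀ j i : Fin M, ‖D j i‖ ≤ (2 / (R - H)) ^ (j : ℕ) * B i := by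
    intro j i
    refine dd_bound hH hHR hRR (hf i) hyH (hB i) j (y j) ?_
    rw [mem_closedBall, dist_eq_norm]
    linarith [hyH j]
  have hDd : ‖D.det‖ ≤ (M.factorial : ℝ) * ((2 / (R - H)) ^ (M * (M - 1) / 2) * ∏ i, B i) := by
    rw [Matrix.det_apply]
    calc ‖∑ σ : Equiv.Perm (Fin M), Equiv.Perm.sign σ • ∏ i, D (σ i) i‖
        ≤ ∑ σ : Equiv.Perm (Fin M), ‖Equiv.Perm.sign σ • ∏ i, D (σ i) i‖ := norm_sum_le _ _
      _ ≤ ∑ _σ : Equiv.Perm (Fin M), (2 / (R - H)) ^ (M * (M - 1) / 2) * ∏ i, B i := by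
          refine Finset.sum_le_sum fun σ _ => ?_
          have h1 : ‖Equiv.Perm.sign σ • ∏ i, D (σ i) i‖ = ∏ i, ‖D (σ i) i‖ := by
            rcases Int.units_eq_one_or (Equiv.Perm.sign σ) with h | h
            · rw [h, one_smul, norm_prod]
            · rw [h, Units.neg_smul, one_smul, norm_neg, norm_prod]
          rw [h1]
          calc ∏ i, ‖D (σ i) i‖ ≤ ∏ i, (2 / (R - H)) ^ ((σ i : Fin M) : ℕ) * B i :=
                Finset.prod_le_prod (fun i _ => norm_nonneg _) fun i _ => hDb _ _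
            _ = (2 / (R - H)) ^ (M * (M - 1) / 2) * ∏ i, B i := by
                rw [Finset.prod_mul_distrib, Finset.prod_pow_eq_pow_sum,
                  Equiv.sum_comp σ (fun i : Fin M => (i : ℕ)), hsum]
      _ = _ := by
          rw [Finset.sum_const, Finset.card_univ, Fintype.card_perm, Fintype.card_fin,
            nsmul_eq_mul]
  rw [hmul, Matrix.det_mul, norm_mul]
  calc ‖L.det‖ * ‖D.det‖
      ≤ (2 * H) ^ (M * (M - 1) / 2) *
        ((M.factorial : ℝ) * ((2 / (R - H)) ^ (M * (M - 1) / 2) * ∏ i, B i)) :=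
        mul_le_mul hLd hDd (norm_nonneg _) (by positivity)
    _ = (M.factorial : ℝ) * (4 * H / (R - H)) ^ (M * (M - 1) / 2) * ∏ i, B i := by
        have : (4 * H / (R - H)) = (2 * H) * (2 / (R - H)) := by ring
        rw [this, mul_pow (2 * H) (2 / (R - H))]
        generalize (2 * H) ^ (M * (M - 1) / 2) = u
        generalize (2 / (R - H)) ^ (M * (M - 1) / 2) = v
        ring

end PRT
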