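import Mathlib
import Pool.Agent.PRT.Defs

namespace PRT

open Complex Metric

private theorem lag_fact_le_prod (A : Finset ℕ) :
    (∀ a ∈ A, 0 < a) → A.card.factorial ≤ ∏ a ∈ A, a := by
  induction A using Finset.induction_on_max with
  | empty => intro _; simp
  | insert a s hmax ih =>
    intro hpos
    have hns : a ∉ s := fun h => lt_irrefl _ (hmax a h)
    rw [Finset.card_insert_of_notMem hns, Finset.prod_insert hns, Nat.factorial_succ]
    refine Nat.mul_le_mul ?_ (ih (fun b hb => hpos b (Finset.mem_insert_of_mem hb)))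
    have hsub : s ⊆ Finset.Ico 1 a := by
      intro b hb
      rw [Finset.mem_Ico]
      exact ⟨hpos b (Finset.mem_insert_of_mem hb), hmax b hb⟩
    have h1 := Finset.card_le_card hsub
    rw [Nat.card_Ico] at h1
    have h2 : 0 < a := hpos a (Finset.mem_insert_self _ _)
    omega

private theorem lag_fact_le_prod_image {ι : Type*} [DecidableEq ι] (s : Finset ι) (f : ι → ℕ)
    (hinj : Set.InjOn f s) (hpos : ∀ i ∈ s, 0 < f i) : s.card.factorial ≤ ∏ i ∈ s, f i := by
  have h := lag_fact_le_prod (s.image f) (by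
    intro a ha
    obtain ⟨i, hi, rfl⟩ := Finset.mem_image.1 ha
    exact hpos i hi)
  rw [Finset.card_image_of_injOn hinj, Finset.prod_image hinj] at h
  exact h

private theorem lag_prod_ge {g : ℕ} (x : Fin g → ℕ) (hx : Function.Injective x) (r : Fin g) :
    ((g - 1).factorial : ℝ) / 2 ^ (g - 1) ≤
      ∏ s ∈ Finset.univ.erase r, ‖(x r : ℂ) - (x s : ℂ)‖ := by
  classical
  set E : Finset (Fin g) := Finset.univ.erase r with hE
  set L : Finset (Fin g) := E.filter (fun s => x s < x r) with hL
  set U : Finset (Fin g) := E.filter (fun s => ¬ x s < x r) with hU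
  have hEc : E.card = g - 1 := by
    rw [hE, Finset.card_erase_of_mem (Finset.mem_univ _), Finset.card_univ, Fintype.card_fin]
  have hcard : L.card + U.card = g - 1 := by
    rw [← hEc]
    exact Finset.card_filter_add_card_filter_not _
  have hL1 : (L.card.factorial : ℝ) ≤ ∏ s ∈ L, ‖(x r : ℂ) - (x s : ℂ)‖ := by
    have h := lag_fact_le_prod_image L (fun s => x r - x s) (by
      intro a ha b hb hab
      simp only [hL, Finset.coe_filter, Set.mem_ofPred_eq] at ha hb
      have : x a = x b := by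
        have h1 := ha.2
        have h2 := hb.2
        simp only at hab
        omega
      exact hx this) (by
      intro a ha
      have h1 := (Finset.mem_filter.1 ha).2
      omega)
    have h' : (L.card.factorial : ℝ) ≤ ((∏ s ∈ L, (x r - x s) : ℕ) : ℝ) := by exact_mod_cast h
    refine h'.trans (le_of_eq ?_)
    rw [Nat.cast_prod]
    refine Finset.prod_congr rfl ?_
    intro s hs
    have h1 := (Finset.mem_filter.1 hs).2
    rw [Nat.cast_sub h1.le]
    have : (x r : ℂ) - (x s : ℂ) = (((x r : ℝ) - (x s : ℝ) : ℝ) : ℂ) := by push_cast; ring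
    rw [this, Complex.norm_real, Real.norm_eq_abs, abs_of_nonneg]
    have : (x s : ℝ) ≤ x r := by exact_mod_cast h1.le
    linarith
  have hU1 : (U.card.factorial : ℝ) ≤ ∏ s ∈ U, ‖(x r : ℂ) - (x s : ℂ)‖ := by
    have hlt : ∀ s ∈ U, x r < x s := by
      intro s hs
      have h1 := (Finset.mem_filter.1 hs).2
      have h2 := (Finset.mem_filter.1 hs).1
      have h3 : s ≠ r := (Finset.mem_erase.1 h2).1
      have h4 : x s ≠ x r := fun h => h3 (hx h)
      omega
    have h := lag_fact_le_prod_image U (fun s => x s - x r) (by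
      intro a ha b hb hab
      have h1 := hlt a ha
      have h2 := hlt b hb
      have : x a = x b := by
        simp only at hab
        omega
      exact hx this) (by
      intro a ha
      have h1 := hlt a ha
      omega)
    have h' : (U.card.factorial : ℝ) ≤ ((∏ s ∈ U, (x s - x r) : ℕ) : ℝ) := by exact_mod_cast h
    refine h'.trans (le_of_eq ?_)
    rw [Nat.cast_prod]
    refine Finset.prod_congr rfl ?_
    intro s hs
    have h1 := hlt s hs
    rw [Nat.cast_sub h1.le, norm_sub_rev]
    have : (x s : ℂ) - (x r : ℂ) = (((x s : ℝ) - (x r : ℝ) : ℝ) : ℂ) := by push_cast; ring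
    rw [this, Complex.norm_real, Real.norm_eq_abs, abs_of_nonneg]
    have : (x r : ℝ) ≤ x s := by exact_mod_cast h1.le
    linarith
  have hsplit : ∏ s ∈ E, ‖(x r : ℂ) - (x s : ℂ)‖ =
      (∏ s ∈ L, ‖(x r : ℂ) - (x s : ℂ)‖) * ∏ s ∈ U, ‖(x r : ℂ) - (x s : ℂ)‖ :=
    (Finset.prod_filter_mul_prod_filter_not _ _ _).symm
  rw [hsplit]
  have hfac : ((g - 1).factorial : ℝ) ≤
      2 ^ (g - 1) * ((L.card.factorial : ℝ) * (U.card.factorial : ℝ)) := by
    rw [← hcard]
    have h1 := Nat.add_choose_mul_factorial_mul_factorial L.card U.card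
    have h2 : (L.card + U.card).choose U.card ≤ 2 ^ (L.card + U.card) := Nat.choose_le_two_pow _ _
    have h3 : (L.card + U.card).factorial ≤
        2 ^ (L.card + U.card) * (L.card.factorial * U.card.factorial) := by
      rw [← h1, mul_assoc]
      exact Nat.mul_le_mul_right _ h2
    exact_mod_cast h3
  rw [div_le_iff₀ (by positivity)]
  refine hfac.trans ?_
  rw [mul_comm]
  refine mul_le_mul_of_nonneg_right ?_ (by positivity)
  exact mul_le_mul hL1 hU1 (by positivity) (Finset.prod_nonneg (fun _ _ => norm_nonneg _))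

/-- Lagrange interpolation at integer nodes, with bound -/
theorem lagrange_bound {g : ℕ} (hg : 0 < g) (x : Fin g → ℕ) (hx : Function.Injective x) {N : ℕ}
    {H : ℝ} (hxN : ∀ r, N ≤ x r ∧ (x r : ℝ) ≤ N + H) (v : Fin g → ℂ) {τ : ℝ}
    (hv : ∀ r, ‖v r‖ ≤ τ) :
    ∃ Lp : Polynomial ℂ, Lp.degree < g ∧ (∀ r, Lp.eval (x r : ℂ) = v r) ∧
      ∀ ρ : ℝ, H ≤ ρ → ∀ z ∈ closedBall (N : ℂ) ρ,
        ‖Lp.eval z‖ ≤ g * τ * ((4 * ρ) ^ (g - 1) / ((g - 1).factorial : ℝ)) := by
  classical
  have hinj : Set.InjOn (fun r : Fin g => (x r : ℂ)) (Finset.univ : Finset (Fin g)) := by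
    intro a _ b _ hab
    apply hx
    simp only at hab
    exact_mod_cast hab
  refine ⟨Lagrange.interpolate Finset.univ (fun r : Fin g => (x r : ℂ)) v, ?_, ?_, ?_⟩
  · have h := Lagrange.degree_interpolate_lt v hinj
    rw [Finset.card_univ, Fintype.card_fin] at h
    exact h
  · intro r
    exact Lagrange.eval_interpolate_at_node v hinj (Finset.mem_univ r)
  · intro ρ hρ z hz
    have hτ : 0 ≤ τ := (norm_nonneg _).trans (hv ⟨0, hg⟩)
    have hH : 0 ≤ H := by
      have h1 := hxN ⟨0, hg⟩
      have h2 : (N : ℝ) ≤ x ⟨0, hg⟩ := by exact_mod_cast h1.1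
      linarith [h1.2]
    have hρ0 : 0 ≤ ρ := hH.trans hρ
    rw [Lagrange.interpolate_apply, Polynomial.eval_finsetSum]
    have hterm : ∀ r : Fin g, ‖(Polynomial.C (v r) *
        Lagrange.basis Finset.univ (fun r : Fin g => (x r : ℂ)) r).eval z‖ ≤
        τ * ((4 * ρ) ^ (g - 1) / ((g - 1).factorial : ℝ)) := by
      intro r
      rw [Polynomial.eval_mul, Polynomial.eval_C, norm_mul]
      refine mul_le_mul (hv r) ?_ (norm_nonneg _) hτ
      rw [Lagrange.basis, Polynomial.eval_prod, norm_prod]
      have hfac : ∀ s ∈ Finset.univ.erase r,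
          ‖(Lagrange.basisDivisor (x r : ℂ) (x s : ℂ)).eval z‖ =
            ‖z - (x s : ℂ)‖ / ‖(x r : ℂ) - (x s : ℂ)‖ := by
        intro s _
        rw [Lagrange.basisDivisor, Polynomial.eval_mul, Polynomial.eval_C, Polynomial.eval_sub,
          Polynomial.eval_X, Polynomial.eval_C, norm_mul, norm_inv]
        rw [div_eq_mul_inv, mul_comm]
      rw [Finset.prod_congr rfl hfac, Finset.prod_div_distrib]
      have hden := lag_prod_ge x hx r
      have hfpos : (0 : ℝ) < ((g - 1).factorial : ℝ) / 2 ^ (g - 1) := by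
        have : 0 < (g - 1).factorial := Nat.factorial_pos _
        positivity
      have hnum : ∏ s ∈ Finset.univ.erase r, ‖z - (x s : ℂ)‖ ≤ (2 * ρ) ^ (g - 1) := by
        have h1 : ∀ s ∈ Finset.univ.erase r, ‖z - (x s : ℂ)‖ ≤ 2 * ρ := by
          intro s _
          have h2 : ‖z - (N : ℂ)‖ ≤ ρ := by
            rw [← dist_eq_norm]; exact mem_closedBall.1 hz
          have h3 : ‖(N : ℂ) - (x s : ℂ)‖ ≤ H := by
            rw [norm_sub_rev]
            have h4 := hxN s
            have h5 : (N : ℝ) ≤ x s := by exact_mod_cast h4.1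
            have : (x s : ℂ) - (N : ℂ) = (((x s : ℝ) - (N : ℝ) : ℝ) : ℂ) := by push_cast; ring
            rw [this, Complex.norm_real, Real.norm_eq_abs, abs_of_nonneg (by linarith)]
            linarith [h4.2]
          calc ‖z - (x s : ℂ)‖ = ‖(z - (N : ℂ)) + ((N : ℂ) - (x s : ℂ))‖ := by congr 1; ring
            _ ≤ ‖z - (N : ℂ)‖ + ‖(N : ℂ) - (x s : ℂ)‖ := norm_add_le _ _
            _ ≤ 2 * ρ := by linarith
        have h2 := Finset.prod_le_prod (fun s _ => norm_nonneg (z - (x s : ℂ))) h1
        rw [Finset.prod_const, Finset.card_erase_of_mem (Finset.mem_univ _), Finset.card_univ,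
          Fintype.card_fin] at h2
        exact h2
      calc (∏ s ∈ Finset.univ.erase r, ‖z - (x s : ℂ)‖) /
            (∏ s ∈ Finset.univ.erase r, ‖(x r : ℂ) - (x s : ℂ)‖)
          ≤ (2 * ρ) ^ (g - 1) / (((g - 1).factorial : ℝ) / 2 ^ (g - 1)) :=
            div_le_div₀ (by positivity) hnum hfpos hden
        _ = (4 * ρ) ^ (g - 1) / ((g - 1).factorial : ℝ) := by
            have h4 : (4 * ρ : ℝ) = 2 * (2 * ρ) := by ring
            rw [h4, mul_pow 2 (2 * ρ)]
            have : ((g - 1).factorial : ℝ) ≠ 0 := by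
              have : 0 < (g - 1).factorial := Nat.factorial_pos _
              positivity
            field_simp
    calc ‖∑ r : Fin g, (Polynomial.C (v r) *
          Lagrange.basis Finset.univ (fun r : Fin g => (x r : ℂ)) r).eval z‖
        ≤ ∑ r : Fin g, ‖(Polynomial.C (v r) *
          Lagrange.basis Finset.univ (fun r : Fin g => (x r : ℂ)) r).eval z‖ := norm_sum_le _ _
      _ ≤ ∑ _r : Fin g, τ * ((4 * ρ) ^ (g - 1) / ((g - 1).factorial : ℝ)) :=
          Finset.sum_le_sum (fun r _ => hterm r)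
      _ = g * τ * ((4 * ρ) ^ (g - 1) / ((g - 1).factorial : ℝ)) := by
          rw [Finset.sum_const, Finset.card_univ, Fintype.card_fin, nsmul_eq_mul]
          ring

end PRT
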