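import Mathlib
import Pool.Agent.PRT.Defs

namespace PRT

open Complex Metric

namespace Num4

open Filter Topology

lemma tendsto_natCast : Tendsto (fun N : ℕ => (N : ℝ)) atTop atTop := tendsto_natCast_atTop_atTop

lemma log_sq_div_sqrt : Tendsto (fun N : ℕ => Real.log N ^ 2 / Real.sqrt N) atTop (𝓝 0) := by
  have h1 : Tendsto (fun x : ℝ => Real.log x ^ 2 / x ^ ((1 : ℝ) / 2)) atTop (𝓝 0) := by
    have h := (isLittleO_log_rpow_rpow_atTop (r := 2) (s := 1 / 2) (by norm_num)).tendsto_div_nhds_zero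
    refine h.congr' ?_
    filter_upwards [eventually_ge_atTop 1] with x hx
    simp
  refine (h1.comp tendsto_natCast).congr ?_
  intro N
  simp [Real.sqrt_eq_rpow]

lemma log_div_sqrt : Tendsto (fun N : ℕ => Real.log N / Real.sqrt N) atTop (𝓝 0) := by
  refine squeeze_zero' ?_ ?_ log_sq_div_sqrt
  · filter_upwards with N
    positivity
  · have h1 : ∀ᶠ N : ℕ in atTop, 1 ≤ Real.log N :=
      (Real.tendsto_log_atTop.comp tendsto_natCast).eventually_ge_atTop 1
    filter_upwards [h1] with N hN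
    gcongr
    nlinarith

lemma tendsto_SS {c : ℝ} (hc : 0 < c) : Tendsto (SS c) atTop atTop := by
  have h1 : Tendsto (fun N : ℕ => Real.sqrt N / Real.log N) atTop atTop := by
    have h2 : Tendsto (fun N : ℕ => (Real.log N / Real.sqrt N)⁻¹) atTop atTop := by
      apply Tendsto.inv_tendsto_nhdsGT_zero
      rw [tendsto_nhdsWithin_iff]
      refine ⟨log_div_sqrt, ?_⟩
      filter_upwards [eventually_gt_atTop 1] with N hN
      have hN' : (1 : ℝ) < N := by exact_mod_cast hN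
      have := Real.log_pos hN'
      have h3 : 0 < Real.sqrt N := Real.sqrt_pos.2 (by linarith)
      exact div_pos this h3
    refine h2.congr ?_
    intro N
    rw [inv_div]
  have h3 := h1.const_mul_atTop (show 0 < 2 * c by linarith)
  refine h3.congr ?_
  intro N
  unfold SS
  ring

lemma ceil_lim {c a : ℝ} (hc : 0 < c) (ha : 0 < a) :
    Tendsto (fun N : ℕ => (⌈a * SS c N⌉₊ : ℝ) * Real.log N / Real.sqrt N) atTop (𝓝 (a * (2 * c))) := by
  have h1 : Tendsto (fun N : ℕ => (⌈a * SS c N⌉₊ : ℝ) / (a * SS c N)) atTop (𝓝 1) :=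
    (tendsto_nat_ceil_div_atTop (R := ℝ)).comp ((tendsto_SS hc).const_mul_atTop ha)
  have h2 := h1.mul_const (a * (2 * c))
  rw [one_mul] at h2
  refine h2.congr' ?_
  filter_upwards [eventually_gt_atTop 1] with N hN
  have hN' : (1 : ℝ) < N := by exact_mod_cast hN
  have hL := Real.log_pos hN'
  have h3 : 0 < Real.sqrt N := Real.sqrt_pos.2 (by linarith)
  unfold SS
  field_simp

lemma ceil_lim0 {c a : ℝ} (hc : 0 < c) (ha : 0 < a) :
    Tendsto (fun N : ℕ => (⌈a * SS c N⌉₊ : ℝ) / Real.sqrt N) atTop (𝓝 0) := by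
  have h1 := ceil_lim hc ha
  have h2 : Tendsto (fun N : ℕ => (Real.log N)⁻¹) atTop (𝓝 0) :=
    (Real.tendsto_log_atTop.comp tendsto_natCast).inv_tendsto_atTop
  have h3 := h1.mul h2
  rw [mul_zero] at h3
  refine h3.congr' ?_
  filter_upwards [eventually_gt_atTop 1] with N hN
  have hN' : (1 : ℝ) < N := by exact_mod_cast hN
  have hL := Real.log_pos hN'
  have h3 : 0 < Real.sqrt N := Real.sqrt_pos.2 (by linarith)
  field_simp

lemma sqrt_tendsto : Tendsto (fun N : ℕ => Real.sqrt N) atTop atTop :=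
  Real.tendsto_sqrt_atTop.comp tendsto_natCast

/-- `log l * log N / √N → 0` for `1 ≤ l ≤ √N` -/
lemma loglog_lim {l : ℕ → ℕ} (h1 : ∀ᶠ N in atTop, 1 ≤ l N) (h2 : ∀ᶠ N in atTop, (l N : ℝ) ≤ Real.sqrt N) :
    Tendsto (fun N : ℕ => Real.log (l N) * Real.log N / Real.sqrt N) atTop (𝓝 0) := by
  refine squeeze_zero' ?_ ?_ log_sq_div_sqrt
  · filter_upwards [h1] with N hN
    positivity
  · filter_upwards [h1, h2, eventually_gt_atTop 1] with N hN hN2 hN3
    have hN' : (1 : ℝ) < N := by exact_mod_cast hN3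
    have hL := Real.log_pos hN'
    have h5 : (l N : ℝ) ≤ N := by
      refine hN2.trans ?_
      rw [Real.sqrt_le_left (by linarith)]
      nlinarith
    have h6 : Real.log (l N) ≤ Real.log N := by
      apply Real.log_le_log _ h5
      exact_mod_cast hN
    have h7 : 0 ≤ Real.sqrt N := Real.sqrt_nonneg _
    gcongr
    nlinarith

lemma log_lim {l : ℕ → ℕ} (h1 : ∀ᶠ N in atTop, 1 ≤ l N) (h2 : ∀ᶠ N in atTop, (l N : ℝ) ≤ Real.sqrt N) :
    Tendsto (fun N : ℕ => Real.log (l N) / Real.sqrt N) atTop (𝓝 0) := by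
  have h3 := loglog_lim h1 h2
  have h4 : Tendsto (fun N : ℕ => (Real.log N)⁻¹) atTop (𝓝 0) :=
    (Real.tendsto_log_atTop.comp tendsto_natCast).inv_tendsto_atTop
  have h5 := h3.mul h4
  rw [mul_zero] at h5
  refine h5.congr' ?_
  filter_upwards [eventually_gt_atTop 1] with N hN
  have hN' : (1 : ℝ) < N := by exact_mod_cast hN
  have hL := Real.log_pos hN'
  have h3 : 0 < Real.sqrt N := Real.sqrt_pos.2 (by linarith)
  field_simp

lemma rpow_lim {ω : ℝ} (hω : ω < 1 / 2) :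
    Tendsto (fun N : ℕ => (N : ℝ) ^ ω / Real.sqrt N) atTop (𝓝 0) := by
  have h1 := (tendsto_rpow_neg_atTop (y := 1 / 2 - ω) (by linarith)).comp tendsto_natCast
  refine h1.congr' ?_
  filter_upwards [eventually_gt_atTop 0] with N hN
  have hN' : (0 : ℝ) < N := by exact_mod_cast hN
  simp only [Function.comp]
  rw [Real.sqrt_eq_rpow, ← Real.rpow_sub hN']
  congr 1
  ring

lemma gg_lim {c η : ℝ} (hc : 0 < c) (hη : 0 < η) :
    Tendsto (fun N : ℕ => (gg c η N : ℝ) * Real.log N / Real.sqrt N) atTop (𝓝 ((2 + η) * (2 * c))) := by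
  have h1 := ceil_lim (a := 1 + η) hc (by linarith)
  have h2 := ceil_lim (a := 1) hc one_pos
  have h3 := h1.add h2
  have h4 : (1 + η) * (2 * c) + 1 * (2 * c) = (2 + η) * (2 * c) := by ring
  rw [h4] at h3
  refine h3.congr ?_
  intro N
  simp only [gg, mm, one_mul, Nat.cast_add]
  ring

lemma gg_lim0 {c η : ℝ} (hc : 0 < c) (hη : 0 < η) :
    Tendsto (fun N : ℕ => (gg c η N : ℝ) / Real.sqrt N) atTop (𝓝 0) := by
  have h1 := ceil_lim0 (a := 1 + η) hc (by linarith)
  have h2 := ceil_lim0 (a := 1) hc one_pos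
  have h3 := h1.add h2
  rw [add_zero] at h3
  refine h3.congr ?_
  intro N
  simp only [gg, mm, one_mul, Nat.cast_add]
  ring

end Num4

open Num4 Topology

open Filter in
/-- second numerical inequality of the small value contradiction; `R = ϱ N / 2` -/
theorem num4 {c κ η ϵ ϱ : ℝ} (h : Par c κ η ϵ ϱ) : ∀ᶠ N : ℕ in atTop,
    ((mm c η N).factorial : ℝ) / HH (η ^ 2 / 32) N ^ (mm c η N)
      * Real.exp (2 * sig c N * HH (η ^ 2 / 32) N)
      * (2 * ((6 * HH (η ^ 2 / 32) N / (ϱ * N / 2 - HH (η ^ 2 / 32) N)) ^ (gg c η N)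
        * (((ll c η N : ℝ) * 8 ^ (ll c η N)) * Real.exp (2 * sig c N * (ϱ * N / 2)))))
      < LBN c η ϵ ϱ N := by
  obtain ⟨hc, hη, hη1, hϵ, hϱ, hϱϵ, -⟩ := h
  have hϵ0 : 0 < ϵ := by rw [hϵ]; positivity
  have hϵ1 : ϵ ≤ 1 / 320 := by rw [hϵ]; linarith
  set ω : ℝ := η ^ 2 / 32 with hω
  have hω0 : 0 < ω := by positivity
  have hω1 : ω ≤ 1 / 12800 := by rw [hω]; nlinarith
  have hlog2 : 0 < Real.log 2 := Real.log_pos (by norm_num)
  -- limits
  have lm : Tendsto (fun N : ℕ => (mm c η N : ℝ) * Real.log N / Real.sqrt N) atTop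
      (𝓝 ((1 + η) * (2 * c))) := ceil_lim hc (by linarith)
  have lm0 : Tendsto (fun N : ℕ => (mm c η N : ℝ) / Real.sqrt N) atTop (𝓝 0) :=
    ceil_lim0 hc (by linarith)
  have lL : Tendsto (fun N : ℕ => (ll c η N : ℝ) * Real.log N / Real.sqrt N) atTop
      (𝓝 (η * (2 * c))) := ceil_lim hc hη
  have lL0 : Tendsto (fun N : ℕ => (ll c η N : ℝ) / Real.sqrt N) atTop (𝓝 0) := ceil_lim0 hc hη
  have lg := gg_lim hc hη
  have lg0 := gg_lim0 hc hη
  have el1 : ∀ᶠ N in atTop, 1 ≤ ll c η N := by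
    filter_upwards [(tendsto_SS hc).eventually_gt_atTop 0] with N hN
    unfold ll
    exact Nat.one_le_iff_ne_zero.2 (Nat.pos_iff_ne_zero.1 (Nat.ceil_pos.2 (by positivity)))
  have el2 : ∀ᶠ N in atTop, (ll c η N : ℝ) ≤ Real.sqrt N := by
    filter_upwards [lL0.eventually_le_const (show (0 : ℝ) < 1 by norm_num), eventually_gt_atTop 0] with N hN hN2
    have h3 : 0 < Real.sqrt N := Real.sqrt_pos.2 (by exact_mod_cast hN2)
    rwa [div_le_one h3] at hN
  have em : ∀ᶠ N in atTop, (mm c η N : ℝ) ≤ Real.sqrt N := by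
    filter_upwards [lm0.eventually_le_const (show (0 : ℝ) < 1 by norm_num), eventually_gt_atTop 0] with N hN hN2
    have h3 : 0 < Real.sqrt N := Real.sqrt_pos.2 (by exact_mod_cast hN2)
    rwa [div_le_one h3] at hN
  have lll := loglog_lim el1 el2
  have lll0 := log_lim el1 el2
  have lr : Tendsto (fun N : ℕ => (N : ℝ) ^ ω / Real.sqrt N) atTop (𝓝 0) := rpow_lim (by linarith)
  have lr2 : Tendsto (fun N : ℕ => (1 : ℝ) / Real.sqrt N) atTop (𝓝 0) := by
    refine sqrt_tendsto.inv_tendsto_atTop.congr (fun N => ?_)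
    simp
  have lone : Tendsto (fun N : ℕ => Real.sqrt N / Real.sqrt N) atTop (𝓝 1) := by
    refine tendsto_const_nhds.congr' ?_
    filter_upwards [eventually_gt_atTop 0] with N hN2
    have h3 : 0 < Real.sqrt N := Real.sqrt_pos.2 (by exact_mod_cast hN2)
    field_simp
  -- exponents
  set u : ℕ → ℝ := fun N => c * (N : ℝ) ^ ω + Real.log 2
    + (gg c η N : ℝ) * (Real.log (24 / ϱ) - (1 / 2 - ω) * Real.log N)
    + (Real.log (ll c η N) + (ll c η N : ℝ) * Real.log 8) + c * ϱ / 2 * Real.sqrt N with hu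
  set v : ℕ → ℝ := fun N => (mm c η N : ℝ) * (Real.log (c / 2) - Real.log N / 2)
    + 2 * (mm c η N : ℝ) * Real.log (1 - ϵ)
    + (2 * (mm c η N : ℝ) * Real.log (1 - ϵ) - (mm c η N : ℝ) * Real.log (1 + 2 * ϵ)
        - (Real.log (ll c η N) + (ll c η N : ℝ) * Real.log 8))
      * ((Real.log (ϱ / 8) + (1 / 2 - ω) * Real.log N) / Real.log 2) with hv
  have hulim : Tendsto (fun N => u N / Real.sqrt N) atTop
      (𝓝 (-(1 / 2 - ω) * ((2 + η) * (2 * c)) + c * ϱ / 2)) := by
    have h1 := ((((lr.const_mul c).add (lr2.const_mul (Real.log 2))).add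
      ((lg0.const_mul (Real.log (24 / ϱ))).add (lg.const_mul (-(1 / 2 - ω))))).add
      (lll0.add (lL0.const_mul (Real.log 8)))).add (lone.const_mul (c * ϱ / 2))
    have h2 : c * 0 + Real.log 2 * 0 + (Real.log (24 / ϱ) * 0 + -(1 / 2 - ω) * ((2 + η) * (2 * c)))
        + (0 + Real.log 8 * 0) + c * ϱ / 2 * 1 = -(1 / 2 - ω) * ((2 + η) * (2 * c)) + c * ϱ / 2 := by ring
    rw [h2] at h1
    refine h1.congr ?_
    intro N
    rw [hu]
    ring
  have hvlim : Tendsto (fun N => v N / Real.sqrt N) atTop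
      (𝓝 (-(1 / 2) * ((1 + η) * (2 * c)) + (1 / 2 - ω) / Real.log 2 *
        (2 * Real.log (1 - ϵ) * ((1 + η) * (2 * c)) - Real.log (1 + 2 * ϵ) * ((1 + η) * (2 * c))
          - (0 + Real.log 8 * (η * (2 * c)))))) := by
    have h1 := (((lm0.const_mul (Real.log (c / 2))).add (lm.const_mul (-(1 / 2)))).add
      (lm0.const_mul (2 * Real.log (1 - ϵ)))).add
      (((((lm0.const_mul (2 * Real.log (1 - ϵ))).sub (lm0.const_mul (Real.log (1 + 2 * ϵ)))).sub
        (lll0.add (lL0.const_mul (Real.log 8)))).const_mul (Real.log (ϱ / 8) / Real.log 2)).add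
      ((((lm.const_mul (2 * Real.log (1 - ϵ))).sub (lm.const_mul (Real.log (1 + 2 * ϵ)))).sub
        (lll.add (lL.const_mul (Real.log 8)))).const_mul ((1 / 2 - ω) / Real.log 2)))
    have h2 : Real.log (c / 2) * 0 + -(1 / 2) * ((1 + η) * (2 * c)) + 2 * Real.log (1 - ϵ) * 0
        + (Real.log (ϱ / 8) / Real.log 2 * (2 * Real.log (1 - ϵ) * 0 - Real.log (1 + 2 * ϵ) * 0
          - (0 + Real.log 8 * 0)) + (1 / 2 - ω) / Real.log 2 *
        (2 * Real.log (1 - ϵ) * ((1 + η) * (2 * c)) - Real.log (1 + 2 * ϵ) * ((1 + η) * (2 * c))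
          - (0 + Real.log 8 * (η * (2 * c))))) = -(1 / 2) * ((1 + η) * (2 * c)) + (1 / 2 - ω) / Real.log 2 *
        (2 * Real.log (1 - ϵ) * ((1 + η) * (2 * c)) - Real.log (1 + 2 * ϵ) * ((1 + η) * (2 * c))
          - (0 + Real.log 8 * (η * (2 * c)))) := by ring
    rw [h2] at h1
    refine h1.congr ?_
    intro N
    rw [hv]
    ring
  have hAB : -(1 / 2 - ω) * ((2 + η) * (2 * c)) + c * ϱ / 2
      < -(1 / 2) * ((1 + η) * (2 * c)) + (1 / 2 - ω) / Real.log 2 *
        (2 * Real.log (1 - ϵ) * ((1 + η) * (2 * c)) - Real.log (1 + 2 * ϵ) * ((1 + η) * (2 * c))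
          - (0 + Real.log 8 * (η * (2 * c)))) := by
    have hl8 : Real.log 8 = 3 * Real.log 2 := by
      rw [show (8 : ℝ) = 2 ^ 3 by norm_num, Real.log_pow]; norm_num
    have hl2 : (0.69 : ℝ) ≤ Real.log 2 := by linarith [Real.log_two_gt_d9]
    have ha : -(2 * ϵ) ≤ Real.log (1 - ϵ) := by
      have h1 := Real.one_sub_inv_le_log_of_pos (show 0 < 1 - ϵ by linarith)
      have h2 : (1 - ϵ)⁻¹ ≤ 1 + 2 * ϵ := by
        rw [inv_le_comm₀ (by linarith) (by linarith)]
        rw [inv_le_comm₀ (by linarith) (by linarith)]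
        rw [inv_eq_one_div, div_le_iff₀ (by linarith)]
        nlinarith
      linarith
    have hb : Real.log (1 + 2 * ϵ) ≤ 2 * ϵ := by
      have := Real.log_le_sub_one_of_pos (show 0 < 1 + 2 * ϵ by linarith)
      linarith
    have hr : 0 < (1 / 2 - ω) / Real.log 2 := div_pos (by linarith) hlog2
    have hr2 : (1 / 2 - ω) / Real.log 2 ≤ 1 / 1.38 := by
      rw [div_le_div_iff₀ hlog2 (by norm_num)]
      nlinarith
    have e1 : (1 / 2 - ω) / Real.log 2 *
        (2 * Real.log (1 - ϵ) * ((1 + η) * (2 * c)) - Real.log (1 + 2 * ϵ) * ((1 + η) * (2 * c))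
          - (0 + Real.log 8 * (η * (2 * c))))
        = c * ((1 / 2 - ω) / Real.log 2 * ((1 + η) * (4 * Real.log (1 - ϵ) - 2 * Real.log (1 + 2 * ϵ))))
          - c * ((1 / 2 - ω) * (6 * η)) := by
      rw [hl8]
      field_simp
      ring
    rw [e1]
    have e2 : -(12 * ϵ) ≤ 4 * Real.log (1 - ϵ) - 2 * Real.log (1 + 2 * ϵ) := by linarith
    have e3 : -(1.05 * (12 * ϵ)) ≤ (1 + η) * (4 * Real.log (1 - ϵ) - 2 * Real.log (1 + 2 * ϵ)) := by
      nlinarith
    have e4 : -(1 / 1.38 * (1.05 * (12 * ϵ))) ≤ (1 / 2 - ω) / Real.log 2 *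
        ((1 + η) * (4 * Real.log (1 - ϵ) - 2 * Real.log (1 + 2 * ϵ))) := by
      have := mul_le_mul_of_nonneg_left e3 hr.le
      have h5 : (1 / 2 - ω) / Real.log 2 * (1.05 * (12 * ϵ)) ≤ 1 / 1.38 * (1.05 * (12 * ϵ)) :=
        mul_le_mul_of_nonneg_right hr2 (by positivity)
      linarith
    have e5 : 0 < (-(1 / 2) * ((1 + η) * 2) + ((1 / 2 - ω) / Real.log 2 *
        ((1 + η) * (4 * Real.log (1 - ϵ) - 2 * Real.log (1 + 2 * ϵ)))) - (1 / 2 - ω) * (6 * η))
        - (-(1 / 2 - ω) * ((2 + η) * 2) + ϱ / 2) := by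
      have h6 : (1 / 2 - ω) * (6 * η) ≤ 3 * η := by nlinarith
      have h7 : 1.9 ≤ (1 / 2 - ω) * ((2 + η) * 2) := by nlinarith
      have h8 : 1 / 1.38 * (1.05 * (12 * ϵ)) ≤ 0.03 := by
        norm_num; linarith
      linarith
    nlinarith [mul_pos hc e5]
  have hlt := hulim.eventually_lt hvlim hAB
  have eH : ∀ᶠ N : ℕ in atTop, (N : ℝ) ^ (1 / 2 + ω) ≤ ϱ * N / 4 := by
    have h1 : Tendsto (fun N : ℕ => (N : ℝ) ^ (1 / 2 + ω) / N) atTop (𝓝 0) := by
      have h2 := (tendsto_rpow_neg_atTop (y := 1 / 2 - ω) (by linarith)).comp tendsto_natCast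
      refine h2.congr' ?_
      filter_upwards [eventually_gt_atTop 0] with N hN
      have hN' : (0 : ℝ) < N := by exact_mod_cast hN
      simp only [Function.comp]
      rw [eq_div_iff hN'.ne']
      nth_rewrite 2 [← Real.rpow_one (N : ℝ)]
      rw [← Real.rpow_add hN']
      congr 1
      ring
    filter_upwards [h1.eventually_le_const (show (0 : ℝ) < ϱ / 4 by positivity), eventually_gt_atTop 0] with N hN hN2
    have hN' : (0 : ℝ) < N := by exact_mod_cast hN2
    rw [div_le_iff₀ hN'] at hN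
    linarith
  filter_upwards [hlt, el1, em, eH, eventually_gt_atTop 1] with N hN hl1 hmN hHN hN1
  have hN0 : (0 : ℝ) < N := by exact_mod_cast (lt_trans Nat.zero_lt_one hN1)
  have hN1' : (1 : ℝ) < N := by exact_mod_cast hN1
  have hs : 0 < Real.sqrt N := Real.sqrt_pos.2 hN0
  have huv : u N < v N := by
    have := (div_lt_div_iff_of_pos_right hs).1 hN
    exact this
  have hHdef : HH ω N = (N : ℝ) ^ (1 / 2 + ω) := rfl
  have hHpos : 0 < HH ω N := by rw [hHdef]; positivity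
  have hHge : Real.sqrt N ≤ HH ω N := by
    rw [hHdef, Real.sqrt_eq_rpow]
    exact Real.rpow_le_rpow_of_exponent_le hN1'.le (by linarith)
  have hl1' : (1 : ℝ) ≤ ll c η N := by exact_mod_cast hl1
  have hlpos : (0 : ℝ) < ll c η N := by linarith
  -- left side
  have L1 : ((mm c η N).factorial : ℝ) / HH ω N ^ (mm c η N) ≤ 1 := by
    rw [div_le_one (by positivity)]
    calc ((mm c η N).factorial : ℝ) ≤ ((mm c η N : ℕ) : ℝ) ^ (mm c η N) := by
          exact_mod_cast Nat.factorial_le_pow _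
      _ ≤ HH ω N ^ (mm c η N) := by
          gcongr
          exact hmN.trans hHge
  have L2 : 2 * sig c N * HH ω N = c * (N : ℝ) ^ ω := by
    unfold sig
    rw [hHdef, Real.rpow_add hN0, ← Real.sqrt_eq_rpow]
    field_simp
  have L3 : 2 * sig c N * (ϱ * N / 2) = c * ϱ / 2 * Real.sqrt N := by
    unfold sig
    have : (N : ℝ) = Real.sqrt N * Real.sqrt N := (Real.mul_self_sqrt hN0.le).symm
    nth_rewrite 2 [this]
    field_simp
  have L4 : 6 * HH ω N / (ϱ * N / 2 - HH ω N) ≤ Real.exp (Real.log (24 / ϱ) - (1 / 2 - ω) * Real.log N) := by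
    have h1 : ϱ * N / 4 ≤ ϱ * N / 2 - HH ω N := by rw [hHdef]; linarith
    have h2 : 0 < ϱ * N / 4 := by positivity
    rw [Real.exp_sub, Real.exp_log (by positivity), div_le_iff₀ (by linarith)]
    have h3 : Real.exp ((1 / 2 - ω) * Real.log N) = (N : ℝ) ^ (1 / 2 - ω) := by
      rw [Real.rpow_def_of_pos hN0, mul_comm]
    rw [h3]
    have h4 : HH ω N * (N : ℝ) ^ (1 / 2 - ω) = N := by
      rw [hHdef, ← Real.rpow_add hN0]
      rw [show (1 / 2 + ω + (1 / 2 - ω) : ℝ) = 1 by ring, Real.rpow_one]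
    have h5 : 0 < (N : ℝ) ^ (1 / 2 - ω) := by positivity
    have h6 : 6 * HH ω N = 24 / ϱ / (N : ℝ) ^ (1 / 2 - ω) * (ϱ * N / 4) := by
      generalize (N : ℝ) ^ (1 / 2 - ω) = P at h4 h5
      rw [← h4]
      field_simp
      norm_num
    rw [h6]
    gcongr
  have L4' : 0 ≤ 6 * HH ω N / (ϱ * N / 2 - HH ω N) := by
    have h1 : ϱ * N / 4 ≤ ϱ * N / 2 - HH ω N := by rw [hHdef]; linarith
    have h2 : 0 < ϱ * N / 4 := by positivity
    exact div_nonneg (by positivity) (by linarith)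
  have L5 : (ll c η N : ℝ) * 8 ^ (ll c η N) = Real.exp (Real.log (ll c η N) + (ll c η N : ℝ) * Real.log 8) := by
    rw [Real.exp_add, Real.exp_log hlpos, ← Real.log_pow, Real.exp_log (by positivity)]
  have hLHS : ((mm c η N).factorial : ℝ) / HH ω N ^ (mm c η N)
      * Real.exp (2 * sig c N * HH ω N)
      * (2 * ((6 * HH ω N / (ϱ * N / 2 - HH ω N)) ^ (gg c η N)
        * (((ll c η N : ℝ) * 8 ^ (ll c η N)) * Real.exp (2 * sig c N * (ϱ * N / 2))))) ≤ Real.exp (u N) := by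
    have e0 : Real.exp (u N) = 1 * Real.exp (c * (N : ℝ) ^ ω) *
        (2 * (Real.exp (Real.log (24 / ϱ) - (1 / 2 - ω) * Real.log N) ^ (gg c η N)
          * (Real.exp (Real.log (ll c η N) + (ll c η N : ℝ) * Real.log 8)
            * Real.exp (c * ϱ / 2 * Real.sqrt N)))) := by
      have e1 : u N = c * (N : ℝ) ^ ω + (Real.log 2
          + ((gg c η N : ℝ) * (Real.log (24 / ϱ) - (1 / 2 - ω) * Real.log N)
          + ((Real.log (ll c η N) + (ll c η N : ℝ) * Real.log 8) + c * ϱ / 2 * Real.sqrt N))) := by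
        rw [hu]; ring
      rw [e1, Real.exp_add, Real.exp_add (Real.log 2), Real.exp_log (by norm_num : (0 : ℝ) < 2),
        Real.exp_add ((gg c η N : ℝ) * _), Real.exp_nat_mul,
        Real.exp_add (Real.log (ll c η N) + (ll c η N : ℝ) * Real.log 8), one_mul]
    rw [e0, L2, L3, L5]
    have h1 := pow_le_pow_left₀ L4' L4 (gg c η N)
    gcongr
  -- right side
  have hRHS : LBN c η ϵ ϱ N = Real.exp (v N) := by
    unfold LBN
    have h1 : sig c N ^ (mm c η N) = Real.exp ((mm c η N : ℝ) * (Real.log (c / 2) - Real.log N / 2)) := by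
      rw [Real.exp_nat_mul]
      congr 1
      rw [Real.exp_sub, Real.exp_log (by positivity), Real.exp_half, Real.exp_log hN0]
      unfold sig
      field_simp
    have h2 : (1 - ϵ) ^ (2 * mm c η N) = Real.exp (2 * (mm c η N : ℝ) * Real.log (1 - ϵ)) := by
      rw [show 2 * (mm c η N : ℝ) * Real.log (1 - ϵ) = ((2 * mm c η N : ℕ) : ℝ) * Real.log (1 - ϵ) by
        push_cast; ring]
      rw [Real.exp_nat_mul, Real.exp_log (by linarith)]
    have h3 : (1 + 2 * ϵ) ^ (mm c η N) = Real.exp ((mm c η N : ℝ) * Real.log (1 + 2 * ϵ)) := by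
      rw [Real.exp_nat_mul, Real.exp_log (by linarith)]
    have h4 : Real.log (2 * (ϱ * N / 16) / HH ω N) = Real.log (ϱ / 8) + (1 / 2 - ω) * Real.log N := by
      rw [← Real.log_rpow hN0, ← Real.log_mul (by positivity) (by positivity)]
      congr 1
      rw [hHdef, div_eq_iff (by positivity), mul_assoc, ← Real.rpow_add hN0]
      rw [show (1 / 2 - ω + (1 / 2 + ω) : ℝ) = 1 by ring, Real.rpow_one]
      ring
    rw [h1, h2, h3, h4, L5]
    simp only [← Real.exp_add, ← Real.exp_sub, ← Real.exp_mul]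
    rw [hv]
    congr 1
    ring
  calc _ ≤ Real.exp (u N) := hLHS
    _ < Real.exp (v N) := Real.exp_lt_exp.2 huv
    _ = _ := hRHS.symm

end PRT
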