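import Mathlib
import Pool.Agent.PRT.Defs
import Pool.Agent.PRT.NUM4

namespace PRT

open Complex Metric

open Filter Topology Num4 in
/-- size comparisons valid for large `N` -/
theorem num0 {c κ η ϵ ϱ : ℝ} (h : Par c κ η ϵ ϱ) : ∀ᶠ N : ℕ in atTop,
    1 ≤ N ∧ 1 ≤ ll c η N ∧ ll c η N ≤ mm c η N ∧ mm c η N + ll c η N ≤ gg c η N ∧
    (gg c η N : ℝ) ≤ Real.sqrt N ∧ 1 ≤ HH (η ^ 2 / 32) N ∧ HH (η ^ 2 / 32) N ≤ ϱ * N / 16 ∧
    (mm c η N : ℝ) ≤ HH (η ^ 2 / 32) N ∧ (mm c η N : ℝ) ≤ ϱ * N / 2 ∧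
    (mm c η N : ℝ) / (4 * (ϱ * N / 16)) ≤ ϵ * sig c N ∧ 0 < sig c N := by
  obtain ⟨hc, hη, hη1, hϵ, hϱ, hϱϵ, hκ⟩ := h
  have hϵ0 : 0 < ϵ := by rw [hϵ]; positivity
  set ω : ℝ := η ^ 2 / 32 with hω
  have hω0 : 0 < ω := by positivity
  have hω1 : ω ≤ 1 / 12800 := by rw [hω]; nlinarith
  have lm0 : Tendsto (fun N : ℕ => (mm c η N : ℝ) / Real.sqrt N) atTop (𝓝 0) :=
    ceil_lim0 hc (by linarith)
  have lg0 := gg_lim0 hc hη
  have eg : ∀ᶠ N : ℕ in atTop, (gg c η N : ℝ) ≤ Real.sqrt N := by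
    filter_upwards [lg0.eventually_le_const (show (0 : ℝ) < 1 by norm_num), eventually_gt_atTop 0] with N hN hN2
    have h3 : 0 < Real.sqrt N := Real.sqrt_pos.2 (by exact_mod_cast hN2)
    rwa [div_le_one h3] at hN
  have em : ∀ᶠ N : ℕ in atTop, (mm c η N : ℝ) ≤ (ϵ * c * ϱ / 8) * Real.sqrt N := by
    filter_upwards [lm0.eventually_le_const (show (0 : ℝ) < ϵ * c * ϱ / 8 by positivity), eventually_gt_atTop 0] with N hN hN2
    have h3 : 0 < Real.sqrt N := Real.sqrt_pos.2 (by exact_mod_cast hN2)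
    rwa [div_le_iff₀ h3] at hN
  have eH : ∀ᶠ N : ℕ in atTop, (N : ℝ) ^ (1 / 2 + ω) ≤ ϱ * N / 16 := by
    have h1 : Tendsto (fun N : ℕ => (N : ℝ) ^ (1 / 2 + ω) / N) atTop (𝓝 0) := by
      have h2 := (tendsto_rpow_neg_atTop (y := 1 / 2 - ω) (by linarith)).comp tendsto_natCast
      refine h2.congr' ?_
      filter_upwards [eventually_gt_atTop 0] with N hN
      have hN' : (0 : ℝ) < N := by exact_mod_cast hN
      simp only [Function.comp]
      rw [eq_div_iff hN'.ne']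
      nth_rewrite 2 [← Real.rpow_one (N : ℝ)]
      rw [← Real.rpow_add hN']
      congr 1
      ring
    filter_upwards [h1.eventually_le_const (show (0 : ℝ) < ϱ / 16 by positivity), eventually_gt_atTop 0] with N hN hN2
    have hN' : (0 : ℝ) < N := by exact_mod_cast hN2
    rw [div_le_iff₀ hN'] at hN
    linarith
  have eS : ∀ᶠ N : ℕ in atTop, 2 / (1 - η) ≤ SS c N := (tendsto_SS hc).eventually_ge_atTop _
  filter_upwards [eg, em, eH, eS, eventually_gt_atTop 1] with N hg hm hH hS hN1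
  have hN' : (1 : ℝ) < N := by exact_mod_cast hN1
  have hN0 : (0 : ℝ) < N := by linarith
  have hs : 0 < Real.sqrt N := Real.sqrt_pos.2 hN0
  have hSpos : 0 < SS c N := lt_of_lt_of_le (by have : 0 < 1 - η := by linarith
                                                positivity) hS
  have hHge : Real.sqrt N ≤ HH ω N := by
    unfold HH
    rw [Real.sqrt_eq_rpow]
    exact Real.rpow_le_rpow_of_exponent_le hN'.le (by linarith)
  have hs1 : 1 ≤ Real.sqrt N := by rw [Real.one_le_sqrt]; exact hN'.le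
  have hl1 : 1 ≤ ll c η N := Nat.one_le_iff_ne_zero.2 (Nat.pos_iff_ne_zero.1
    (Nat.ceil_pos.2 (by positivity)))
  have hlm : ll c η N ≤ mm c η N := by
    unfold ll mm
    apply Nat.ceil_le_ceil
    nlinarith
  have hlS : ll c η N ≤ ⌈SS c N⌉₊ := by
    unfold ll
    apply Nat.ceil_le_ceil
    nlinarith
  have hmg : (mm c η N : ℝ) ≤ gg c η N := by
    unfold gg
    push_cast
    have : (0 : ℝ) ≤ (⌈SS c N⌉₊ : ℝ) := Nat.cast_nonneg _
    linarith
  have hsig : 0 < sig c N := by unfold sig; positivity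
  have hHN : HH ω N ≤ ϱ * N / 16 := hH
  have hϱN : 0 < ϱ * N := by positivity
  refine ⟨hN1.le, hl1, hlm, ?_, hg, hs1.trans hHge, hHN, (hmg.trans hg).trans hHge,
    ((hmg.trans hg).trans hHge).trans (by linarith), ?_, hsig⟩
  · unfold gg; omega
  · rw [div_le_iff₀ (by positivity)]
    have e1 : ϵ * sig c N * (4 * (ϱ * N / 16)) = (ϵ * c * ϱ / 8) * Real.sqrt N := by
      unfold sig
      have hsq : (N : ℝ) = Real.sqrt N * Real.sqrt N := (Real.mul_self_sqrt hN0.le).symm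
      generalize Real.sqrt (N : ℝ) = t at *
      rw [hsq]
      field_simp
      norm_num
    rw [e1]
    exact hm

end PRT
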