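import Mathlib
import Pool.Agent.PRT.Defs
import Pool.Agent.PRT.NUM4

namespace PRT

open Complex Metric

namespace Num1q

open Filter Topology Num4

/-- `y^i / i! ≤ (y/s)^i e^s` -/
lemma pow_div_fac {y s : ℝ} (hy : 0 ≤ y) (hs : 0 < s) (i : ℕ) :
    y ^ i / (i.factorial : ℝ) ≤ (y / s) ^ i * Real.exp s := by
  have h := Real.pow_div_factorial_le_exp s hs.le i
  have h2 : y ^ i / (i.factorial : ℝ) = (y / s) ^ i * (s ^ i / (i.factorial : ℝ)) := by
    rw [div_pow]; field_simp
  rw [h2]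
  gcongr

lemma prod_pow_div_fac {y s : ℝ} (hy : 0 ≤ y) (hs : 0 < s) (m : ℕ) :
    ∏ i ∈ Finset.range m, y ^ i / (i.factorial : ℝ) ≤
      (y / s) ^ (m * (m - 1) / 2) * Real.exp s ^ m := by
  calc ∏ i ∈ Finset.range m, y ^ i / (i.factorial : ℝ)
      ≤ ∏ i ∈ Finset.range m, ((y / s) ^ i * Real.exp s) :=
        Finset.prod_le_prod (fun i _ => by positivity) (fun i _ => pow_div_fac hy hs i)
    _ = (y / s) ^ (m * (m - 1) / 2) * Real.exp s ^ m := by
        rw [Finset.prod_mul_distrib, Finset.prod_pow_eq_pow_sum, Finset.sum_range_id,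
          Finset.prod_const, Finset.card_range]

lemma tri_cast (m : ℕ) : ((m * (m - 1) / 2 : ℕ) : ℝ) = (m : ℝ) * (m - 1) / 2 := by
  have h := Finset.sum_range_id m
  rw [← h]
  induction m with
  | zero => simp
  | succ n ih =>
    rw [Finset.sum_range_succ]
    push_cast
    have := ih (Finset.sum_range_id n)
    push_cast at this
    rw [this]
    ring

end Num1q

open Filter Topology Num4 Num1q in
/-- the numerical inequality behind the vanishing of the minors, with denominators;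
`R = ϱ N / 2` -/
theorem num1q {c κ η ϵ ϱ : ℝ} (h : Par c κ η ϵ ϱ) : ∀ᶠ N : ℕ in atTop,
    ((mm c η N + ll c η N).factorial : ℝ)
      * (4 * HH (η ^ 2 / 32) N / (ϱ * N / 2 - HH (η ^ 2 / 32) N))
          ^ ((mm c η N + ll c η N) * (mm c η N + ll c η N - 1) / 2)
      * ((∏ i ∈ Finset.range (mm c η N), (2 * (ϱ * N / 2)) ^ i / (i.factorial : ℝ))
        * ((∏ i ∈ Finset.range (ll c η N), (2 * (ϱ * N / 2)) ^ i / (i.factorial : ℝ))
          * Real.exp (c * (1 + η / 2) * Real.sqrt N) ^ (ll c η N)))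
      * Real.exp (c * η ^ 2 / 4 * Real.sqrt N) ^ (mm c η N + ll c η N) < 1 := by
  obtain ⟨hc, hη, hη1, hϵ, hϱ, hϱϵ, hκ⟩ := h
  set ω : ℝ := η ^ 2 / 32 with hω
  have hω0 : 0 < ω := by positivity
  have hω1 : ω ≤ 1 / 12800 := by rw [hω]; nlinarith
  -- limits
  have lm : Tendsto (fun N : ℕ => (mm c η N : ℝ) * Real.log N / Real.sqrt N) atTop
      (𝓝 ((1 + η) * (2 * c))) := ceil_lim hc (by linarith)
  have lm0 : Tendsto (fun N : ℕ => (mm c η N : ℝ) / Real.sqrt N) atTop (𝓝 0) :=
    ceil_lim0 hc (by linarith)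
  have lL : Tendsto (fun N : ℕ => (ll c η N : ℝ) * Real.log N / Real.sqrt N) atTop
      (𝓝 (η * (2 * c))) := ceil_lim hc hη
  have lL0 : Tendsto (fun N : ℕ => (ll c η N : ℝ) / Real.sqrt N) atTop (𝓝 0) := ceil_lim0 hc hη
  have linv : Tendsto (fun N : ℕ => (Real.log N)⁻¹) atTop (𝓝 0) :=
    (Real.tendsto_log_atTop.comp tendsto_natCast).inv_tendsto_atTop
  have lloglog : Tendsto (fun N : ℕ => Real.log (Real.log N) / Real.log N) atTop (𝓝 0) := by
    have h1 : Tendsto (fun x : ℝ => Real.log x / x) atTop (𝓝 0) := by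
      have := Real.isLittleO_log_id_atTop.tendsto_div_nhds_zero
      simpa using this
    exact h1.comp (Real.tendsto_log_atTop.comp tendsto_natCast)
  have lt0 := log_div_sqrt
  -- the main sequence
  set u : ℕ → ℝ := fun N =>
    ((mm c η N : ℝ) + ll c η N) * Real.log N
    + ((mm c η N : ℝ) * ll c η N) * (Real.log (16 / ϱ) - (1 / 2 - ω) * Real.log N)
    + ((mm c η N : ℝ) * (mm c η N - 1) / 2 + (ll c η N : ℝ) * (ll c η N - 1) / 2)
      * (ω * Real.log N + Real.log (Real.log N) + (Real.log (16 / ϱ) + Real.log (ϱ / (2 * c))))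
    + (2 * c * Real.sqrt N / Real.log N) * ((mm c η N : ℝ) + ll c η N)
    + (ll c η N : ℝ) * (c * (1 + η / 2) * Real.sqrt N)
    + ((mm c η N : ℝ) + ll c η N) * (c * η ^ 2 / 4 * Real.sqrt N) with hu
  have hulim : Tendsto (fun N => u N * Real.log N / N) atTop
      (𝓝 (-(1 / 2 - ω) * (((1 + η) * (2 * c)) * (η * (2 * c)))
        + ω * (((1 + η) * (2 * c)) * ((1 + η) * (2 * c)) / 2 + (η * (2 * c)) * (η * (2 * c)) / 2)
        + (η * (2 * c)) * (c * (1 + η / 2)) + ((1 + η) * (2 * c) + η * (2 * c)) * (c * η ^ 2 / 4))) := by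
    -- building blocks
    have b1 := (((lm.add lL).mul lt0)) -- M L/√N * L/√N
    have b2 := (lm.mul lL) -- ml L²/N
    have b3 := b2.mul linv -- ml L / N
    have c1 : Tendsto (fun N : ℕ => ((mm c η N : ℝ) * Real.log N / Real.sqrt N)
        * ((mm c η N : ℝ) * Real.log N / Real.sqrt N - Real.log N / Real.sqrt N) / 2
        + ((ll c η N : ℝ) * Real.log N / Real.sqrt N)
        * ((ll c η N : ℝ) * Real.log N / Real.sqrt N - Real.log N / Real.sqrt N) / 2) atTop
        (𝓝 (((1 + η) * (2 * c)) * ((1 + η) * (2 * c) - 0) / 2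
          + (η * (2 * c)) * (η * (2 * c) - 0) / 2)) :=
      ((lm.mul (lm.sub lt0)).div_const 2).add ((lL.mul (lL.sub lt0)).div_const 2)
    have t1 := b1
    have t2 := ((b3.const_mul (Real.log (16 / ϱ))).sub (b2.const_mul (1 / 2 - ω)))
    have t3 := (c1.mul (((tendsto_const_nhds (x := ω)).add lloglog).add
      (linv.const_mul (Real.log (16 / ϱ) + Real.log (ϱ / (2 * c))))))
    have t4 := ((linv.mul (lm.add lL)).const_mul (2 * c))
    have t5 := lL.mul_const (c * (1 + η / 2))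
    have t6 := (lm.add lL).mul_const (c * η ^ 2 / 4)
    have hall := ((((t1.add t2).add t3).add t4).add t5).add t6
    have hval : ((1 + η) * (2 * c) + η * (2 * c)) * 0
        + (Real.log (16 / ϱ) * ((1 + η) * (2 * c) * (η * (2 * c)) * 0)
          - (1 / 2 - ω) * ((1 + η) * (2 * c) * (η * (2 * c))))
        + (((1 + η) * (2 * c)) * ((1 + η) * (2 * c) - 0) / 2
          + (η * (2 * c)) * (η * (2 * c) - 0) / 2) * (ω + 0 +
            (Real.log (16 / ϱ) + Real.log (ϱ / (2 * c))) * 0)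
        + 2 * c * (0 * ((1 + η) * (2 * c) + η * (2 * c)))
        + η * (2 * c) * (c * (1 + η / 2))
        + ((1 + η) * (2 * c) + η * (2 * c)) * (c * η ^ 2 / 4)
        = (-(1 / 2 - ω) * (((1 + η) * (2 * c)) * (η * (2 * c)))
        + ω * (((1 + η) * (2 * c)) * ((1 + η) * (2 * c)) / 2 + (η * (2 * c)) * (η * (2 * c)) / 2)
        + (η * (2 * c)) * (c * (1 + η / 2)) + ((1 + η) * (2 * c) + η * (2 * c)) * (c * η ^ 2 / 4)) := by
      ring
    rw [hval] at hall
    refine hall.congr' ?_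
    filter_upwards [eventually_gt_atTop 1] with N hN1
    have hN' : (1 : ℝ) < N := by exact_mod_cast hN1
    have hN0 : (0 : ℝ) < N := by linarith
    have hL := Real.log_pos hN'
    have hs : 0 < Real.sqrt N := Real.sqrt_pos.2 hN0
    have hsq : (N : ℝ) = Real.sqrt N * Real.sqrt N := (Real.mul_self_sqrt hN0.le).symm
    rw [hu]
    simp only
    generalize Real.log (16 / ϱ) = q1
    generalize Real.log (ϱ / (2 * c)) = q2
    generalize Real.log (Real.log N) = LL at *
    generalize Real.log (N : ℝ) = L at *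
    generalize Real.sqrt (N : ℝ) = s at *
    rw [hsq]
    field_simp
  have hneg : (-(1 / 2 - ω) * (((1 + η) * (2 * c)) * (η * (2 * c)))
        + ω * (((1 + η) * (2 * c)) * ((1 + η) * (2 * c)) / 2 + (η * (2 * c)) * (η * (2 * c)) / 2)
        + (η * (2 * c)) * (c * (1 + η / 2)) + ((1 + η) * (2 * c) + η * (2 * c)) * (c * η ^ 2 / 4)) < 0 := by
    have e1 : (-(1 / 2 - ω) * (((1 + η) * (2 * c)) * (η * (2 * c)))
        + ω * (((1 + η) * (2 * c)) * ((1 + η) * (2 * c)) / 2 + (η * (2 * c)) * (η * (2 * c)) / 2)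
        + (η * (2 * c)) * (c * (1 + η / 2)) + ((1 + η) * (2 * c) + η * (2 * c)) * (c * η ^ 2 / 4))
        = 2 * c ^ 2 * η ^ 2 * (-(1 / 2) + (1 + 2 * η) ^ 2 / 32 + (1 + 2 * η) / 4) := by
      rw [hω]; ring
    rw [e1]
    have e2 : -(1 / 2) + (1 + 2 * η) ^ 2 / 32 + (1 + 2 * η) / 4 < 0 := by nlinarith
    have e3 : 0 < 2 * c ^ 2 * η ^ 2 := by positivity
    nlinarith
  have hev := hulim.eventually_lt_const hneg
  have eH : ∀ᶠ N : ℕ in atTop, (N : ℝ) ^ (1 / 2 + ω) ≤ ϱ * N / 4 := by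
    have h1 : Tendsto (fun N : ℕ => (N : ℝ) ^ (1 / 2 + ω) / N) atTop (𝓝 0) := by
      have h2 := (tendsto_rpow_neg_atTop (y := 1 / 2 - ω) (by linarith)).comp tendsto_natCast
      refine h2.congr' ?_
      filter_upwards [eventually_gt_atTop 0] with N hN
      have hN' : (0 : ℝ) < N := by exact_mod_cast hN
      simp only [Function.comp]
      rw [eq_div_iff hN'.ne']
      nth_rewrite 2 [← Real.rpow_one (N : ℝ)]
      rw [← Real.rpow_add hN']
      congr 1
      ring
    filter_upwards [h1.eventually_le_const (show (0 : ℝ) < ϱ / 4 by positivity), eventually_gt_atTop 0] with N hN hN2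
    have hN' : (0 : ℝ) < N := by exact_mod_cast hN2
    rw [div_le_iff₀ hN'] at hN
    linarith
  have em : ∀ᶠ N : ℕ in atTop, (mm c η N : ℝ) + ll c η N ≤ Real.sqrt N := by
    have h1 := lm0.add lL0
    rw [add_zero] at h1
    filter_upwards [h1.eventually_le_const (show (0 : ℝ) < 1 by norm_num), eventually_gt_atTop 0] with N hN hN2
    have h3 : 0 < Real.sqrt N := Real.sqrt_pos.2 (by exact_mod_cast hN2)
    rwa [← add_div, div_le_one h3] at hN
  have e1L : ∀ᶠ N : ℕ in atTop, 1 ≤ Real.log N :=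
    (Real.tendsto_log_atTop.comp tendsto_natCast).eventually_ge_atTop 1
  filter_upwards [hev, eH, em, e1L, eventually_gt_atTop 1] with N hN hHN hmN hL1 hN1
  have hN' : (1 : ℝ) < N := by exact_mod_cast hN1
  have hN0 : (0 : ℝ) < N := by linarith
  have hL : 0 < Real.log N := by linarith
  have hs : 0 < Real.sqrt N := Real.sqrt_pos.2 hN0
  have hu0 : u N < 0 := by
    by_contra hcon
    push Not at hcon
    have : 0 ≤ u N * Real.log N / N := by positivity
    linarith
  have hH : HH ω N = (N : ℝ) ^ (1 / 2 + ω) := rfl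
  have hHpos : 0 < HH ω N := by rw [hH]; positivity
  have hX : 4 * HH ω N / (ϱ * N / 2 - HH ω N) ≤ Real.exp (Real.log (16 / ϱ) - (1 / 2 - ω) * Real.log N) := by
    have h1 : ϱ * N / 4 ≤ ϱ * N / 2 - HH ω N := by rw [hH]; linarith
    have h2 : 0 < ϱ * N / 4 := by positivity
    rw [Real.exp_sub, Real.exp_log (by positivity), div_le_iff₀ (by linarith)]
    have h3 : Real.exp ((1 / 2 - ω) * Real.log N) = (N : ℝ) ^ (1 / 2 - ω) := by
      rw [Real.rpow_def_of_pos hN0, mul_comm]
    rw [h3]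
    have h4 : HH ω N * (N : ℝ) ^ (1 / 2 - ω) = N := by
      rw [hH, ← Real.rpow_add hN0]
      rw [show (1 / 2 + ω + (1 / 2 - ω) : ℝ) = 1 by ring, Real.rpow_one]
    have h5 : 0 < (N : ℝ) ^ (1 / 2 - ω) := by positivity
    have h6 : 4 * HH ω N = 16 / ϱ / (N : ℝ) ^ (1 / 2 - ω) * (ϱ * N / 4) := by
      generalize (N : ℝ) ^ (1 / 2 - ω) = P at h4 h5
      rw [← h4]
      field_simp
      norm_num
    rw [h6]
    gcongr
  have hX0 : 0 ≤ 4 * HH ω N / (ϱ * N / 2 - HH ω N) := by
    have h1 : ϱ * N / 4 ≤ ϱ * N / 2 - HH ω N := by rw [hH]; linarith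
    have h2 : 0 < ϱ * N / 4 := by positivity
    exact div_nonneg (by positivity) (by linarith)
  set s : ℝ := 2 * c * Real.sqrt N / Real.log N with hsdef
  have hspos : 0 < s := by positivity
  have hY : 0 ≤ 2 * (ϱ * N / 2) := by positivity
  have hYs : 2 * (ϱ * N / 2) / s = Real.exp (Real.log (ϱ / (2 * c)) + (1 / 2) * Real.log N
      + Real.log (Real.log N)) := by
    rw [Real.exp_add, Real.exp_add, Real.exp_log hL, Real.exp_log (by positivity)]
    have h3 : Real.exp ((1 / 2) * Real.log N) = Real.sqrt N := by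
      rw [Real.sqrt_eq_rpow, Real.rpow_def_of_pos hN0, mul_comm]
    rw [h3, hsdef]
    have hsq : (N : ℝ) = Real.sqrt N * Real.sqrt N := (Real.mul_self_sqrt hN0.le).symm
    generalize Real.sqrt (N : ℝ) = t at *
    rw [hsq]
    field_simp
  have P1 := prod_pow_div_fac hY hspos (mm c η N)
  have P2 := prod_pow_div_fac hY hspos (ll c η N)
  have hF : ((mm c η N + ll c η N).factorial : ℝ) ≤
      Real.exp (((mm c η N : ℝ) + ll c η N) * Real.log N) := by
    calc ((mm c η N + ll c η N).factorial : ℝ)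
        ≤ (((mm c η N + ll c η N : ℕ)) : ℝ) ^ (mm c η N + ll c η N) := by
          exact_mod_cast Nat.factorial_le_pow _
      _ ≤ (N : ℝ) ^ (mm c η N + ll c η N) := by
          have h9 : (mm c η N : ℝ) + ll c η N ≤ N := by
            refine hmN.trans ?_
            rw [Real.sqrt_le_left hN0.le]
            nlinarith
          have h10 : mm c η N + ll c η N ≤ N := by exact_mod_cast h9
          gcongr
      _ = _ := by
          rw [← Nat.cast_add, Real.exp_nat_mul, Real.exp_log hN0]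
  set m : ℕ := mm c η N with hm
  set l : ℕ := ll c η N with hl
  have hP1pos : 0 ≤ ∏ i ∈ Finset.range m, (2 * (ϱ * N / 2)) ^ i / (i.factorial : ℝ) :=
    Finset.prod_nonneg (fun i _ => by positivity)
  have hP2pos : 0 ≤ ∏ i ∈ Finset.range l, (2 * (ϱ * N / 2)) ^ i / (i.factorial : ℝ) :=
    Finset.prod_nonneg (fun i _ => by positivity)
  have hXp := pow_le_pow_left₀ hX0 hX ((m + l) * (m + l - 1) / 2)
  calc ((m + l).factorial : ℝ)
      * (4 * HH ω N / (ϱ * N / 2 - HH ω N)) ^ ((m + l) * (m + l - 1) / 2)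
      * ((∏ i ∈ Finset.range m, (2 * (ϱ * N / 2)) ^ i / (i.factorial : ℝ))
        * ((∏ i ∈ Finset.range l, (2 * (ϱ * N / 2)) ^ i / (i.factorial : ℝ))
          * Real.exp (c * (1 + η / 2) * Real.sqrt N) ^ l))
      * Real.exp (c * η ^ 2 / 4 * Real.sqrt N) ^ (m + l)
      ≤ Real.exp (((m : ℝ) + l) * Real.log N)
      * Real.exp (Real.log (16 / ϱ) - (1 / 2 - ω) * Real.log N) ^ ((m + l) * (m + l - 1) / 2)
      * (((2 * (ϱ * N / 2) / s) ^ (m * (m - 1) / 2) * Real.exp s ^ m)
        * (((2 * (ϱ * N / 2) / s) ^ (l * (l - 1) / 2) * Real.exp s ^ l)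
          * Real.exp (c * (1 + η / 2) * Real.sqrt N) ^ l))
      * Real.exp (c * η ^ 2 / 4 * Real.sqrt N) ^ (m + l) := by
        gcongr
    _ = Real.exp (u N) := by
        rw [hYs]
        simp only [← Real.exp_nat_mul, ← Real.exp_add]
        congr 1
        rw [tri_cast, tri_cast, tri_cast, hu]
        push_cast
        rw [← hm, ← hl]
        ring
    _ < 1 := by
        rw [← Real.exp_zero]
        exact Real.exp_lt_exp.2 hu0

end PRT
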