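import Mathlib
import Pool.Agent.PRT.Defs
import Pool.Agent.PRT.NUM1Q

namespace PRT

open Complex Metric

open Filter in
/-- the numerical inequality behind the vanishing of the integer minors; `R = ϱ N / 2` -/
theorem num1 {c κ η ϵ ϱ : ℝ} (h : Par c κ η ϵ ϱ) : ∀ᶠ N : ℕ in atTop,
    ((mm c η N + ll c η N).factorial : ℝ)
      * (4 * HH (η ^ 2 / 32) N / (ϱ * N / 2 - HH (η ^ 2 / 32) N))
          ^ ((mm c η N + ll c η N) * (mm c η N + ll c η N - 1) / 2)
      * ((∏ i ∈ Finset.range (mm c η N), (2 * (ϱ * N / 2)) ^ i / (i.factorial : ℝ))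
        * ((∏ i ∈ Finset.range (ll c η N), (2 * (ϱ * N / 2)) ^ i / (i.factorial : ℝ))
          * Real.exp (c * (1 + η / 2) * Real.sqrt N) ^ (ll c η N))) < 1 := by
  filter_upwards [num1q h] with N hN
  have hc := h.hc
  have h1 : (1 : ℝ) ≤ Real.exp (c * η ^ 2 / 4 * Real.sqrt N) ^ (mm c η N + ll c η N) :=
    one_le_pow₀ (Real.one_le_exp (by positivity))
  by_contra hcon
  push Not at hcon
  have := one_le_mul_of_one_le_of_one_le hcon h1
  linarith

end PRT
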