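import Mathlib
import Pool.Agent.PRT.Defs
import Pool.Agent.PRT.NUM4

namespace PRT

open Complex Metric

open Filter Num4 Topology in
/-- the error interpolation polynomial is dominated on the big disc -/
theorem num2 {c κ η ϵ ϱ : ℝ} (h : Par c κ η ϵ ϱ) : ∀ᶠ N : ℕ in atTop,
    ((mm c η N + ll c η N : ℕ) : ℝ) * Real.exp (-κ * Real.sqrt N)
      * ((4 * (ϱ * N / 2)) ^ (mm c η N + ll c η N - 1)
        / ((mm c η N + ll c η N - 1).factorial : ℝ)) ≤ Real.exp (c * Real.sqrt N)
    ∧ Real.exp (c * Real.sqrt N * (1 + 2 * ϵ)) + 1 + Real.exp (c * Real.sqrt N)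
      ≤ Real.exp (c * (1 + η / 2) * Real.sqrt N) := by
  obtain ⟨hc, hη, hη1, hϵ, hϱ, hϱϵ, hκ⟩ := h
  have hϵ0 : 0 < ϵ := by rw [hϵ]; positivity
  -- limits
  have lm : Tendsto (fun N : ℕ => (mm c η N : ℝ) * Real.log N / Real.sqrt N) atTop
      (𝓝 ((1 + η) * (2 * c))) := ceil_lim hc (by linarith)
  have lm0 : Tendsto (fun N : ℕ => (mm c η N : ℝ) / Real.sqrt N) atTop (𝓝 0) :=
    ceil_lim0 hc (by linarith)
  have lL : Tendsto (fun N : ℕ => (ll c η N : ℝ) * Real.log N / Real.sqrt N) atTop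
      (𝓝 (η * (2 * c))) := ceil_lim hc hη
  have lL0 : Tendsto (fun N : ℕ => (ll c η N : ℝ) / Real.sqrt N) atTop (𝓝 0) := ceil_lim0 hc hη
  have lone : Tendsto (fun N : ℕ => Real.sqrt N / Real.sqrt N) atTop (𝓝 1) := by
    refine tendsto_const_nhds.congr' ?_
    filter_upwards [eventually_gt_atTop 0] with N hN2
    have h3 : 0 < Real.sqrt N := Real.sqrt_pos.2 (by exact_mod_cast hN2)
    field_simp
  have lr2 : Tendsto (fun N : ℕ => (1 : ℝ) / Real.sqrt N) atTop (𝓝 0) := by
    refine sqrt_tendsto.inv_tendsto_atTop.congr (fun N => ?_)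
    simp
  set K : ℕ → ℝ := fun N => (mm c η N : ℝ) + ll c η N - 1 with hK
  have lK0 : Tendsto (fun N : ℕ => K N / Real.sqrt N) atTop (𝓝 0) := by
    have h1 := (lm0.add lL0).sub lr2
    rw [add_zero, sub_zero] at h1
    refine h1.congr fun N => ?_
    rw [hK]; ring
  have lK : Tendsto (fun N : ℕ => K N * Real.log N / Real.sqrt N) atTop (𝓝 ((1 + 2 * η) * (2 * c))) := by
    have h1 := (lm.add lL).sub log_div_sqrt
    have h2 : (1 + η) * (2 * c) + η * (2 * c) - 0 = (1 + 2 * η) * (2 * c) := by ring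
    rw [h2] at h1
    refine h1.congr fun N => ?_
    rw [hK]; ring
  have hlogK : ∀ᶠ N : ℕ in atTop, (N : ℝ) ^ (1 / 2 - η) ≤ K N := by
    have h1 : ∀ᶠ N : ℕ in atTop, c ≤ K N * Real.log N / Real.sqrt N :=
      lK.eventually_const_le (by nlinarith)
    have h2 : ∀ᶠ N : ℕ in atTop, Real.log N ≤ c * (N : ℝ) ^ η := by
      have h3 := ((isLittleO_log_rpow_atTop hη).bound hc)
      have h4 := tendsto_natCast.eventually h3
      filter_upwards [h4, eventually_ge_atTop 1] with N hN hN1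
      have hN' : (1 : ℝ) ≤ N := by exact_mod_cast hN1
      rw [Real.norm_of_nonneg (Real.log_nonneg hN'), Real.norm_of_nonneg (by positivity)] at hN
      exact hN
    filter_upwards [h1, h2, eventually_gt_atTop 1] with N hN1 hN2 hN3
    have hN' : (1 : ℝ) < N := by exact_mod_cast hN3
    have hN0 : (0 : ℝ) < N := by linarith
    have hL := Real.log_pos hN'
    have hs : 0 < Real.sqrt N := Real.sqrt_pos.2 hN0
    rw [le_div_iff₀ hs] at hN1
    have e1 : (N : ℝ) ^ (1 / 2 - η) * (N : ℝ) ^ η = Real.sqrt N := by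
      rw [← Real.rpow_add hN0, Real.sqrt_eq_rpow]; congr 1; ring
    have e2 : 0 < (N : ℝ) ^ (1 / 2 - η) := by positivity
    have e3 : (N : ℝ) ^ (1 / 2 - η) * Real.log N ≤ K N * Real.log N := by
      calc (N : ℝ) ^ (1 / 2 - η) * Real.log N ≤ (N : ℝ) ^ (1 / 2 - η) * (c * (N : ℝ) ^ η) := by gcongr
        _ = c * Real.sqrt N := by rw [← e1]; ring
        _ ≤ K N * Real.log N := hN1
    exact le_of_mul_le_mul_right e3 hL
  have em : ∀ᶠ N : ℕ in atTop, (mm c η N : ℝ) + ll c η N ≤ Real.sqrt N := by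
    have h1 := lm0.add lL0
    rw [add_zero] at h1
    filter_upwards [h1.eventually_le_const (show (0 : ℝ) < 1 by norm_num), eventually_gt_atTop 0] with N hN hN2
    have h3 : 0 < Real.sqrt N := Real.sqrt_pos.2 (by exact_mod_cast hN2)
    rwa [← add_div, div_le_one h3] at hN
  set u : ℕ → ℝ := fun N => Real.log N + -κ * Real.sqrt N
    + K N * ((1 + Real.log (2 * ϱ)) + (1 / 2 + η) * Real.log N) with hu
  have hulim : Tendsto (fun N => u N / Real.sqrt N) atTop
      (𝓝 (-κ + (1 / 2 + η) * ((1 + 2 * η) * (2 * c)))) := by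
    have h1 := (log_div_sqrt.add (lone.const_mul (-κ))).add
      ((lK0.const_mul (1 + Real.log (2 * ϱ))).add (lK.const_mul (1 / 2 + η)))
    have h2 : 0 + -κ * 1 + ((1 + Real.log (2 * ϱ)) * 0 + (1 / 2 + η) * ((1 + 2 * η) * (2 * c)))
        = -κ + (1 / 2 + η) * ((1 + 2 * η) * (2 * c)) := by ring
    rw [h2] at h1
    refine h1.congr fun N => ?_
    rw [hu]; ring
  have hlt : -κ + (1 / 2 + η) * ((1 + 2 * η) * (2 * c)) < c := by
    have : (1 / 2 + η) * ((1 + 2 * η) * (2 * c)) = c * (1 + 4 * η + 4 * η ^ 2) := by ring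
    rw [this]
    nlinarith [mul_pos hc hη, mul_pos (mul_pos hc hη) hη]
  have hev := hulim.eventually_lt_const hlt
  have hsec : ∀ᶠ N : ℕ in atTop, Real.log 3 ≤ (c * (η / 2 - 2 * ϵ)) * Real.sqrt N := by
    have h1 : 0 < c * (η / 2 - 2 * ϵ) := by rw [hϵ]; exact mul_pos hc (by linarith)
    exact (sqrt_tendsto.const_mul_atTop h1).eventually_ge_atTop _
  filter_upwards [hev, hlogK, em, hsec, eventually_gt_atTop 1] with N hN hKN hmN hs3 hN1
  have hN' : (1 : ℝ) < N := by exact_mod_cast hN1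
  have hN0 : (0 : ℝ) < N := by linarith
  have hL := Real.log_pos hN'
  have hs : 0 < Real.sqrt N := Real.sqrt_pos.2 hN0
  have hKpos : 0 < K N := lt_of_lt_of_le (by positivity) hKN
  constructor
  · have hKnat : ((mm c η N + ll c η N - 1 : ℕ) : ℝ) = K N := by
      have : 1 ≤ mm c η N + ll c η N := by
        by_contra hcon
        have h0 : mm c η N + ll c η N = 0 := by omega
        have h1 : (mm c η N : ℝ) + ll c η N = 0 := by exact_mod_cast h0
        rw [hK] at hKpos
        simp only at hKpos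
        linarith
      rw [Nat.cast_sub this]
      push_cast
      rfl
    set k : ℕ := mm c η N + ll c η N - 1 with hk
    have hfac : (0 : ℝ) < (k.factorial : ℝ) := by exact_mod_cast Nat.factorial_pos _
    have h1 : (4 * (ϱ * N / 2)) ^ k / (k.factorial : ℝ)
        ≤ Real.exp (K N * ((1 + Real.log (2 * ϱ)) + (1 / 2 + η) * Real.log N)) := by
      have h2 : (K N) ^ k / (k.factorial : ℝ) ≤ Real.exp (K N) :=
        Real.pow_div_factorial_le_exp (K N) hKpos.le k
      have h3 : (4 * (ϱ * N / 2)) ≤ (2 * ϱ * (N : ℝ) ^ (1 / 2 + η)) * K N := by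
        have e1 : (N : ℝ) ^ (1 / 2 + η) * (N : ℝ) ^ (1 / 2 - η) = N := by
          rw [← Real.rpow_add hN0]
          rw [show (1 / 2 + η + (1 / 2 - η) : ℝ) = 1 by ring, Real.rpow_one]
        calc (4 * (ϱ * N / 2)) = 2 * ϱ * ((N : ℝ) ^ (1 / 2 + η) * (N : ℝ) ^ (1 / 2 - η)) := by
              rw [e1]; ring
          _ = (2 * ϱ * (N : ℝ) ^ (1 / 2 + η)) * (N : ℝ) ^ (1 / 2 - η) := by ring
          _ ≤ _ := by gcongr
      calc (4 * (ϱ * N / 2)) ^ k / (k.factorial : ℝ)
          ≤ ((2 * ϱ * (N : ℝ) ^ (1 / 2 + η)) * K N) ^ k / (k.factorial : ℝ) := by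
            gcongr
        _ = (2 * ϱ * (N : ℝ) ^ (1 / 2 + η)) ^ k * (K N ^ k / (k.factorial : ℝ)) := by
            rw [mul_pow]; ring
        _ ≤ (2 * ϱ * (N : ℝ) ^ (1 / 2 + η)) ^ k * Real.exp (K N) := by gcongr
        _ = Real.exp (K N * ((1 + Real.log (2 * ϱ)) + (1 / 2 + η) * Real.log N)) := by
            have e2 : (2 * ϱ * (N : ℝ) ^ (1 / 2 + η)) = Real.exp (Real.log (2 * ϱ) + (1 / 2 + η) * Real.log N) := by
              rw [Real.exp_add, Real.exp_log (by positivity), Real.rpow_def_of_pos hN0]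
              ring_nf
            rw [e2, ← Real.exp_nat_mul, ← Real.exp_add, hKnat]
            congr 1
            ring
    have hM : ((mm c η N + ll c η N : ℕ) : ℝ) ≤ Real.exp (Real.log N) := by
      rw [Real.exp_log hN0]
      push_cast
      refine hmN.trans ?_
      rw [Real.sqrt_le_left hN0.le]
      nlinarith
    calc ((mm c η N + ll c η N : ℕ) : ℝ) * Real.exp (-κ * Real.sqrt N)
          * ((4 * (ϱ * N / 2)) ^ k / (k.factorial : ℝ))
        ≤ Real.exp (Real.log N) * Real.exp (-κ * Real.sqrt N)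
          * Real.exp (K N * ((1 + Real.log (2 * ϱ)) + (1 / 2 + η) * Real.log N)) := by
          gcongr
      _ = Real.exp (u N) := by rw [← Real.exp_add, ← Real.exp_add]
      _ ≤ Real.exp (c * Real.sqrt N) := by
          apply Real.exp_le_exp.2
          have := hN
          rw [div_lt_iff₀ hs] at this
          exact this.le
  · have h0 : 0 ≤ c * Real.sqrt N * (1 + 2 * ϵ) := by positivity
    have h1 : (1 : ℝ) ≤ Real.exp (c * Real.sqrt N * (1 + 2 * ϵ)) := Real.one_le_exp h0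
    have h2 : Real.exp (c * Real.sqrt N) ≤ Real.exp (c * Real.sqrt N * (1 + 2 * ϵ)) := by
      apply Real.exp_le_exp.2
      have : 0 ≤ c * Real.sqrt N * (2 * ϵ) := by positivity
      linarith
    calc _ ≤ 3 * Real.exp (c * Real.sqrt N * (1 + 2 * ϵ)) := by linarith
      _ = Real.exp (Real.log 3 + c * Real.sqrt N * (1 + 2 * ϵ)) := by
          rw [Real.exp_add, Real.exp_log (by norm_num)]
      _ ≤ _ := by
          apply Real.exp_le_exp.2
          linarith

end PRT
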