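import Mathlib
import Pool.Agent.PRT.Defs

namespace PRT

open Complex Metric

theorem Fj_diff {φ : ℂ → ℂ} {P : Polynomial ℂ} {c : ℂ} {R : ℝ}
    (hφ : DifferentiableOn ℂ φ (ball c R)) (j : ℕ) :
    DifferentiableOn ℂ (Fj φ P j) (ball c R) := by
  induction j with
  | zero =>
    show DifferentiableOn ℂ (fun z => P.eval z) (ball c R)
    exact P.differentiable.differentiableOn
  | succ j ih =>
    show DifferentiableOn ℂ (fun z => deriv (Fj φ P j) z + deriv φ z * Fj φ P j z) (ball c R)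
    exact (ih.deriv isOpen_ball).add ((hφ.deriv isOpen_ball).mul ih)

private theorem oper_hasDerivAt {φ : ℂ → ℂ} {P : Polynomial ℂ} {c : ℂ} {R : ℝ}
    (hφ : DifferentiableOn ℂ φ (ball c R)) (j : ℕ) (d : ℂ) {z : ℂ} (hz : z ∈ ball c R) :
    HasDerivAt (fun z => Fj φ P j z * cexp (φ z - d)) (Fj φ P (j + 1) z * cexp (φ z - d)) z := by
  have h1 : HasDerivAt (Fj φ P j) (deriv (Fj φ P j) z) z :=
    ((Fj_diff hφ j).differentiableAt (isOpen_ball.mem_nhds hz)).hasDerivAt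
  have h2 : HasDerivAt φ (deriv φ z) z :=
    (hφ.differentiableAt (isOpen_ball.mem_nhds hz)).hasDerivAt
  have h3 : HasDerivAt (fun z => cexp (φ z - d)) (cexp (φ z - d) * deriv φ z) z :=
    (h2.sub_const d).cexp
  have h4 := h1.mul h3
  refine h4.congr_deriv ?_
  show deriv (Fj φ P j) z * cexp (φ z - d) + Fj φ P j z * (cexp (φ z - d) * deriv φ z) =
    (deriv (Fj φ P j) z + deriv φ z * Fj φ P j z) * cexp (φ z - d)
  ring

theorem iteratedDeriv_mul_exp {φ : ℂ → ℂ} {P : Polynomial ℂ} {c : ℂ} {R : ℝ}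
    (hφ : DifferentiableOn ℂ φ (ball c R)) (j : ℕ) :
    ∀ z ∈ ball c R, iteratedDeriv j (fun z => P.eval z * cexp (φ z)) z
      = Fj φ P j z * cexp (φ z) := by
  induction j with
  | zero =>
    intro z _
    simp [Fj]
  | succ j ih =>
    intro z hz
    rw [iteratedDeriv_succ]
    have h1 : iteratedDeriv j (fun z => P.eval z * cexp (φ z)) =ᶠ[nhds z]
        fun z => Fj φ P j z * cexp (φ z - 0) := by
      filter_upwards [isOpen_ball.mem_nhds hz] with w hw
      rw [ih w hw, sub_zero]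
    rw [h1.deriv_eq, (oper_hasDerivAt hφ j 0 hz).deriv, sub_zero]

theorem Fj_step {φ : ℂ → ℂ} {P : Polynomial ℂ} {c : ℂ} {R σ' s ρ A B : ℝ} (hσ : 0 < σ')
    (hφ : DifferentiableOn ℂ φ (ball c R)) (hre : ∀ z ∈ ball c R, σ' ≤ (deriv φ z).re)
    (hs : 0 ≤ s) (hρ0 : 0 ≤ ρ) (hρ : ρ + s < R) (j : ℕ)
    (hA : ∀ z ∈ closedBall c (ρ + s), ‖Fj φ P j z‖ ≤ A)
    (hB : ∀ z ∈ closedBall c (ρ + s), ‖Fj φ P (j + 1) z‖ ≤ B) :
    ∀ z ∈ closedBall c ρ, ‖Fj φ P j z‖ ≤ Real.exp (-σ' * s) * A + B / σ' := by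
  intro z hz
  have hB0 : 0 ≤ B := (norm_nonneg _).trans (hB c (mem_closedBall_self (by linarith)))
  have hmem : ∀ u : ℝ, u ∈ Set.Icc 0 s → (z - s) + (u : ℂ) ∈ closedBall c (ρ + s) := by
    intro u hu
    rw [mem_closedBall, dist_eq_norm]
    have h1 : (z - s) + (u : ℂ) - c = (z - c) + ((u - s : ℝ) : ℂ) := by
      push_cast
      ring
    rw [h1]
    refine (norm_add_le _ _).trans ?_
    have h2 : ‖z - c‖ ≤ ρ := by
      rw [← dist_eq_norm]
      exact hz
    have h3 : ‖((u - s : ℝ) : ℂ)‖ ≤ s := by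
      rw [Complex.norm_real, Real.norm_eq_abs, abs_le]
      constructor <;> linarith [hu.1, hu.2]
    linarith
  have hball : ∀ u : ℝ, u ∈ Set.Icc 0 s → (z - s) + (u : ℂ) ∈ ball c R := fun u hu =>
    closedBall_subset_ball hρ (hmem u hu)
  -- decay of the exponential
  have hexp : ∀ u ∈ Set.Icc (0 : ℝ) s,
      ‖cexp (φ ((z - s) + (u : ℂ)) - φ z)‖ ≤ Real.exp (-σ' * (s - u)) := by
    intro u hu
    rw [Complex.norm_exp, Real.exp_le_exp, Complex.sub_re]
    have hder : ∀ x ∈ Set.Icc (0 : ℝ) s,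
        HasDerivAt (fun x : ℝ => (φ ((z - s) + (x : ℂ))).re)
          (deriv φ ((z - s) + (x : ℂ))).re x := by
      intro x hx
      have h1 : HasDerivAt φ (deriv φ ((z - s) + (x : ℂ))) ((z - s) + (x : ℂ)) :=
        (hφ.differentiableAt (isOpen_ball.mem_nhds (hball x hx))).hasDerivAt
      have h2 : HasDerivAt (fun w : ℂ => φ ((z - s) + w)) (deriv φ ((z - s) + (x : ℂ))) (x : ℂ) :=
        HasDerivAt.comp_const_add (z - s) (x : ℂ) h1
      exact h2.real_of_complex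
    have h3 := Convex.mul_sub_le_image_sub_of_le_deriv (convex_Icc (0 : ℝ) s)
      (f := fun x : ℝ => (φ ((z - s) + (x : ℂ))).re)
      (fun x hx => (hder x hx).continuousAt.continuousWithinAt)
      (fun x hx => (hder x (interior_subset hx)).differentiableAt.differentiableWithinAt)
      (C := σ') (fun x hx => by
        rw [(hder x (interior_subset hx)).deriv]
        exact hre _ (hball x (interior_subset hx)))
      u hu s ⟨hs, le_rfl⟩ hu.2
    have h4 : (z - (s : ℂ)) + (s : ℂ) = z := by ring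
    simp only [h4] at h3
    linarith
  set h : ℝ → ℂ := fun u => Fj φ P j ((z - s) + (u : ℂ)) * cexp (φ ((z - s) + (u : ℂ)) - φ z)
    with hh
  set h' : ℝ → ℂ := fun u => Fj φ P (j + 1) ((z - s) + (u : ℂ)) *
    cexp (φ ((z - s) + (u : ℂ)) - φ z) with hh'
  have hder : ∀ u ∈ Set.Icc (0 : ℝ) s, HasDerivAt h (h' u) u := by
    intro u hu
    have h1 := oper_hasDerivAt (P := P) hφ j (φ z) (hball u hu)
    have h2 : HasDerivAt (fun w : ℂ => Fj φ P j ((z - s) + w) * cexp (φ ((z - s) + w) - φ z))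
        (h' u) (u : ℂ) := HasDerivAt.comp_const_add (z - s) (u : ℂ) h1
    exact h2.comp_ofReal
  have hbd : ∀ u : ℝ, HasDerivAt (fun u : ℝ => A * Real.exp (-σ' * s) +
      B / σ' * (Real.exp (-σ' * (s - u)) - Real.exp (-σ' * s)))
      (B * Real.exp (-σ' * (s - u))) u := by
    intro u
    have h1 : HasDerivAt (fun u : ℝ => -σ' * (s - u)) σ' u := by
      have h2 := ((hasDerivAt_id u).const_sub s).const_mul (-σ')
      refine h2.congr_deriv ?_
      ring
    have h2 := ((h1.exp.sub_const (Real.exp (-σ' * s))).const_mul (B / σ')).const_add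
      (A * Real.exp (-σ' * s))
    refine h2.congr_deriv ?_
    field_simp
  have hmain := image_norm_le_of_norm_deriv_right_le_deriv_boundary' (a := 0) (b := s)
    (f := h) (f' := h')
    (fun u hu => (hder u hu).continuousAt.continuousWithinAt)
    (fun u hu => (hder u ⟨hu.1, hu.2.le⟩).hasDerivWithinAt)
    (B := fun u : ℝ => A * Real.exp (-σ' * s) +
      B / σ' * (Real.exp (-σ' * (s - u)) - Real.exp (-σ' * s)))
    (B' := fun u => B * Real.exp (-σ' * (s - u))) (by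
      have h1 : ‖h 0‖ ≤ A * Real.exp (-σ' * s) := by
        rw [hh]
        simp only [norm_mul]
        have h2 := hA _ (hmem 0 ⟨le_rfl, hs⟩)
        have h3 := hexp 0 ⟨le_rfl, hs⟩
        rw [sub_zero] at h3
        exact mul_le_mul h2 h3 (norm_nonneg _) ((norm_nonneg _).trans h2)
      have h2 : A * Real.exp (-σ' * s) +
          B / σ' * (Real.exp (-σ' * (s - 0)) - Real.exp (-σ' * s)) = A * Real.exp (-σ' * s) := by
        rw [sub_zero]
        ring
      show ‖h 0‖ ≤ A * Real.exp (-σ' * s) +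
          B / σ' * (Real.exp (-σ' * (s - 0)) - Real.exp (-σ' * s))
      rw [h2]
      exact h1)
    (fun u _ => (hbd u).continuousAt.continuousWithinAt)
    (fun u _ => (hbd u).hasDerivWithinAt)
    (fun u hu => by
      have hu' : u ∈ Set.Icc (0 : ℝ) s := ⟨hu.1, hu.2.le⟩
      rw [hh']
      simp only [norm_mul]
      exact mul_le_mul (hB _ (hmem u hu')) (hexp u hu') (norm_nonneg _) hB0)
    (x := s) ⟨hs, le_rfl⟩
  have h4 : (z - (s : ℂ)) + (s : ℂ) = z := by ring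
  have h5 : h s = Fj φ P j z := by
    rw [hh]
    simp only [h4, sub_self, Complex.exp_zero, mul_one]
  rw [h5] at hmain
  refine hmain.trans ?_
  show A * Real.exp (-σ' * s) + B / σ' * (Real.exp (-σ' * (s - s)) - Real.exp (-σ' * s)) ≤ _
  rw [sub_self, mul_zero, Real.exp_zero]
  have h6 : 0 ≤ B / σ' * Real.exp (-σ' * s) := by positivity
  nlinarith

theorem Fj_upper {φ : ℂ → ℂ} {P : Polynomial ℂ} {c : ℂ} {R ρ Δ σ'' B : ℝ} {m : ℕ}
    (hφ : DifferentiableOn ℂ φ (ball c R)) (hd : ∀ z ∈ ball c R, ‖deriv φ z‖ ≤ σ'')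
    (hσ : 0 ≤ σ'') (hΔ : 0 < Δ) (hρ : 0 ≤ ρ) (hR : ρ + m * Δ < R)
    (hB : ∀ z ∈ closedBall c (ρ + m * Δ), ‖P.eval z‖ ≤ B) :
    ∀ j ≤ m, ∀ z ∈ closedBall c (ρ + ((m : ℝ) - j) * Δ),
      ‖Fj φ P j z‖ ≤ (σ'' + 1 / Δ) ^ j * B := by
  intro j
  induction j with
  | zero =>
    intro _ z hz
    rw [pow_zero, one_mul]
    have h1 : z ∈ closedBall c (ρ + m * Δ) := by simpa using hz
    exact hB z h1
  | succ j ih =>
    intro hj z hz
    have ih' := ih (by omega)
    have hjm : (j : ℝ) + 1 ≤ m := by exact_mod_cast hj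
    push_cast at hz
    have hzd : dist z c ≤ ρ + ((m : ℝ) - (j + 1)) * Δ := hz
    have hrad : ρ + ((m : ℝ) - j) * Δ ≤ ρ + m * Δ := by
      have : 0 ≤ (j : ℝ) * Δ := by positivity
      nlinarith
    have hsub : closedBall z Δ ⊆ closedBall c (ρ + ((m : ℝ) - j) * Δ) := by
      intro w hw
      rw [mem_closedBall] at hw ⊢
      have h1 := dist_triangle w z c
      nlinarith
    have hsub2 : closedBall z Δ ⊆ ball c R := fun w hw =>
      closedBall_subset_ball (lt_of_le_of_lt hrad hR) (hsub hw)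
    have hzb : z ∈ ball c R := hsub2 (mem_closedBall_self hΔ.le)
    have hFz := ih' z (hsub (mem_closedBall_self hΔ.le))
    have hder : ‖deriv (Fj φ P j) z‖ ≤ (σ'' + 1 / Δ) ^ j * B / Δ :=
      Complex.norm_deriv_le_of_forall_mem_sphere_norm_le hΔ
        ((Fj_diff hφ j).diffContOnCl_ball hsub2)
        (fun w hw => ih' w (hsub (sphere_subset_closedBall hw)))
    show ‖deriv (Fj φ P j) z + deriv φ z * Fj φ P j z‖ ≤ _
    refine (norm_add_le _ _).trans ?_
    rw [norm_mul]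
    have h2 : ‖deriv φ z‖ * ‖Fj φ P j z‖ ≤ σ'' * ((σ'' + 1 / Δ) ^ j * B) :=
      mul_le_mul (hd z hzb) hFz (norm_nonneg _) hσ
    have h3 : (σ'' + 1 / Δ) ^ (j + 1) * B =
        (σ'' + 1 / Δ) ^ j * B / Δ + σ'' * ((σ'' + 1 / Δ) ^ j * B) := by
      rw [pow_succ]
      ring
    rw [h3]
    exact add_le_add hder h2

/-- growth of `exp φ` on a disc on which `‖φ'‖ ≤ σ''` -/
theorem exp_growth {φ : ℂ → ℂ} {c : ℂ} {R σ'' ρ : ℝ} (hφ : DifferentiableOn ℂ φ (ball c R))
    (hd : ∀ z ∈ ball c R, ‖deriv φ z‖ ≤ σ'') (hρ0 : 0 ≤ ρ) (hρ : ρ < R) :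
    ∀ z ∈ closedBall c ρ, ‖cexp (φ z)‖ ≤ ‖cexp (φ c)‖ * Real.exp (σ'' * ρ) ∧
      ‖cexp (φ c)‖ * Real.exp (-(σ'' * ρ)) ≤ ‖cexp (φ z)‖ := by
  intro z hz
  have hcb : c ∈ ball c R := mem_ball_self (by linarith)
  have hσ : 0 ≤ σ'' := (norm_nonneg _).trans (hd c hcb)
  have h1 : ‖φ z - φ c‖ ≤ σ'' * ‖z - c‖ :=
    Convex.norm_image_sub_le_of_norm_deriv_le
      (fun x hx => hφ.differentiableAt (isOpen_ball.mem_nhds hx)) hd (convex_ball c R)
      hcb (closedBall_subset_ball hρ hz)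
  have h2 : ‖z - c‖ ≤ ρ := by
    rw [← dist_eq_norm]
    exact hz
  have h3 : ‖φ z - φ c‖ ≤ σ'' * ρ := h1.trans (mul_le_mul_of_nonneg_left h2 hσ)
  have h4 : |(φ z - φ c).re| ≤ σ'' * ρ := (Complex.abs_re_le_norm _).trans h3
  rw [Complex.sub_re, abs_le] at h4
  rw [Complex.norm_exp, Complex.norm_exp, ← Real.exp_add, ← Real.exp_add, Real.exp_le_exp,
    Real.exp_le_exp]
  constructor <;> linarith [h4.1, h4.2]

end PRT
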