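import Mathlib
import Pool.Agent.PRT.DET
import Pool.Agent.PRT.LAG
import Pool.Agent.PRT.BINP
import Pool.Agent.PRT.OPER
import Pool.Agent.PRT.NUM0
import Pool.Agent.PRT.NUM1
import Pool.Agent.PRT.NUM2

namespace PRT

open Complex Metric

/-- the size of `e^φ - θ - E` on the middle disc -/
theorem minor_aux_bound {c κ η ϵ ϱ : ℝ} (h : Par c κ η ϵ ϱ) {N : ℕ} (hN : 1 ≤ N)
    {φ : ℂ → ℂ} (hφ : PhiGood c ϵ ϱ N φ) {θ : ℝ} (hθ0 : 0 ≤ θ) (hθ1 : θ ≤ 1)
    {Lp : Polynomial ℂ}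
    (hLp : ∀ z ∈ closedBall (N : ℂ) (ϱ * N / 2), ‖Lp.eval z‖ ≤ Real.exp (c * Real.sqrt N))
    (hnum : Real.exp (c * Real.sqrt N * (1 + 2 * ϵ)) + 1 + Real.exp (c * Real.sqrt N)
      ≤ Real.exp (c * (1 + η / 2) * Real.sqrt N)) :
    ∀ z ∈ closedBall (N : ℂ) (ϱ * N / 2), ‖cexp (φ z) - θ - Lp.eval z‖ ≤
      Real.exp (c * (1 + η / 2) * Real.sqrt N) := by
  intro z hz
  have hNpos : (0 : ℝ) < N := by exact_mod_cast hN
  have hc := h.hc
  have hϱ := h.hϱ
  have hϱϵ := h.hϱϵ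
  have hϵ0 : 0 < ϵ := lt_of_lt_of_le hϱ hϱϵ
  have hϵ1 : ϵ ≤ 1 := by
    have := h.hϵ
    have := h.hη1
    linarith
  have hsq : 0 < Real.sqrt N := Real.sqrt_pos.mpr hNpos
  have hsig : 0 < sig c N := by unfold sig; positivity
  have hd : ∀ w ∈ ball (N : ℂ) (ϱ * N), ‖deriv φ w‖ ≤ (1 + ϵ) * sig c N := by
    intro w hw
    have h1 := hφ.deriv_near w hw
    have h2 : ‖(sig c N : ℂ)‖ = sig c N := by
      rw [Complex.norm_real, Real.norm_eq_abs, abs_of_pos hsig]
    calc ‖deriv φ w‖ = ‖(deriv φ w - (sig c N : ℂ)) + (sig c N : ℂ)‖ := by ring_nf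
      _ ≤ ‖deriv φ w - (sig c N : ℂ)‖ + ‖(sig c N : ℂ)‖ := norm_add_le _ _
      _ ≤ ϵ * sig c N + sig c N := by rw [h2]; linarith
      _ = (1 + ϵ) * sig c N := by ring
  have hρ0 : 0 ≤ ϱ * N / 2 := by positivity
  have hρlt : ϱ * N / 2 < ϱ * N := by
    have : 0 < ϱ * N := by positivity
    linarith
  have hg := (exp_growth hφ.diff hd hρ0 hρlt z hz).1
  have hre : ‖cexp (φ N)‖ ≤ Real.exp (c * Real.sqrt N * (1 + ϵ)) := by
    rw [Complex.norm_exp]
    apply Real.exp_le_exp.mpr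
    have := (abs_le.mp hφ.re_near).2
    nlinarith
  have hσ : (1 + ϵ) * sig c N * (ϱ * N / 2) ≤ c * Real.sqrt N * ϵ := by
    have hs2 : Real.sqrt N * Real.sqrt N = N := Real.mul_self_sqrt hNpos.le
    have e1 : (1 + ϵ) * sig c N * (ϱ * N / 2) = (1 + ϵ) * ϱ * c * Real.sqrt N / 4 := by
      unfold sig
      have : (N : ℝ) = Real.sqrt N * Real.sqrt N := hs2.symm
      rw [show (ϱ * (N : ℝ) / 2) = ϱ * (Real.sqrt N * Real.sqrt N) / 2 by rw [hs2]]
      field_simp
      ring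
    rw [e1]
    have : (1 + ϵ) * ϱ ≤ 2 * ϵ := by nlinarith
    have h3 : (1 + ϵ) * ϱ * (c * Real.sqrt N) ≤ 2 * ϵ * (c * Real.sqrt N) :=
      mul_le_mul_of_nonneg_right this (by positivity)
    have h4 : 0 ≤ ϵ * (c * Real.sqrt N) := by positivity
    nlinarith
  have h5 : ‖cexp (φ z)‖ ≤ Real.exp (c * Real.sqrt N * (1 + 2 * ϵ)) := by
    calc ‖cexp (φ z)‖ ≤ ‖cexp (φ N)‖ * Real.exp ((1 + ϵ) * sig c N * (ϱ * N / 2)) := hg
      _ ≤ Real.exp (c * Real.sqrt N * (1 + ϵ)) * Real.exp (c * Real.sqrt N * ϵ) := by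
          apply mul_le_mul hre (Real.exp_le_exp.mpr hσ) (Real.exp_nonneg _) (Real.exp_nonneg _)
      _ = Real.exp (c * Real.sqrt N * (1 + 2 * ϵ)) := by
          rw [← Real.exp_add]; congr 1; ring
  have h6 : ‖(θ : ℂ)‖ ≤ 1 := by
    rw [Complex.norm_real, Real.norm_eq_abs, abs_of_nonneg hθ0]; exact hθ1
  calc ‖cexp (φ z) - θ - Lp.eval z‖ ≤ ‖cexp (φ z) - θ‖ + ‖Lp.eval z‖ := norm_sub_le _ _
    _ ≤ ‖cexp (φ z)‖ + ‖(θ : ℂ)‖ + ‖Lp.eval z‖ := by
        have := norm_sub_le (cexp (φ z)) (θ : ℂ)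
        linarith
    _ ≤ Real.exp (c * Real.sqrt N * (1 + 2 * ϵ)) + 1 + Real.exp (c * Real.sqrt N) := by
        have := hLp z hz
        linarith
    _ ≤ _ := hnum

open Filter in
/-- all integer minors vanish -/
theorem minor_zero {c κ η ϵ ϱ : ℝ} (h : Par c κ η ϵ ϱ) : ∀ᶠ N : ℕ in atTop,
    ∀ φ : ℂ → ℂ, PhiGood c ϵ ϱ N φ → ∀ θ : ℝ, 0 ≤ θ → θ ≤ 1 →
    ∀ x : Fin (mm c η N + ll c η N) → ℕ, Function.Injective x →
    (∀ r, N ≤ x r ∧ (x r : ℝ) ≤ N + HH (η ^ 2 / 32) N) →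
    ∀ a : Fin (mm c η N + ll c η N) → ℤ,
    (∀ r, ‖cexp (φ (x r)) - θ - a r‖ ≤ Real.exp (-κ * Real.sqrt N)) →
    (Matrix.of fun (r i : Fin (mm c η N + ll c η N)) =>
      if (i : ℕ) < mm c η N then ((x r - N).choose i : ℤ)
      else ((x r - N).choose ((i : ℕ) - mm c η N) : ℤ) * a r).det = 0 := by
  filter_upwards [num0 h, num1 h, num2 h] with N h0 h1 h2
  obtain ⟨hN1, hl1, hlm, -, -, hH1, hHϱ, -, hmR, -, hsig⟩ := h0
  generalize mm c η N = m at *
  generalize ll c η N = l at *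
  generalize HH (η ^ 2 / 32) N = H at *
  intro φ hφ θ hθ0 hθ1 x hx hxN a ha
  have hNpos : (0 : ℝ) < N := by exact_mod_cast hN1
  have hϱ := h.hϱ
  have hϱN : 0 < ϱ * N := by positivity
  have hH0 : 0 ≤ H := by linarith
  have hHR : H < ϱ * N / 2 := by linarith
  have hRR : ϱ * N / 2 < ϱ * N := by linarith
  -- the interpolation polynomial
  obtain ⟨Lp, -, hLpe, hLpb⟩ := lagrange_bound (g := m + l) (by omega) x hx hxN
    (fun r => cexp (φ (x r)) - θ - a r) ha
  have hLb : ∀ z ∈ closedBall (N : ℂ) (ϱ * N / 2), ‖Lp.eval z‖ ≤ Real.exp (c * Real.sqrt N) :=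
    fun z hz => (hLpb _ hHR.le z hz).trans h2.1
  set G : ℂ → ℂ := fun z => cexp (φ z) - θ - Lp.eval z with hG
  have hGb : ∀ z ∈ closedBall (N : ℂ) (ϱ * N / 2),
      ‖G z‖ ≤ Real.exp (c * (1 + η / 2) * Real.sqrt N) :=
    minor_aux_bound h hN1 hφ hθ0 hθ1 hLb h2.2
  have hGd : DifferentiableOn ℂ G (ball (N : ℂ) (ϱ * N)) := by
    apply DifferentiableOn.sub
    · apply DifferentiableOn.sub
      · exact hφ.diff.cexp
      · exact differentiableOn_const _
    · exact (Polynomial.differentiable Lp).differentiableOn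
  have hGx : ∀ r, G (x r) = a r := by
    intro r
    simp only [hG, hLpe]
    ring
  -- the functions
  set f : Fin (m + l) → ℂ → ℂ := fun i z =>
    if (i : ℕ) < m then (binP N i).eval z else (binP N ((i : ℕ) - m)).eval z * G z with hf
  set B : Fin (m + l) → ℝ := fun i =>
    if (i : ℕ) < m then (2 * (ϱ * N / 2)) ^ (i : ℕ) / ((i : ℕ).factorial : ℝ)
    else (2 * (ϱ * N / 2)) ^ ((i : ℕ) - m) / (((i : ℕ) - m).factorial : ℝ)
      * Real.exp (c * (1 + η / 2) * Real.sqrt N) with hB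
  have hfd : ∀ i, DifferentiableOn ℂ (f i) (ball (N : ℂ) (ϱ * N)) := by
    intro i
    simp only [hf]
    by_cases hi : (i : ℕ) < m
    · simp only [hi, if_true]
      exact (Polynomial.differentiable _).differentiableOn
    · simp only [hi, if_false]
      exact (Polynomial.differentiable _).differentiableOn.mul hGd
  have hfB : ∀ i, ∀ z ∈ closedBall (N : ℂ) (ϱ * N / 2), ‖f i z‖ ≤ B i := by
    intro i z hz
    simp only [hf, hB]
    by_cases hi : (i : ℕ) < m
    · simp only [hi, if_true]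
      apply binP_bound _ z hz
      have : ((i : ℕ) : ℝ) ≤ m := by exact_mod_cast hi.le
      linarith
    · simp only [hi, if_false]
      rw [norm_mul]
      apply mul_le_mul _ (hGb z hz) (norm_nonneg _) (by positivity)
      apply binP_bound _ z hz
      have : (((i : ℕ) - m : ℕ) : ℝ) ≤ m := by
        have := i.2
        exact_mod_cast (by omega : (i : ℕ) - m ≤ m)
      linarith
  have hxH : ∀ r, ‖(x r : ℂ) - N‖ ≤ H := by
    intro r
    have h3 := hxN r
    have e : (x r : ℂ) - N = (((x r : ℝ) - N : ℝ) : ℂ) := by push_cast; ring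
    rw [e, Complex.norm_real, Real.norm_eq_abs, abs_of_nonneg]
    · linarith [h3.2]
    · have : (N : ℝ) ≤ x r := by exact_mod_cast h3.1
      linarith
  have hdet := det_bound f (fun r => (x r : ℂ)) B hH0 hHR hRR hfd hxH hfB
  have hprod : ∏ i, B i = (∏ i ∈ Finset.range m, (2 * (ϱ * N / 2)) ^ i / (i.factorial : ℝ))
        * ((∏ i ∈ Finset.range l, (2 * (ϱ * N / 2)) ^ i / (i.factorial : ℝ))
          * Real.exp (c * (1 + η / 2) * Real.sqrt N) ^ l) := by
    rw [Fin.prod_univ_add]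
    congr 1
    · rw [Finset.prod_range]
      apply Finset.prod_congr rfl
      intro i _
      simp [hB]
    · rw [Finset.prod_range]
      have e2 : Real.exp (c * (1 + η / 2) * Real.sqrt N) ^ l
          = ∏ _i : Fin l, Real.exp (c * (1 + η / 2) * Real.sqrt N) := by
        simp
      rw [e2, ← Finset.prod_mul_distrib]
      apply Finset.prod_congr rfl
      intro i _
      simp [hB]
  rw [hprod] at hdet
  have hlt := lt_of_le_of_lt hdet h1
  -- the matrix is the cast of the integer matrix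
  set A : Matrix (Fin (m + l)) (Fin (m + l)) ℤ := Matrix.of fun (r i : Fin (m + l)) =>
      if (i : ℕ) < m then ((x r - N).choose i : ℤ)
      else ((x r - N).choose ((i : ℕ) - m) : ℤ) * a r with hA
  have hcast : (Matrix.of fun r i => f i (x r : ℂ)) = A.map (Int.castRingHom ℂ) := by
    ext r i
    simp only [Matrix.of_apply, Matrix.map_apply, hA, hf]
    by_cases hi : (i : ℕ) < m
    · simp only [hi, if_true]
      rw [binP_eval_nat (hxN r).1]
      simp
    · simp only [hi, if_false]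
      rw [binP_eval_nat (hxN r).1, hGx r]
      simp
  have hdet2 : (Matrix.of fun r i => f i (x r : ℂ)).det = ((A.det : ℤ) : ℂ) := by
    rw [hcast, ← RingHom.mapMatrix_apply, ← RingHom.map_det]
    simp
  rw [hdet2, Complex.norm_intCast] at hlt
  have : |A.det| < 1 := by exact_mod_cast hlt
  exact Int.abs_lt_one_iff.mp this

end PRT
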