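import Mathlib
import Pool.Agent.PRT.DD

namespace PRT

open Complex Metric

/-- if `h + Q` (`Q` a polynomial of degree `< g`) vanishes at `g` nodes then it is tiny -/
theorem interp_bound {h : ℂ → ℂ} {g : ℕ} (x : Fin g → ℂ) (hinj : Function.Injective x) {c : ℂ}
    {R R' H B : ℝ} (hH : 0 < H) (hHR : 2 * H ≤ R) (hRR : R < R')
    (hh : DifferentiableOn ℂ h (ball c R')) (hx : ∀ r, ‖x r - c‖ ≤ H)
    (hB : ∀ z ∈ closedBall c R, ‖h z‖ ≤ B) (Q : Polynomial ℂ) (hQ : Q.degree < g)
    (hQx : ∀ r, h (x r) + Q.eval (x r) = 0) :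
    ∀ z ∈ closedBall c (2 * H), ‖h z + Q.eval z‖ ≤ (6 * H / (R - H)) ^ g * B := by
  classical
  set y : ℕ → ℂ := fun j => if hj : j < g then x ⟨j, hj⟩ else c with hy
  have hyx : ∀ r : Fin g, y r = x r := by
    intro r
    simp only [hy, r.isLt, dif_pos]
  have hyc : ∀ j, ‖y j - c‖ ≤ H := by
    intro j
    by_cases hj : j < g
    · have : y j = x ⟨j, hj⟩ := by simp only [hy, hj, dif_pos]
      rw [this]; exact hx _
    · have : y j = c := by simp only [hy, hj, dif_neg, not_false_eq_true]
      rw [this, sub_self, norm_zero]; exact hH.le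
  set Np : Polynomial ℂ := ∑ j ∈ Finset.range g, Polynomial.C (dd h y j (y j)) *
    ∏ s ∈ Finset.range j, (Polynomial.X - Polynomial.C (y s)) with hNp
  have hNpe : ∀ z, Np.eval z =
      ∑ j ∈ Finset.range g, dd h y j (y j) * ∏ s ∈ Finset.range j, (z - y s) := by
    intro z
    rw [hNp, Polynomial.eval_finsetSum]
    refine Finset.sum_congr rfl (fun j _ => ?_)
    rw [Polynomial.eval_mul, Polynomial.eval_C, Polynomial.eval_prod]
    congr 1
    refine Finset.prod_congr rfl (fun s _ => ?_)
    rw [Polynomial.eval_sub, Polynomial.eval_X, Polynomial.eval_C]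
  have hNd : Np.degree < g := by
    rw [hNp]
    refine lt_of_le_of_lt (Polynomial.degree_sum_le _ _) ?_
    refine (Finset.sup_lt_iff (WithBot.bot_lt_coe g)).2 ?_
    intro j hj
    refine lt_of_le_of_lt ((Polynomial.degree_mul_le _ _).trans
      (add_le_add Polynomial.degree_C_le le_rfl)) ?_
    rw [zero_add, Polynomial.degree_prod]
    simp only [Polynomial.degree_X_sub_C, Finset.sum_const, Finset.card_range, nsmul_eq_mul,
      mul_one]
    exact Nat.cast_lt.2 (Finset.mem_range.1 hj)
  have hroot : ∀ r : Fin g, (Np + Q).eval (x r) = 0 := by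
    intro r
    have h1 := dd_newton h y g (x r)
    have h2 : ∏ s ∈ Finset.range g, (x r - y s) = 0 := by
      refine Finset.prod_eq_zero (Finset.mem_range.2 r.isLt) ?_
      rw [hyx, sub_self]
    rw [h2, zero_mul, add_zero, ← hNpe] at h1
    rw [Polynomial.eval_add, ← h1]
    exact hQx r
  have hzero : Np + Q = 0 := by
    refine Polynomial.eq_zero_of_degree_lt_of_eval_index_eq_zero (s := Finset.univ) (v := x)
      (hinj.injOn) ?_ (fun r _ => hroot r)
    rw [Finset.card_univ, Fintype.card_fin]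
    exact lt_of_le_of_lt (Polynomial.degree_add_le _ _) (max_lt hNd hQ)
  have hHR' : H < R := by linarith
  intro z hz
  have hzR : z ∈ closedBall c R := closedBall_subset_closedBall hHR hz
  have h1 := dd_newton h y g z
  rw [← hNpe] at h1
  have h2 : Np.eval z + Q.eval z = 0 := by
    rw [← Polynomial.eval_add, hzero, Polynomial.eval_zero]
  have h3 : h z + Q.eval z = (∏ s ∈ Finset.range g, (z - y s)) * dd h y g z := by
    rw [h1]
    linear_combination h2
  rw [h3, norm_mul, norm_prod]
  have h4 : ∏ s ∈ Finset.range g, ‖z - y s‖ ≤ (3 * H) ^ g := by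
    have h5 : ∀ s ∈ Finset.range g, ‖z - y s‖ ≤ 3 * H := by
      intro s _
      have h6 : ‖z - c‖ ≤ 2 * H := by
        rw [← dist_eq_norm]; exact mem_closedBall.1 hz
      have h7 := hyc s
      rw [norm_sub_rev] at h7
      calc ‖z - y s‖ = ‖(z - c) + (c - y s)‖ := by congr 1; ring
        _ ≤ ‖z - c‖ + ‖c - y s‖ := norm_add_le _ _
        _ ≤ 3 * H := by linarith
    have h8 := Finset.prod_le_prod (fun s _ => norm_nonneg (z - y s)) h5
    rw [Finset.prod_const, Finset.card_range] at h8
    exact h8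
  have h5 := dd_bound hH.le hHR' hRR hh hyc hB g z hzR
  have hRH : 0 < R - H := by linarith
  calc (∏ s ∈ Finset.range g, ‖z - y s‖) * ‖dd h y g z‖
      ≤ (3 * H) ^ g * ((2 / (R - H)) ^ g * B) :=
        mul_le_mul h4 h5 (norm_nonneg _) (by positivity)
    _ = (6 * H / (R - H)) ^ g * B := by
        rw [← mul_assoc, ← mul_pow]
        congr 2
        ring

end PRT
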