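import Mathlib
import Pool.Agent.PRT.Defs
import Pool.Agent.PRT.NUM4

namespace PRT

open Complex Metric

open Num4 Topology

namespace Num3

open Filter

/-- the exponent of `LBN` -/
noncomputable def vv (c η ϵ ϱ : ℝ) (N : ℕ) : ℝ := (mm c η N : ℝ) * (Real.log (c / 2) - Real.log N / 2)
    + 2 * (mm c η N : ℝ) * Real.log (1 - ϵ)
    + (2 * (mm c η N : ℝ) * Real.log (1 - ϵ) - (mm c η N : ℝ) * Real.log (1 + 2 * ϵ)
        - (Real.log (ll c η N) + (ll c η N : ℝ) * Real.log 8))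
      * ((Real.log (ϱ / 8) + (1 / 2 - η ^ 2 / 32) * Real.log N) / Real.log 2)

lemma ll_pos {c η : ℝ} (hc : 0 < c) (hη : 0 < η) : ∀ᶠ N in atTop, 1 ≤ ll c η N := by
  filter_upwards [(tendsto_SS hc).eventually_gt_atTop 0] with N hN
  unfold ll
  exact Nat.one_le_iff_ne_zero.2 (Nat.pos_iff_ne_zero.1 (Nat.ceil_pos.2 (by positivity)))

lemma ll_le {c η : ℝ} (hc : 0 < c) (hη : 0 < η) : ∀ᶠ N in atTop, (ll c η N : ℝ) ≤ Real.sqrt N := by
  have lL0 : Tendsto (fun N : ℕ => (ll c η N : ℝ) / Real.sqrt N) atTop (𝓝 0) := ceil_lim0 hc hη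
  filter_upwards [lL0.eventually_le_const (show (0 : ℝ) < 1 by norm_num), eventually_gt_atTop 0] with N hN hN2
  have h3 : 0 < Real.sqrt N := Real.sqrt_pos.2 (by exact_mod_cast hN2)
  rwa [div_le_one h3] at hN

lemma vv_lim {c κ η ϵ ϱ : ℝ} (h : Par c κ η ϵ ϱ) : Tendsto (fun N => vv c η ϵ ϱ N / Real.sqrt N) atTop
      (𝓝 (-(1 / 2) * ((1 + η) * (2 * c)) + (1 / 2 - η ^ 2 / 32) / Real.log 2 *
        (2 * Real.log (1 - ϵ) * ((1 + η) * (2 * c)) - Real.log (1 + 2 * ϵ) * ((1 + η) * (2 * c))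
          - (0 + Real.log 8 * (η * (2 * c)))))) := by
  obtain ⟨hc, hη, hη1, hϵ, hϱ, hϱϵ, -⟩ := h
  have lm : Tendsto (fun N : ℕ => (mm c η N : ℝ) * Real.log N / Real.sqrt N) atTop
      (𝓝 ((1 + η) * (2 * c))) := ceil_lim hc (by linarith)
  have lm0 : Tendsto (fun N : ℕ => (mm c η N : ℝ) / Real.sqrt N) atTop (𝓝 0) :=
    ceil_lim0 hc (by linarith)
  have lL : Tendsto (fun N : ℕ => (ll c η N : ℝ) * Real.log N / Real.sqrt N) atTop
      (𝓝 (η * (2 * c))) := ceil_lim hc hη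
  have lL0 : Tendsto (fun N : ℕ => (ll c η N : ℝ) / Real.sqrt N) atTop (𝓝 0) := ceil_lim0 hc hη
  have el1 := ll_pos hc hη
  have el2 := ll_le hc hη
  have lll := loglog_lim el1 el2
  have lll0 := log_lim el1 el2
  have h1 := (((lm0.const_mul (Real.log (c / 2))).add (lm.const_mul (-(1 / 2)))).add
      (lm0.const_mul (2 * Real.log (1 - ϵ)))).add
      (((((lm0.const_mul (2 * Real.log (1 - ϵ))).sub (lm0.const_mul (Real.log (1 + 2 * ϵ)))).sub
        (lll0.add (lL0.const_mul (Real.log 8)))).const_mul (Real.log (ϱ / 8) / Real.log 2)).add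
      ((((lm.const_mul (2 * Real.log (1 - ϵ))).sub (lm.const_mul (Real.log (1 + 2 * ϵ)))).sub
        (lll.add (lL.const_mul (Real.log 8)))).const_mul ((1 / 2 - η ^ 2 / 32) / Real.log 2)))
  have h2 : Real.log (c / 2) * 0 + -(1 / 2) * ((1 + η) * (2 * c)) + 2 * Real.log (1 - ϵ) * 0
        + (Real.log (ϱ / 8) / Real.log 2 * (2 * Real.log (1 - ϵ) * 0 - Real.log (1 + 2 * ϵ) * 0
          - (0 + Real.log 8 * 0)) + (1 / 2 - η ^ 2 / 32) / Real.log 2 *
        (2 * Real.log (1 - ϵ) * ((1 + η) * (2 * c)) - Real.log (1 + 2 * ϵ) * ((1 + η) * (2 * c))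
          - (0 + Real.log 8 * (η * (2 * c))))) = -(1 / 2) * ((1 + η) * (2 * c)) + (1 / 2 - η ^ 2 / 32) / Real.log 2 *
        (2 * Real.log (1 - ϵ) * ((1 + η) * (2 * c)) - Real.log (1 + 2 * ϵ) * ((1 + η) * (2 * c))
          - (0 + Real.log 8 * (η * (2 * c)))) := by ring
  rw [h2] at h1
  refine h1.congr ?_
  intro N
  unfold vv
  ring

lemma vv_lim_ge {c κ η ϵ ϱ : ℝ} (h : Par c κ η ϵ ϱ) :
    -(c * (1 + 5 * η)) ≤ -(1 / 2) * ((1 + η) * (2 * c)) + (1 / 2 - η ^ 2 / 32) / Real.log 2 *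
        (2 * Real.log (1 - ϵ) * ((1 + η) * (2 * c)) - Real.log (1 + 2 * ϵ) * ((1 + η) * (2 * c))
          - (0 + Real.log 8 * (η * (2 * c)))) := by
  obtain ⟨hc, hη, hη1, hϵ, hϱ, hϱϵ, -⟩ := h
  have hϵ0 : 0 < ϵ := by rw [hϵ]; positivity
  have hϵ1 : ϵ ≤ 1 / 320 := by rw [hϵ]; linarith
  set ω : ℝ := η ^ 2 / 32 with hω
  have hω0 : 0 < ω := by positivity
  have hω1 : ω ≤ 1 / 12800 := by rw [hω]; nlinarith
  have hlog2 : 0 < Real.log 2 := Real.log_pos (by norm_num)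
  have hl8 : Real.log 8 = 3 * Real.log 2 := by
    rw [show (8 : ℝ) = 2 ^ 3 by norm_num, Real.log_pow]; norm_num
  have hl2 : (0.69 : ℝ) ≤ Real.log 2 := by linarith [Real.log_two_gt_d9]
  have ha : -(2 * ϵ) ≤ Real.log (1 - ϵ) := by
    have h1 := Real.one_sub_inv_le_log_of_pos (show 0 < 1 - ϵ by linarith)
    have h2 : (1 - ϵ)⁻¹ ≤ 1 + 2 * ϵ := by
      rw [inv_le_comm₀ (by linarith) (by linarith)]
      rw [inv_le_comm₀ (by linarith) (by linarith)]
      rw [inv_eq_one_div, div_le_iff₀ (by linarith)]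
      nlinarith
    linarith
  have hb : Real.log (1 + 2 * ϵ) ≤ 2 * ϵ := by
    have := Real.log_le_sub_one_of_pos (show 0 < 1 + 2 * ϵ by linarith)
    linarith
  have hr : 0 < (1 / 2 - ω) / Real.log 2 := div_pos (by linarith) hlog2
  have hr2 : (1 / 2 - ω) / Real.log 2 ≤ 1 / 1.38 := by
    rw [div_le_div_iff₀ hlog2 (by norm_num)]
    nlinarith
  have e1 : (1 / 2 - ω) / Real.log 2 *
      (2 * Real.log (1 - ϵ) * ((1 + η) * (2 * c)) - Real.log (1 + 2 * ϵ) * ((1 + η) * (2 * c))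
        - (0 + Real.log 8 * (η * (2 * c))))
      = c * ((1 / 2 - ω) / Real.log 2 * ((1 + η) * (4 * Real.log (1 - ϵ) - 2 * Real.log (1 + 2 * ϵ))))
        - c * ((1 / 2 - ω) * (6 * η)) := by
    rw [hl8]
    field_simp
    ring
  rw [e1]
  have e2 : -(12 * ϵ) ≤ 4 * Real.log (1 - ϵ) - 2 * Real.log (1 + 2 * ϵ) := by linarith
  have e3 : -(1.05 * (12 * ϵ)) ≤ (1 + η) * (4 * Real.log (1 - ϵ) - 2 * Real.log (1 + 2 * ϵ)) := by
    nlinarith
  have e4 : -(1 / 1.38 * (1.05 * (12 * ϵ))) ≤ (1 / 2 - ω) / Real.log 2 *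
      ((1 + η) * (4 * Real.log (1 - ϵ) - 2 * Real.log (1 + 2 * ϵ))) := by
    have := mul_le_mul_of_nonneg_left e3 hr.le
    have h5 : (1 / 2 - ω) / Real.log 2 * (1.05 * (12 * ϵ)) ≤ 1 / 1.38 * (1.05 * (12 * ϵ)) :=
      mul_le_mul_of_nonneg_right hr2 (by positivity)
    linarith
  have h6 : (1 / 2 - ω) * (6 * η) ≤ 3 * η := by nlinarith
  have h8 : 1 / 1.38 * (1.05 * (12 * ϵ)) ≤ 0.6 * η := by
    rw [hϵ]; norm_num; linarith
  have e5 : 0 ≤ (-(1 / 2) * ((1 + η) * 2) + ((1 / 2 - ω) / Real.log 2 *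
      ((1 + η) * (4 * Real.log (1 - ϵ) - 2 * Real.log (1 + 2 * ϵ)))) - (1 / 2 - ω) * (6 * η))
      + (1 + 5 * η) := by
    linarith
  nlinarith [mul_nonneg hc.le e5]

lemma LBN_eq {c κ η ϵ ϱ : ℝ} (h : Par c κ η ϵ ϱ) {N : ℕ} (hN1 : 1 < N) (hl1 : 1 ≤ ll c η N) :
    LBN c η ϵ ϱ N = Real.exp (vv c η ϵ ϱ N) := by
  obtain ⟨hc, hη, hη1, hϵ, hϱ, hϱϵ, -⟩ := h
  have hϵ0 : 0 < ϵ := by rw [hϵ]; positivity
  have hϵ1 : ϵ ≤ 1 / 320 := by rw [hϵ]; linarith
  have hN0 : (0 : ℝ) < N := by exact_mod_cast (lt_trans Nat.zero_lt_one hN1)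
  have hHdef : HH (η ^ 2 / 32) N = (N : ℝ) ^ (1 / 2 + η ^ 2 / 32) := rfl
  have hHpos : 0 < HH (η ^ 2 / 32) N := by rw [hHdef]; positivity
  have hl1' : (1 : ℝ) ≤ ll c η N := by exact_mod_cast hl1
  have hlpos : (0 : ℝ) < ll c η N := by linarith
  have L5 : (ll c η N : ℝ) * 8 ^ (ll c η N) = Real.exp (Real.log (ll c η N) + (ll c η N : ℝ) * Real.log 8) := by
    rw [Real.exp_add, Real.exp_log hlpos, ← Real.log_pow, Real.exp_log (by positivity)]
  unfold LBN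
  have h1 : sig c N ^ (mm c η N) = Real.exp ((mm c η N : ℝ) * (Real.log (c / 2) - Real.log N / 2)) := by
    rw [Real.exp_nat_mul]
    congr 1
    rw [Real.exp_sub, Real.exp_log (by positivity), Real.exp_half, Real.exp_log hN0]
    unfold sig
    field_simp
  have h2 : (1 - ϵ) ^ (2 * mm c η N) = Real.exp (2 * (mm c η N : ℝ) * Real.log (1 - ϵ)) := by
    rw [show 2 * (mm c η N : ℝ) * Real.log (1 - ϵ) = ((2 * mm c η N : ℕ) : ℝ) * Real.log (1 - ϵ) by
      push_cast; ring]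
    rw [Real.exp_nat_mul, Real.exp_log (by linarith)]
  have h3 : (1 + 2 * ϵ) ^ (mm c η N) = Real.exp ((mm c η N : ℝ) * Real.log (1 + 2 * ϵ)) := by
    rw [Real.exp_nat_mul, Real.exp_log (by linarith)]
  have h4 : Real.log (2 * (ϱ * N / 16) / HH (η ^ 2 / 32) N)
      = Real.log (ϱ / 8) + (1 / 2 - η ^ 2 / 32) * Real.log N := by
    rw [← Real.log_rpow hN0, ← Real.log_mul (by positivity) (by positivity)]
    congr 1
    rw [hHdef, div_eq_iff (by positivity), mul_assoc, ← Real.rpow_add hN0]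
    rw [show (1 / 2 - η ^ 2 / 32 + (1 / 2 + η ^ 2 / 32) : ℝ) = 1 by ring, Real.rpow_one]
    ring
  rw [h1, h2, h3, h4, L5]
  simp only [← Real.exp_add, ← Real.exp_sub, ← Real.exp_mul]
  unfold vv
  congr 1
  ring

end Num3

open Num3

open Filter in
/-- first numerical inequality of the small value contradiction; `H = N^{1/2+η²/32}` -/
theorem num3 {c κ η ϵ ϱ : ℝ} (h : Par c κ η ϵ ϱ) : ∀ᶠ N : ℕ in atTop,
    ((mm c η N).factorial : ℝ) / HH (η ^ 2 / 32) N ^ (mm c η N)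
      * Real.exp (2 * sig c N * HH (η ^ 2 / 32) N)
      * (2 * (gg c η N * Real.exp (-κ * Real.sqrt N)
        * ((8 * HH (η ^ 2 / 32) N) ^ (gg c η N - 1) / ((gg c η N - 1).factorial : ℝ))))
      * Real.exp (-(c * (1 - ϵ) * Real.sqrt N)) < LBN c η ϵ ϱ N := by
  have hPar := h
  have hge := vv_lim_ge h
  have hvlim := vv_lim h
  obtain ⟨hc, hη, hη1, hϵ, hϱ, hϱϵ, hκ⟩ := h
  have hϵ0 : 0 < ϵ := by rw [hϵ]; positivity
  have hϵ1 : ϵ ≤ 1 / 320 := by rw [hϵ]; linarith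
  set ω : ℝ := η ^ 2 / 32 with hω
  have hω0 : 0 < ω := by positivity
  have hω1 : ω ≤ 1 / 12800 := by rw [hω]; nlinarith
  have hω2 : ω ≤ η / 640 := by rw [hω]; nlinarith
  -- limits
  have lm0 : Tendsto (fun N : ℕ => (mm c η N : ℝ) / Real.sqrt N) atTop (𝓝 0) :=
    ceil_lim0 hc (by linarith)
  have lg := gg_lim hc hη
  have lg0 := gg_lim0 hc hη
  have em : ∀ᶠ N in atTop, (mm c η N : ℝ) ≤ Real.sqrt N := by
    filter_upwards [lm0.eventually_le_const (show (0 : ℝ) < 1 by norm_num), eventually_gt_atTop 0] with N hN hN2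
    have h3 : 0 < Real.sqrt N := Real.sqrt_pos.2 (by exact_mod_cast hN2)
    rwa [div_le_one h3] at hN
  have eg2 : ∀ᶠ N in atTop, (gg c η N : ℝ) ≤ Real.sqrt N := by
    filter_upwards [lg0.eventually_le_const (show (0 : ℝ) < 1 by norm_num), eventually_gt_atTop 0] with N hN hN2
    have h3 : 0 < Real.sqrt N := Real.sqrt_pos.2 (by exact_mod_cast hN2)
    rwa [div_le_one h3] at hN
  have eS : ∀ᶠ N in atTop, 0 < SS c N := (tendsto_SS hc).eventually_gt_atTop 0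
  have eg1 : ∀ᶠ N in atTop, 1 ≤ gg c η N := by
    filter_upwards [eS] with N hN
    have : 1 ≤ ⌈SS c N⌉₊ := Nat.one_le_iff_ne_zero.2 (Nat.pos_iff_ne_zero.1 (Nat.ceil_pos.2 hN))
    unfold gg
    omega
  have llg := log_lim eg1 eg2
  have lr : Tendsto (fun N : ℕ => (N : ℝ) ^ ω / Real.sqrt N) atTop (𝓝 0) := rpow_lim (by linarith)
  have lr2 : Tendsto (fun N : ℕ => (1 : ℝ) / Real.sqrt N) atTop (𝓝 0) := by
    refine sqrt_tendsto.inv_tendsto_atTop.congr (fun N => ?_)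
    simp
  have lone : Tendsto (fun N : ℕ => Real.sqrt N / Real.sqrt N) atTop (𝓝 1) := by
    refine tendsto_const_nhds.congr' ?_
    filter_upwards [eventually_gt_atTop 0] with N hN2
    have h3 : 0 < Real.sqrt N := Real.sqrt_pos.2 (by exact_mod_cast hN2)
    field_simp
  set u : ℕ → ℝ := fun N => c * (N : ℝ) ^ ω + Real.log 2 + Real.log (gg c η N)
    + (-κ - c * (1 - ϵ)) * Real.sqrt N
    + ((gg c η N : ℝ) - 1) * (Real.log 8 + (ω + η) * Real.log N + 1) with hu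
  have hulim : Tendsto (fun N => u N / Real.sqrt N) atTop
      (𝓝 (-κ - c * (1 - ϵ) + (ω + η) * ((2 + η) * (2 * c)))) := by
    have h1 := ((((lr.const_mul c).add (lr2.const_mul (Real.log 2))).add llg).add
      (lone.const_mul (-κ - c * (1 - ϵ)))).add
      (((lg0.sub lr2).const_mul (Real.log 8 + 1)).add ((lg.sub log_div_sqrt).const_mul (ω + η)))
    have h2 : c * 0 + Real.log 2 * 0 + 0 + (-κ - c * (1 - ϵ)) * 1 + ((Real.log 8 + 1) * (0 - 0)
        + (ω + η) * ((2 + η) * (2 * c) - 0)) = -κ - c * (1 - ϵ) + (ω + η) * ((2 + η) * (2 * c)) := by ring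
    rw [h2] at h1
    refine h1.congr ?_
    intro N
    rw [hu]
    ring
  have hAB : -κ - c * (1 - ϵ) + (ω + η) * ((2 + η) * (2 * c)) < -(c * (1 + 5 * η)) := by
    have h1 : (ω + η) * ((2 + η) * 2) ≤ 5 * η := by nlinarith
    have h2 : 0 < c * (10 * η - (ω + η) * ((2 + η) * 2) - ϵ) := by
      apply mul_pos hc
      rw [hϵ]
      linarith
    nlinarith
  have hlt := hulim.eventually_lt hvlim (lt_of_lt_of_le hAB hge)
  have eG : ∀ᶠ N : ℕ in atTop, Real.log N ≤ 2 * c * (N : ℝ) ^ η := by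
    have h1 := (isLittleO_log_rpow_atTop hη).tendsto_div_nhds_zero.comp tendsto_natCast
    filter_upwards [h1.eventually_le_const (show (0 : ℝ) < 2 * c by positivity), eventually_gt_atTop 0]
      with N hN hN2
    have hN' : (0 : ℝ) < N := by exact_mod_cast hN2
    have h2 : 0 < (N : ℝ) ^ η := by positivity
    simp only [Function.comp] at hN
    rwa [div_le_iff₀ h2] at hN
  filter_upwards [hlt, ll_pos hc hη, em, eG, eS, eg1, eventually_gt_atTop 1] with N hN hl1 hmN hGN hSN hg1 hN1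
  have hN0 : (0 : ℝ) < N := by exact_mod_cast (lt_trans Nat.zero_lt_one hN1)
  have hN1' : (1 : ℝ) < N := by exact_mod_cast hN1
  have hs : 0 < Real.sqrt N := Real.sqrt_pos.2 hN0
  have huv : u N < vv c η ϵ ϱ N := (div_lt_div_iff_of_pos_right hs).1 hN
  have hHdef : HH ω N = (N : ℝ) ^ (1 / 2 + ω) := rfl
  have hHpos : 0 < HH ω N := by rw [hHdef]; positivity
  have hHge : Real.sqrt N ≤ HH ω N := by
    rw [hHdef, Real.sqrt_eq_rpow]
    exact Real.rpow_le_rpow_of_exponent_le hN1'.le (by linarith)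
  have L1 : ((mm c η N).factorial : ℝ) / HH ω N ^ (mm c η N) ≤ 1 := by
    rw [div_le_one (by positivity)]
    calc ((mm c η N).factorial : ℝ) ≤ ((mm c η N : ℕ) : ℝ) ^ (mm c η N) := by
          exact_mod_cast Nat.factorial_le_pow _
      _ ≤ HH ω N ^ (mm c η N) := by
          gcongr
          exact hmN.trans hHge
  have L2 : 2 * sig c N * HH ω N = c * (N : ℝ) ^ ω := by
    unfold sig
    rw [hHdef, Real.rpow_add hN0, ← Real.sqrt_eq_rpow]
    field_simp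
  have hL := Real.log_pos hN1'
  -- `G = g - 1 ≥ N ^ (1/2 - η)`
  have hGm : mm c η N ≤ gg c η N - 1 := by
    have : 1 ≤ ⌈SS c N⌉₊ := Nat.one_le_iff_ne_zero.2 (Nat.pos_iff_ne_zero.1 (Nat.ceil_pos.2 hSN))
    unfold gg
    omega
  have hGlow : (N : ℝ) ^ (1 / 2 - η) ≤ ((gg c η N - 1 : ℕ) : ℝ) := by
    have h1 : (mm c η N : ℝ) ≤ ((gg c η N - 1 : ℕ) : ℝ) := by exact_mod_cast hGm
    have h2 : (1 + η) * SS c N ≤ mm c η N := Nat.le_ceil _
    have h3 : (N : ℝ) ^ (1 / 2 - η) ≤ SS c N := by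
      unfold SS
      rw [le_div_iff₀ hL]
      have h4 : (N : ℝ) ^ (1 / 2 - η) * (N : ℝ) ^ η = Real.sqrt N := by
        rw [← Real.rpow_add hN0, Real.sqrt_eq_rpow]
        congr 1
        ring
      have h5 : 0 < (N : ℝ) ^ (1 / 2 - η) := by positivity
      calc (N : ℝ) ^ (1 / 2 - η) * Real.log N ≤ (N : ℝ) ^ (1 / 2 - η) * (2 * c * (N : ℝ) ^ η) := by gcongr
        _ = 2 * c * ((N : ℝ) ^ (1 / 2 - η) * (N : ℝ) ^ η) := by ring
        _ = 2 * c * Real.sqrt N := by rw [h4]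
    nlinarith
  have hGcast : ((gg c η N - 1 : ℕ) : ℝ) = (gg c η N : ℝ) - 1 := by
    rw [Nat.cast_sub hg1, Nat.cast_one]
  set G : ℕ := gg c η N - 1 with hG
  have hGpos : (0 : ℝ) < (G : ℝ) := lt_of_lt_of_le (by positivity) hGlow
  have L6 : (8 * HH ω N) ^ G / (G.factorial : ℝ) ≤
      Real.exp (((gg c η N : ℝ) - 1) * (Real.log 8 + (ω + η) * Real.log N + 1)) := by
    rw [← hGcast]
    have h1 : (G : ℝ) ^ G / (G.factorial : ℝ) ≤ Real.exp (G : ℝ) := Real.pow_div_factorial_le_exp _ hGpos.le _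
    have h2 : 8 * HH ω N / (G : ℝ) ≤ Real.exp (Real.log 8 + (ω + η) * Real.log N) := by
      rw [Real.exp_add, Real.exp_log (by norm_num)]
      have h3 : Real.exp ((ω + η) * Real.log N) = (N : ℝ) ^ (ω + η) := by
        rw [Real.rpow_def_of_pos hN0, mul_comm]
      rw [h3, div_le_iff₀ hGpos, mul_assoc]
      have h4 : HH ω N = (N : ℝ) ^ (ω + η) * (N : ℝ) ^ (1 / 2 - η) := by
        rw [hHdef, ← Real.rpow_add hN0]
        congr 1
        ring
      rw [h4]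
      have h5 : 0 < (N : ℝ) ^ (ω + η) := by positivity
      gcongr
    have h3 : (8 * HH ω N) ^ G / (G.factorial : ℝ) = (8 * HH ω N / (G : ℝ)) ^ G * ((G : ℝ) ^ G / (G.factorial : ℝ)) := by
      rw [div_pow]
      field_simp
    rw [h3]
    have h4 : Real.exp ((G : ℝ) * (Real.log 8 + (ω + η) * Real.log N + 1)) =
        Real.exp (Real.log 8 + (ω + η) * Real.log N) ^ G * Real.exp (G : ℝ) := by
      rw [mul_add, Real.exp_add, Real.exp_nat_mul, mul_one]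
    rw [h4]
    have h5 : 0 ≤ 8 * HH ω N / (G : ℝ) := by positivity
    gcongr
  have hg0 : (0 : ℝ) < gg c η N := by
    have : (1 : ℝ) ≤ gg c η N := by exact_mod_cast hg1
    linarith
  have hLHS : ((mm c η N).factorial : ℝ) / HH ω N ^ (mm c η N)
      * Real.exp (2 * sig c N * HH ω N)
      * (2 * (gg c η N * Real.exp (-κ * Real.sqrt N)
        * ((8 * HH ω N) ^ G / (G.factorial : ℝ))))
      * Real.exp (-(c * (1 - ϵ) * Real.sqrt N)) ≤ Real.exp (u N) := by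
    have e1 : Real.exp (u N) = 1 * Real.exp (c * (N : ℝ) ^ ω) * (2 * (gg c η N * Real.exp (-κ * Real.sqrt N)
        * Real.exp (((gg c η N : ℝ) - 1) * (Real.log 8 + (ω + η) * Real.log N + 1))))
        * Real.exp (-(c * (1 - ϵ) * Real.sqrt N)) := by
      have e2 : u N = c * (N : ℝ) ^ ω + (Real.log 2 + (Real.log (gg c η N) + (-κ * Real.sqrt N
          + ((gg c η N : ℝ) - 1) * (Real.log 8 + (ω + η) * Real.log N + 1))))
          + (-(c * (1 - ϵ) * Real.sqrt N)) := by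
        rw [hu]; ring
      rw [e2, Real.exp_add, Real.exp_add, Real.exp_add (Real.log 2), Real.exp_add (Real.log (gg c η N)),
        Real.exp_add (-κ * Real.sqrt N), Real.exp_log (by norm_num : (0 : ℝ) < 2), Real.exp_log hg0, one_mul]
      ring
    rw [e1, L2]
    gcongr
  calc _ ≤ Real.exp (u N) := hLHS
    _ < Real.exp (vv c η ϵ ϱ N) := Real.exp_lt_exp.2 huv
    _ = _ := (LBN_eq hPar hN1 hl1).symm

end PRT
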