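import Mathlib
import Pool.Agent.PRT.Defs

namespace PRT

open Complex Metric

open Filter in
theorem num5_mm_le {c η δ : ℝ} (hc : 0 < c) (hη : 0 < η) (hη1 : η ≤ 1 / 20) (hδ : 0 < δ) :
    ∀ᶠ N : ℕ in atTop, 2 ≤ N ∧ 0 < (mm c η N : ℝ) ∧ (ll c η N : ℝ) ≤ mm c η N ∧
      (mm c η N : ℝ) ≤ δ * Real.sqrt N := by
  have h1 : ∀ᶠ N : ℕ in atTop, (8 * c / δ : ℝ) ≤ Real.log N :=
    (Real.tendsto_log_atTop.comp tendsto_natCast_atTop_atTop).eventually_ge_atTop _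
  have h2 : ∀ᶠ N : ℕ in atTop, (2 / δ : ℝ) ≤ Real.sqrt N :=
    (Real.tendsto_sqrt_atTop.comp tendsto_natCast_atTop_atTop).eventually_ge_atTop _
  filter_upwards [h1, h2, eventually_ge_atTop 2] with N hN1 hN2 hN
  have hN' : (2 : ℝ) ≤ N := by exact_mod_cast hN
  have hsq : 0 < Real.sqrt N := Real.sqrt_pos.2 (by linarith)
  have hlog : 0 < Real.log N := Real.log_pos (by linarith)
  have hSS : 0 < SS c N := by unfold SS; positivity
  refine ⟨hN, ?_, ?_, ?_⟩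
  · unfold mm
    have := Nat.le_ceil ((1 + η) * SS c N)
    have h3 : 0 < (1 + η) * SS c N := by positivity
    linarith
  · unfold mm ll
    have : ⌈η * SS c N⌉₊ ≤ ⌈(1 + η) * SS c N⌉₊ := Nat.ceil_le_ceil (by nlinarith)
    exact_mod_cast this
  · unfold mm
    have h4 : (⌈(1 + η) * SS c N⌉₊ : ℝ) < (1 + η) * SS c N + 1 :=
      Nat.ceil_lt_add_one (by positivity)
    have h5 : SS c N ≤ δ * Real.sqrt N / 4 := by
      unfold SS
      rw [div_le_iff₀ hlog]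
      have h6 : 8 * c ≤ Real.log N * δ := by rwa [div_le_iff₀ hδ] at hN1
      nlinarith
    have h7 : 2 ≤ Real.sqrt N * δ := by rwa [div_le_iff₀ hδ] at hN2
    nlinarith

open Filter in
/-- numerical hypotheses of the small value estimate; `ρ = ϱ N / 16` -/
theorem num5 {c κ η ϵ ϱ : ℝ} (h : Par c κ η ϵ ϱ) : ∀ᶠ N : ℕ in atTop,
    Real.exp (-((1 - ϵ) * sig c N * (ϱ * N / 16) / (4 * mm c η N))) ≤ ϵ ∧
    Real.exp (-((1 - ϵ) * sig c N * (ϱ * N / 16) / (4 * mm c η N))) ^ (mm c η N)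
      * ((ll c η N : ℝ) * 8 ^ (ll c η N))
      * ((1 + 2 * ϵ) / (1 - ϵ) ^ 2) ^ (mm c η N) < 1 := by
  obtain ⟨hc, hη, hη1, hϵ, hϱ, hϱϵ, hκ⟩ := h
  have hϵ0 : 0 < ϵ := by rw [hϵ]; positivity
  have hϵ1 : ϵ < 1 / 2 := by rw [hϵ]; linarith
  set K : ℝ := (1 + 2 * ϵ) / (1 - ϵ) ^ 2 with hK
  have hK1 : 1 ≤ K := by
    rw [hK, le_div_iff₀ (by nlinarith)]
    nlinarith
  have hKpos : 0 < K := by linarith
  set L1 : ℝ := Real.log (1 / ϵ) with hL1
  have hL1pos : 0 < L1 := Real.log_pos (by rw [lt_div_iff₀ hϵ0]; linarith)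
  set L2 : ℝ := Real.log (16 * K) with hL2
  have hL2pos : 0 < L2 := Real.log_pos (by linarith)
  set δ : ℝ := (1 - ϵ) * c * ϱ / (128 * (L1 + L2 + 1)) with hδ
  have hδpos : 0 < δ := by
    have : 0 < 1 - ϵ := by linarith
    positivity
  filter_upwards [num5_mm_le hc hη hη1 hδpos] with N hN
  obtain ⟨hN2, hm, hlm, hmδ⟩ := hN
  have hN' : (2 : ℝ) ≤ N := by exact_mod_cast hN2
  have hsq : 0 < Real.sqrt N := Real.sqrt_pos.2 (by linarith)
  have hsq2 : Real.sqrt N * Real.sqrt N = N := Real.mul_self_sqrt (by linarith)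
  have hE : (1 - ϵ) * sig c N * (ϱ * N / 16) = (1 - ϵ) * c * ϱ * Real.sqrt N / 32 := by
    unfold sig
    have : (N : ℝ) = Real.sqrt N * Real.sqrt N := hsq2.symm
    rw [this]
    rw [Real.sqrt_mul_self hsq.le]
    field_simp
    ring
  have hkey : (mm c η N : ℝ) * (L1 + L2 + 1) ≤ (1 - ϵ) * c * ϱ * Real.sqrt N / 128 := by
    calc (mm c η N : ℝ) * (L1 + L2 + 1) ≤ δ * Real.sqrt N * (L1 + L2 + 1) := by gcongr
      _ = (1 - ϵ) * c * ϱ * Real.sqrt N / 128 := by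
        rw [hδ]; field_simp
  constructor
  · rw [hE]
    have h1 : L1 ≤ (1 - ϵ) * c * ϱ * Real.sqrt N / 32 / (4 * mm c η N) := by
      rw [le_div_iff₀ (by positivity)]
      nlinarith
    calc Real.exp (-((1 - ϵ) * c * ϱ * Real.sqrt N / 32 / (4 * mm c η N)))
        ≤ Real.exp (-L1) := by gcongr
      _ = ϵ := by
        rw [hL1, Real.exp_neg, Real.exp_log (by positivity)]
        field_simp
  · rw [hE]
    have h2 : Real.exp (-((1 - ϵ) * c * ϱ * Real.sqrt N / 32 / (4 * mm c η N))) ^ (mm c η N)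
        = Real.exp (-((1 - ϵ) * c * ϱ * Real.sqrt N / 128)) := by
      rw [← Real.exp_nat_mul]
      congr 1
      field_simp
      ring
    rw [h2]
    have h3 : (ll c η N : ℝ) ≤ 2 ^ (mm c η N) := by
      calc (ll c η N : ℝ) ≤ mm c η N := hlm
        _ ≤ 2 ^ (mm c η N) := by exact_mod_cast Nat.lt_two_pow_self.le
    have hlm' : ll c η N ≤ mm c η N := by exact_mod_cast hlm
    have h4 : (8 : ℝ) ^ (ll c η N) ≤ 8 ^ (mm c η N) := pow_le_pow_right₀ (by norm_num) hlm'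
    have h5 : ((ll c η N : ℝ) * 8 ^ (ll c η N)) * K ^ (mm c η N) ≤ (16 * K) ^ (mm c η N) := by
      calc ((ll c η N : ℝ) * 8 ^ (ll c η N)) * K ^ (mm c η N)
          ≤ (2 ^ (mm c η N) * 8 ^ (mm c η N)) * K ^ (mm c η N) := by gcongr
        _ = (16 * K) ^ (mm c η N) := by rw [← mul_pow, ← mul_pow]; norm_num
    have h6 : (16 * K) ^ (mm c η N) = Real.exp (mm c η N * L2) := by
      rw [Real.exp_nat_mul, hL2, Real.exp_log (by positivity)]
    rw [mul_assoc]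
    calc Real.exp (-((1 - ϵ) * c * ϱ * Real.sqrt N / 128)) *
          ((ll c η N : ℝ) * 8 ^ (ll c η N) * K ^ (mm c η N))
        ≤ Real.exp (-((1 - ϵ) * c * ϱ * Real.sqrt N / 128)) * Real.exp (mm c η N * L2) := by
          rw [← h6]; gcongr
      _ = Real.exp (-((1 - ϵ) * c * ϱ * Real.sqrt N / 128) + mm c η N * L2) := by
          rw [Real.exp_add]
      _ < 1 := by
          rw [Real.exp_lt_one_iff]
          nlinarith

end PRT
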