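import Mathlib
import Pool.Agent.PRT.Defs

namespace PRT

open Complex Metric

/-- two-move descent lemma (pure real analysis) -/
theorem descent {m : ℕ} {b : ℕ → ℝ → ℝ} {ρ s lam w U : ℝ} (hs : 0 ≤ s) (hlam0 : 0 < lam)
    (hlam1 : lam < 1) (hw : 0 < w) (hb0 : ∀ j ρ', 0 ≤ b j ρ')
    (hmono : ∀ j, ∀ ρ₁ ρ₂, ρ ≤ ρ₁ → ρ₁ ≤ ρ₂ → ρ₂ ≤ ρ + 2 * m * s → b j ρ₁ ≤ b j ρ₂)
    (hstep : ∀ j < m, ∀ ρ₁, ρ ≤ ρ₁ → ρ₁ + s ≤ ρ + 2 * m * s →
      b j ρ₁ ≤ lam ^ 2 * b j (ρ₁ + s) + b (j + 1) (ρ₁ + s) / w)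
    (hU : ∀ j ≤ m, b j (ρ + 2 * m * s) ≤ (w * (1 - lam)) ^ j * U)
    (hlt : lam ^ m * U < b 0 ρ) :
    b 0 ρ ≤ b m (ρ + 2 * m * s) / (w * (1 - lam)) ^ m := by
  have h1 : 0 < 1 - lam := by linarith
  have hv : 0 < w * (1 - lam) := mul_pos hw h1
  -- the normalised quantities
  set β : ℕ → ℝ → ℝ := fun j r => b j r / (w * (1 - lam)) ^ j with hβ
  have hβ0 : ∀ j r, 0 ≤ β j r := fun j r => div_nonneg (hb0 j r) (pow_pos hv j).le
  have hβmono : ∀ j, ∀ ρ₁ ρ₂, ρ ≤ ρ₁ → ρ₁ ≤ ρ₂ → ρ₂ ≤ ρ + 2 * m * s → β j ρ₁ ≤ β j ρ₂ :=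
    fun j ρ₁ ρ₂ h h' h'' => div_le_div_of_nonneg_right (hmono j ρ₁ ρ₂ h h' h'') (pow_pos hv j).le
  have hβstep : ∀ j < m, ∀ ρ₁, ρ ≤ ρ₁ → ρ₁ + s ≤ ρ + 2 * m * s →
      β j ρ₁ ≤ lam * β j (ρ₁ + s) ∨ β j ρ₁ ≤ β (j + 1) (ρ₁ + s) := by
    intro j hj ρ₁ h h'
    have hp := pow_pos hv j
    have e1 : β j ρ₁ ≤ lam ^ 2 * β j (ρ₁ + s) + (1 - lam) * β (j + 1) (ρ₁ + s) := by
      have e2 : lam ^ 2 * β j (ρ₁ + s) + (1 - lam) * β (j + 1) (ρ₁ + s) =
          (lam ^ 2 * b j (ρ₁ + s) + b (j + 1) (ρ₁ + s) / w) / (w * (1 - lam)) ^ j := by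
        simp only [hβ]
        have h3 : (1 - lam) * (b (j + 1) (ρ₁ + s) / (w * (1 - lam)) ^ (j + 1)) =
            b (j + 1) (ρ₁ + s) / w / (w * (1 - lam)) ^ j := by
          rw [pow_succ, div_div, mul_div_assoc', div_eq_div_iff
            (mul_pos hp hv).ne' (mul_pos hw hp).ne']
          ring
        rw [h3, add_div, mul_div_assoc]
      rw [e2]
      exact div_le_div_of_nonneg_right (hstep j hj ρ₁ h h') hp.le
    rcases le_total (β (j + 1) (ρ₁ + s)) (lam * β j (ρ₁ + s)) with h2 | h2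
    · left
      nlinarith
    · right
      nlinarith
  have hm2 : ∀ n : ℕ, n ≤ 2 * m → (n : ℝ) * s ≤ 2 * m * s := by
    intro n hn
    have : (n : ℝ) ≤ 2 * m := by exact_mod_cast hn
    exact mul_le_mul_of_nonneg_right this hs
  rcases Nat.eq_zero_or_pos m with hm | hm
  · subst hm
    simp
  have key : ∀ n : ℕ, n ≤ 2 * m → b 0 ρ ≤ β m (ρ + 2 * m * s) ∨
      ∃ j, j < m ∧ j ≤ n ∧ b 0 ρ ≤ lam ^ (n - j) * β j (ρ + n * s) := by
    intro n
    induction n with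
    | zero =>
      intro _
      right
      exact ⟨0, hm, le_rfl, by simp [hβ]⟩
    | succ n ih =>
      intro hn
      rcases ih (by omega) with h | ⟨j, hj, hjn, h⟩
      · exact Or.inl h
      · have hns : 0 ≤ (n : ℝ) * s := mul_nonneg (Nat.cast_nonneg n) hs
        have e1 : ρ + (n : ℝ) * s + s = ρ + ((n + 1 : ℕ) : ℝ) * s := by push_cast; ring
        have e2 := hm2 (n + 1) hn
        rcases hβstep j hj (ρ + n * s) (by linarith) (by rw [e1]; linarith) with h2 | h2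
        · right
          refine ⟨j, hj, by omega, ?_⟩
          rw [e1] at h2
          calc b 0 ρ ≤ lam ^ (n - j) * β j (ρ + n * s) := h
            _ ≤ lam ^ (n - j) * (lam * β j (ρ + ((n + 1 : ℕ) : ℝ) * s)) :=
                mul_le_mul_of_nonneg_left h2 (pow_pos hlam0 _).le
            _ = lam ^ (n + 1 - j) * β j (ρ + ((n + 1 : ℕ) : ℝ) * s) := by
                rw [show n + 1 - j = (n - j) + 1 by omega, pow_succ]; ring
        · rw [e1] at h2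
          have h3 : b 0 ρ ≤ lam ^ (n - j) * β (j + 1) (ρ + ((n + 1 : ℕ) : ℝ) * s) :=
            h.trans (mul_le_mul_of_nonneg_left h2 (pow_pos hlam0 _).le)
          rcases Nat.lt_or_ge (j + 1) m with h4 | h4
          · right
            refine ⟨j + 1, h4, by omega, ?_⟩
            rw [show n + 1 - (j + 1) = n - j by omega]
            exact h3
          · left
            have hjm : j + 1 = m := by omega
            rw [hjm] at h3
            have hns' : 0 ≤ ((n + 1 : ℕ) : ℝ) * s := mul_nonneg (Nat.cast_nonneg _) hs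
            calc b 0 ρ ≤ lam ^ (n - j) * β m (ρ + ((n + 1 : ℕ) : ℝ) * s) := h3
              _ ≤ 1 * β m (ρ + ((n + 1 : ℕ) : ℝ) * s) :=
                  mul_le_mul_of_nonneg_right (pow_le_one₀ hlam0.le hlam1.le) (hβ0 _ _)
              _ = β m (ρ + ((n + 1 : ℕ) : ℝ) * s) := one_mul _
              _ ≤ β m (ρ + 2 * m * s) := hβmono m _ _ (by linarith) (by linarith) le_rfl
  rcases key (2 * m) le_rfl with h | ⟨j, hj, -, h⟩
  · exact h
  · exfalso
    have e1 : ρ + ((2 * m : ℕ) : ℝ) * s = ρ + 2 * m * s := by push_cast; ring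
    rw [e1] at h
    have hβU : β j (ρ + 2 * m * s) ≤ U := by
      simp only [hβ]
      rw [div_le_iff₀ (pow_pos hv j), mul_comm U]
      exact hU j hj.le
    have hU0 : 0 ≤ U := (hβ0 _ _).trans hβU
    have h2 : b 0 ρ ≤ lam ^ m * U := by
      calc b 0 ρ ≤ lam ^ (2 * m - j) * β j (ρ + 2 * m * s) := h
        _ ≤ lam ^ (2 * m - j) * U := mul_le_mul_of_nonneg_left hβU (pow_pos hlam0 _).le
        _ ≤ lam ^ m * U := mul_le_mul_of_nonneg_right
            (pow_le_pow_of_le_one hlam0.le hlam1.le (by omega)) hU0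
    linarith

end PRT
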