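import Mathlib
import Pool.Agent.PRT.Defs

namespace PRT

open Complex Metric

/-- Cauchy's estimate for the coefficients of a polynomial -/
theorem poly_coeff_bound (P : Polynomial ℂ) {ρ B : ℝ} (hρ : 0 < ρ)
    (hB : ∀ z ∈ closedBall (0 : ℂ) ρ, ‖P.eval z‖ ≤ B) (n : ℕ) :
    ‖P.coeff n‖ ≤ B / ρ ^ n := by
  have hdiff : DiffContOnCl ℂ (fun z => P.eval z) (ball (0 : ℂ) ρ) :=
    P.differentiable.diffContOnCl
  have h1 := norm_iteratedDeriv_le_of_forall_mem_sphere_norm_le n hρ hdiff
    (C := B) (fun z hz => hB z (sphere_subset_closedBall hz))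
  have h2 : iteratedDeriv n (fun z => P.eval z) 0 = (n.factorial : ℂ) * P.coeff n := by
    have h3 : ∀ (k : ℕ) (Q : Polynomial ℂ), iteratedDeriv k (fun z => Q.eval z) =
        fun z => (Polynomial.derivative^[k] Q).eval z := by
      intro k
      induction k with
      | zero => intro Q; simp
      | succ k ih =>
        intro Q
        rw [iteratedDeriv_succ', Function.iterate_succ_apply]
        rw [← ih]
        congr 1
        funext z
        exact Q.deriv
    rw [h3]
    simp only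
    rw [← Polynomial.coeff_zero_eq_eval_zero, Polynomial.coeff_iterate_derivative]
    rw [zero_add, Nat.descFactorial_self, nsmul_eq_mul]
  rw [h2, norm_mul, Complex.norm_natCast] at h1
  have hf : (0 : ℝ) < n.factorial := by exact_mod_cast n.factorial_pos
  have h4 : (n.factorial : ℝ) * ‖P.coeff n‖ ≤ (n.factorial : ℝ) * (B / ρ ^ n) := by
    calc (n.factorial : ℝ) * ‖P.coeff n‖ ≤ n.factorial * B / ρ ^ n := h1
      _ = _ := by ring
  exact le_of_mul_le_mul_left h4 hf

/-- growth of polynomials outside a disc -/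
theorem poly_growth (P : Polynomial ℂ) {d : ℕ} (hd : P.natDegree ≤ d) {c : ℂ} {ρ ρ' B : ℝ}
    (hρ : 0 < ρ) (hρ' : ρ ≤ ρ') (hB : ∀ z ∈ closedBall c ρ, ‖P.eval z‖ ≤ B) :
    ∀ z ∈ closedBall c ρ', ‖P.eval z‖ ≤ (d + 1) * (ρ' / ρ) ^ d * B := by
  intro z hz
  set Q := P.comp (Polynomial.X + Polynomial.C c) with hQ
  have hQe : ∀ w, Q.eval w = P.eval (w + c) := fun w => by simp [hQ]
  have hQd : Q.natDegree ≤ d := by
    have h1 := Polynomial.natDegree_comp_le (p := P) (q := Polynomial.X + Polynomial.C c)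
    rw [Polynomial.natDegree_X_add_C, mul_one] at h1
    exact h1.trans hd
  have hB' : ∀ w ∈ closedBall (0 : ℂ) ρ, ‖Q.eval w‖ ≤ B := by
    intro w hw
    rw [hQe]
    apply hB
    rw [mem_closedBall, dist_eq_norm] at hw ⊢
    simpa using hw
  have hB0 : 0 ≤ B := (norm_nonneg _).trans (hB' 0 (mem_closedBall_self hρ.le))
  have hco := poly_coeff_bound Q hρ hB'
  have hz' : ‖z - c‖ ≤ ρ' := by rwa [mem_closedBall, dist_eq_norm] at hz
  have hρ'0 : 0 < ρ' := lt_of_lt_of_le hρ hρ'
  have hratio : 1 ≤ ρ' / ρ := by rwa [le_div_iff₀ hρ, one_mul]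
  have h1 : P.eval z = ∑ i ∈ Finset.range (d + 1), Q.coeff i * (z - c) ^ i := by
    have : P.eval z = Q.eval (z - c) := by rw [hQe]; simp
    rw [this, Polynomial.eval_eq_sum_range' (Nat.lt_succ_of_le hQd)]
  rw [h1]
  calc ‖∑ i ∈ Finset.range (d + 1), Q.coeff i * (z - c) ^ i‖
      ≤ ∑ i ∈ Finset.range (d + 1), ‖Q.coeff i * (z - c) ^ i‖ := norm_sum_le _ _
    _ ≤ ∑ _i ∈ Finset.range (d + 1), (ρ' / ρ) ^ d * B := by
        refine Finset.sum_le_sum fun i hi => ?_
        rw [Finset.mem_range] at hi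
        rw [norm_mul, norm_pow]
        calc ‖Q.coeff i‖ * ‖z - c‖ ^ i ≤ (B / ρ ^ i) * ρ' ^ i :=
              mul_le_mul (hco i) (pow_le_pow_left₀ (norm_nonneg _) hz' i) (by positivity)
                (div_nonneg hB0 (by positivity))
          _ = (ρ' / ρ) ^ i * B := by rw [div_pow]; ring
          _ ≤ (ρ' / ρ) ^ d * B :=
              mul_le_mul_of_nonneg_right (pow_le_pow_right₀ hratio (by omega)) hB0
    _ = (d + 1) * (ρ' / ρ) ^ d * B := by
        rw [Finset.sum_const, Finset.card_range, nsmul_eq_mul]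
        push_cast
        ring

end PRT
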