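import Mathlib
import Pool.Agent.PRT.Defs

namespace PRT

open Complex Metric

/-- Hadamard three circles -/
theorem three_circles {f : ℂ → ℂ} {c : ℂ} {r ρ₁ ρ₂ R a b : ℝ} (hr : 0 < r) (h1 : r ≤ ρ₁)
    (h2 : ρ₁ < ρ₂) (hR : ρ₂ < R) (hf : DifferentiableOn ℂ f (ball c R))
    (ha : ∀ z ∈ closedBall c r, ‖f z‖ ≤ a) (hb : ∀ z ∈ closedBall c ρ₂, ‖f z‖ ≤ b) :
    ∀ z ∈ closedBall c ρ₁, ‖f z‖ ≤ a ^ (Real.log (ρ₂ / ρ₁) / Real.log (ρ₂ / r))
      * b ^ (Real.log (ρ₁ / r) / Real.log (ρ₂ / r)) := by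
  intro z hz
  have hρ₁ : 0 < ρ₁ := lt_of_lt_of_le hr h1
  have hρ₂ : 0 < ρ₂ := hρ₁.trans h2
  have hrρ : r < ρ₂ := lt_of_le_of_lt h1 h2
  have ha0 : 0 ≤ a := (norm_nonneg _).trans (ha c (mem_closedBall_self hr.le))
  have hb0 : 0 ≤ b := (norm_nonneg _).trans (hb c (mem_closedBall_self hρ₂.le))
  have hD : 0 < Real.log (ρ₂ / r) := Real.log_pos ((one_lt_div hr).2 hrρ)
  have e1 : Real.log (ρ₂ / r) = Real.log ρ₂ - Real.log r := Real.log_div hρ₂.ne' hr.ne'
  have e2 : Real.log (ρ₂ / ρ₁) = Real.log ρ₂ - Real.log ρ₁ := Real.log_div hρ₂.ne' hρ₁.ne'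
  have e3 : Real.log (ρ₁ / r) = Real.log ρ₁ - Real.log r := Real.log_div hρ₁.ne' hr.ne'
  have hα0 : 0 ≤ Real.log (ρ₂ / ρ₁) / Real.log (ρ₂ / r) :=
    div_nonneg (Real.log_nonneg ((one_le_div hρ₁).2 h2.le)) hD.le
  have hβ0 : 0 ≤ Real.log (ρ₁ / r) / Real.log (ρ₂ / r) :=
    div_nonneg (Real.log_nonneg ((one_le_div hr).2 h1)) hD.le
  have hsum : Real.log (ρ₂ / ρ₁) / Real.log (ρ₂ / r) + Real.log (ρ₁ / r) / Real.log (ρ₂ / r) = 1 := by
    rw [← add_div, div_eq_one_iff_eq hD.ne', e1, e2, e3]; ring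
  set α := Real.log (ρ₂ / ρ₁) / Real.log (ρ₂ / r) with hα
  set β := Real.log (ρ₁ / r) / Real.log (ρ₂ / r) with hβ
  have key : ∀ x : ℝ, 0 ≤ x → x ^ α * x ^ β = x := by
    intro x hx
    rw [← Real.rpow_add_of_nonneg hx hα0 hβ0, hsum, Real.rpow_one]
  have hzρ : ‖z - c‖ ≤ ρ₁ := by simpa [dist_eq_norm] using hz
  rcases le_total b a with hba | hab
  · calc ‖f z‖ ≤ b := hb z (closedBall_subset_closedBall h2.le hz)
      _ = b ^ α * b ^ β := (key b hb0).symm
      _ ≤ a ^ α * b ^ β := by gcongr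
  rcases le_total ‖z - c‖ r with htr | htr
  · calc ‖f z‖ ≤ a := ha z (by simpa [dist_eq_norm] using htr)
      _ = a ^ α * a ^ β := (key a ha0).symm
      _ ≤ a ^ α * b ^ β := by gcongr
  -- the main case
  have ht0 : 0 < ‖z - c‖ := lt_of_lt_of_le hr htr
  have hzc : z - c ≠ 0 := norm_pos_iff.1 ht0
  have hlu : Real.log r < Real.log ρ₂ := Real.log_lt_log hr hrρ
  have hre : ∀ w : ℂ, ‖c + exp w - c‖ = Real.exp w.re := by
    intro w; rw [add_sub_cancel_left, Complex.norm_exp]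
  have hmem : ∀ w : ℂ, w.re ≤ Real.log ρ₂ → c + exp w ∈ closedBall c ρ₂ := by
    intro w hw
    rw [mem_closedBall, dist_eq_norm, hre]
    calc Real.exp w.re ≤ Real.exp (Real.log ρ₂) := Real.exp_le_exp.2 hw
      _ = ρ₂ := Real.exp_log hρ₂
  have hgd : DifferentiableOn ℂ (fun w => f (c + exp w)) {w : ℂ | w.re ≤ Real.log ρ₂} := by
    have : DifferentiableOn ℂ (fun w : ℂ => c + exp w) {w : ℂ | w.re ≤ Real.log ρ₂} := by fun_prop
    exact hf.comp this (fun w hw => (closedBall_subset_ball hR) (hmem w hw))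
  have hcl : closure (HadamardThreeLines.verticalStrip (Real.log r) (Real.log ρ₂)) ⊆
      {w : ℂ | w.re ≤ Real.log ρ₂} := by
    apply closure_minimal
    · intro w hw; exact hw.2.le
    · exact isClosed_le Complex.continuous_re continuous_const
  have h3 := HadamardThreeLines.norm_le_interp_of_mem_verticalClosedStrip' (f := fun w => f (c + exp w))
    (z := log (z - c)) (a := a) (b := b) hlu
    (by
      show (log (z - c)).re ∈ Set.Icc _ _
      rw [Complex.log_re]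
      exact ⟨Real.log_le_log hr htr, Real.log_le_log ht0 (hzρ.trans h2.le)⟩)
    (hgd.mono hcl).diffContOnCl
    (by
      refine ⟨b, ?_⟩
      rintro _ ⟨w, hw, rfl⟩
      exact hb _ (hmem w hw.2))
    (by
      intro w hw
      apply ha
      have hw' : w.re = Real.log r := hw
      rw [mem_closedBall, dist_eq_norm, hre, hw', Real.exp_log hr])
    (by
      intro w hw
      have hw' : w.re = Real.log ρ₂ := hw
      exact hb _ (hmem w hw'.le))
  rw [Complex.log_re] at h3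
  simp only [Complex.exp_log hzc, add_sub_cancel] at h3
  -- compare exponents
  set θ := (Real.log ‖z - c‖ - Real.log r) / (Real.log ρ₂ - Real.log r) with hθ
  have hD' : 0 < Real.log ρ₂ - Real.log r := by linarith
  have hθ0 : 0 ≤ θ := div_nonneg (by linarith [Real.log_le_log hr htr]) hD'.le
  have hθβ : θ ≤ β := by
    rw [hθ, hβ, e1, e3]
    have := Real.log_le_log ht0 hzρ
    gcongr
  have hα' : α = 1 - β := by linarith
  have hsplit : 1 - θ = α + (β - θ) := by rw [hα']; ring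
  calc ‖f z‖ ≤ a ^ (1 - θ) * b ^ θ := h3
    _ = a ^ α * a ^ (β - θ) * b ^ θ := by
        rw [hsplit, Real.rpow_add_of_nonneg ha0 hα0 (by linarith)]
    _ ≤ a ^ α * b ^ (β - θ) * b ^ θ := by
        have : 0 ≤ β - θ := by linarith
        gcongr
    _ = a ^ α * b ^ β := by
        rw [mul_assoc, ← Real.rpow_add_of_nonneg hb0 (by linarith) hθ0]
        congr 2; ring

end PRT
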