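import Mathlib
import Pool.Agent.PRT.POLY
import Pool.Agent.PRT.DESC
import Pool.Agent.PRT.OPER
import Pool.Agent.PRT.THREE

namespace PRT

open Complex Metric

/-- the supremum of `|Fj j|` on a disc -/
private noncomputable def sveB (φ : ℂ → ℂ) (P : Polynomial ℂ) (c : ℂ) (j : ℕ) (ρ' : ℝ) : ℝ :=
  sSup ((fun z => ‖Fj φ P j z‖) '' closedBall c ρ')

private theorem sveB_nonneg (φ : ℂ → ℂ) (P : Polynomial ℂ) (c : ℂ) (j : ℕ) (ρ' : ℝ) :
    0 ≤ sveB φ P c j ρ' := by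
  refine Real.sSup_nonneg ?_
  rintro x ⟨z, _, rfl⟩
  exact norm_nonneg _

private theorem sveB_bdd {φ : ℂ → ℂ} {P : Polynomial ℂ} {c : ℂ} {R : ℝ}
    (hφ : DifferentiableOn ℂ φ (ball c R)) (j : ℕ) {ρ' : ℝ} (h : ρ' < R) :
    BddAbove ((fun z => ‖Fj φ P j z‖) '' closedBall c ρ') := by
  have h1 : ContinuousOn (fun z => ‖Fj φ P j z‖) (closedBall c ρ') :=
    ((Fj_diff hφ j).continuousOn.mono (closedBall_subset_ball h)).norm
  exact (isCompact_closedBall c ρ').bddAbove_image h1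

private theorem sveB_le {φ : ℂ → ℂ} {P : Polynomial ℂ} {c : ℂ} {R : ℝ}
    (hφ : DifferentiableOn ℂ φ (ball c R)) (j : ℕ) {ρ' : ℝ} (h : ρ' < R) {z : ℂ}
    (hz : z ∈ closedBall c ρ') : ‖Fj φ P j z‖ ≤ sveB φ P c j ρ' :=
  le_csSup (sveB_bdd hφ j h) ⟨z, hz, rfl⟩

private theorem sveB_sup {φ : ℂ → ℂ} {P : Polynomial ℂ} {c : ℂ} (j : ℕ) {ρ' X : ℝ}
    (h : 0 ≤ ρ') (hX : ∀ z ∈ closedBall c ρ', ‖Fj φ P j z‖ ≤ X) : sveB φ P c j ρ' ≤ X := by
  refine csSup_le ⟨_, c, mem_closedBall_self h, rfl⟩ ?_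
  rintro x ⟨z, hz, rfl⟩
  exact hX z hz

/-- small value estimate for `D^m (P e^φ)` -/
theorem sve {φ : ℂ → ℂ} {P : Polynomial ℂ} {c : ℂ} {R σ ϵ ρ r p A : ℝ} {m l : ℕ}
    (hσ : 0 < σ) (hϵ : 0 < ϵ) (hϵ1 : ϵ ≤ 1 / 4) (hρ : 0 < ρ) (hr : 0 < r) (hrρ : r ≤ ρ)
    (hR : 8 * ρ < R) (hm : 1 ≤ m) (hφ : DifferentiableOn ℂ φ (ball c R))
    (hφ' : ∀ z ∈ ball c R, ‖deriv φ z - (σ : ℂ)‖ ≤ ϵ * σ) (hP : P.natDegree < l)
    (hp : 0 < p) (hp1 : ∃ z ∈ closedBall c ρ, ‖P.eval z‖ = p)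
    (hp2 : ∀ z ∈ closedBall c ρ, ‖P.eval z‖ ≤ p)
    (n1 : m / (4 * ρ) ≤ ϵ * σ)
    (n2 : Real.exp (-((1 - ϵ) * σ * ρ / (4 * m))) ≤ ϵ)
    (n3 : Real.exp (-((1 - ϵ) * σ * ρ / (4 * m))) ^ m * ((l : ℝ) * 8 ^ l)
      * ((1 + 2 * ϵ) / (1 - ϵ) ^ 2) ^ m < 1)
    (hA : ∀ z ∈ closedBall c r, ‖Fj φ P m z‖ ≤ A) :
    p * (σ ^ m * (1 - ϵ) ^ (2 * m) *
      ((1 - ϵ) ^ (2 * m) / ((1 + 2 * ϵ) ^ m * ((l : ℝ) * 8 ^ l))) ^
        (Real.log (2 * ρ / r) / Real.log 2)) ≤ A := by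
  have hm0 : (0 : ℝ) < m := by exact_mod_cast hm
  have hl0 : (0 : ℝ) < l := by
    have : 0 < l := by omega
    exact_mod_cast this
  have hϵ' : 0 < 1 - ϵ := by linarith
  set lam : ℝ := Real.exp (-((1 - ϵ) * σ * ρ / (4 * m))) with hlam
  have hlam0 : 0 < lam := Real.exp_pos _
  have hlam1 : lam < 1 := by linarith
  set w : ℝ := (1 - ϵ) * σ with hw
  have hw0 : 0 < w := mul_pos hϵ' hσ
  set s : ℝ := ρ / (2 * m) with hs
  have hs0 : 0 ≤ s := by positivity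
  have h2ms : ρ + 2 * m * s = 2 * ρ := by
    rw [hs]
    field_simp
    ring
  set L : ℝ := (l : ℝ) * 8 ^ l with hL
  have hL0 : 0 < L := by positivity
  -- derivative bounds
  have hre : ∀ z ∈ ball c R, w ≤ (deriv φ z).re := by
    intro z hz
    have h1 := hφ' z hz
    have h2 := (Complex.abs_re_le_norm (deriv φ z - (σ : ℂ))).trans h1
    rw [sub_re, ofReal_re] at h2
    have h3 := (abs_le.1 h2).1
    rw [hw]
    linarith
  have hup : ∀ z ∈ ball c R, ‖deriv φ z‖ ≤ (1 + ϵ) * σ := by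
    intro z hz
    have h1 := hφ' z hz
    have h2 : ‖deriv φ z‖ ≤ ‖deriv φ z - (σ : ℂ)‖ + ‖(σ : ℂ)‖ := by
      have := norm_add_le (deriv φ z - (σ : ℂ)) (σ : ℂ)
      rwa [sub_add_cancel] at this
    rw [Complex.norm_real, Real.norm_eq_abs, abs_of_pos hσ] at h2
    linarith
  -- polynomial growth
  have hP8 : ∀ z ∈ closedBall c (8 * ρ), ‖P.eval z‖ ≤ L * p := by
    intro z hz
    have h1 := poly_growth P (d := l - 1) (by omega) hρ (by linarith : ρ ≤ 8 * ρ) hp2 z hz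
    have e1 : ((l - 1 : ℕ) : ℝ) + 1 = l := by
      have : 1 ≤ l := by omega
      push_cast [Nat.cast_sub this]
      ring
    have e2 : 8 * ρ / ρ = 8 := by field_simp
    rw [e1, e2] at h1
    refine h1.trans (mul_le_mul_of_nonneg_right ?_ hp.le)
    rw [hL]
    refine mul_le_mul_of_nonneg_left ?_ hl0.le
    exact pow_le_pow_right₀ (by norm_num) (by omega)
  set Δ : ℝ := 4 * ρ / m with hΔ
  have hΔ0 : 0 < Δ := by positivity
  have hmΔ : 4 * ρ + m * Δ = 8 * ρ := by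
    rw [hΔ]
    field_simp
    ring
  have hup4 : ∀ j ≤ m, ∀ z ∈ closedBall c (4 * ρ), ‖Fj φ P j z‖ ≤ ((1 + 2 * ϵ) * σ) ^ j * (L * p) := by
    intro j hj z hz
    have hj' : (j : ℝ) ≤ m := by exact_mod_cast hj
    have h1 := Fj_upper (σ'' := (1 + ϵ) * σ) (B := L * p) (P := P) (m := m) (ρ := 4 * ρ) hφ hup (by positivity) hΔ0
      (by linarith) (by rw [hmΔ]; exact hR) (by rw [hmΔ]; exact hP8) j hj z
      (closedBall_subset_closedBall (by nlinarith) hz)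
    refine h1.trans (mul_le_mul_of_nonneg_right ?_ (by positivity))
    refine pow_le_pow_left₀ (by positivity) ?_ j
    have e1 : 1 / Δ = m / (4 * ρ) := by
      rw [hΔ, one_div_div]
    rw [e1]
    linarith
  set U : ℝ := ((1 + 2 * ϵ) / (1 - ϵ) ^ 2) ^ m * (L * p) with hU
  have hratio : 1 ≤ (1 + 2 * ϵ) / (1 - ϵ) ^ 2 := by
    rw [le_div_iff₀ (by positivity)]
    nlinarith
  have hwl : (1 - ϵ) ^ 2 * σ ≤ w * (1 - lam) := by
    rw [hw]
    have : (1 - ϵ) * σ * (1 - ϵ) ≤ (1 - ϵ) * σ * (1 - lam) :=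
      mul_le_mul_of_nonneg_left (by linarith) hw0.le
    nlinarith
  have hbU : ∀ j ≤ m, sveB φ P c j (ρ + 2 * m * s) ≤ (w * (1 - lam)) ^ j * U := by
    intro j hj
    rw [h2ms]
    refine sveB_sup j (by linarith) fun z hz => ?_
    refine (hup4 j hj z (closedBall_subset_closedBall (by linarith) hz)).trans ?_
    have h1 : ((1 - ϵ) ^ 2 * σ) ^ j ≤ (w * (1 - lam)) ^ j :=
      pow_le_pow_left₀ (by positivity) hwl j
    have h2 : ((1 + 2 * ϵ) / (1 - ϵ) ^ 2) ^ j ≤ ((1 + 2 * ϵ) / (1 - ϵ) ^ 2) ^ m :=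
      pow_le_pow_right₀ hratio hj
    have h3 : ((1 + 2 * ϵ) * σ) ^ j = ((1 - ϵ) ^ 2 * σ) ^ j * ((1 + 2 * ϵ) / (1 - ϵ) ^ 2) ^ j := by
      rw [← mul_pow]
      congr 1
      field_simp
    rw [h3, hU]
    calc ((1 - ϵ) ^ 2 * σ) ^ j * ((1 + 2 * ϵ) / (1 - ϵ) ^ 2) ^ j * (L * p)
        ≤ (w * (1 - lam)) ^ j * ((1 + 2 * ϵ) / (1 - ϵ) ^ 2) ^ m * (L * p) := by
          refine mul_le_mul_of_nonneg_right ?_ (by positivity)
          exact mul_le_mul h1 h2 (by positivity) (pow_nonneg (mul_nonneg hw0.le (by linarith)) j)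
      _ = _ := by ring
  -- the descent
  have hdesc := descent (m := m) (b := sveB φ P c) (ρ := ρ) (s := s) (lam := lam) (w := w) (U := U)
    hs0 hlam0 hlam1 hw0 (fun j ρ' => sveB_nonneg φ P c j ρ')
    (by
      intro j ρ₁ ρ₂ h1 h2 h3
      rw [h2ms] at h3
      refine sveB_sup j (by linarith) fun z hz => ?_
      exact sveB_le hφ j (by linarith) (closedBall_subset_closedBall h2 hz))
    (by
      intro j hj ρ₁ h1 h2
      rw [h2ms] at h2
      refine sveB_sup j (by linarith) fun z hz => ?_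
      have h3 := Fj_step (P := P) (σ' := w) (s := s) (ρ := ρ₁) hw0 hφ hre hs0 (by linarith) (by linarith) j
        (fun z hz => sveB_le hφ j (by linarith) hz)
        (fun z hz => sveB_le hφ (j + 1) (by linarith) hz) z hz
      have h4 : Real.exp (-w * s) = lam ^ 2 := by
        rw [hlam, ← Real.exp_nat_mul]
        congr 1
        rw [hw, hs]
        push_cast
        field_simp
        ring
      rw [h4] at h3
      exact h3)
    hbU
    (by
      have h1 : p ≤ sveB φ P c 0 ρ := by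
        obtain ⟨z, hz, hzp⟩ := hp1
        have := sveB_le (P := P) hφ 0 (by linarith : ρ < R) hz
        rw [← hzp]
        exact this
      refine lt_of_lt_of_le ?_ h1
      have h2 : lam ^ m * U = (lam ^ m * L * ((1 + 2 * ϵ) / (1 - ϵ) ^ 2) ^ m) * p := by
        rw [hU]
        ring
      rw [h2]
      calc _ < 1 * p := mul_lt_mul_of_pos_right n3 hp
        _ = p := one_mul p)
  rw [h2ms] at hdesc
  have hpB : p ≤ sveB φ P c 0 ρ := by
    obtain ⟨z, hz, hzp⟩ := hp1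
    have := sveB_le (P := P) hφ 0 (by linarith : ρ < R) hz
    rw [← hzp]
    exact this
  have hwl0 : 0 < w * (1 - lam) := mul_pos hw0 (by linarith)
  set β : ℝ := p * (σ ^ m * (1 - ϵ) ^ (2 * m)) with hβ
  have hβ0 : 0 < β := by positivity
  have hBm : β ≤ sveB φ P c m (2 * ρ) := by
    have h1 : p ≤ sveB φ P c m (2 * ρ) / (w * (1 - lam)) ^ m := hpB.trans hdesc
    rw [le_div_iff₀ (pow_pos hwl0 m)] at h1
    refine le_trans ?_ h1
    rw [hβ]
    refine mul_le_mul_of_nonneg_left ?_ hp.le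
    have h2 : ((1 - ϵ) ^ 2 * σ) ^ m ≤ (w * (1 - lam)) ^ m :=
      pow_le_pow_left₀ (by positivity) hwl m
    have h3 : σ ^ m * (1 - ϵ) ^ (2 * m) = ((1 - ϵ) ^ 2 * σ) ^ m := by
      rw [mul_pow, ← pow_mul]
      ring
    rw [h3]
    exact h2
  -- three circles
  set γ : ℝ := ((1 + 2 * ϵ) * σ) ^ m * (L * p) with hγ
  have hγ0 : 0 < γ := by positivity
  have hA0 : 0 ≤ A := (norm_nonneg _).trans (hA c (mem_closedBall_self hr.le))
  have h3c := three_circles (f := Fj φ P m) (c := c) (r := r) (ρ₁ := 2 * ρ) (ρ₂ := 4 * ρ) (R := R)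
    (a := A) (b := γ) hr (by linarith) (by linarith) (by linarith) (Fj_diff hφ m) hA
    (hup4 m le_rfl)
  have hlog2 : 0 < Real.log 2 := Real.log_pos (by norm_num)
  have h2r : 1 < 2 * ρ / r := by
    rw [lt_div_iff₀ hr]
    linarith
  have hlr : 0 < Real.log (2 * ρ / r) := Real.log_pos h2r
  have e4 : Real.log (4 * ρ / r) = Real.log 2 + Real.log (2 * ρ / r) := by
    rw [← Real.log_mul (by norm_num) (by positivity)]
    congr 1
    ring
  have e5 : Real.log (4 * ρ / (2 * ρ)) = Real.log 2 := by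
    congr 1
    field_simp
    norm_num
  have hl4 : 0 < Real.log (4 * ρ / r) := by
    rw [e4]
    linarith
  set Λ : ℝ := Real.log (2 * ρ / r) / Real.log 2 with hΛ
  have hΛ0 : 0 < Λ := div_pos hlr hlog2
  have hΛ1 : Real.log (4 * ρ / r) / Real.log 2 = Λ + 1 := by
    rw [e4, hΛ, add_div, div_self hlog2.ne', add_comm]
  have hB2 : sveB φ P c m (2 * ρ) ≤ A ^ (Real.log 2 / Real.log (4 * ρ / r)) *
      γ ^ (Real.log (2 * ρ / r) / Real.log (4 * ρ / r)) := by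
    refine sveB_sup m (by linarith) fun z hz => ?_
    have := h3c z hz
    rwa [e5] at this
  have h6 : β ≤ A ^ (1 / (Λ + 1)) * γ ^ (Λ / (Λ + 1)) := by
    refine (hBm.trans hB2).trans (le_of_eq ?_)
    have e6 : Real.log 2 / Real.log (4 * ρ / r) = 1 / (Λ + 1) := by
      rw [← hΛ1, one_div_div]
    have e7 : Real.log (2 * ρ / r) / Real.log (4 * ρ / r) = Λ / (Λ + 1) := by
      rw [← hΛ1, hΛ]
      field_simp
    rw [e6, e7]
  have hΛ2 : 0 < Λ + 1 := by linarith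
  have h7 : β ^ (Λ + 1) ≤ A * γ ^ Λ := by
    have h8 := Real.rpow_le_rpow hβ0.le h6 hΛ2.le
    rw [Real.mul_rpow (Real.rpow_nonneg hA0 _) (Real.rpow_nonneg hγ0.le _), ← Real.rpow_mul hA0,
      ← Real.rpow_mul hγ0.le, one_div_mul_cancel hΛ2.ne', div_mul_cancel₀ _ hΛ2.ne', Real.rpow_one] at h8
    exact h8
  have h9 : β * (β / γ) ^ Λ ≤ A := by
    rw [Real.div_rpow hβ0.le hγ0.le, ← mul_div_assoc, div_le_iff₀ (Real.rpow_pos_of_pos hγ0 _)]
    refine le_trans (le_of_eq ?_) h7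
    rw [Real.rpow_add hβ0, Real.rpow_one, mul_comm]
  have h10 : β / γ = (1 - ϵ) ^ (2 * m) / ((1 + 2 * ϵ) ^ m * L) := by
    rw [hβ, hγ, mul_pow]
    field_simp
  rw [← h10]
  refine le_trans (le_of_eq ?_) h9
  rw [hβ]
  ring

end PRT
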