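import Mathlib
import Pool.Agent.PRT.SVE
import Pool.Agent.PRT.LAG
import Pool.Agent.PRT.INTP
import Pool.Agent.PRT.NUM0
import Pool.Agent.PRT.NUM3
import Pool.Agent.PRT.NUM4
import Pool.Agent.PRT.NUM5

namespace PRT

open Complex Metric

/-- iterated derivatives of a polynomial function -/
theorem iteratedDeriv_poly (Q : Polynomial ℂ) (m : ℕ) :
    iteratedDeriv m (fun z : ℂ => Q.eval z) = fun z => ((Polynomial.derivative^[m]) Q).eval z := by
  induction m with
  | zero => simp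
  | succ m ih =>
    rw [iteratedDeriv_succ, ih]
    funext z
    rw [Polynomial.deriv, Function.iterate_succ_apply']

theorem iteratedDeriv_poly_zero {Q : Polynomial ℂ} {m : ℕ} (hQ : Q.degree < m) :
    iteratedDeriv m (fun z : ℂ => Q.eval z) = fun _ => 0 := by
  rw [iteratedDeriv_poly, Polynomial.iterate_derivative_eq_zero_of_degree_lt hQ]
  simp

/-- adding a polynomial of degree `< m` does not change the `m`-th derivative -/
theorem iteratedDeriv_add_poly {Q : Polynomial ℂ} {m : ℕ} (hQ : Q.degree < m) {h : ℂ → ℂ}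
    {c : ℂ} {R : ℝ} (hh : DifferentiableOn ℂ h (ball c R)) {z : ℂ} (hz : z ∈ ball c R) :
    iteratedDeriv m (fun w => Q.eval w + h w) z = iteratedDeriv m h z := by
  have h1 : ContDiffAt ℂ m (fun w : ℂ => Q.eval w) z :=
    (Polynomial.contDiff_aeval Q m).contDiffAt |> fun h => by simpa [Polynomial.aeval_def] using! h
  have h2 : ContDiffAt ℂ m h z := by
    have := (hh.analyticOnNhd isOpen_ball) z hz
    exact this.contDiffAt
  have h3 := iteratedDeriv_add (n := m) (x := z) h1 h2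
  have h4 : (fun w => Q.eval w + h w) = (fun w : ℂ => Q.eval w) + h := rfl
  rw [h4, h3, iteratedDeriv_poly_zero hQ, zero_add]

open Filter in
/-- there is no polynomial relation -/
theorem rel_zero {c κ η ϵ ϱ : ℝ} (h : Par c κ η ϵ ϱ) : ∀ᶠ N : ℕ in atTop,
    ∀ φ : ℂ → ℂ, PhiGood c ϵ ϱ N φ → ∀ θ : ℝ,
    ∀ x : Fin (gg c η N) → ℕ, Function.Injective x →
    (∀ r, N ≤ x r ∧ (x r : ℝ) ≤ N + HH (η ^ 2 / 32) N) →
    ∀ a : Fin (gg c η N) → ℝ,
    (∀ r, ‖cexp (φ (x r)) - θ - a r‖ ≤ Real.exp (-κ * Real.sqrt N)) →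
    ∀ P₀ P₁ : Polynomial ℂ, P₀.degree < mm c η N → P₁.degree < ll c η N →
    (∀ r, P₀.eval (x r : ℂ) + P₁.eval (x r : ℂ) * a r = 0) → P₁ = 0 := by
  filter_upwards [num0 h, num3 h, num4 h, num5 h] with N h0 h3 h4 h5
  obtain ⟨hN1, hl1, hlm, hmlg, hgN, hH1, hHρ, hmH, hmR, hmσ, hσ0⟩ := h0
  obtain ⟨hn2, hn3⟩ := h5
  have hϵ0 : 0 < ϵ := by rw [h.hϵ]; have := h.hη; positivity
  have hϵ1 : ϵ ≤ 1 / 4 := by rw [h.hϵ]; have := h.hη1; linarith
  have hϱ := h.hϱ
  have hNpos : (0 : ℝ) < N := by exact_mod_cast hN1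
  unfold LBN at h3 h4
  set m := mm c η N with hmdef
  set l := ll c η N with hldef
  set g := gg c η N with hgdef
  set H := HH (η ^ 2 / 32) N with hHdef
  set σ := sig c N with hσdef
  set ρ : ℝ := ϱ * N / 16 with hρdef
  have hρ0 : 0 < ρ := by positivity
  have hH0 : 0 < H := lt_of_lt_of_le one_pos hH1
  have hg0 : 0 < g := by omega
  have hm1 : 1 ≤ m := le_trans hl1 hlm
  set R : ℝ := ϱ * N / 2 with hRdef
  intro φ hφ θ x hx hxN a ha P₀ P₁ hP0 hP1 hrel
  by_contra hne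
  have hR8 : R = 8 * ρ := by rw [hRdef, hρdef]; ring
  have hR' : R < ϱ * N := by rw [hRdef]; nlinarith [mul_pos hϱ hNpos]
  -- maximum of P₁
  have hcomp : IsCompact (closedBall (N : ℂ) ρ) := isCompact_closedBall _ _
  have hne' : (closedBall (N : ℂ) ρ).Nonempty := ⟨N, mem_closedBall_self hρ0.le⟩
  obtain ⟨z₀, hz₀, hmax⟩ := hcomp.exists_isMaxOn hne'
    (f := fun z : ℂ => ‖P₁.eval z‖) (by fun_prop)
  set p : ℝ := ‖P₁.eval z₀‖ with hpdef
  have hpmax : ∀ z ∈ closedBall (N : ℂ) ρ, ‖P₁.eval z‖ ≤ p := fun z hz => hmax hz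
  have hp0 : 0 < p := by
    rcases (norm_nonneg (P₁.eval z₀)).lt_or_eq with h' | h'
    · exact h'
    · exfalso
      apply hne
      apply Polynomial.eq_zero_of_infinite_isRoot
      refine Set.Infinite.mono ?_ (infinite_of_mem_nhds (N : ℂ) (closedBall_mem_nhds (N : ℂ) hρ0))
      intro z hz
      have := hpmax z hz
      rw [hpdef, ← h'] at this
      simpa [Polynomial.IsRoot] using this
  have hP1nat : P₁.natDegree < l := (Polynomial.natDegree_lt_iff_degree_lt hne).2 hP1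
  -- the polynomial Q₀
  set Q₀ : Polynomial ℂ := P₀ - Polynomial.C (θ : ℂ) * P₁ with hQ0def
  have hQ0 : Q₀.degree < m := by
    refine lt_of_le_of_lt (Polynomial.degree_sub_le _ _) (max_lt hP0 ?_)
    refine lt_of_le_of_lt ?_ (lt_of_lt_of_le hP1 (by exact_mod_cast hlm))
    refine (Polynomial.degree_mul_le _ _).trans ?_
    calc (Polynomial.C (θ : ℂ)).degree + P₁.degree ≤ 0 + P₁.degree := by
          gcongr; exact Polynomial.degree_C_le
      _ = P₁.degree := zero_add _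
  set hfun : ℂ → ℂ := fun z => P₁.eval z * cexp (φ z) with hhdef
  have hhdiff : DifferentiableOn ℂ hfun (ball (N : ℂ) (ϱ * N)) := by
    apply DifferentiableOn.mul
    · exact (Polynomial.differentiable P₁).differentiableOn
    · exact hφ.diff.cexp
  have hxball : ∀ r, ‖(x r : ℂ) - N‖ ≤ H := by
    intro r
    obtain ⟨h1, h2⟩ := hxN r
    have : ((x r : ℂ) - N) = (((x r : ℝ) - N : ℝ) : ℂ) := by push_cast; ring
    rw [this, Complex.norm_real, Real.norm_eq_abs, abs_le]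
    have : (N : ℝ) ≤ x r := by exact_mod_cast h1
    constructor <;> linarith
  have hxρ : ∀ r, (x r : ℂ) ∈ closedBall (N : ℂ) ρ := by
    intro r; rw [mem_closedBall, dist_eq_norm]; exact (hxball r).trans hHρ
  -- values
  set τ : ℝ := p * Real.exp (-κ * Real.sqrt N) with hτdef
  have hval : ∀ r, ‖Q₀.eval (x r : ℂ) + hfun (x r)‖ ≤ τ := by
    intro r
    have e1 : Q₀.eval (x r : ℂ) + hfun (x r) = P₁.eval (x r : ℂ) * (cexp (φ (x r)) - θ - a r) := by
      have := hrel r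
      simp only [hQ0def, hhdef, Polynomial.eval_sub, Polynomial.eval_mul, Polynomial.eval_C]
      linear_combination this
    rw [e1, norm_mul]
    exact mul_le_mul (hpmax _ (hxρ r)) (ha r) (norm_nonneg _) hp0.le
  obtain ⟨Lp, hLdeg, hLval, hLbd⟩ := lagrange_bound hg0 x hx hxN
    (fun r => Q₀.eval (x r : ℂ) + hfun (x r)) hval
  -- bound for hfun on the big disc
  have hd2 : ∀ z ∈ ball (N : ℂ) (ϱ * N), ‖deriv φ z‖ ≤ 2 * σ := by
    intro z hz
    have h1 := hφ.deriv_near z hz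
    have h2 : ‖deriv φ z‖ ≤ ‖deriv φ z - (σ : ℂ)‖ + ‖(σ : ℂ)‖ := by
      have := norm_add_le (deriv φ z - (σ : ℂ)) (σ : ℂ)
      simpa using this
    have h3 : ‖(σ : ℂ)‖ = σ := by rw [Complex.norm_real, Real.norm_eq_abs, abs_of_pos hσ0]
    rw [h3] at h2
    have h4 : ϵ * σ ≤ 1 / 4 * σ := by gcongr
    have h1' : ‖deriv φ z - (σ : ℂ)‖ ≤ ϵ * σ := h1
    linarith
  set Γ : ℝ := ‖cexp (φ N)‖ with hΓdef
  have hΓ0 : 0 < Γ := by rw [hΓdef, Complex.norm_exp]; exact Real.exp_pos _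
  have hΓlow : Real.exp (c * (1 - ϵ) * Real.sqrt N) ≤ Γ := by
    rw [hΓdef, Complex.norm_exp, Real.exp_le_exp]
    have := (abs_le.1 hφ.re_near).1
    nlinarith
  have hgrowR : ∀ z ∈ closedBall (N : ℂ) R, ‖cexp (φ z)‖ ≤ Γ * Real.exp (2 * σ * R) := fun z hz =>
    (exp_growth hφ.diff hd2 (by positivity) hR' z hz).1
  have hHR' : H < ϱ * N := by
    have : ρ < ϱ * N := by rw [hρdef]; nlinarith [mul_pos hϱ hNpos]
    linarith
  have hgrowH : ∀ z ∈ closedBall (N : ℂ) H, Γ * Real.exp (-(2 * σ * H)) ≤ ‖cexp (φ z)‖ :=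
    fun z hz => (exp_growth hφ.diff hd2 hH0.le hHR' z hz).2
  set Bh : ℝ := ((l : ℝ) * 8 ^ l * p) * (Γ * Real.exp (2 * σ * R)) with hBhdef
  have hPR : ∀ z ∈ closedBall (N : ℂ) R, ‖P₁.eval z‖ ≤ (l : ℝ) * 8 ^ l * p := by
    intro z hz
    have hk := poly_growth P₁ (d := l - 1) (by omega) hρ0 (by rw [hR8]; linarith) hpmax z hz
    refine hk.trans ?_
    have e1 : R / ρ = 8 := by rw [hR8]; field_simp
    have e2 : (((l - 1 : ℕ) : ℝ) + 1) = l := by
      have : ((l - 1 : ℕ) : ℝ) = (l : ℝ) - 1 := by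
        rw [Nat.cast_sub hl1]; simp
      rw [this]; ring
    rw [e1, e2]
    have : (8 : ℝ) ^ (l - 1) ≤ 8 ^ l := pow_le_pow_right₀ (by norm_num) (by omega)
    gcongr
  have hhR : ∀ z ∈ closedBall (N : ℂ) R, ‖hfun z‖ ≤ Bh := by
    intro z hz
    rw [hhdef, hBhdef]
    simp only [norm_mul]
    exact mul_le_mul (hPR z hz) (hgrowR z hz) (norm_nonneg _) (by positivity)
  have hxinj : Function.Injective (fun r => (x r : ℂ)) := by
    intro r s hrs
    apply hx
    have hrs' : (x r : ℂ) = (x s : ℂ) := hrs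
    exact_mod_cast hrs'
  have hQL : (Q₀ - Lp).degree < g := by
    refine lt_of_le_of_lt (Polynomial.degree_sub_le _ _) (max_lt ?_ hLdeg)
    exact lt_of_lt_of_le hQ0 (by exact_mod_cast (show m ≤ g by omega))
  have hint := interp_bound (fun r => (x r : ℂ)) hxinj hH0 (by rw [hR8]; linarith) hR' hhdiff
    hxball hhR (Q₀ - Lp) hQL (by
      intro r
      have := hLval r
      simp only [Polynomial.eval_sub] at *
      rw [this]; ring)
  set Ψ : ℝ := (6 * H / (R - H)) ^ g * Bh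
    + g * τ * ((8 * H) ^ (g - 1) / ((g - 1).factorial : ℝ)) with hΨdef
  have hΦ : ∀ z ∈ closedBall (N : ℂ) (2 * H), ‖Q₀.eval z + hfun z‖ ≤ Ψ := by
    intro z hz
    have e1 : Q₀.eval z + hfun z = (hfun z + (Q₀ - Lp).eval z) + Lp.eval z := by
      simp only [Polynomial.eval_sub]; ring
    rw [e1]
    refine (norm_add_le _ _).trans ?_
    have e2 := hLbd (2 * H) (by linarith) z hz
    have e3 : (4 * (2 * H)) = 8 * H := by ring
    rw [e3] at e2
    exact add_le_add (hint z hz) e2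
  -- Cauchy estimate
  have hRH : 0 < R - H := by rw [hR8]; linarith
  have hA : ∀ z ∈ closedBall (N : ℂ) H, ‖Fj φ P₁ m z‖ ≤
      (m.factorial : ℝ) * Ψ / H ^ m * (Real.exp (2 * σ * H) / Γ) := by
    intro z hz
    have hzb : z ∈ ball (N : ℂ) (ϱ * N) := closedBall_subset_ball hHR' hz
    have hsub : closedBall z H ⊆ closedBall (N : ℂ) (2 * H) := by
      intro w hw
      rw [mem_closedBall] at *
      calc dist w N ≤ dist w z + dist z N := dist_triangle _ _ _
        _ ≤ 2 * H := by linarith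
    have h2H : 2 * H < ϱ * N := by
      have : 2 * ρ < ϱ * N := by rw [hρdef]; nlinarith [mul_pos hϱ hNpos]
      linarith
    have hsub2 : closedBall z H ⊆ ball (N : ℂ) (ϱ * N) :=
      hsub.trans (closedBall_subset_ball h2H)
    have hdc : DiffContOnCl ℂ (fun w => Q₀.eval w + hfun w) (ball z H) := by
      have : DifferentiableOn ℂ (fun w => Q₀.eval w + hfun w) (closedBall z H) := by
        apply DifferentiableOn.add
        · exact (Polynomial.differentiable Q₀).differentiableOn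
        · exact hhdiff.mono hsub2
      exact DifferentiableOn.diffContOnCl_ball (U := closedBall z H) this (le_refl _)
    have hc := Complex.norm_iteratedDeriv_le_of_forall_mem_sphere_norm_le m hH0 hdc
      (C := Ψ) (fun w hw => hΦ w (hsub (sphere_subset_closedBall hw)))
    rw [iteratedDeriv_add_poly hQ0 hhdiff hzb,
      show iteratedDeriv m hfun z = Fj φ P₁ m z * cexp (φ z) from
        iteratedDeriv_mul_exp hφ.diff m z hzb, norm_mul] at hc
    have hlow := hgrowH z hz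
    have hexp : Real.exp (2 * σ * H) * Real.exp (-(2 * σ * H)) = 1 := by
      rw [← Real.exp_add]; simp
    have hΓe : 0 < Γ * Real.exp (-(2 * σ * H)) := by positivity
    have h1 : ‖Fj φ P₁ m z‖ * (Γ * Real.exp (-(2 * σ * H))) ≤ (m.factorial : ℝ) * Ψ / H ^ m :=
      (mul_le_mul_of_nonneg_left hlow (norm_nonneg _)).trans hc
    have h2 : ‖Fj φ P₁ m z‖ ≤ (m.factorial : ℝ) * Ψ / H ^ m / (Γ * Real.exp (-(2 * σ * H))) := by
      rw [le_div_iff₀ hΓe]; exact h1
    refine h2.trans (le_of_eq ?_)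
    rw [Real.exp_neg]
    field_simp
  -- small value estimate
  have hsve := sve (r := H) hσ0 hϵ0 hϵ1 hρ0 hH0 hHρ (by rw [← hR8]; exact hR') hm1 hφ.diff
    hφ.deriv_near hP1nat hp0 ⟨z₀, hz₀, rfl⟩ hpmax hmσ hn2 hn3 hA
  -- contradiction
  set LB : ℝ := σ ^ m * (1 - ϵ) ^ (2 * m) *
      ((1 - ϵ) ^ (2 * m) / ((1 + 2 * ϵ) ^ m * ((l : ℝ) * 8 ^ l))) ^
        (Real.log (2 * ρ / H) / Real.log 2) with hLBdef
  have hΓinv : 1 / Γ ≤ Real.exp (-(c * (1 - ϵ) * Real.sqrt N)) := by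
    rw [Real.exp_neg, one_div]
    exact inv_anti₀ (Real.exp_pos _) hΓlow
  have hsplit : (m.factorial : ℝ) * Ψ / H ^ m * (Real.exp (2 * σ * H) / Γ)
      = (p / 2) * ((m.factorial : ℝ) / H ^ m * Real.exp (2 * σ * H)
          * (2 * (g * Real.exp (-κ * Real.sqrt N)
            * ((8 * H) ^ (g - 1) / ((g - 1).factorial : ℝ)))) * (1 / Γ))
        + (p / 2) * ((m.factorial : ℝ) / H ^ m * Real.exp (2 * σ * H)
          * (2 * ((6 * H / (R - H)) ^ g
            * (((l : ℝ) * 8 ^ l) * Real.exp (2 * σ * R))))) := by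
    rw [hΨdef, hτdef, hBhdef]
    field_simp
    ring
  have hlt : (m.factorial : ℝ) * Ψ / H ^ m * (Real.exp (2 * σ * H) / Γ) < p * LB := by
    rw [hsplit]
    have i1 : (m.factorial : ℝ) / H ^ m * Real.exp (2 * σ * H)
          * (2 * (g * Real.exp (-κ * Real.sqrt N)
            * ((8 * H) ^ (g - 1) / ((g - 1).factorial : ℝ)))) * (1 / Γ) < LB := by
      refine lt_of_le_of_lt ?_ h3
      gcongr
    have i2 := h4
    nlinarith [mul_pos hp0 hp0]
  exact absurd hsve (not_le.2 hlt)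

end PRT
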