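import Mathlib
import Pool.Agent.PRT.MINOR
import Pool.Agent.PRT.NUM1Q

namespace PRT

open Complex Metric

open Filter in
/-- all minors vanish, rational values with small denominators -/
theorem minor_zero_q {c κ η ϵ ϱ : ℝ} (h : Par c κ η ϵ ϱ) : ∀ᶠ N : ℕ in atTop,
    ∀ φ : ℂ → ℂ, PhiGood c ϵ ϱ N φ → ∀ θ : ℝ, 0 ≤ θ → θ ≤ 1 →
    ∀ x : Fin (mm c η N + ll c η N) → ℕ, Function.Injective x →
    (∀ r, N ≤ x r ∧ (x r : ℝ) ≤ N + HH (η ^ 2 / 32) N) →
    ∀ a : Fin (mm c η N + ll c η N) → ℤ, ∀ q : Fin (mm c η N + ll c η N) → ℕ,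
    (∀ r, 1 ≤ q r ∧ (q r : ℝ) ≤ Real.exp (c * η ^ 2 / 4 * Real.sqrt N)) →
    (∀ r, ‖cexp (φ (x r)) - θ - (a r : ℂ) / (q r : ℂ)‖ ≤ Real.exp (-κ * Real.sqrt N)) →
    (Matrix.of fun (r i : Fin (mm c η N + ll c η N)) =>
      if (i : ℕ) < mm c η N then (q r : ℤ) * ((x r - N).choose i : ℤ)
      else ((x r - N).choose ((i : ℕ) - mm c η N) : ℤ) * a r).det = 0 := by
  filter_upwards [num0 h, num1q h, num2 h] with N h0 h1 h2
  obtain ⟨hN1, hl1, hlm, -, -, hH1, hHϱ, -, hmR, -, hsig⟩ := h0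
  generalize mm c η N = m at *
  generalize ll c η N = l at *
  generalize HH (η ^ 2 / 32) N = H at *
  intro φ hφ θ hθ0 hθ1 x hx hxN a q hq ha
  have hNpos : (0 : ℝ) < N := by exact_mod_cast hN1
  have hϱ := h.hϱ
  have hϱN : 0 < ϱ * N := by positivity
  have hH0 : 0 ≤ H := by linarith
  have hHR : H < ϱ * N / 2 := by linarith
  have hRR : ϱ * N / 2 < ϱ * N := by linarith
  -- the interpolation polynomial
  obtain ⟨Lp, -, hLpe, hLpb⟩ := lagrange_bound (g := m + l) (by omega) x hx hxN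
    (fun r => cexp (φ (x r)) - θ - (a r : ℂ) / (q r : ℂ)) ha
  have hLb : ∀ z ∈ closedBall (N : ℂ) (ϱ * N / 2), ‖Lp.eval z‖ ≤ Real.exp (c * Real.sqrt N) :=
    fun z hz => (hLpb _ hHR.le z hz).trans h2.1
  set G : ℂ → ℂ := fun z => cexp (φ z) - θ - Lp.eval z with hG
  have hGb : ∀ z ∈ closedBall (N : ℂ) (ϱ * N / 2),
      ‖G z‖ ≤ Real.exp (c * (1 + η / 2) * Real.sqrt N) :=
    minor_aux_bound h hN1 hφ hθ0 hθ1 hLb h2.2
  have hGd : DifferentiableOn ℂ G (ball (N : ℂ) (ϱ * N)) := by
    apply DifferentiableOn.sub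
    · apply DifferentiableOn.sub
      · exact hφ.diff.cexp
      · exact differentiableOn_const _
    · exact (Polynomial.differentiable Lp).differentiableOn
  have hGx : ∀ r, G (x r) = (a r : ℂ) / (q r : ℂ) := by
    intro r
    simp only [hG, hLpe]
    ring
  -- the functions
  set f : Fin (m + l) → ℂ → ℂ := fun i z =>
    if (i : ℕ) < m then (binP N i).eval z else (binP N ((i : ℕ) - m)).eval z * G z with hf
  set B : Fin (m + l) → ℝ := fun i =>
    if (i : ℕ) < m then (2 * (ϱ * N / 2)) ^ (i : ℕ) / ((i : ℕ).factorial : ℝ)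
    else (2 * (ϱ * N / 2)) ^ ((i : ℕ) - m) / (((i : ℕ) - m).factorial : ℝ)
      * Real.exp (c * (1 + η / 2) * Real.sqrt N) with hB
  have hfd : ∀ i, DifferentiableOn ℂ (f i) (ball (N : ℂ) (ϱ * N)) := by
    intro i
    simp only [hf]
    by_cases hi : (i : ℕ) < m
    · simp only [hi, if_true]
      exact (Polynomial.differentiable _).differentiableOn
    · simp only [hi, if_false]
      exact (Polynomial.differentiable _).differentiableOn.mul hGd
  have hfB : ∀ i, ∀ z ∈ closedBall (N : ℂ) (ϱ * N / 2), ‖f i z‖ ≤ B i := by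
    intro i z hz
    simp only [hf, hB]
    by_cases hi : (i : ℕ) < m
    · simp only [hi, if_true]
      apply binP_bound _ z hz
      have : ((i : ℕ) : ℝ) ≤ m := by exact_mod_cast hi.le
      linarith
    · simp only [hi, if_false]
      rw [norm_mul]
      apply mul_le_mul _ (hGb z hz) (norm_nonneg _) (by positivity)
      apply binP_bound _ z hz
      have : (((i : ℕ) - m : ℕ) : ℝ) ≤ m := by
        have := i.2
        exact_mod_cast (by omega : (i : ℕ) - m ≤ m)
      linarith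
  have hxH : ∀ r, ‖(x r : ℂ) - N‖ ≤ H := by
    intro r
    have h3 := hxN r
    have e : (x r : ℂ) - N = (((x r : ℝ) - N : ℝ) : ℂ) := by push_cast; ring
    rw [e, Complex.norm_real, Real.norm_eq_abs, abs_of_nonneg]
    · linarith [h3.2]
    · have : (N : ℝ) ≤ x r := by exact_mod_cast h3.1
      linarith
  have hdet := det_bound f (fun r => (x r : ℂ)) B hH0 hHR hRR hfd hxH hfB
  have hprod : ∏ i, B i = (∏ i ∈ Finset.range m, (2 * (ϱ * N / 2)) ^ i / (i.factorial : ℝ))
        * ((∏ i ∈ Finset.range l, (2 * (ϱ * N / 2)) ^ i / (i.factorial : ℝ))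
          * Real.exp (c * (1 + η / 2) * Real.sqrt N) ^ l) := by
    rw [Fin.prod_univ_add]
    congr 1
    · rw [Finset.prod_range]
      apply Finset.prod_congr rfl
      intro i _
      simp [hB]
    · rw [Finset.prod_range]
      have e2 : Real.exp (c * (1 + η / 2) * Real.sqrt N) ^ l
          = ∏ _i : Fin l, Real.exp (c * (1 + η / 2) * Real.sqrt N) := by
        simp
      rw [e2, ← Finset.prod_mul_distrib]
      apply Finset.prod_congr rfl
      intro i _
      simp [hB]
  rw [hprod] at hdet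
  -- the matrix is the cast of the integer matrix
  set A : Matrix (Fin (m + l)) (Fin (m + l)) ℤ := Matrix.of fun (r i : Fin (m + l)) =>
      if (i : ℕ) < m then (q r : ℤ) * ((x r - N).choose i : ℤ)
      else ((x r - N).choose ((i : ℕ) - m) : ℤ) * a r with hA
  have hq0 : ∀ r, (q r : ℂ) ≠ 0 := by
    intro r
    have := (hq r).1
    exact_mod_cast (by omega : q r ≠ 0)
  have hcast : (Matrix.of fun r i => (q r : ℂ) * (Matrix.of fun r i => f i (x r : ℂ)) r i)
      = A.map (Int.castRingHom ℂ) := by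
    ext r i
    simp only [Matrix.of_apply, Matrix.map_apply, hA, hf]
    by_cases hi : (i : ℕ) < m
    · simp only [hi, if_true]
      rw [binP_eval_nat (hxN r).1]
      simp
    · simp only [hi, if_false]
      rw [binP_eval_nat (hxN r).1, hGx r]
      have := hq0 r
      simp only [map_mul, map_natCast, eq_intCast]
      field_simp
  have hdet2 : (∏ r, (q r : ℂ)) * (Matrix.of fun r i => f i (x r : ℂ)).det = ((A.det : ℤ) : ℂ) := by
    rw [← Matrix.det_mul_column, hcast, ← RingHom.mapMatrix_apply, ← RingHom.map_det]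
    simp
  have hprodq : ‖∏ r, (q r : ℂ)‖ ≤ Real.exp (c * η ^ 2 / 4 * Real.sqrt N) ^ (m + l) := by
    rw [norm_prod]
    calc ∏ r, ‖(q r : ℂ)‖ ≤ ∏ _r : Fin (m + l), Real.exp (c * η ^ 2 / 4 * Real.sqrt N) := by
          apply Finset.prod_le_prod (fun r _ => norm_nonneg _)
          intro r _
          rw [Complex.norm_natCast]
          exact (hq r).2
      _ = _ := by simp
  have hlt : ‖((A.det : ℤ) : ℂ)‖ < 1 := by
    rw [← hdet2, norm_mul, mul_comm]
    refine lt_of_le_of_lt ?_ h1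
    exact mul_le_mul hdet hprodq (norm_nonneg _) (le_trans (norm_nonneg _) hdet)
  rw [Complex.norm_intCast] at hlt
  have : |A.det| < 1 := by exact_mod_cast hlt
  exact Int.abs_lt_one_iff.mp this

end PRT
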