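import Mathlib
import Pool.Agent.PRT.ALT
import Pool.Agent.PRT.MINORQ
import Pool.Agent.PRT.REL

namespace PRT

open Complex Metric

/-- the kernel case: a real kernel vector of the interpolation matrix gives a polynomial relation,
hence vanishes -/
theorem core_kernel_q {N m l g : ℕ} (hMg : m + l ≤ g) (x : Fin g → ℕ)
    (hx : Function.Injective x) (hN : ∀ r, N ≤ x r) (a : Fin g → ℝ)
    (hrel : ∀ P₀ P₁ : Polynomial ℂ, P₀.degree < m → P₁.degree < l →
      (∀ r, P₀.eval (x r : ℂ) + P₁.eval (x r : ℂ) * ((a r : ℝ) : ℂ) = 0) → P₁ = 0)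
    (v : Fin (m + l) → ℝ)
    (hv : (Matrix.of fun (r : Fin g) (i : Fin (m + l)) =>
      if (i : ℕ) < m then ((x r - N).choose i : ℝ)
      else ((x r - N).choose ((i : ℕ) - m) : ℝ) * a r).mulVec v = 0) : v = 0 := by
  set P₀ : Polynomial ℂ := ∑ i : Fin m, Polynomial.C ((v (Fin.castAdd l i) : ℝ) : ℂ) * binP N i
    with hP₀
  set P₁ : Polynomial ℂ := ∑ i : Fin l, Polynomial.C ((v (Fin.natAdd m i) : ℝ) : ℂ) * binP N i
    with hP₁
  have d0 : P₀.degree < m := binP_sum_degree (fun i => ((v (Fin.castAdd l i) : ℝ) : ℂ))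
  have d1 : P₁.degree < l := binP_sum_degree (fun i => ((v (Fin.natAdd m i) : ℝ) : ℂ))
  have e0 : ∀ r, P₀.eval (x r : ℂ) =
      ∑ i : Fin m, ((v (Fin.castAdd l i) : ℝ) : ℂ) * ((x r - N).choose i : ℂ) := by
    intro r
    rw [hP₀, Polynomial.eval_finsetSum]
    refine Finset.sum_congr rfl fun i _ => ?_
    rw [Polynomial.eval_mul, Polynomial.eval_C, binP_eval_nat (hN r)]
  have e1 : ∀ r, P₁.eval (x r : ℂ) =
      ∑ i : Fin l, ((v (Fin.natAdd m i) : ℝ) : ℂ) * ((x r - N).choose i : ℂ) := by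
    intro r
    rw [hP₁, Polynomial.eval_finsetSum]
    refine Finset.sum_congr rfl fun i _ => ?_
    rw [Polynomial.eval_mul, Polynomial.eval_C, binP_eval_nat (hN r)]
  have key : ∀ r, P₀.eval (x r : ℂ) + P₁.eval (x r : ℂ) * ((a r : ℝ) : ℂ) = 0 := by
    intro r
    have h1 := congrFun hv r
    simp only [Matrix.mulVec, dotProduct, Matrix.of_apply, Pi.zero_apply] at h1
    rw [Fin.sum_univ_add] at h1
    have h2 : (∑ i : Fin m, ((x r - N).choose i : ℝ) * v (Fin.castAdd l i))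
        + ∑ i : Fin l, (((x r - N).choose i : ℝ) * a r) * v (Fin.natAdd m i) = 0 := by
      rw [← h1]
      congr 1
      · refine Finset.sum_congr rfl fun i _ => ?_
        rw [Fin.val_castAdd, if_pos i.2]
      · refine Finset.sum_congr rfl fun i _ => ?_
        rw [Fin.val_natAdd, if_neg (by omega), Nat.add_sub_cancel_left]
    have h3 := congrArg (fun t : ℝ => (t : ℂ)) h2
    simp only [Complex.ofReal_zero] at h3
    rw [e0, e1, ← h3]
    push_cast
    rw [Finset.sum_mul]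
    congr 1
    · refine Finset.sum_congr rfl fun i _ => ?_
      ring
    · refine Finset.sum_congr rfl fun i _ => ?_
      ring
  have hP1 : P₁ = 0 := hrel P₀ P₁ d0 d1 key
  have hv1 := binP_linIndep (fun i : Fin l => ((v (Fin.natAdd m i) : ℝ) : ℂ)) hP1
  have hP0 : P₀ = 0 := by
    by_contra hne
    have hroots : (Finset.univ.image (fun r : Fin g => (x r : ℂ))).card = g := by
      rw [Finset.card_image_of_injective]
      · simp
      · intro r s hrs
        have hrs' : (x r : ℂ) = (x s : ℂ) := hrs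
        exact hx (by exact_mod_cast hrs')
    have hsub : (Finset.univ.image (fun r : Fin g => (x r : ℂ))) ⊆ P₀.roots.toFinset := by
      intro z hz
      rw [Finset.mem_image] at hz
      obtain ⟨r, _, rfl⟩ := hz
      rw [Multiset.mem_toFinset, Polynomial.mem_roots hne, Polynomial.IsRoot.def]
      have := key r
      rw [hP1] at this
      simpa using this
    have h4 : g ≤ P₀.natDegree := by
      calc g = (Finset.univ.image (fun r : Fin g => (x r : ℂ))).card := hroots.symm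
        _ ≤ P₀.roots.toFinset.card := Finset.card_le_card hsub
        _ ≤ Multiset.card P₀.roots := Multiset.toFinset_card_le _
        _ ≤ P₀.natDegree := Polynomial.card_roots' _
    have h5 : P₀.natDegree < m := by
      rw [Polynomial.degree_eq_natDegree hne] at d0
      exact_mod_cast d0
    omega
  have hv0 := binP_linIndep (fun i : Fin m => ((v (Fin.castAdd l i) : ℝ) : ℂ)) hP0
  funext i
  refine Fin.addCases (fun j => ?_) (fun j => ?_) i
  · have := congrFun hv0 j
    simpa using this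
  · have := congrFun hv1 j
    simpa using this

open Filter in
/-- the core theorem, rational version: few integers in a short window at which `e^φ - θ` is very
close to a rational number with small denominator -/
theorem core_q (c κ : ℝ) (hc : 0 < c) (hκ : 0 < κ) :
    ∃ ϵ : ℝ, 0 < ϵ ∧ ∃ ω : ℝ, 0 < ω ∧ ω < 1 / 2 ∧ ∃ δ : ℝ, 0 < δ ∧ ∀ ϱ : ℝ, 0 < ϱ → ϱ ≤ ϵ →
    ∀ᶠ N : ℕ in atTop, ∀ φ : ℂ → ℂ, PhiGood c ϵ ϱ N φ → ∀ θ : ℝ, ∀ G : Finset ℕ,
    (∀ x ∈ G, N ≤ x ∧ (x : ℝ) ≤ N + (N : ℝ) ^ (1 / 2 + ω)) →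
    (∀ x ∈ G, ∃ a : ℤ, ∃ q : ℕ, (1 ≤ q ∧ (q : ℝ) ≤ Real.exp (δ * Real.sqrt N)) ∧
      ‖cexp (φ x) - θ - (a : ℂ) / (q : ℂ)‖ ≤ Real.exp (-κ * Real.sqrt N)) →
    (G.card : ℝ) ≤ Real.sqrt N := by
  set t : ℝ := min 1 (κ / c) with ht
  have ht0 : 0 < t := lt_min one_pos (div_pos hκ hc)
  have ht1 : t ≤ 1 := min_le_left _ _
  have ht2 : t * c ≤ κ := by
    have : t ≤ κ / c := min_le_right _ _
    calc t * c ≤ κ / c * c := by gcongr
      _ = κ := by field_simp
  set η : ℝ := t / 20 with hη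
  have hη0 : 0 < η := by positivity
  have hη1 : η ≤ 1 / 20 := by rw [hη]; linarith
  refine ⟨η / 16, by positivity, η ^ 2 / 32, by positivity, by nlinarith, c * η ^ 2 / 4,
    by positivity, ?_⟩
  intro ϱ hϱ hϱϵ
  have hPar : Par c κ η (η / 16) ϱ :=
    { hc := hc, hη := hη0, hη1 := hη1, hϵ := rfl, hϱ := hϱ, hϱϵ := hϱϵ
      hκ := by rw [hη]; linarith }
  filter_upwards [num0 hPar, minor_zero_q hPar, rel_zero hPar] with N h0 hmin hrel
  intro φ hφ θ G hG hGa
  obtain ⟨_, _, _, hMg, hgS, _⟩ := h0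
  by_contra hcon
  push Not at hcon
  have hcard : gg c η N ≤ G.card := by
    have : (gg c η N : ℝ) ≤ (G.card : ℝ) := hgS.trans hcon.le
    exact_mod_cast this
  obtain ⟨G', hG'sub, hG'card⟩ := Finset.exists_subset_card_eq hcard
  -- enumerate
  let x : Fin (gg c η N) → ℕ := fun r => G'.orderEmbOfFin hG'card r
  have hxinj : Function.Injective x := by
    intro r s hrs
    exact (G'.orderEmbOfFin hG'card).injective hrs
  have hxG : ∀ r, x r ∈ G := fun r => hG'sub (Finset.orderEmbOfFin_mem _ _ _)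
  choose! a₀ q₀ hq₀ ha₀ using hGa
  -- the shifted data
  let θ' : ℝ := Int.fract θ
  let q : Fin (gg c η N) → ℕ := fun r => q₀ (x r)
  let a : Fin (gg c η N) → ℤ := fun r => a₀ (x r) + q₀ (x r) * ⌊θ⌋
  have hqr : ∀ r, 1 ≤ q r ∧ (q r : ℝ) ≤ Real.exp (c * η ^ 2 / 4 * Real.sqrt N) :=
    fun r => hq₀ (x r) (hxG r)
  have hq0 : ∀ r, (q r : ℂ) ≠ 0 := by
    intro r
    have := (hqr r).1
    exact_mod_cast (by omega : q r ≠ 0)
  have hq0' : ∀ r, (q r : ℝ) ≠ 0 := by
    intro r
    have := (hqr r).1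
    exact_mod_cast (by omega : q r ≠ 0)
  have hθ0 : 0 ≤ θ' := Int.fract_nonneg θ
  have hθ1 : θ' ≤ 1 := (Int.fract_lt_one θ).le
  have hxw : ∀ r, N ≤ x r ∧ (x r : ℝ) ≤ N + HH (η ^ 2 / 32) N := fun r => hG (x r) (hxG r)
  have hclose : ∀ r, ‖cexp (φ (x r)) - θ' - (a r : ℂ) / (q r : ℂ)‖ ≤ Real.exp (-κ * Real.sqrt N) := by
    intro r
    have h1 := ha₀ (x r) (hxG r)
    have h2 : cexp (φ (x r)) - (θ' : ℂ) - (a r : ℂ) / (q r : ℂ)
        = cexp (φ (x r)) - θ - (a₀ (x r) : ℂ) / (q₀ (x r) : ℂ) := by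
      have h3 : (θ : ℂ) = (θ' : ℂ) + ((⌊θ⌋ : ℤ) : ℂ) := by
        have : θ = θ' + (⌊θ⌋ : ℝ) := (Int.fract_add_floor θ).symm
        exact_mod_cast congrArg (fun s : ℝ => (s : ℂ)) this
      have h4 : (q₀ (x r) : ℂ) ≠ 0 := hq0 r
      rw [h3]
      simp only [a, q]
      push_cast
      field_simp
      ring
    rw [h2]
    exact h1
  -- alternative
  rcases alt_det (Matrix.of fun (r : Fin (gg c η N)) (i : Fin (mm c η N + ll c η N)) =>
      if (i : ℕ) < mm c η N then ((x r - N).choose i : ℝ)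
      else ((x r - N).choose ((i : ℕ) - mm c η N) : ℝ) * ((a r : ℝ) / (q r : ℝ)))
    with ⟨v, hv0, hv⟩ | ⟨f, hf, hdet⟩
  · apply hv0
    refine core_kernel_q hMg x hxinj (fun r => (hxw r).1) (fun r => (a r : ℝ) / (q r : ℝ)) ?_ v hv
    intro P₀ P₁ hd0 hd1 hP
    refine hrel φ hφ θ' x hxinj hxw (fun r => (a r : ℝ) / (q r : ℝ)) ?_ P₀ P₁ hd0 hd1 hP
    intro r
    have := hclose r
    push_cast at this ⊢
    exact this
  · apply hdet
    have h1 := hmin φ hφ θ' hθ0 hθ1 (fun r => x (f r)) (hxinj.comp hf) (fun r => hxw (f r))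
      (fun r => a (f r)) (fun r => q (f r)) (fun r => hqr (f r)) (fun r => hclose (f r))
    set B : Matrix (Fin (mm c η N + ll c η N)) (Fin (mm c η N + ll c η N)) ℝ :=
      ((Matrix.of fun (r : Fin (gg c η N)) (i : Fin (mm c η N + ll c η N)) =>
      if (i : ℕ) < mm c η N then ((x r - N).choose i : ℝ)
      else ((x r - N).choose ((i : ℕ) - mm c η N) : ℝ) * ((a r : ℝ) / (q r : ℝ))).submatrix f id)
      with hB
    have h2 : (Matrix.of fun r i => (q (f r) : ℝ) * B r i) =
      (Matrix.of fun (r i : Fin (mm c η N + ll c η N)) =>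
      if (i : ℕ) < mm c η N then (q (f r) : ℤ) * ((x (f r) - N).choose i : ℤ)
      else ((x (f r) - N).choose ((i : ℕ) - mm c η N) : ℤ) * a (f r)).map
        (Int.castRingHom ℝ) := by
      ext r i
      simp only [Matrix.of_apply, Matrix.map_apply, hB, Matrix.submatrix_apply, id_eq]
      have := hq0' (f r)
      by_cases hi : (i : ℕ) < mm c η N
      · simp only [hi, if_true]
        simp
      · simp only [hi, if_false]
        simp only [map_mul, map_natCast, eq_intCast]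
        field_simp
    have h3 : (∏ r, (q (f r) : ℝ)) * B.det = 0 := by
      rw [← Matrix.det_mul_column, h2, ← RingHom.mapMatrix_apply, ← RingHom.map_det, h1, map_zero]
    rcases mul_eq_zero.mp h3 with h4 | h4
    · exact absurd h4 (Finset.prod_ne_zero_iff.mpr (fun r _ => hq0' (f r)))
    · exact h4

end PRT
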