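import Mathlib
import Pool.Agent.PRT.Defs
import Pool.Agent.PRT.NUM4

namespace PRT

open Complex Metric

open Filter Topology Num4 in
/-- numerical facts for polynomial phases of degree at most `c √N / (4 log N)` -/
theorem numT {c κ η ϵ ϱ : ℝ} (h : Par c κ η ϵ ϱ) : ∀ᶠ N : ℕ in atTop,
    0 < SS c N ∧ SS c N ≤ 2 * (ϱ * N / 2) ∧
    (∀ d : ℕ, (d : ℝ) * Real.log N ≤ c / 4 * Real.sqrt N →
      ((d : ℝ) + 1) * (2 * (ϱ * N / 2) / SS c N) ^ d * Real.exp (SS c N) ≤
        Real.exp (c * Real.sqrt N) ∧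
      d + ll c η N ≤ mm c η N ∧ (d : ℝ) ≤ ϱ * N / 2) ∧
    Real.exp (c * Real.sqrt N * (1 + 2 * ϵ)) + Real.exp (c * Real.sqrt N)
      + Real.exp (c * Real.sqrt N) ≤ Real.exp (c * (1 + η / 2) * Real.sqrt N) := by
  obtain ⟨hc, hη, hη1, hϵ, hϱ, hϱϵ, hκ⟩ := h
  have hϵ0 : 0 < ϵ := by rw [hϵ]; positivity
  have linv : Tendsto (fun N : ℕ => (Real.log N)⁻¹) atTop (𝓝 0) :=
    (Real.tendsto_log_atTop.comp tendsto_natCast).inv_tendsto_atTop
  have lloglog : Tendsto (fun N : ℕ => Real.log (Real.log N) / Real.log N) atTop (𝓝 0) := by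
    have h1 : Tendsto (fun x : ℝ => Real.log x / x) atTop (𝓝 0) := by
      have := Real.isLittleO_log_id_atTop.tendsto_div_nhds_zero
      simpa using this
    exact h1.comp (Real.tendsto_log_atTop.comp tendsto_natCast)
  set A : ℝ := |Real.log (ϱ / (2 * c))| with hA
  have hA0 : 0 ≤ A := abs_nonneg _
  -- the small terms
  have hsmall : ∀ᶠ N : ℕ in atTop, c / 4 * ((A + 1) * (Real.log N)⁻¹
      + Real.log (Real.log N) / Real.log N) + 2 * c * (Real.log N)⁻¹ ≤ 7 * c / 8 := by
    have h1 := (((linv.const_mul (A + 1)).add lloglog).const_mul (c / 4)).add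
      (linv.const_mul (2 * c))
    have h2 : c / 4 * ((A + 1) * 0 + 0) + 2 * c * 0 = 0 := by ring
    rw [h2] at h1
    exact h1.eventually_le_const (by positivity)
  have eS : ∀ᶠ N : ℕ in atTop, 8 ≤ SS c N := (tendsto_SS hc).eventually_ge_atTop _
  have e1L : ∀ᶠ N : ℕ in atTop, 1 ≤ Real.log N :=
    (Real.tendsto_log_atTop.comp tendsto_natCast).eventually_ge_atTop 1
  have hsec : ∀ᶠ N : ℕ in atTop, Real.log 3 ≤ (c * (η / 2 - 2 * ϵ)) * Real.sqrt N := by
    have h1 : 0 < c * (η / 2 - 2 * ϵ) := by rw [hϵ]; exact mul_pos hc (by linarith)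
    exact (sqrt_tendsto.const_mul_atTop h1).eventually_ge_atTop _
  have hbig : ∀ᶠ N : ℕ in atTop, 2 * c / ϱ + c / ϱ ≤ Real.sqrt N :=
    sqrt_tendsto.eventually_ge_atTop _
  filter_upwards [hsmall, eS, e1L, hsec, hbig, eventually_gt_atTop 1] with N hsm hS hL1 hs3 hb hN1
  have hN' : (1 : ℝ) < N := by exact_mod_cast hN1
  have hN0 : (0 : ℝ) < N := by linarith
  have hL : 0 < Real.log N := by linarith
  have hs : 0 < Real.sqrt N := Real.sqrt_pos.2 hN0
  have hsq : (N : ℝ) = Real.sqrt N * Real.sqrt N := (Real.mul_self_sqrt hN0.le).symm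
  have hSpos : 0 < SS c N := by linarith
  have hSle : SS c N ≤ 2 * c * Real.sqrt N := by
    unfold SS
    rw [div_le_iff₀ hL]
    have : 0 ≤ 2 * c * Real.sqrt N := by positivity
    nlinarith
  have hcρ : 2 * c * Real.sqrt N + c * Real.sqrt N ≤ ϱ * N := by
    have h1 : (2 * c / ϱ + c / ϱ) * (ϱ * Real.sqrt N) ≤ Real.sqrt N * (ϱ * Real.sqrt N) :=
      mul_le_mul_of_nonneg_right hb (by positivity)
    have h2 : (2 * c / ϱ + c / ϱ) * (ϱ * Real.sqrt N) = 2 * c * Real.sqrt N + c * Real.sqrt N := by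
      field_simp
    have h3 : Real.sqrt N * (ϱ * Real.sqrt N) = ϱ * N := by
      rw [show Real.sqrt N * (ϱ * Real.sqrt N) = ϱ * (Real.sqrt N * Real.sqrt N) by ring, ← hsq]
    linarith
  have hcs : 0 < c * Real.sqrt N := by positivity
  refine ⟨hSpos, by linarith, ?_, ?_⟩
  · intro d hd
    have hdS : (d : ℝ) ≤ SS c N / 8 := by
      unfold SS
      rw [le_div_iff₀ (by norm_num), le_div_iff₀ hL]
      linarith
    refine ⟨?_, ?_, ?_⟩
    · have e1 : ((d : ℝ) + 1) ≤ Real.exp d := Real.add_one_le_exp _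
      have e2 : 2 * (ϱ * N / 2) / SS c N = Real.exp (Real.log (ϱ / (2 * c)) + (1 / 2) * Real.log N
          + Real.log (Real.log N)) := by
        rw [Real.exp_add, Real.exp_add, Real.exp_log hL, Real.exp_log (by positivity)]
        have h3 : Real.exp ((1 / 2) * Real.log N) = Real.sqrt N := by
          rw [Real.sqrt_eq_rpow, Real.rpow_def_of_pos hN0, mul_comm]
        rw [h3]
        unfold SS
        generalize Real.sqrt (N : ℝ) = t at *
        rw [hsq]
        field_simp
      rw [e2, ← Real.exp_nat_mul]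
      calc ((d : ℝ) + 1) * Real.exp ((d : ℝ) * (Real.log (ϱ / (2 * c)) + (1 / 2) * Real.log N
          + Real.log (Real.log N))) * Real.exp (SS c N)
          ≤ Real.exp d * Real.exp ((d : ℝ) * (Real.log (ϱ / (2 * c)) + (1 / 2) * Real.log N
          + Real.log (Real.log N))) * Real.exp (SS c N) := by gcongr
        _ = Real.exp (d + (d : ℝ) * (Real.log (ϱ / (2 * c)) + (1 / 2) * Real.log N
          + Real.log (Real.log N)) + SS c N) := by rw [Real.exp_add, Real.exp_add]
        _ ≤ Real.exp (c * Real.sqrt N) := by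
            apply Real.exp_le_exp.2
            have hd0 : (0 : ℝ) ≤ d := Nat.cast_nonneg _
            have f1 : (d : ℝ) * (Real.log (ϱ / (2 * c))) ≤ d * A :=
              mul_le_mul_of_nonneg_left (le_abs_self _) hd0
            have f2 : (d : ℝ) ≤ c / 4 * Real.sqrt N * (Real.log N)⁻¹ := by
              rw [← div_eq_mul_inv, le_div_iff₀ hL]; exact hd
            have f3 : 0 ≤ Real.log (Real.log N) := Real.log_nonneg hL1
            have f4 : (d : ℝ) * (A + 1 + Real.log (Real.log N)) ≤
                c / 4 * Real.sqrt N * (Real.log N)⁻¹ * (A + 1 + Real.log (Real.log N)) :=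
              mul_le_mul_of_nonneg_right f2 (by linarith)
            have f5 : SS c N = 2 * c * (Real.log N)⁻¹ * Real.sqrt N := by
              unfold SS; rw [div_eq_mul_inv]; ring
            have f6 : (c / 4 * ((A + 1) * (Real.log N)⁻¹
              + Real.log (Real.log N) / Real.log N) + 2 * c * (Real.log N)⁻¹) * Real.sqrt N
              ≤ 7 * c / 8 * Real.sqrt N := mul_le_mul_of_nonneg_right hsm hs.le
            have f7 : c / 4 * Real.sqrt N * (Real.log N)⁻¹ * (A + 1 + Real.log (Real.log N))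
                + SS c N = (c / 4 * ((A + 1) * (Real.log N)⁻¹
              + Real.log (Real.log N) / Real.log N) + 2 * c * (Real.log N)⁻¹) * Real.sqrt N := by
              rw [f5, div_eq_mul_inv (Real.log (Real.log N))]; ring
            have f8 : (d : ℝ) * ((1 / 2) * Real.log N) ≤ c / 8 * Real.sqrt N := by linarith
            have f9 : (d : ℝ) * (Real.log (ϱ / (2 * c)) + (1 / 2) * Real.log N
              + Real.log (Real.log N)) = (d : ℝ) * (Real.log (ϱ / (2 * c)))
              + (d : ℝ) * ((1 / 2) * Real.log N) + d * Real.log (Real.log N) := by ring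
            rw [f9]
            have f10 : (d : ℝ) * (A + 1 + Real.log (Real.log N)) = d * A + d
              + d * Real.log (Real.log N) := by ring
            linarith
    · have g1 : (ll c η N : ℝ) ≤ η * SS c N + 1 := by
        unfold ll
        exact (Nat.ceil_lt_add_one (by positivity)).le
      have g2 : (1 + η) * SS c N ≤ mm c η N := by
        unfold mm
        exact Nat.le_ceil _
      have : ((d + ll c η N : ℕ) : ℝ) ≤ (mm c η N : ℝ) := by
        push_cast
        linarith
      exact_mod_cast this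
    · linarith
  · have h0 : 0 ≤ c * Real.sqrt N * (2 * ϵ) := by positivity
    have h2 : Real.exp (c * Real.sqrt N) ≤ Real.exp (c * Real.sqrt N * (1 + 2 * ϵ)) := by
      apply Real.exp_le_exp.2
      linarith
    calc _ ≤ 3 * Real.exp (c * Real.sqrt N * (1 + 2 * ϵ)) := by linarith
      _ = Real.exp (Real.log 3 + c * Real.sqrt N * (1 + 2 * ϵ)) := by
          rw [Real.exp_add, Real.exp_log (by norm_num)]
      _ ≤ _ := by
          apply Real.exp_le_exp.2
          linarith

end PRT
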