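import Mathlib
import Pool.Agent.PRT.BINP
import Pool.Agent.PRT.NUM1Q

namespace PRT

open Complex Metric

/-- Newton's forward formula for a real polynomial at the integers `≥ N` -/
theorem newton_forward (T : Polynomial ℝ) {d : ℕ} (hd : T.natDegree ≤ d) (N : ℕ) :
    ∃ t : ℕ → ℝ, ∀ x : ℕ, N ≤ x →
      T.eval (x : ℝ) = ∑ i ∈ Finset.range (d + 1), t i * ((x - N).choose i : ℝ) := by
  refine ⟨fun i => (fwdDiff (1 : ℝ))^[i] (fun y => T.eval y) (N : ℝ), ?_⟩
  intro x hx
  obtain ⟨y, rfl⟩ := Nat.exists_eq_add_of_le hx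
  have h0 : N + y - N = y := by omega
  rw [h0]
  have h1 := shift_eq_sum_fwdDiff_iter (1 : ℝ) (fun y => T.eval y) y (N : ℝ)
  have h2 : ((N : ℝ) + y • (1 : ℝ)) = ((N + y : ℕ) : ℝ) := by push_cast; simp
  rw [h2] at h1
  rw [h1]
  have hz : ∀ k, d + 1 ≤ k → (fwdDiff (1 : ℝ))^[k] (fun y => T.eval y) (N : ℝ) = 0 := by
    intro k hk
    have := Polynomial.fwdDiff_iter_eq_zero_of_degree_lt (P := T) (n := k) (by omega)
    exact congrFun this N
  have key : ∀ n : ℕ, ∑ k ∈ Finset.range n, y.choose k • (fwdDiff (1 : ℝ))^[k] (fun y => T.eval y) (N : ℝ)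
      = ∑ k ∈ Finset.range n, (fwdDiff (1 : ℝ))^[k] (fun y => T.eval y) (N : ℝ) * (y.choose k : ℝ) := by
    intro n
    refine Finset.sum_congr rfl fun k _ => ?_
    rw [nsmul_eq_mul, mul_comm]
  rw [key]
  rcases le_total (y + 1) (d + 1) with hle | hle
  · refine Finset.sum_subset (Finset.range_mono hle) ?_
    intro k _ hk
    rw [Finset.mem_range, not_lt] at hk
    rw [Nat.choose_eq_zero_of_lt (by omega)]
    simp
  · symm
    refine Finset.sum_subset (Finset.range_mono hle) ?_
    intro k _ hk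
    rw [Finset.mem_range, not_lt] at hk
    beta_reduce
    rw [hz k hk, zero_mul]

/-- reduction of a real polynomial modulo the integer valued polynomials -/
theorem poly_reduce (T : Polynomial ℝ) {d : ℕ} (hd : T.natDegree ≤ d) (N : ℕ) :
    ∃ T' : Polynomial ℂ, T'.natDegree ≤ d ∧ (∃ b : ℕ → ℤ, ∀ x : ℕ, N ≤ x →
        ((T.eval (x : ℝ) : ℝ) : ℂ) = T'.eval (x : ℂ) + b x) ∧
      ∀ R s : ℝ, 0 < s → s ≤ 2 * R → (d : ℝ) ≤ R → ∀ z ∈ closedBall (N : ℂ) R,
        ‖T'.eval z‖ ≤ ((d : ℝ) + 1) * (2 * R / s) ^ d * Real.exp s := by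
  obtain ⟨t, ht⟩ := newton_forward T hd N
  refine ⟨∑ i ∈ Finset.range (d + 1), Polynomial.C ((Int.fract (t i) : ℝ) : ℂ) * binP N i, ?_, ?_, ?_⟩
  · apply Polynomial.natDegree_sum_le_of_forall_le
    intro i hi
    refine (Polynomial.natDegree_C_mul_le _ _).trans ?_
    rw [binP_natDegree]
    have := Finset.mem_range.1 hi
    omega
  · refine ⟨fun x => ∑ i ∈ Finset.range (d + 1), ⌊t i⌋ * ((x - N).choose i : ℤ), ?_⟩
    intro x hx
    rw [ht x hx, Polynomial.eval_finsetSum]
    push_cast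
    rw [← Finset.sum_add_distrib]
    refine Finset.sum_congr rfl fun i _ => ?_
    rw [Polynomial.eval_mul, Polynomial.eval_C, binP_eval_nat hx]
    have : (t i : ℂ) = ((Int.fract (t i) : ℝ) : ℂ) + ((⌊t i⌋ : ℤ) : ℂ) := by
      have h1 : t i = Int.fract (t i) + (⌊t i⌋ : ℝ) := (Int.fract_add_floor (t i)).symm
      exact_mod_cast congrArg (fun s : ℝ => (s : ℂ)) h1
    rw [this]
    ring
  · intro R s hs hsR hdR z hz
    have hR : 0 < R := by linarith
    rw [Polynomial.eval_finsetSum]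
    calc ‖∑ i ∈ Finset.range (d + 1), (Polynomial.C ((Int.fract (t i) : ℝ) : ℂ) * binP N i).eval z‖
        ≤ ∑ i ∈ Finset.range (d + 1), ‖(Polynomial.C ((Int.fract (t i) : ℝ) : ℂ) * binP N i).eval z‖ :=
          norm_sum_le _ _
      _ ≤ ∑ i ∈ Finset.range (d + 1), (2 * R / s) ^ d * Real.exp s := by
          refine Finset.sum_le_sum fun i hi => ?_
          have hid : i ≤ d := by have := Finset.mem_range.1 hi; omega
          have hiR : (i : ℝ) ≤ R := le_trans (by exact_mod_cast hid) hdR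
          rw [Polynomial.eval_mul, Polynomial.eval_C, norm_mul, Complex.norm_real, Real.norm_eq_abs,
            abs_of_nonneg (Int.fract_nonneg _)]
          have h1 := binP_bound hiR z hz
          have h2 := Num1q.pow_div_fac (y := 2 * R) (by positivity) hs i
          have h3 : (2 * R / s) ^ i ≤ (2 * R / s) ^ d :=
            pow_le_pow_right₀ (by rw [le_div_iff₀ hs]; linarith) hid
          have h4 : (2 * R / s) ^ i * Real.exp s ≤ (2 * R / s) ^ d * Real.exp s := by gcongr
          calc Int.fract (t i) * ‖(binP N i).eval z‖ ≤ 1 * ‖(binP N i).eval z‖ := by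
                gcongr
                exact (Int.fract_lt_one _).le
            _ = ‖(binP N i).eval z‖ := one_mul _
            _ ≤ _ := h1.trans (h2.trans h4)
      _ = ((d : ℝ) + 1) * (2 * R / s) ^ d * Real.exp s := by
          rw [Finset.sum_const, Finset.card_range, nsmul_eq_mul]
          push_cast
          ring

end PRT
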