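import Mathlib
import Pool.Agent.PRT.COREQ
import Pool.Agent.PRT.MINORT
import Pool.Agent.PRT.RELT
import Pool.Agent.PRT.TPOLY

namespace PRT

open Complex Metric

open Filter in
/-- the core theorem, rational version with a polynomial phase: few integers in a short window at
which `e^φ - T` is very close to a rational number with small denominator -/
theorem core_T (c κ : ℝ) (hc : 0 < c) (hκ : 0 < κ) :
    ∃ ϵ : ℝ, 0 < ϵ ∧ ∃ ω : ℝ, 0 < ω ∧ ω < 1 / 2 ∧ ∃ δ : ℝ, 0 < δ ∧ ∀ ϱ : ℝ, 0 < ϱ → ϱ ≤ ϵ →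
    ∀ᶠ N : ℕ in atTop, ∀ φ : ℂ → ℂ, PhiGood c ϵ ϱ N φ → ∀ T : Polynomial ℝ,
    (T.natDegree : ℝ) * Real.log N ≤ c / 4 * Real.sqrt N → ∀ G : Finset ℕ,
    (∀ x ∈ G, N ≤ x ∧ (x : ℝ) ≤ N + (N : ℝ) ^ (1 / 2 + ω)) →
    (∀ x ∈ G, ∃ a : ℤ, ∃ q : ℕ, (1 ≤ q ∧ (q : ℝ) ≤ Real.exp (δ * Real.sqrt N)) ∧
      ‖cexp (φ x) - ((T.eval (x : ℝ) : ℝ) : ℂ) - (a : ℂ) / (q : ℂ)‖ ≤
        Real.exp (-κ * Real.sqrt N)) →
    (G.card : ℝ) ≤ Real.sqrt N := by
  set t : ℝ := min 1 (κ / c) with ht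
  have ht0 : 0 < t := lt_min one_pos (div_pos hκ hc)
  have ht1 : t ≤ 1 := min_le_left _ _
  have ht2 : t * c ≤ κ := by
    have : t ≤ κ / c := min_le_right _ _
    calc t * c ≤ κ / c * c := by gcongr
      _ = κ := by field_simp
  set η : ℝ := t / 20 with hη
  have hη0 : 0 < η := by positivity
  have hη1 : η ≤ 1 / 20 := by rw [hη]; linarith
  refine ⟨η / 16, by positivity, η ^ 2 / 32, by positivity, by nlinarith, c * η ^ 2 / 4,
    by positivity, ?_⟩
  intro ϱ hϱ hϱϵ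
  have hPar : Par c κ η (η / 16) ϱ :=
    { hc := hc, hη := hη0, hη1 := hη1, hϵ := rfl, hϱ := hϱ, hϱϵ := hϱϵ
      hκ := by rw [hη]; linarith }
  filter_upwards [num0 hPar, minor_zero_T hPar, rel_zero_T hPar, numT hPar] with N h0 hmin hrel hnT
  intro φ hφ T hTd G hG hGa
  obtain ⟨hS0, hSR, hdd, -⟩ := hnT
  obtain ⟨hd1, hd2, hd3⟩ := hdd _ hTd
  obtain ⟨T', hT'd, ⟨b, hb⟩, hT'b⟩ := poly_reduce T (le_refl _) N
  have hTbound : ∀ z ∈ closedBall (N : ℂ) (ϱ * N / 2), ‖T'.eval z‖ ≤ Real.exp (c * Real.sqrt N) :=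
    fun z hz => (hT'b _ _ hS0 hSR hd3 z hz).trans hd1
  obtain ⟨_, _, _, hMg, hgS, _⟩ := h0
  by_contra hcon
  push Not at hcon
  have hcard : gg c η N ≤ G.card := by
    have : (gg c η N : ℝ) ≤ (G.card : ℝ) := hgS.trans hcon.le
    exact_mod_cast this
  obtain ⟨G', hG'sub, hG'card⟩ := Finset.exists_subset_card_eq hcard
  -- enumerate
  let x : Fin (gg c η N) → ℕ := fun r => G'.orderEmbOfFin hG'card r
  have hxinj : Function.Injective x := by
    intro r s hrs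
    exact (G'.orderEmbOfFin hG'card).injective hrs
  have hxG : ∀ r, x r ∈ G := fun r => hG'sub (Finset.orderEmbOfFin_mem _ _ _)
  choose! a₀ q₀ hq₀ ha₀ using hGa
  -- the shifted data
  let q : Fin (gg c η N) → ℕ := fun r => q₀ (x r)
  let a : Fin (gg c η N) → ℤ := fun r => a₀ (x r) - q₀ (x r) * (-b (x r))
  have hqr : ∀ r, 1 ≤ q r ∧ (q r : ℝ) ≤ Real.exp (c * η ^ 2 / 4 * Real.sqrt N) :=
    fun r => hq₀ (x r) (hxG r)
  have hq0 : ∀ r, (q r : ℂ) ≠ 0 := by
    intro r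
    have := (hqr r).1
    exact_mod_cast (by omega : q r ≠ 0)
  have hq0' : ∀ r, (q r : ℝ) ≠ 0 := by
    intro r
    have := (hqr r).1
    exact_mod_cast (by omega : q r ≠ 0)
  have hxw : ∀ r, N ≤ x r ∧ (x r : ℝ) ≤ N + HH (η ^ 2 / 32) N := fun r => hG (x r) (hxG r)
  have hclose : ∀ r, ‖cexp (φ (x r)) - T'.eval (x r : ℂ) - (a r : ℂ) / (q r : ℂ)‖ ≤
      Real.exp (-κ * Real.sqrt N) := by
    intro r
    have h1 := ha₀ (x r) (hxG r)
    have h2 : cexp (φ (x r)) - T'.eval (x r : ℂ) - (a r : ℂ) / (q r : ℂ)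
        = cexp (φ (x r)) - ((T.eval (x r : ℝ) : ℝ) : ℂ) - (a₀ (x r) : ℂ) / (q₀ (x r) : ℂ) := by
      have h4 : (q₀ (x r) : ℂ) ≠ 0 := hq0 r
      rw [hb (x r) (hxw r).1]
      simp only [a, q]
      push_cast
      field_simp
      ring
    rw [h2]
    exact h1
  -- alternative
  rcases alt_det (Matrix.of fun (r : Fin (gg c η N)) (i : Fin (mm c η N + ll c η N)) =>
      if (i : ℕ) < mm c η N then ((x r - N).choose i : ℝ)
      else ((x r - N).choose ((i : ℕ) - mm c η N) : ℝ) * ((a r : ℝ) / (q r : ℝ)))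
    with ⟨v, hv0, hv⟩ | ⟨f, hf, hdet⟩
  · apply hv0
    refine core_kernel_q hMg x hxinj (fun r => (hxw r).1) (fun r => (a r : ℝ) / (q r : ℝ)) ?_ v hv
    intro P₀ P₁ hd0 hd1' hP
    refine hrel φ hφ T' (by omega) x hxinj hxw (fun r => (a r : ℝ) / (q r : ℝ)) ?_ P₀ P₁ hd0 hd1' hP
    intro r
    have := hclose r
    push_cast at this ⊢
    exact this
  · apply hdet
    have h1 := hmin φ hφ T' hTbound (fun r => x (f r)) (hxinj.comp hf) (fun r => hxw (f r))
      (fun r => a (f r)) (fun r => q (f r)) (fun r => hqr (f r)) (fun r => hclose (f r))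
    set B : Matrix (Fin (mm c η N + ll c η N)) (Fin (mm c η N + ll c η N)) ℝ :=
      ((Matrix.of fun (r : Fin (gg c η N)) (i : Fin (mm c η N + ll c η N)) =>
      if (i : ℕ) < mm c η N then ((x r - N).choose i : ℝ)
      else ((x r - N).choose ((i : ℕ) - mm c η N) : ℝ) * ((a r : ℝ) / (q r : ℝ))).submatrix f id)
      with hB
    have h2 : (Matrix.of fun r i => (q (f r) : ℝ) * B r i) =
      (Matrix.of fun (r i : Fin (mm c η N + ll c η N)) =>
      if (i : ℕ) < mm c η N then (q (f r) : ℤ) * ((x (f r) - N).choose i : ℤ)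
      else ((x (f r) - N).choose ((i : ℕ) - mm c η N) : ℤ) * a (f r)).map
        (Int.castRingHom ℝ) := by
      ext r i
      simp only [Matrix.of_apply, Matrix.map_apply, hB, Matrix.submatrix_apply, id_eq]
      have := hq0' (f r)
      by_cases hi : (i : ℕ) < mm c η N
      · simp only [hi, if_true]
        simp
      · simp only [hi, if_false]
        simp only [map_mul, map_natCast, eq_intCast]
        field_simp
    have h3 : (∏ r, (q (f r) : ℝ)) * B.det = 0 := by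
      rw [← Matrix.det_mul_column, h2, ← RingHom.mapMatrix_apply, ← RingHom.map_det, h1, map_zero]
    rcases mul_eq_zero.mp h3 with h4 | h4
    · exact absurd h4 (Finset.prod_ne_zero_iff.mpr (fun r _ => hq0' (f r)))
    · exact h4

end PRT
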