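import Mathlib
import Pool.Agent.PRT.Defs

namespace PRT

open Complex Metric

private theorem COV_num {ω : ℝ} (hω : 0 < ω) (hω1 : ω < 1 / 2) (x : ℝ) (hx : (8 : ℝ) ^ (4 / ω) ≤ x)
    (w J m0 : ℝ) (hw : (x ^ (1 - ω / 2)) ^ (1 / 2 + ω) / 2 ≤ w) (hJ : J ≤ x / w + 1)
    (hm0 : m0 ≤ x ^ (1 - ω / 2) + 1) : m0 + J * (2 * Real.sqrt x) ≤ x ^ (1 - ω / 4) := by
  have h1 : (1 : ℝ) ≤ 8 ^ (4 / ω) := Real.one_le_rpow (by norm_num) (by positivity)
  have hx1 : 1 ≤ x := h1.trans hx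
  have hx0 : 0 < x := by linarith
  set a := x ^ (1 - ω / 2) with ha
  have ha1 : 1 ≤ a := Real.one_le_rpow hx1 (by linarith)
  have hsq : Real.sqrt x ≤ a := by
    rw [Real.sqrt_eq_rpow]
    exact Real.rpow_le_rpow_of_exponent_le hx1 (by linarith)
  have hs0 : 0 ≤ Real.sqrt x := Real.sqrt_nonneg x
  have hb : 0 < a ^ (1 / 2 + ω) := Real.rpow_pos_of_pos (by linarith) _
  have hw0 : 0 < w := lt_of_lt_of_le (by positivity) hw
  have h2 : x / w ≤ 2 * (x / a ^ (1 / 2 + ω)) := by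
    rw [div_le_iff₀ hw0]
    have h3 : x = 2 * (x / a ^ (1 / 2 + ω)) * (a ^ (1 / 2 + ω) / 2) := by
      field_simp
    calc x = 2 * (x / a ^ (1 / 2 + ω)) * (a ^ (1 / 2 + ω) / 2) := h3
      _ ≤ 2 * (x / a ^ (1 / 2 + ω)) * w := by
        apply mul_le_mul_of_nonneg_left hw
        positivity
  have h4 : x / a ^ (1 / 2 + ω) * Real.sqrt x ≤ a := by
    have h5 : a ^ (1 / 2 + ω) = x ^ ((1 - ω / 2) * (1 / 2 + ω)) := by
      rw [ha, ← Real.rpow_mul hx0.le]
    rw [h5, Real.sqrt_eq_rpow]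
    have h6 : x / x ^ ((1 - ω / 2) * (1 / 2 + ω)) * x ^ (1 / 2 : ℝ)
        = x ^ (1 - (1 - ω / 2) * (1 / 2 + ω) + 1 / 2) := by
      rw [Real.rpow_add hx0, Real.rpow_sub hx0, Real.rpow_one]
    rw [h6, ha]
    apply Real.rpow_le_rpow_of_exponent_le hx1
    nlinarith
  have h7 : J * (2 * Real.sqrt x) ≤ 6 * a := by
    calc J * (2 * Real.sqrt x) ≤ (2 * (x / a ^ (1 / 2 + ω)) + 1) * (2 * Real.sqrt x) := by
          apply mul_le_mul_of_nonneg_right _ (by positivity)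
          linarith
      _ = 4 * (x / a ^ (1 / 2 + ω) * Real.sqrt x) + 2 * Real.sqrt x := by ring
      _ ≤ 6 * a := by linarith
  have h8 : 8 * a ≤ x ^ (1 - ω / 4) := by
    have h9 : x ^ (1 - ω / 4) = x ^ (ω / 4) * a := by
      rw [ha, ← Real.rpow_add hx0]; congr 1; ring
    rw [h9]
    apply mul_le_mul_of_nonneg_right _ (by linarith)
    calc (8 : ℝ) = (8 ^ (4 / ω)) ^ (ω / 4) := by
          rw [← Real.rpow_mul (by norm_num)]
          have : 4 / ω * (ω / 4) = 1 := by field_simp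
          rw [this, Real.rpow_one]
      _ ≤ x ^ (ω / 4) := Real.rpow_le_rpow (by positivity) hx (by positivity)
  linarith

open Filter in
/-- from short intervals to `[1, N]` -/
theorem cover {ω : ℝ} (hω : 0 < ω) (hω1 : ω < 1 / 2) :
    ∃ ω' : ℝ, 0 < ω' ∧ ∃ N₁ : ℕ → ℕ, ∀ (A : Set ℕ) (N₀ : ℕ),
    (∀ N : ℕ, N₀ ≤ N → ∀ G : Finset ℕ, (∀ x ∈ G, x ∈ A) →
      (∀ x ∈ G, N ≤ x ∧ (x : ℝ) ≤ N + (N : ℝ) ^ (1 / 2 + ω)) →
      (G.card : ℝ) ≤ 2 * Real.sqrt N) →
    ∀ N : ℕ, N₁ N₀ ≤ N → (({n ∈ A | n ≤ N}.ncard : ℕ) : ℝ) ≤ (N : ℝ) ^ (1 - ω') := by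
  classical
  refine ⟨ω / 4, by positivity, fun N₀ => N₀ ^ 2 + ⌈(8 : ℝ) ^ (4 / ω)⌉₊, ?_⟩
  intro A N₀ hA N hN
  have hN8 : (8 : ℝ) ^ (4 / ω) ≤ (N : ℝ) := by
    have h1 : ⌈(8 : ℝ) ^ (4 / ω)⌉₊ ≤ N := le_trans (Nat.le_add_left _ _) hN
    exact (Nat.le_ceil _).trans (by exact_mod_cast h1)
  have hone : (1 : ℝ) ≤ 8 ^ (4 / ω) := Real.one_le_rpow (by norm_num) (by positivity)
  have hN1 : (1 : ℝ) ≤ N := hone.trans hN8
  have hNN : N₀ ^ 2 ≤ N := le_trans (Nat.le_add_right _ _) hN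
  set a : ℝ := (N : ℝ) ^ (1 - ω / 2) with ha
  have ha1 : 1 ≤ a := Real.one_le_rpow hN1 (by linarith)
  set m0 : ℕ := ⌈a⌉₊ with hm0
  set w : ℕ := ⌊a ^ (1 / 2 + ω)⌋₊ with hw
  have ham : a ≤ m0 := Nat.le_ceil a
  have hb1 : 1 ≤ a ^ (1 / 2 + ω) := Real.one_le_rpow ha1 (by linarith)
  have hw1 : 1 ≤ w := by
    rw [hw]; exact Nat.le_floor (by exact_mod_cast hb1)
  have hwle : (w : ℝ) ≤ a ^ (1 / 2 + ω) := Nat.floor_le (by positivity)
  have hwge : a ^ (1 / 2 + ω) / 2 ≤ (w : ℝ) := by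
    have h1 : a ^ (1 / 2 + ω) < (w : ℝ) + 1 := Nat.lt_floor_add_one _
    have h2 : (1 : ℝ) ≤ w := by exact_mod_cast hw1
    linarith
  have hm0N : N₀ ≤ m0 := by
    have h1 : (N₀ : ℝ) ≤ a := by
      have h2 : (N₀ : ℝ) ^ 2 ≤ N := by exact_mod_cast hNN
      have h3 : (N₀ : ℝ) ≤ Real.sqrt N := Real.le_sqrt_of_sq_le h2
      refine h3.trans ?_
      rw [Real.sqrt_eq_rpow, ha]
      exact Real.rpow_le_rpow_of_exponent_le hN1 (by linarith)
    exact_mod_cast h1.trans ham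
  set J : ℕ := N / w + 1 with hJ
  let W : ℕ → Finset ℕ := fun j =>
    (Finset.range (N + 1)).filter (fun n => n ∈ A ∧ m0 + j * w ≤ n ∧ n < m0 + j * w + w)
  have hW : ∀ j, ((W j).card : ℝ) ≤ 2 * Real.sqrt N := by
    intro j
    rcases (W j).eq_empty_or_nonempty with h | ⟨y, hy⟩
    · rw [h]; simp
    · have hy' := Finset.mem_filter.1 hy
      have hyN : m0 + j * w ≤ N := le_trans hy'.2.2.1 (Nat.lt_succ_iff.1 (Finset.mem_range.1 hy'.1))
      have h1 := hA (m0 + j * w) (le_trans hm0N (Nat.le_add_right _ _)) (W j)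
        (fun x hx => (Finset.mem_filter.1 hx).2.1) (by
          intro x hx
          have hx' := (Finset.mem_filter.1 hx).2
          refine ⟨hx'.2.1, ?_⟩
          have h2 : (x : ℝ) ≤ ((m0 + j * w : ℕ) : ℝ) + w := by
            have := hx'.2.2.le
            exact_mod_cast this
          refine h2.trans ?_
          have h3 : (w : ℝ) ≤ ((m0 + j * w : ℕ) : ℝ) ^ (1 / 2 + ω) := by
            refine hwle.trans (Real.rpow_le_rpow (by linarith) ?_ (by linarith))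
            refine ham.trans ?_
            exact_mod_cast Nat.le_add_right _ _
          linarith)
      refine h1.trans ?_
      have h4 : Real.sqrt ((m0 + j * w : ℕ) : ℝ) ≤ Real.sqrt N :=
        Real.sqrt_le_sqrt (by exact_mod_cast hyN)
      linarith
  have hsub : {n ∈ A | n ≤ N} ⊆
      (((Finset.range m0) ∪ (Finset.range J).biUnion W : Finset ℕ) : Set ℕ) := by
    intro n hn
    rw [Finset.mem_coe, Finset.mem_union]
    by_cases hnm : n < m0
    · left; exact Finset.mem_range.2 hnm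
    · right
      push Not at hnm
      rw [Finset.mem_biUnion]
      refine ⟨(n - m0) / w, ?_, ?_⟩
      · rw [Finset.mem_range, hJ]
        have : (n - m0) / w ≤ N / w := Nat.div_le_div_right (le_trans (Nat.sub_le _ _) hn.2)
        omega
      · refine Finset.mem_filter.2 ⟨Finset.mem_range.2 (Nat.lt_succ_iff.2 hn.2), hn.1, ?_, ?_⟩
        · have := Nat.div_mul_le_self (n - m0) w
          omega
        · have := Nat.lt_div_mul_add (a := n - m0) (b := w) hw1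
          omega
  have hcard : (({n ∈ A | n ≤ N}.ncard : ℕ) : ℝ) ≤ m0 + J * (2 * Real.sqrt N) := by
    have h1 : {n ∈ A | n ≤ N}.ncard ≤ ((Finset.range m0) ∪ (Finset.range J).biUnion W).card := by
      have := Set.ncard_le_ncard hsub (Finset.finite_toSet _)
      rwa [Set.ncard_coe_finset] at this
    have h2 : ((Finset.range m0) ∪ (Finset.range J).biUnion W).card ≤
        m0 + ∑ j ∈ Finset.range J, (W j).card := by
      refine (Finset.card_union_le _ _).trans ?_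
      rw [Finset.card_range]
      exact Nat.add_le_add_left Finset.card_biUnion_le _
    have h3 : (({n ∈ A | n ≤ N}.ncard : ℕ) : ℝ) ≤ m0 + ∑ j ∈ Finset.range J, ((W j).card : ℝ) := by
      exact_mod_cast h1.trans h2
    refine h3.trans ?_
    have h4 : ∑ j ∈ Finset.range J, ((W j).card : ℝ) ≤ ∑ _j ∈ Finset.range J, 2 * Real.sqrt N :=
      Finset.sum_le_sum (fun j _ => hW j)
    rw [Finset.sum_const, Finset.card_range, nsmul_eq_mul] at h4
    linarith
  refine hcard.trans (COV_num hω hω1 N hN8 w J m0 hwge ?_ ?_)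
  · rw [hJ]
    push_cast
    have := Nat.cast_div_le (α := ℝ) (m := N) (n := w)
    linarith
  · exact (Nat.ceil_lt_add_one (by linarith)).le

end PRT
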