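import Mathlib
import Pool.Agent.PRT.Defs

namespace PRT

open Complex Metric

namespace PHIG

lemma sq_half (w : ℂ) : (w ^ ((1 : ℂ) / 2)) ^ 2 = w := by
  rw [← Complex.cpow_nat_mul]; norm_num

lemma re_half {w : ℂ} (h : 0 < w.re) : 0 ≤ (w ^ ((1 : ℂ) / 2)).re := by
  have hw : w ≠ 0 := by rintro rfl; simp at h
  rw [Complex.cpow_def_of_ne_zero hw, Complex.exp_re]
  apply mul_nonneg (Real.exp_pos _).le
  apply Real.cos_nonneg_of_mem_Icc
  have h1 : (Complex.log w * (1 / 2)).im = w.arg / 2 := by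
    have : Complex.log w * (1 / 2) = ((1 / 2 : ℝ) : ℂ) * Complex.log w := by push_cast; ring
    rw [this, Complex.im_ofReal_mul, Complex.log_im]
    ring
  rw [h1]
  have := Complex.abs_arg_le_pi w
  rw [abs_le] at this
  constructor <;> linarith [Real.pi_pos]

lemma half_near {w : ℂ} {N δ : ℝ} (h : 0 < w.re) (hN : 0 < N)
    (hw : ‖w - N‖ ≤ δ * N) : ‖w ^ ((1 : ℂ) / 2) - (Real.sqrt N : ℂ)‖ ≤ δ * Real.sqrt N := by
  set s := w ^ ((1 : ℂ) / 2) with hs
  have hs2 : s ^ 2 = w := sq_half w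
  have hsre : 0 ≤ s.re := re_half h
  have hN2 : ((Real.sqrt N : ℝ) : ℂ) ^ 2 = (N : ℂ) := by
    rw [← Complex.ofReal_pow, Real.sq_sqrt hN.le]
  have hsN : 0 < Real.sqrt N := Real.sqrt_pos.2 hN
  have h1 : (s - Real.sqrt N) * (s + Real.sqrt N) = w - N := by
    rw [← hs2, ← hN2]; ring
  have h2 : Real.sqrt N ≤ ‖s + Real.sqrt N‖ := by
    calc Real.sqrt N ≤ (s + Real.sqrt N).re := by simp [hsre]
      _ ≤ _ := Complex.re_le_norm _
  have h3 : ‖s - Real.sqrt N‖ * ‖s + Real.sqrt N‖ ≤ δ * N := by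
    rw [← norm_mul, h1]; exact hw
  have h4 : ‖s - Real.sqrt N‖ * Real.sqrt N ≤ δ * Real.sqrt N * Real.sqrt N := by
    have : δ * Real.sqrt N * Real.sqrt N = δ * N := by
      rw [mul_assoc, Real.mul_self_sqrt hN.le]
    rw [this]
    exact le_trans (mul_le_mul_of_nonneg_left h2 (norm_nonneg _)) h3
  exact le_of_mul_le_mul_right h4 hsN

lemma two_le_Cst : 2 ≤ Cst := by
  unfold Cst
  have h1 : (3 : ℝ) ≤ Real.pi := Real.pi_gt_three.le
  have h2 : (2 / 3 : ℝ) ≤ Real.sqrt (2 / 3) := by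
    apply Real.le_sqrt_of_sq_le; norm_num
  nlinarith

/-- the bounded part of `k φ` -/
noncomputable def Gp (e : ℂ) (z : ℂ) : ℂ :=
  - Complex.log (z - 1 / 24)
    - (Real.log (4 * Real.sqrt 3) : ℂ)
    + Complex.log (1 - 1 / ((Cst : ℂ) * (z - 1 / 24) ^ ((1 : ℂ) / 2)))
    + Complex.log (1 + e * rr (z - 1 / 24))

lemma phi_eq (k : ℕ) (e z : ℂ) :
    phi k e z = (1 / (k : ℂ)) * ((Cst : ℂ) * (z - 1 / 24) ^ ((1 : ℂ) / 2) + Gp e z) := by
  unfold phi Gp; ring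

section pt
variable {w : ℂ} {N : ℝ}

lemma basic (hN : 64 ≤ N) (hw : ‖w - N‖ ≤ 1 / 2 * N) :
    0 < w.re ∧ N / 2 ≤ ‖w‖ ∧ ‖w‖ ≤ 2 * N ∧ Real.sqrt N / 2 ≤ (w ^ ((1 : ℂ) / 2)).re ∧
      Real.sqrt N / 2 ≤ ‖w ^ ((1 : ℂ) / 2)‖ ∧ 8 ≤ Real.sqrt N := by
  have hre : N / 2 ≤ w.re := by
    have h1 : |(w - N).re| ≤ ‖w - N‖ := Complex.abs_re_le_norm _
    have h2 : (w - N).re = w.re - N := by simp
    rw [h2, abs_le] at h1
    linarith [h1.1]
  have hpos : 0 < w.re := by linarith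
  have h8 : 8 ≤ Real.sqrt N := by
    apply Real.le_sqrt_of_sq_le; linarith
  have hnear := half_near hpos (by linarith : (0 : ℝ) < N) hw
  have hre2 : Real.sqrt N / 2 ≤ (w ^ ((1 : ℂ) / 2)).re := by
    have h1 := Complex.abs_re_le_norm (w ^ ((1 : ℂ) / 2) - (Real.sqrt N : ℂ))
    have h2 : (w ^ ((1 : ℂ) / 2) - (Real.sqrt N : ℂ)).re = (w ^ ((1 : ℂ) / 2)).re - Real.sqrt N := by
      simp
    rw [h2, abs_le] at h1
    linarith [h1.1]
  refine ⟨hpos, le_trans hre (Complex.re_le_norm _), ?_, hre2,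
    le_trans hre2 (Complex.re_le_norm _), h8⟩
  have h3 : ‖w‖ ≤ ‖w - N‖ + ‖(N : ℂ)‖ := by
    have := norm_add_le (w - N) (N : ℂ)
    simpa using this
  have h4 : ‖(N : ℂ)‖ = N := by
    rw [Complex.norm_real, Real.norm_eq_abs, abs_of_pos (by linarith)]
  rw [h4] at h3
  linarith

lemma inv_small (hN : 64 ≤ N) (hw : ‖w - N‖ ≤ 1 / 2 * N) :
    ‖1 / ((Cst : ℂ) * w ^ ((1 : ℂ) / 2))‖ ≤ 1 / 8 := by
  obtain ⟨h1, h2, h3, h4, h5, h6⟩ := basic hN hw
  rw [norm_div, norm_one, norm_mul, Complex.norm_real, Real.norm_eq_abs]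
  have hC := two_le_Cst
  rw [abs_of_nonneg (by linarith)]
  apply one_div_le_one_div_of_le (by norm_num)
  nlinarith

lemma rr_small (hN : 64 ≤ N) (hw : ‖w - N‖ ≤ 1 / 2 * N) : ‖rr w‖ ≤ 1 / 4 := by
  obtain ⟨h1, h2, h3, h4, h5, h6⟩ := basic hN hw
  have hC := two_le_Cst
  have hinv := inv_small hN hw
  set u := 1 / ((Cst : ℂ) * w ^ ((1 : ℂ) / 2)) with hu
  have hrr : rr w = (1 / (Real.sqrt 2 : ℂ)) * cexp (-(Cst : ℂ) * w ^ ((1 : ℂ) / 2) / 2)
      * (1 - 2 * u) / (1 - u) := by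
    unfold rr; rw [hu]; ring_nf
  have e1 : ‖(1 / (Real.sqrt 2 : ℂ))‖ ≤ 1 := by
    rw [norm_div, norm_one, Complex.norm_real, Real.norm_eq_abs, abs_of_nonneg (Real.sqrt_nonneg _)]
    rw [div_le_one (by positivity)]
    exact Real.one_le_sqrt.2 (by norm_num)
  have e2 : ‖cexp (-(Cst : ℂ) * w ^ ((1 : ℂ) / 2) / 2)‖ ≤ 1 / 8 := by
    rw [Complex.norm_exp]
    have : (-(Cst : ℂ) * w ^ ((1 : ℂ) / 2) / 2).re = -(Cst * (w ^ ((1 : ℂ) / 2)).re / 2) := by
      have : (-(Cst : ℂ) * w ^ ((1 : ℂ) / 2) / 2) = ((-(Cst / 2) : ℝ) : ℂ) * w ^ ((1 : ℂ) / 2) := by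
        push_cast; ring
      rw [this, Complex.re_ofReal_mul]; ring
    rw [this]
    have h8 : -(Cst * (w ^ ((1 : ℂ) / 2)).re / 2) ≤ -4 := by nlinarith
    calc Real.exp (-(Cst * (w ^ ((1 : ℂ) / 2)).re / 2)) ≤ Real.exp (-4) := Real.exp_le_exp.2 h8
      _ ≤ 1 / 8 := by
        rw [Real.exp_neg, inv_eq_one_div]
        apply one_div_le_one_div_of_le (by norm_num)
        have h2 : (2 : ℝ) ≤ Real.exp 1 := by linarith [Real.exp_one_gt_d9]
        have : Real.exp 4 = Real.exp 1 ^ 4 := by rw [← Real.exp_nat_mul]; norm_num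
        rw [this]
        calc (8 : ℝ) ≤ 2 ^ 4 := by norm_num
          _ ≤ Real.exp 1 ^ 4 := pow_le_pow_left₀ (by norm_num) h2 4
  have e3 : ‖1 - 2 * u‖ ≤ 5 / 4 := by
    calc ‖1 - 2 * u‖ ≤ ‖(1 : ℂ)‖ + ‖2 * u‖ := norm_sub_le _ _
      _ = 1 + 2 * ‖u‖ := by rw [norm_one, norm_mul]; norm_num
      _ ≤ 5 / 4 := by linarith
  have e4 : 7 / 8 ≤ ‖1 - u‖ := by
    have := norm_sub_norm_le (1 : ℂ) u
    rw [norm_one] at this
    linarith
  rw [hrr, norm_div, norm_mul, norm_mul]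
  rw [div_le_iff₀ (by linarith)]
  have : ‖(1 / (Real.sqrt 2 : ℂ))‖ * ‖cexp (-(Cst : ℂ) * w ^ ((1 : ℂ) / 2) / 2)‖ * ‖1 - 2 * u‖
      ≤ 1 * (1 / 8) * (5 / 4) := by gcongr
  linarith

lemma rr_diff (hN : 64 ≤ N) (hw : ‖w - N‖ ≤ 1 / 2 * N) : DifferentiableAt ℂ rr w := by
  obtain ⟨h1, h2, h3, h4, h5, h6⟩ := basic hN hw
  have hC := two_le_Cst
  have hinv := inv_small hN hw
  have hsl : w ∈ slitPlane := Or.inl h1
  have hs0 : w ^ ((1 : ℂ) / 2) ≠ 0 := by
    intro h; rw [h] at h5; simp at h5; linarith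
  have hCs : (Cst : ℂ) * w ^ ((1 : ℂ) / 2) ≠ 0 := by
    apply mul_ne_zero _ hs0
    exact_mod_cast (by linarith : Cst ≠ 0)
  have hne : 1 - 1 / ((Cst : ℂ) * w ^ ((1 : ℂ) / 2)) ≠ 0 := by
    intro h
    have : 1 / ((Cst : ℂ) * w ^ ((1 : ℂ) / 2)) = 1 := by linear_combination -h
    rw [this, norm_one] at hinv
    linarith
  have hd : DifferentiableAt ℂ (fun w : ℂ => w ^ ((1 : ℂ) / 2)) w :=
    ((hasDerivAt_id w).cpow_const hsl).differentiableAt
  unfold rr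
  apply DifferentiableAt.div
  · apply DifferentiableAt.mul
    · apply DifferentiableAt.mul (by fun_prop)
      apply DifferentiableAt.cexp
      apply DifferentiableAt.div_const
      exact (differentiableAt_const _).mul hd
    · exact (differentiableAt_const _).fun_sub
        ((differentiableAt_const _).fun_div ((differentiableAt_const _).fun_mul hd) hCs)
  · exact (differentiableAt_const _).fun_sub
      ((differentiableAt_const _).fun_div ((differentiableAt_const _).fun_mul hd) hCs)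
  · exact hne

end pt

lemma Gp_bound {e z : ℂ} {N : ℝ} (he : ‖e‖ ≤ 1) (hN : 64 ≤ N)
    (hw : ‖(z - 1 / 24) - N‖ ≤ 1 / 2 * N) :
    ‖Gp e z‖ ≤ Real.log (2 * N) + 13 := by
  obtain ⟨h1, h2, h3, h4, h5, h6⟩ := basic hN hw
  have hinv := inv_small hN hw
  have hrr := rr_small hN hw
  set w := z - 1 / 24 with hwdef
  have b1 : ‖Complex.log w‖ ≤ Real.log (2 * N) + 4 := by
    refine le_trans (Complex.norm_le_abs_re_add_abs_im _) ?_
    rw [Complex.log_re, Complex.log_im]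
    have a1 : |Real.log ‖w‖| ≤ Real.log (2 * N) := by
      have : 0 ≤ Real.log ‖w‖ := Real.log_nonneg (by linarith)
      rw [abs_of_nonneg this]
      exact Real.log_le_log (by linarith) h3
    have a2 : |w.arg| ≤ 4 := le_trans (Complex.abs_arg_le_pi _) (by linarith [Real.pi_le_four])
    linarith
  have b2 : ‖((Real.log (4 * Real.sqrt 3) : ℝ) : ℂ)‖ ≤ 7 := by
    rw [Complex.norm_real, Real.norm_eq_abs]
    have hs3 : (1 : ℝ) ≤ Real.sqrt 3 := Real.one_le_sqrt.2 (by norm_num)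
    have hs3' : Real.sqrt 3 ≤ 2 := by
      rw [Real.sqrt_le_left (by norm_num)]; norm_num
    have : 0 ≤ Real.log (4 * Real.sqrt 3) := Real.log_nonneg (by linarith)
    rw [abs_of_nonneg this]
    have := Real.log_le_sub_one_of_pos (by positivity : 0 < 4 * Real.sqrt 3)
    linarith
  have b3 : ‖Complex.log (1 - 1 / ((Cst : ℂ) * w ^ ((1 : ℂ) / 2)))‖ ≤ 1 := by
    have := @Complex.norm_log_one_add_half_le_self (-(1 / ((Cst : ℂ) * w ^ ((1 : ℂ) / 2))))
      (by rw [norm_neg]; linarith)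
    rw [norm_neg, ← sub_eq_add_neg] at this
    linarith
  have b4 : ‖Complex.log (1 + e * rr w)‖ ≤ 1 := by
    have hb : ‖e * rr w‖ ≤ 1 / 4 := by
      rw [norm_mul]
      calc ‖e‖ * ‖rr w‖ ≤ 1 * (1 / 4) := by gcongr
        _ = 1 / 4 := by norm_num
    have := @Complex.norm_log_one_add_half_le_self (e * rr w) (by linarith)
    linarith
  unfold Gp
  rw [← hwdef]
  calc ‖-Complex.log w - (Real.log (4 * Real.sqrt 3) : ℂ)
        + Complex.log (1 - 1 / ((Cst : ℂ) * w ^ ((1 : ℂ) / 2))) + Complex.log (1 + e * rr w)‖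
      ≤ ‖Complex.log w‖ + ‖((Real.log (4 * Real.sqrt 3) : ℝ) : ℂ)‖
        + ‖Complex.log (1 - 1 / ((Cst : ℂ) * w ^ ((1 : ℂ) / 2)))‖
        + ‖Complex.log (1 + e * rr w)‖ := by
        refine le_trans (norm_add_le _ _) ?_
        gcongr
        refine le_trans (norm_add_le _ _) ?_
        gcongr
        refine le_trans (norm_sub_le _ _) ?_
        rw [norm_neg]
    _ ≤ _ := by linarith

lemma Gp_diff {e z : ℂ} {N : ℝ} (he : ‖e‖ ≤ 1) (hN : 64 ≤ N)
    (hw : ‖(z - 1 / 24) - N‖ ≤ 1 / 2 * N) : DifferentiableAt ℂ (Gp e) z := by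
  obtain ⟨h1, h2, h3, h4, h5, h6⟩ := basic hN hw
  have hinv := inv_small hN hw
  have hrr := rr_small hN hw
  have hC := two_le_Cst
  have hsl : z - 1 / 24 ∈ slitPlane := Or.inl h1
  have hs0 : (z - 1 / 24) ^ ((1 : ℂ) / 2) ≠ 0 := by
    intro h; rw [h] at h5; simp at h5; linarith
  have hCs : (Cst : ℂ) * (z - 1 / 24) ^ ((1 : ℂ) / 2) ≠ 0 := by
    apply mul_ne_zero _ hs0
    exact_mod_cast (by linarith : Cst ≠ 0)
  have hsub : DifferentiableAt ℂ (fun z : ℂ => z - 1 / 24) z := by fun_prop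
  have hd : DifferentiableAt ℂ (fun z : ℂ => (z - 1 / 24) ^ ((1 : ℂ) / 2)) z := by
    have := (HasDerivAt.cpow_const (f := fun z : ℂ => z - 1 / 24) (c := (1 : ℂ) / 2)
      ((hasDerivAt_id z).sub_const (1 / 24)) hsl)
    exact this.differentiableAt
  unfold Gp
  apply DifferentiableAt.add
  · apply DifferentiableAt.add
    · apply DifferentiableAt.sub _ (differentiableAt_const _)
      exact (hsub.clog hsl).neg
    · apply DifferentiableAt.clog
      · exact (differentiableAt_const _).fun_sub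
          ((differentiableAt_const _).fun_div ((differentiableAt_const _).fun_mul hd) hCs)
      · rw [sub_eq_add_neg]
        apply Complex.mem_slitPlane_of_norm_lt_one
        rw [norm_neg]; linarith
  · apply DifferentiableAt.clog
    · apply DifferentiableAt.add (differentiableAt_const _)
      apply DifferentiableAt.mul (differentiableAt_const _)
      exact DifferentiableAt.comp z (rr_diff hN hw) hsub
    · apply Complex.mem_slitPlane_of_norm_lt_one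
      rw [norm_mul]
      calc ‖e‖ * ‖rr (z - 1 / 24)‖ ≤ 1 * (1 / 4) := by gcongr
        _ < 1 := by norm_num

open Filter in
lemma ev_log {κ : ℝ} (hκ : 0 < κ) : ∀ᶠ N : ℕ in atTop,
    Real.log (2 * N) + 14 ≤ κ * Real.sqrt N := by
  have h1 := (isLittleO_log_rpow_atTop (by norm_num : (0 : ℝ) < 1 / 4)).bound (by norm_num : (0:ℝ) < 1)
  have ht : Tendsto (fun N : ℕ => 2 * (N : ℝ)) atTop atTop :=
    Tendsto.const_mul_atTop (by norm_num) tendsto_natCast_atTop_atTop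
  have h2 := ht.eventually h1
  have hs : Tendsto (fun N : ℕ => Real.sqrt (Real.sqrt N)) atTop atTop :=
    Real.tendsto_sqrt_atTop.comp (Real.tendsto_sqrt_atTop.comp tendsto_natCast_atTop_atTop)
  have h3 := hs.eventually (eventually_ge_atTop (max 1 ((16 : ℝ) / κ)))
  filter_upwards [h2, h3, eventually_ge_atTop 1] with N h2 h3 h4
  have hNpos : (0 : ℝ) < N := by exact_mod_cast h4
  set q := Real.sqrt (Real.sqrt N) with hq
  have hq1 : 1 ≤ q := le_trans (le_max_left _ _) h3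
  have hq2 : 16 / κ ≤ q := le_trans (le_max_right _ _) h3
  have hqq : Real.sqrt N = q * q := by rw [hq, Real.mul_self_sqrt (Real.sqrt_nonneg _)]
  have h5 : ((2 * (N : ℝ)) ^ ((1 : ℝ) / 4)) ≤ 2 * q := by
    have : (2 * (N : ℝ)) ^ ((1 : ℝ) / 4) = (2 : ℝ) ^ ((1 : ℝ) / 4) * (N : ℝ) ^ ((1 : ℝ) / 4) :=
      Real.mul_rpow (by norm_num) hNpos.le
    rw [this]
    have a1 : (2 : ℝ) ^ ((1 : ℝ) / 4) ≤ 2 := by
      calc (2 : ℝ) ^ ((1 : ℝ) / 4) ≤ (2 : ℝ) ^ (1 : ℝ) :=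
            Real.rpow_le_rpow_of_exponent_le (by norm_num) (by norm_num)
        _ = 2 := Real.rpow_one 2
    have a2 : (N : ℝ) ^ ((1 : ℝ) / 4) = q := by
      rw [hq, Real.sqrt_eq_rpow, Real.sqrt_eq_rpow, ← Real.rpow_mul hNpos.le]; norm_num
    rw [a2]
    gcongr
  have h6 : Real.log (2 * N) ≤ 2 * q := by
    have : Real.log (2 * N) ≤ |Real.log (2 * N)| := le_abs_self _
    rw [Real.norm_eq_abs, Real.norm_eq_abs, one_mul,
      abs_of_nonneg (Real.rpow_nonneg (by positivity) _)] at h2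
    linarith
  have h7 : 16 ≤ κ * q := by
    rw [div_le_iff₀ hκ] at hq2; linarith
  rw [hqq]
  nlinarith

end PHIG

open PHIG

open Filter in
/-- the phase is good -/
theorem phi_good {k : ℕ} (hk : 2 ≤ k) {e : ℂ} (he : e = 1 ∨ e = -1) {ϵ : ℝ} (hϵ : 0 < ϵ) :
    ∃ ϱ₀ : ℝ, 0 < ϱ₀ ∧ ∀ ϱ : ℝ, 0 < ϱ → ϱ ≤ ϱ₀ → ∀ᶠ N : ℕ in atTop,
      PhiGood (Cst / k) ϵ ϱ N (phi k e) := by
  have he1 : ‖e‖ ≤ 1 := by rcases he with rfl | rfl <;> simp
  refine ⟨min (1 / 8) (ϵ / 16), by positivity, ?_⟩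
  intro ϱ hϱ hϱ0
  have hϱ8 : ϱ ≤ 1 / 8 := le_trans hϱ0 (min_le_left _ _)
  have hϱϵ : ϱ ≤ ϵ / 16 := le_trans hϱ0 (min_le_right _ _)
  have hC := two_le_Cst
  have hκ : 0 < ϵ * ϱ / 4 := by positivity
  have hbig : ∀ᶠ N : ℕ in atTop, 64 + 1 / ϱ ≤ (N : ℝ) :=
    tendsto_natCast_atTop_atTop.eventually (eventually_ge_atTop _)
  filter_upwards [ev_log hκ, hbig] with N hlog hN
  have hϱinv : 0 < 1 / ϱ := by positivity
  have hN64 : (64 : ℝ) ≤ N := by linarith
  have hN0 : (0 : ℝ) < N := by linarith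
  have hϱN : 1 ≤ ϱ * N := by
    have : 1 / ϱ ≤ N := by linarith
    rw [div_le_iff₀ hϱ] at this; linarith
  have hsN : 0 < Real.sqrt N := Real.sqrt_pos.2 hN0
  have hk0 : (0 : ℝ) < k := by positivity
  have hkC : (k : ℂ) ≠ 0 := by exact_mod_cast (by omega : k ≠ 0)
  have hss : Real.sqrt N * Real.sqrt N = N := Real.mul_self_sqrt hN0.le
  have hs8 : 8 ≤ Real.sqrt N := by apply Real.le_sqrt_of_sq_le; linarith
  -- points of the doubled disc
  have hpt : ∀ z : ℂ, ‖z - N‖ ≤ 2 * (ϱ * N) → ‖(z - 1 / 24) - (N : ℝ)‖ ≤ 3 * ϱ * N := by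
    intro z hz
    have : (z - 1 / 24) - ((N : ℝ) : ℂ) = (z - N) - 1 / 24 := by push_cast; ring
    rw [this]
    refine le_trans (norm_sub_le _ _) ?_
    have : ‖(1 / 24 : ℂ)‖ ≤ 1 := by
      rw [norm_div, norm_one]; norm_num
    linarith
  have hpt2 : ∀ z : ℂ, ‖z - N‖ ≤ 2 * (ϱ * N) → ‖(z - 1 / 24) - (N : ℝ)‖ ≤ 1 / 2 * N := by
    intro z hz
    refine le_trans (hpt z hz) ?_
    nlinarith
  have hGb : ∀ z : ℂ, ‖z - N‖ ≤ 2 * (ϱ * N) → ‖Gp e z‖ ≤ ϵ * ϱ / 4 * Real.sqrt N := by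
    intro z hz
    have := Gp_bound he1 hN64 (hpt2 z hz)
    linarith
  have hGd : ∀ z : ℂ, ‖z - N‖ ≤ 2 * (ϱ * N) → DifferentiableAt ℂ (Gp e) z := fun z hz =>
    Gp_diff he1 hN64 (hpt2 z hz)
  have hsd : ∀ z : ℂ, ‖z - N‖ ≤ 2 * (ϱ * N) →
      HasDerivAt (fun z : ℂ => (z - 1 / 24) ^ ((1 : ℂ) / 2))
        (1 / (2 * (z - 1 / 24) ^ ((1 : ℂ) / 2))) z := by
    intro z hz
    obtain ⟨h1, h2, h3, h4, h5, h6⟩ := basic hN64 (hpt2 z hz)
    have := (HasDerivAt.cpow_const (f := fun z : ℂ => z - 1 / 24) (c := (1 : ℂ) / 2)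
      ((hasDerivAt_id z).sub_const (1 / 24)) (Or.inl h1))
    convert this using 1
    have h7 : ((1 : ℂ) / 2 - 1) = -(1 / 2) := by norm_num
    rw [h7, Complex.cpow_neg]
    rw [mul_one, one_div, mul_inv]
    norm_num
  have hphi : phi k e = fun z => (1 / (k : ℂ)) *
      ((Cst : ℂ) * (z - 1 / 24) ^ ((1 : ℂ) / 2) + Gp e z) := by
    funext z; exact phi_eq k e z
  refine ⟨?_, ?_, ?_⟩
  · intro z hz
    rw [mem_ball, dist_eq_norm] at hz
    have hz' : ‖z - N‖ ≤ 2 * (ϱ * N) := by linarith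
    apply DifferentiableAt.differentiableWithinAt
    rw [hphi]
    exact (differentiableAt_const _).mul
      (((differentiableAt_const _).mul (hsd z hz').differentiableAt).add (hGd z hz'))
  · intro z hz
    rw [mem_ball, dist_eq_norm] at hz
    have hz' : ‖z - N‖ ≤ 2 * (ϱ * N) := by linarith
    have hder : deriv (phi k e) z = (1 / (k : ℂ)) *
        ((Cst : ℂ) * (1 / (2 * (z - 1 / 24) ^ ((1 : ℂ) / 2))) + deriv (Gp e) z) := by
      rw [hphi]
      exact ((((hsd z hz').const_mul (Cst : ℂ)).add (hGd z hz').hasDerivAt).const_mul _).deriv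
    have hcauchy : ‖deriv (Gp e) z‖ ≤ (ϵ * ϱ / 4 * Real.sqrt N) / (ϱ * N) := by
      apply Complex.norm_deriv_le_of_forall_mem_sphere_norm_le (by positivity)
      · apply DifferentiableOn.diffContOnCl
        intro y hy
        apply DifferentiableAt.differentiableWithinAt
        apply hGd
        have hy' := closure_ball_subset_closedBall hy
        rw [mem_closedBall, dist_eq_norm] at hy'
        calc ‖y - N‖ ≤ ‖y - z‖ + ‖z - N‖ := by
              have := norm_add_le (y - z) (z - N); simpa using this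
          _ ≤ 2 * (ϱ * N) := by linarith
      · intro y hy
        apply hGb
        rw [mem_sphere, dist_eq_norm] at hy
        calc ‖y - N‖ ≤ ‖y - z‖ + ‖z - N‖ := by
              have := norm_add_le (y - z) (z - N); simpa using this
          _ ≤ 2 * (ϱ * N) := by linarith
    have hc2 : (ϵ * ϱ / 4 * Real.sqrt N) / (ϱ * N) = ϵ / (4 * Real.sqrt N) := by
      rw [div_eq_div_iff (by positivity) (by positivity)]
      linear_combination (ϵ * ϱ) * hss
    rw [hc2] at hcauchy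
    obtain ⟨h1, h2, h3, h4, h5, h6⟩ := basic hN64 (hpt2 z hz')
    have hnear := half_near h1 hN0 (hpt z hz')
    set s := (z - 1 / 24) ^ ((1 : ℂ) / 2) with hsdef
    have hs0 : s ≠ 0 := by
      intro h; rw [h] at h5; simp at h5; linarith
    have hsNC : ((Real.sqrt N : ℝ) : ℂ) ≠ 0 := by exact_mod_cast hsN.ne'
    have key : deriv (phi k e) z - (sig (Cst / k) N : ℂ) = (1 / (k : ℂ)) *
        ((Cst : ℂ) * (((Real.sqrt N : ℝ) : ℂ) - s) / (2 * s * (Real.sqrt N : ℝ)) + deriv (Gp e) z) := by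
      rw [hder]
      unfold sig
      push_cast
      field_simp
      ring
    rw [key, norm_mul, norm_div, norm_one, Complex.norm_natCast]
    have k1 : ‖(Cst : ℂ) * (((Real.sqrt N : ℝ) : ℂ) - s) / (2 * s * (Real.sqrt N : ℝ))‖
        ≤ 3 * ϱ * Cst / Real.sqrt N := by
      rw [norm_div, norm_mul, norm_mul, norm_mul, Complex.norm_real, Complex.norm_real,
        Real.norm_eq_abs, Real.norm_eq_abs, abs_of_pos hsN, abs_of_pos (by linarith : 0 < Cst)]
      rw [norm_sub_rev] at hnear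
      have hn2 : ‖(2 : ℂ)‖ = 2 := by simp
      rw [hn2]
      rw [div_le_div_iff₀ (by positivity) hsN]
      have : Cst * ‖((Real.sqrt N : ℝ) : ℂ) - s‖ * Real.sqrt N ≤
          Cst * (3 * ϱ * Real.sqrt N) * Real.sqrt N := by gcongr
      refine le_trans this ?_
      have : 3 * ϱ * Cst * (2 * (Real.sqrt N / 2) * Real.sqrt N) ≤
          3 * ϱ * Cst * (2 * ‖s‖ * Real.sqrt N) := by gcongr
      refine le_trans ?_ this
      apply le_of_eq; ring
    have k2 : ‖(Cst : ℂ) * (((Real.sqrt N : ℝ) : ℂ) - s) / (2 * s * (Real.sqrt N : ℝ))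
        + deriv (Gp e) z‖ ≤ ϵ * Cst / (2 * Real.sqrt N) := by
      refine le_trans (norm_add_le _ _) ?_
      have t1 : 3 * ϱ * Cst / Real.sqrt N ≤ (3 / 16) * (ϵ * Cst / Real.sqrt N) := by
        rw [mul_div_assoc', div_le_div_iff_of_pos_right hsN]
        nlinarith
      have t2 : ϵ / (4 * Real.sqrt N) ≤ (1 / 8) * (ϵ * Cst / Real.sqrt N) := by
        rw [mul_div_assoc', div_le_div_iff₀ (by positivity) hsN]
        nlinarith [mul_pos hϵ hsN]
      have t3 : ϵ * Cst / (2 * Real.sqrt N) = (1 / 2) * (ϵ * Cst / Real.sqrt N) := by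
        field_simp
      have t4 : 0 < ϵ * Cst / Real.sqrt N := by positivity
      rw [t3]
      linarith
    have k3 : ϵ * sig (Cst / k) N = 1 / (k : ℝ) * (ϵ * Cst / (2 * Real.sqrt N)) := by
      unfold sig; field_simp
    rw [k3]
    gcongr
  · have hz' : ‖(N : ℂ) - N‖ ≤ 2 * (ϱ * N) := by simp; positivity
    have hw : ‖((N : ℂ) - 1 / 24) - (N : ℝ)‖ ≤ (1 / (24 * N)) * N := by
      have : ((N : ℂ) - 1 / 24) - ((N : ℝ) : ℂ) = -(1 / 24) := by push_cast; ring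
      rw [this, norm_neg]
      have : (1 / (24 * (N : ℝ))) * N = 1 / 24 := by field_simp
      rw [this, norm_div, norm_one]; norm_num
    obtain ⟨h1, h2, h3, h4, h5, h6⟩ := basic hN64 (hpt2 _ hz')
    have hnear := half_near h1 hN0 hw
    have hG := hGb _ hz'
    have hval : phi k e N - ((Cst / k * Real.sqrt N : ℝ) : ℂ) = (1 / (k : ℂ)) *
        ((Cst : ℂ) * (((N : ℂ) - 1 / 24) ^ ((1 : ℂ) / 2) - ((Real.sqrt N : ℝ) : ℂ)) + Gp e N) := by
      rw [phi_eq]; push_cast; field_simp; ring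
    have hre : (phi k e N).re - Cst / k * Real.sqrt N =
        (phi k e N - ((Cst / k * Real.sqrt N : ℝ) : ℂ)).re := by
      rw [Complex.sub_re, Complex.ofReal_re]
    rw [hre]
    refine le_trans (Complex.abs_re_le_norm _) ?_
    rw [hval, norm_mul, norm_div, norm_one, Complex.norm_natCast]
    have k1 : ‖(Cst : ℂ) * (((N : ℂ) - 1 / 24) ^ ((1 : ℂ) / 2) - ((Real.sqrt N : ℝ) : ℂ)) + Gp e N‖
        ≤ ϵ * Cst * Real.sqrt N := by
      refine le_trans (norm_add_le _ _) ?_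
      rw [norm_mul, Complex.norm_real, Real.norm_eq_abs, abs_of_pos (by linarith : 0 < Cst)]
      have u1 : Cst * ‖((N : ℂ) - 1 / 24) ^ ((1 : ℂ) / 2) - ((Real.sqrt N : ℝ) : ℂ)‖
          ≤ Cst * (1 / (24 * N) * Real.sqrt N) := by gcongr
      have u2 : 1 / (24 * (N : ℝ)) * Real.sqrt N ≤ ϵ / 4 * Real.sqrt N := by
        apply mul_le_mul_of_nonneg_right _ hsN.le
        rw [div_le_div_iff₀ (by positivity) (by norm_num)]
        have : 1 ≤ ϵ / 16 * N := le_trans hϱN (by gcongr)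
        nlinarith
      have u3 : Cst * (1 / (24 * (N : ℝ)) * Real.sqrt N) ≤ Cst * (ϵ / 4 * Real.sqrt N) := by gcongr
      have u4 : ϵ * ϱ / 4 * Real.sqrt N ≤ ϵ / 4 * Real.sqrt N := by
        apply mul_le_mul_of_nonneg_right _ hsN.le
        have : ϵ * ϱ ≤ ϵ * 1 := mul_le_mul_of_nonneg_left (by linarith) hϵ.le
        linarith
      have u5 : ϵ / 4 * Real.sqrt N ≤ Cst * (ϵ / 4 * Real.sqrt N) := by
        have : 0 < ϵ / 4 * Real.sqrt N := by positivity
        exact le_mul_of_one_le_left this.le (by linarith)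
      have u6 : 0 < Cst * (ϵ * Real.sqrt N) := by positivity
      have u7 : Cst * (ϵ / 4 * Real.sqrt N) = (1 / 4) * (Cst * (ϵ * Real.sqrt N)) := by ring
      have u8 : ϵ * Cst * Real.sqrt N = Cst * (ϵ * Real.sqrt N) := by ring
      rw [u8]
      rw [u7] at u3 u5
      linarith
    calc 1 / (k : ℝ) * ‖(Cst : ℂ) * (((N : ℂ) - 1 / 24) ^ ((1 : ℂ) / 2)
          - ((Real.sqrt N : ℝ) : ℂ)) + Gp e N‖
        ≤ 1 / (k : ℝ) * (ϵ * Cst * Real.sqrt N) := by gcongr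
      _ = ϵ * (Cst / k) * Real.sqrt N := by ring

end PRT
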