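import Mathlib
import Pool.Agent.PRT.ASY

namespace PRT

open Complex Metric

theorem root_Cst_pos : 0 < Cst := by
  unfold Cst
  exact mul_pos Real.pi_pos (Real.sqrt_pos.2 (by norm_num))

theorem root_Cst_sq : Cst ^ 2 = 2 / 3 * Real.pi ^ 2 := by
  unfold Cst
  rw [mul_pow, Real.sq_sqrt (by norm_num)]
  ring

theorem root_Cst_rel : Real.sqrt 3 * Cst = Real.sqrt 2 * Real.pi := by
  have h1 : Real.sqrt (2 / 3) * Real.sqrt 3 = Real.sqrt 2 := by
    rw [← Real.sqrt_mul (by norm_num)]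
    norm_num
  unfold Cst
  calc Real.sqrt 3 * (Real.pi * Real.sqrt (2 / 3))
      = Real.pi * (Real.sqrt (2 / 3) * Real.sqrt 3) := by ring
    _ = Real.sqrt 2 * Real.pi := by rw [h1]; ring

theorem root_Cst_gt : 2 < Cst := by
  have h := root_Cst_sq
  have hp := Real.pi_gt_three
  by_contra hc
  push Not at hc
  have h0 := root_Cst_pos
  nlinarith

theorem root_Cst_lt : Cst < 3 := by
  have h := root_Cst_sq
  have hp := Real.pi_lt_d2
  have hp0 := Real.pi_pos
  have h0 := root_Cst_pos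
  by_contra hc
  push Not at hc
  nlinarith

theorem root_sb1 : Real.sqrt (Real.pi ^ 2 / 6) = Cst / 2 := by
  rw [Real.sqrt_eq_iff_eq_sq (by positivity) (by have := root_Cst_pos; positivity)]
  have := root_Cst_sq
  nlinarith

theorem root_sb2 : Real.sqrt (Real.pi ^ 2 / 24) = Cst / 4 := by
  rw [Real.sqrt_eq_iff_eq_sq (by positivity) (by have := root_Cst_pos; positivity)]
  have := root_Cst_sq
  nlinarith

/-- the smooth approximation -/
noncomputable def rootE (e u : ℝ) : ℝ :=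
  Real.exp (Cst * Real.sqrt u) * (1 - 1 / (Cst * Real.sqrt u)) / (4 * Real.sqrt 3 * u) *
    (1 + e * (1 / Real.sqrt 2 * Real.exp (-Cst * Real.sqrt u / 2)
      * (1 - 2 / (Cst * Real.sqrt u)) / (1 - 1 / (Cst * Real.sqrt u))))

theorem root_main_eq {n : ℕ} {q : ℝ} (hq : 1 < q) (hu : (n : ℝ) - 1 / 24 = q ^ 2) :
    Fmain n = rootE ((-1) ^ n) ((n : ℝ) - 1 / 24)
      - (Real.exp (-(Cst * q)) * (Cst * q + 1)
        + (-1) ^ n * (Real.sqrt 2 * (Real.exp (-(Cst * q / 2)) * (Cst * q / 2 + 1))))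
        / (4 * Real.sqrt 2 * Real.pi * q ^ 3) := by
  have hC := root_Cst_pos
  have hC2 := root_Cst_gt
  have hq0 : 0 < q := by linarith
  have hsq : Real.sqrt (q ^ 2) = q := Real.sqrt_sq hq0.le
  have h1 : 2 * Real.sqrt (Real.pi ^ 2 / 6 * q ^ 2) = Cst * q := by
    rw [Real.sqrt_mul (by positivity), root_sb1, hsq]; ring
  have h2 : 2 * Real.sqrt (Real.pi ^ 2 / 24 * q ^ 2) = Cst * q / 2 := by
    rw [Real.sqrt_mul (by positivity), root_sb2, hsq]; ring
  have h3 : Real.sqrt (2 * Real.pi) = Real.sqrt 2 * Real.sqrt Real.pi :=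
    Real.sqrt_mul (by norm_num) _
  have hpp : Real.sqrt Real.pi * Real.sqrt Real.pi = Real.pi :=
    Real.mul_self_sqrt Real.pi_pos.le
  have hp0 : 0 < Real.sqrt Real.pi := Real.sqrt_pos.2 Real.pi_pos
  have hp : Real.sqrt Real.pi ≠ 0 := hp0.ne'
  have ha0 : 0 < Real.sqrt 2 := Real.sqrt_pos.2 (by norm_num)
  have ht0 : 0 < Real.sqrt 3 := Real.sqrt_pos.2 (by norm_num)
  have haa : Real.sqrt 2 * Real.sqrt 2 = 2 := Real.mul_self_sqrt (by norm_num)
  have hrel := root_Cst_rel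
  have hs1 : 1 < Cst * q := by nlinarith
  have hE : rootE ((-1) ^ n) (q ^ 2) =
      (Real.exp (Cst * q) * (Cst * q - 1)
        + (-1) ^ n * (Real.sqrt 2 * (Real.exp (Cst * q / 2) * (Cst * q / 2 - 1))))
        / (4 * Real.sqrt 2 * Real.pi * q ^ 3) := by
    unfold rootE
    rw [hsq]
    have he : Real.exp (-Cst * q / 2) = Real.exp (Cst * q / 2) / Real.exp (Cst * q) := by
      rw [← Real.exp_sub]; congr 1; ring
    rw [he]
    generalize Real.exp (Cst * q / 2) = e2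
    have he1 : 0 < Real.exp (Cst * q) := Real.exp_pos _
    generalize Real.exp (Cst * q) = e1 at he1
    have hpi : Real.pi = Real.sqrt 3 * Cst / Real.sqrt 2 := by
      rw [hrel]; field_simp
    rw [hpi]
    have hs : Cst * q - 1 ≠ 0 := by linarith
    have hd : (1 - 1 / (Cst * q)) ≠ 0 := by
      have : 1 - 1 / (Cst * q) = (Cst * q - 1) / (Cst * q) := by field_simp
      rw [this]
      exact div_ne_zero hs (by positivity)
    have hx : (1 - 1 / (Cst * q)) = (Cst * q - 1) / (Cst * q) := by field_simp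
    rw [hx]
    generalize ((-1 : ℝ) ^ n) = e
    field_simp
    have haa' : Real.sqrt 2 ^ 2 = 2 := by rw [sq]; exact haa
    ring_nf
    simp only [haa']
    ring
  rw [hu, hE]
  unfold Fmain Sb
  rw [hu, h1, h2, root_sb1, root_sb2, hsq, h3, Real.sinh_eq, Real.sinh_eq, Real.cosh_eq,
    Real.cosh_eq]
  generalize ((-1 : ℝ) ^ n) = e
  generalize Real.exp (Cst * q / 2) = e2
  generalize Real.exp (Cst * q) = e1
  generalize Real.exp (-(Cst * q / 2)) = e3
  generalize Real.exp (-(Cst * q)) = e4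
  clear hE h1 h2
  generalize Real.sqrt Real.pi = p at *
  rw [← hpp]
  field_simp
  ring

/-- `x ^ 2 ≤ exp (b x)` eventually, with a constant -/
theorem root_ev {A b : ℝ} (hb : 0 < b) :
    ∀ᶠ n : ℕ in Filter.atTop, A * n ≤ Real.exp (b * Real.sqrt n) := by
  have h := isLittleO_pow_exp_pos_mul_atTop (k := 2) hb
  have hA : 0 < 1 / (|A| + 1) := by positivity
  have h1 := h.def hA
  have ht : Filter.Tendsto (fun n : ℕ => Real.sqrt n) Filter.atTop Filter.atTop :=
    Real.tendsto_sqrt_atTop.comp tendsto_natCast_atTop_atTop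
  filter_upwards [ht.eventually h1] with n hn
  rw [Real.sq_sqrt (Nat.cast_nonneg n), Real.norm_of_nonneg (Nat.cast_nonneg n),
    Real.norm_of_nonneg (Real.exp_pos _).le, div_mul_eq_mul_div, one_mul,
    le_div_iff₀ (by positivity)] at hn
  have h2 : A * n ≤ |A| * n := mul_le_mul_of_nonneg_right (le_abs_self A) (Nat.cast_nonneg n)
  have h3 : (0 : ℝ) ≤ n := Nat.cast_nonneg n
  nlinarith

theorem root_sqrt_large (B : ℝ) : ∀ᶠ n : ℕ in Filter.atTop, B ≤ Real.sqrt n :=
  (Real.tendsto_sqrt_atTop.comp tendsto_natCast_atTop_atTop).eventually_ge_atTop B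

/-- the basic inequalities for `q = √(n - 1/24)` -/
theorem root_basic {n : ℕ} (hn : 10 ≤ Real.sqrt n) :
    ∃ q : ℝ, q = Real.sqrt ((n : ℝ) - 1 / 24) ∧ (n : ℝ) - 1 / 24 = q ^ 2 ∧ 9 < q ∧
      Real.sqrt n - 1 / 10 ≤ q ∧ q ≤ Real.sqrt n := by
  have h0 : (0 : ℝ) ≤ n := Nat.cast_nonneg n
  have hsq : Real.sqrt n ^ 2 = n := Real.sq_sqrt h0
  have hn2 : (100 : ℝ) ≤ n := by nlinarith
  refine ⟨Real.sqrt ((n : ℝ) - 1 / 24), rfl, (Real.sq_sqrt (by linarith)).symm, ?_, ?_, ?_⟩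
  · refine Real.lt_sqrt_of_sq_lt ?_
    nlinarith
  · refine Real.le_sqrt_of_sq_le ?_
    nlinarith
  · exact Real.sqrt_le_sqrt (by linarith)

/-- abbreviation for the second factor -/
noncomputable def rootR (s : ℝ) : ℝ :=
  1 / Real.sqrt 2 * Real.exp (-s / 2) * (1 - 2 / s) / (1 - 1 / s)

theorem root_R_bd {s : ℝ} (hs : 4 ≤ s) : 0 ≤ rootR s ∧ rootR s ≤ 1 / 2 := by
  have hs0 : 0 < s := by linarith
  have h1 : 1 / s ≤ 1 / 4 := one_div_le_one_div_of_le (by norm_num) hs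
  have h1' : 0 < 1 / s := by positivity
  have h2 : 2 / s = 2 * (1 / s) := by ring
  have h3 : 0 < 1 - 1 / s := by linarith
  have h4 : 0 ≤ 1 - 2 / s := by rw [h2]; linarith
  have h5 : (1 - 2 / s) / (1 - 1 / s) ≤ 1 := by
    rw [div_le_one h3, h2]; linarith
  have h5' : 0 ≤ (1 - 2 / s) / (1 - 1 / s) := div_nonneg h4 h3.le
  have h6 : Real.exp (-s / 2) ≤ 1 / 2 := by
    have h7 : s / 2 + 1 ≤ Real.exp (s / 2) := Real.add_one_le_exp _
    have h8 : Real.exp (-s / 2) = (Real.exp (s / 2))⁻¹ := by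
      rw [← Real.exp_neg]; congr 1; ring
    rw [h8, ← one_div]
    exact one_div_le_one_div_of_le (by norm_num) (by linarith)
  have h7 : 1 / Real.sqrt 2 ≤ 1 := by
    rw [div_le_one (Real.sqrt_pos.2 (by norm_num))]
    exact Real.one_le_sqrt.2 (by norm_num)
  have h7' : 0 ≤ 1 / Real.sqrt 2 := by positivity
  have h8 : 0 ≤ Real.exp (-s / 2) := (Real.exp_pos _).le
  have he : rootR s = (1 / Real.sqrt 2) * (Real.exp (-s / 2) * ((1 - 2 / s) / (1 - 1 / s))) := by
    unfold rootR; ring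
  rw [he]
  refine ⟨by positivity, ?_⟩
  calc (1 / Real.sqrt 2) * (Real.exp (-s / 2) * ((1 - 2 / s) / (1 - 1 / s)))
      ≤ 1 * (Real.exp (-s / 2) * 1) := by
        refine mul_le_mul h7 (mul_le_mul_of_nonneg_left h5 h8) (by positivity) (by norm_num)
    _ ≤ 1 / 2 := by linarith

theorem root_E_R (e u : ℝ) : rootE e u =
    Real.exp (Cst * Real.sqrt u) * (1 - 1 / (Cst * Real.sqrt u)) / (4 * Real.sqrt 3 * u) *
      (1 + e * rootR (Cst * Real.sqrt u)) := by
  unfold rootE rootR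
  rw [neg_mul]

theorem root_eR {s e : ℝ} (hs : 4 ≤ s) (he : e = 1 ∨ e = -1) : 1 / 2 ≤ 1 + e * rootR s := by
  have h := root_R_bd hs
  rcases he with rfl | rfl
  · linarith [h.1]
  · linarith [h.2]

open Filter in
theorem root_E_lower : ∀ᶠ n : ℕ in atTop,
    Real.exp (0.9992 * Cst * Real.sqrt n) ≤ rootE ((-1) ^ n) ((n : ℝ) - 1 / 24) := by
  have hC := root_Cst_pos
  have hC2 := root_Cst_gt
  have hC3 := root_Cst_lt
  filter_upwards [root_sqrt_large 10, root_ev (A := 64) (b := 0.0008 * Cst) (by positivity)]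
    with n hn hn2
  obtain ⟨q, hq, hu, hq9, hql, hqu⟩ := root_basic hn
  rw [root_E_R, ← hq]
  have hs : 4 ≤ Cst * q := by nlinarith
  have he : ((-1 : ℝ) ^ n = 1 ∨ (-1 : ℝ) ^ n = -1) := by
    rcases Nat.even_or_odd n with h | h
    · left; exact h.neg_one_pow
    · right; exact h.neg_one_pow
  have h1 := root_eR hs he
  have h2 : 1 / 2 ≤ 1 - 1 / (Cst * q) := by
    have : 1 / (Cst * q) ≤ 1 / 4 := one_div_le_one_div_of_le (by norm_num) hs
    linarith
  have hn0 : (0 : ℝ) < n := by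
    have : (0 : ℝ) ≤ n := Nat.cast_nonneg n
    rcases this.lt_or_eq with h | h
    · exact h
    · rw [← h] at hn; simp at hn; linarith
  have h3 : Real.sqrt 3 ≤ 2 := by
    rw [Real.sqrt_le_left (by norm_num)]; norm_num
  have h3' : 0 < Real.sqrt 3 := Real.sqrt_pos.2 (by norm_num)
  have h4 : 4 * Real.sqrt 3 * ((n : ℝ) - 1 / 24) ≤ 8 * n := by
    have : (0 : ℝ) ≤ (n : ℝ) - 1 / 24 := by rw [hu]; positivity
    nlinarith
  have h4' : 0 < 4 * Real.sqrt 3 * ((n : ℝ) - 1 / 24) := by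
    have : (0 : ℝ) < (n : ℝ) - 1 / 24 := by rw [hu]; positivity
    positivity
  have h5 : Real.exp (Cst * q) * (1 / 2) / (8 * n) ≤
      Real.exp (Cst * q) * (1 - 1 / (Cst * q)) / (4 * Real.sqrt 3 * ((n : ℝ) - 1 / 24)) := by
    refine div_le_div₀ ?_ ?_ h4' h4
    · have := Real.exp_pos (Cst * q)
      have : 0 ≤ 1 - 1 / (Cst * q) := by linarith
      positivity
    · exact mul_le_mul_of_nonneg_left h2 (Real.exp_pos _).le
  have h6 : Real.exp (0.9992 * Cst * Real.sqrt n) ≤ Real.exp (Cst * q) / (32 * n) := by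
    rw [le_div_iff₀ (by positivity)]
    have h7 : Real.exp (Cst * Real.sqrt n - 3 / 10) ≤ Real.exp (Cst * q) := by
      apply Real.exp_le_exp.2
      nlinarith
    have h8 : Real.exp (Cst * Real.sqrt n - 3 / 10) =
        Real.exp (0.9992 * Cst * Real.sqrt n) * (Real.exp (0.0008 * Cst * Real.sqrt n)
          * Real.exp (-(3 / 10))) := by
      rw [← Real.exp_add, ← Real.exp_add]; congr 1; ring
    have h9 : (1 : ℝ) / 2 ≤ Real.exp (-(3 / 10)) := by
      have := Real.add_one_le_exp (-(3 / 10 : ℝ))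
      linarith
    have h10 : (32 : ℝ) * n ≤ Real.exp (0.0008 * Cst * Real.sqrt n) * Real.exp (-(3 / 10)) := by
      have := Real.exp_pos (0.0008 * Cst * Real.sqrt n)
      nlinarith
    calc Real.exp (0.9992 * Cst * Real.sqrt n) * (32 * n)
        ≤ Real.exp (0.9992 * Cst * Real.sqrt n) * (Real.exp (0.0008 * Cst * Real.sqrt n)
          * Real.exp (-(3 / 10))) := mul_le_mul_of_nonneg_left h10 (Real.exp_pos _).le
      _ = _ := h8.symm
      _ ≤ _ := h7
  calc Real.exp (0.9992 * Cst * Real.sqrt n) ≤ Real.exp (Cst * q) / (32 * n) := h6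
    _ = Real.exp (Cst * q) * (1 / 2) / (8 * n) * (1 / 2) := by field_simp; ring
    _ ≤ _ := mul_le_mul h5 h1 (by norm_num) (le_trans (by positivity) h5)

open Filter in
theorem root_E_close : ∀ᶠ n : ℕ in atTop,
    |(pc n : ℝ) - rootE ((-1) ^ n) ((n : ℝ) - 1 / 24)|
      ≤ Real.exp (0.495 * Cst * Real.sqrt n) + 1 := by
  have hC := root_Cst_pos
  have hC2 := root_Cst_gt
  filter_upwards [root_sqrt_large 10, pc_asymp] with n hn hn2
  obtain ⟨q, hq, hu, hq9, hql, hqu⟩ := root_basic hn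
  have hm := root_main_eq (n := n) (q := q) (by linarith) hu
  set E := rootE ((-1) ^ n) ((n : ℝ) - 1 / 24)
  have hte : ∀ t : ℝ, 0 ≤ t → 0 ≤ Real.exp (-t) * (t + 1) ∧ Real.exp (-t) * (t + 1) ≤ 1 := by
    intro t ht
    refine ⟨by positivity, ?_⟩
    have h1 : t + 1 ≤ Real.exp t := Real.add_one_le_exp t
    rw [Real.exp_neg, inv_mul_le_iff₀ (Real.exp_pos _)]
    linarith
  have ha := hte (Cst * q) (by positivity)
  have hb := hte (Cst * q / 2) (by positivity)
  have h2l : 1 ≤ Real.sqrt 2 := Real.one_le_sqrt.2 (by norm_num)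
  have h2u : Real.sqrt 2 ≤ 2 := by
    rw [Real.sqrt_le_left (by norm_num)]; norm_num
  set X := Real.exp (-(Cst * q)) * (Cst * q + 1)
  set Y := Real.exp (-(Cst * q / 2)) * (Cst * q / 2 + 1)
  have he : ((-1 : ℝ) ^ n = 1 ∨ (-1 : ℝ) ^ n = -1) := by
    rcases Nat.even_or_odd n with h | h
    · left; exact h.neg_one_pow
    · right; exact h.neg_one_pow
  have h3 : |X + (-1) ^ n * (Real.sqrt 2 * Y)| ≤ 3 := by
    have h4 : 0 ≤ Real.sqrt 2 * Y := by have := hb.1; positivity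
    have h5 : Real.sqrt 2 * Y ≤ 2 := by nlinarith [hb.1, hb.2]
    rw [abs_le]
    rcases he with h | h <;> rw [h] <;> constructor <;> nlinarith [ha.1, ha.2]
  have h4 : |(X + (-1) ^ n * (Real.sqrt 2 * Y)) / (4 * Real.sqrt 2 * Real.pi * q ^ 3)| ≤ 1 := by
    have hp := Real.pi_gt_three
    have hq3 : 1 ≤ q ^ 3 := one_le_pow₀ (by linarith)
    have h5 : 3 ≤ 4 * Real.sqrt 2 * Real.pi * q ^ 3 := by
      have h6 : 12 ≤ 4 * Real.sqrt 2 * Real.pi := by nlinarith
      nlinarith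
    rw [abs_div, div_le_one (by rw [abs_pos]; linarith [h5]; )]
    refine h3.trans (h5.trans (le_abs_self _))
  rw [hm] at hn2
  have h5 : (pc n : ℝ) - E = ((pc n : ℝ) - (E - (X + (-1) ^ n * (Real.sqrt 2 * Y))
      / (4 * Real.sqrt 2 * Real.pi * q ^ 3)))
      - (X + (-1) ^ n * (Real.sqrt 2 * Y)) / (4 * Real.sqrt 2 * Real.pi * q ^ 3) := by ring
  rw [h5]
  refine (abs_sub _ _).trans (add_le_add hn2 h4)

theorem root_rr {q : ℝ} (hq : 0 < q) : rr ((q ^ 2 : ℝ) : ℂ) = ((rootR (Cst * q) : ℝ) : ℂ) := by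
  have h1 : (((q ^ 2 : ℝ) : ℂ)) ^ ((1 : ℂ) / 2) = (q : ℂ) := by
    have h2 : ((1 : ℂ) / 2) = (((1 / 2 : ℝ)) : ℂ) := by push_cast; ring
    rw [h2, ← Complex.ofReal_cpow (by positivity), ← Real.sqrt_eq_rpow, Real.sqrt_sq hq.le]
  unfold rr rootR
  rw [h1]
  push_cast
  congr 4
  ring_nf

theorem root_phi {k : ℕ} {n : ℕ} (hn : 10 ≤ Real.sqrt n) :
    cexp (phi k ((-1) ^ n) n) =
      (((rootE ((-1) ^ n) ((n : ℝ) - 1 / 24)) ^ ((1 : ℝ) / k) : ℝ) : ℂ) := by
  have hC := root_Cst_pos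
  have hC2 := root_Cst_gt
  obtain ⟨q, hq, hu, hq9, hql, hqu⟩ := root_basic hn
  have hs : 4 ≤ Cst * q := by nlinarith
  have hs0 : 0 < Cst * q := by linarith
  have he : ((-1 : ℝ) ^ n = 1 ∨ (-1 : ℝ) ^ n = -1) := by
    rcases Nat.even_or_odd n with h | h
    · left; exact h.neg_one_pow
    · right; exact h.neg_one_pow
  have h1 := root_eR hs he
  have h2 : 1 / 2 ≤ 1 - 1 / (Cst * q) := by
    have : 1 / (Cst * q) ≤ 1 / 4 := one_div_le_one_div_of_le (by norm_num) hs
    linarith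
  have hq0 : 0 < q := by linarith
  have h3' : 0 < Real.sqrt 3 := Real.sqrt_pos.2 (by norm_num)
  have hcpow : (((q ^ 2 : ℝ) : ℂ)) ^ ((1 : ℂ) / 2) = (q : ℂ) := by
    have h2 : ((1 : ℂ) / 2) = (((1 / 2 : ℝ)) : ℂ) := by push_cast; ring
    rw [h2, ← Complex.ofReal_cpow (by positivity), ← Real.sqrt_eq_rpow, Real.sqrt_sq hq0.le]
  have hz : (n : ℂ) - 1 / 24 = ((q ^ 2 : ℝ) : ℂ) := by
    rw [← hu]; push_cast; ring
  have hphi : phi k ((-1) ^ n) n = ((1 / (k : ℝ) * (Cst * q - Real.log (q ^ 2)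
      - Real.log (4 * Real.sqrt 3) + Real.log (1 - 1 / (Cst * q))
      + Real.log (1 + (-1) ^ n * rootR (Cst * q))) : ℝ) : ℂ) := by
    unfold phi
    rw [hz, hcpow, root_rr hq0]
    have e1 : (1 : ℂ) - 1 / ((Cst : ℂ) * (q : ℂ)) = ((1 - 1 / (Cst * q) : ℝ) : ℂ) := by
      push_cast; ring
    have e2 : (1 : ℂ) + (-1) ^ n * ((rootR (Cst * q) : ℝ) : ℂ) =
        ((1 + (-1) ^ n * rootR (Cst * q) : ℝ) : ℂ) := by
      push_cast; ring
    have hq2 : (0 : ℝ) ≤ q ^ 2 := by positivity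
    rw [e1, e2, ← Complex.ofReal_log hq2, ← Complex.ofReal_log (by linarith),
      ← Complex.ofReal_log (by linarith)]
    push_cast
    ring
  have hE : rootE ((-1) ^ n) ((n : ℝ) - 1 / 24) = Real.exp (Cst * q) * (1 - 1 / (Cst * q))
      / (4 * Real.sqrt 3 * q ^ 2) * (1 + (-1) ^ n * rootR (Cst * q)) := by
    rw [root_E_R, ← hq, hu]
  have hEpos : 0 < rootE ((-1) ^ n) ((n : ℝ) - 1 / 24) := by
    rw [hE]
    have a1 : 0 < 1 - 1 / (Cst * q) := by linarith
    have a2 : 0 < 1 + (-1) ^ n * rootR (Cst * q) := by linarith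
    have := Real.exp_pos (Cst * q)
    positivity
  have hlog : Real.log (rootE ((-1) ^ n) ((n : ℝ) - 1 / 24)) = Cst * q - Real.log (q ^ 2)
      - Real.log (4 * Real.sqrt 3) + Real.log (1 - 1 / (Cst * q))
      + Real.log (1 + (-1) ^ n * rootR (Cst * q)) := by
    rw [hE]
    have a1 : 1 - 1 / (Cst * q) ≠ 0 := by linarith
    have a2 : 1 + (-1) ^ n * rootR (Cst * q) ≠ 0 := by linarith
    rw [Real.log_mul (by positivity) a2, Real.log_div (by positivity) (by positivity),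
      Real.log_mul (Real.exp_pos _).ne' a1, Real.log_exp, Real.log_mul (by positivity)
      (by positivity)]
    ring
  rw [hphi, ← Complex.ofReal_exp, Real.rpow_def_of_pos hEpos, hlog]
  congr 2
  ring

open Filter in
/-- asymptotic formula for the `k`-th root -/
theorem root_asymp {k : ℕ} (hk : 2 ≤ k) : ∀ᶠ n : ℕ in atTop,
    ‖cexp (phi k ((-1) ^ n) n) - (((pc n : ℝ) ^ ((1 : ℝ) / k) : ℝ) : ℂ)‖
      ≤ Real.exp (-(0.004 * Cst * Real.sqrt n)) := by
  have hC := root_Cst_pos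
  have hC2 := root_Cst_gt
  filter_upwards [root_sqrt_large 10, root_sqrt_large 1000, root_E_lower, root_E_close]
    with n hn hn' hlow hcl
  rw [root_phi hn]
  have hE1 : 1 ≤ rootE ((-1) ^ n) ((n : ℝ) - 1 / 24) :=
    le_trans (Real.one_le_exp (by positivity)) hlow
  generalize rootE ((-1) ^ n) ((n : ℝ) - 1 / 24) = E at *
  have hE0 : 0 < E := by linarith
  have hP0 : (0 : ℝ) ≤ pc n := Nat.cast_nonneg _
  generalize (pc n : ℝ) = P at *
  rw [← Complex.ofReal_sub, Complex.norm_real, Real.norm_eq_abs]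
  have hk0 : (0 : ℝ) < k := by
    have : (2 : ℝ) ≤ k := by exact_mod_cast hk
    linarith
  have hk2 : (1 : ℝ) / k ≤ 1 / 2 := by
    have : (2 : ℝ) ≤ k := by exact_mod_cast hk
    exact one_div_le_one_div_of_le (by norm_num) this
  have hkp : (0 : ℝ) < 1 / k := by positivity
  set α : ℝ := 1 / k
  -- ratio
  have hr : 0 ≤ P / E := by positivity
  have h1 : P ^ α = E ^ α * (P / E) ^ α := by
    rw [← Real.mul_rpow hE0.le hr]
    congr 1
    field_simp
  have h2 : |1 - (P / E) ^ α| ≤ |1 - P / E| := by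
    rcases le_total (P / E) 1 with h | h
    · have h3 : P / E ≤ (P / E) ^ α := by
        rcases hr.lt_or_eq with h0 | h0
        · calc P / E = (P / E) ^ (1 : ℝ) := (Real.rpow_one _).symm
            _ ≤ (P / E) ^ α := Real.rpow_le_rpow_of_exponent_ge h0 h (by linarith)
        · rw [← h0, Real.zero_rpow hkp.ne']
      have h4 : (P / E) ^ α ≤ 1 := Real.rpow_le_one hr h hkp.le
      rw [abs_of_nonneg (by linarith), abs_of_nonneg (by linarith)]
      linarith
    · have h3 : (P / E) ^ α ≤ P / E := by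
        calc (P / E) ^ α ≤ (P / E) ^ (1 : ℝ) := Real.rpow_le_rpow_of_exponent_le h (by linarith)
          _ = P / E := Real.rpow_one _
      have h4 : 1 ≤ (P / E) ^ α := Real.one_le_rpow h hkp.le
      rw [abs_of_nonpos (by linarith), abs_of_nonpos (by linarith)]
      linarith
  have h3 : |1 - P / E| = |P - E| / E := by
    have : 1 - P / E = -((P - E) / E) := by field_simp; ring
    rw [this, abs_neg, abs_div, abs_of_pos hE0]
  have hEa : 0 < E ^ α := Real.rpow_pos_of_pos hE0 _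
  have h4 : |E ^ α - P ^ α| ≤ E ^ α * (|P - E| / E) := by
    rw [h1]
    have : E ^ α - E ^ α * (P / E) ^ α = E ^ α * (1 - (P / E) ^ α) := by ring
    rw [this, abs_mul, abs_of_pos hEa, ← h3]
    exact mul_le_mul_of_nonneg_left h2 hEa.le
  have h5 : E ^ α / E ≤ Real.exp (-(0.4996 * Cst * Real.sqrt n)) := by
    have h6 : E ^ α / E = (E ^ (1 - α))⁻¹ := by
      rw [← Real.rpow_neg hE0.le, show -(1 - α) = α - 1 by ring, Real.rpow_sub hE0,
        Real.rpow_one]
    rw [h6, Real.exp_neg]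
    apply inv_anti₀ (Real.exp_pos _)
    calc Real.exp (0.4996 * Cst * Real.sqrt n)
        = (Real.exp (0.9992 * Cst * Real.sqrt n)) ^ ((1 : ℝ) / 2) := by
          rw [← Real.exp_mul]; congr 1; ring
      _ ≤ E ^ ((1 : ℝ) / 2) := Real.rpow_le_rpow (Real.exp_pos _).le hlow (by norm_num)
      _ ≤ E ^ (1 - α) := Real.rpow_le_rpow_of_exponent_le hE1 (by linarith)
  have hx : 0 ≤ Cst * Real.sqrt n := by positivity
  have h7 : 1 ≤ Real.exp (0.495 * Cst * Real.sqrt n) := Real.one_le_exp (by positivity)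
  have h8 : (2 : ℝ) ≤ Real.exp (0.0006 * Cst * Real.sqrt n) := by
    have h9 := Real.add_one_le_exp (0.0006 * Cst * Real.sqrt n)
    have h10 : 1 ≤ 0.0006 * Cst * Real.sqrt n := by nlinarith
    linarith
  calc |E ^ α - P ^ α| ≤ E ^ α * (|P - E| / E) := h4
    _ = (E ^ α / E) * |P - E| := by ring
    _ ≤ Real.exp (-(0.4996 * Cst * Real.sqrt n)) * (2 * Real.exp (0.495 * Cst * Real.sqrt n)) := by
        refine mul_le_mul h5 (hcl.trans (by linarith)) (abs_nonneg _) (Real.exp_pos _).le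
    _ ≤ Real.exp (-(0.4996 * Cst * Real.sqrt n)) *
          (Real.exp (0.0006 * Cst * Real.sqrt n) * Real.exp (0.495 * Cst * Real.sqrt n)) := by
        refine mul_le_mul_of_nonneg_left ?_ (Real.exp_pos _).le
        exact mul_le_mul_of_nonneg_right h8 (Real.exp_pos _).le
    _ = Real.exp (-(0.004 * Cst * Real.sqrt n)) := by
        rw [← Real.exp_add, ← Real.exp_add]; congr 1; ring

open Filter in
/-- crude lower bound for `p(n)` -/
theorem pc_lower : ∀ᶠ n : ℕ in atTop, Real.exp (Real.sqrt n) ≤ (pc n : ℝ) := by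
  have hC := root_Cst_pos
  have hC2 := root_Cst_gt
  filter_upwards [root_sqrt_large 1000, root_E_lower, root_E_close]
    with n hn' hlow hcl
  have hx : 0 ≤ Cst * Real.sqrt n := by positivity
  have h7 : 1 ≤ Real.exp (0.495 * Cst * Real.sqrt n) := Real.one_le_exp (by positivity)
  have h8 : (3 : ℝ) ≤ Real.exp (0.4 * Cst * Real.sqrt n) := by
    have h9 := Real.add_one_le_exp (0.4 * Cst * Real.sqrt n)
    have h10 : 2 ≤ 0.4 * Cst * Real.sqrt n := by nlinarith
    linarith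
  have h9 : Real.exp (0.9992 * Cst * Real.sqrt n) ≥ 3 * Real.exp (0.5992 * Cst * Real.sqrt n) := by
    have : Real.exp (0.9992 * Cst * Real.sqrt n) = Real.exp (0.4 * Cst * Real.sqrt n) *
        Real.exp (0.5992 * Cst * Real.sqrt n) := by
      rw [← Real.exp_add]; congr 1; ring
    rw [this]
    exact mul_le_mul_of_nonneg_right h8 (Real.exp_pos _).le
  have h10 : Real.exp (0.495 * Cst * Real.sqrt n) ≤ Real.exp (0.5992 * Cst * Real.sqrt n) :=
    Real.exp_le_exp.2 (by nlinarith)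
  have h11 : Real.exp (Real.sqrt n) ≤ Real.exp (0.5992 * Cst * Real.sqrt n) := by
    apply Real.exp_le_exp.2
    have : (0 : ℝ) ≤ Real.sqrt n := Real.sqrt_nonneg _
    nlinarith
  have h12 := (abs_le.1 hcl).1
  linarith

end PRT
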