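import Mathlib
import Pool.Agent.PRT.COREQ
import Pool.Agent.PRT.FIN1
import Pool.Agent.PRT.ROOT
import Pool.Agent.PRT.PHIG

namespace PRT

open Complex Metric

open Filter in
/-- short interval theorem, rational version -/
theorem local_bound_q {k : ℕ} (hk : 2 ≤ k) {κ : ℝ} (hκ : 0 < κ) :
    ∃ ω : ℝ, 0 < ω ∧ ω < 1 / 2 ∧ ∃ δ : ℝ, 0 < δ ∧ ∀ᶠ N : ℕ in atTop, ∀ θ : ℝ, ∀ G : Finset ℕ,
    (∀ x ∈ G, N ≤ x ∧ (x : ℝ) ≤ N + (N : ℝ) ^ (1 / 2 + ω)) →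
    (∀ x ∈ G, ∃ a : ℤ, ∃ q : ℕ, (1 ≤ q ∧ (q : ℝ) ≤ Real.exp (δ * Real.sqrt x)) ∧
      |(pc x : ℝ) ^ ((1 : ℝ) / k) - θ - (a : ℝ) / q| ≤ Real.exp (-κ * Real.sqrt x)) →
    (G.card : ℝ) ≤ 2 * Real.sqrt N := by
  have hC := fin1_cst_pos
  have hk0 : (0 : ℝ) < k := by
    have : 0 < k := by omega
    exact_mod_cast this
  have hc : 0 < Cst / k := div_pos hC hk0
  set κ' : ℝ := min κ (0.004 * Cst) / 2 with hκ'
  have hm : 0 < min κ (0.004 * Cst) := lt_min hκ (by positivity)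
  have hκ'0 : 0 < κ' := by rw [hκ']; positivity
  have h1 : 2 * κ' ≤ κ := by
    have := min_le_left κ (0.004 * Cst)
    rw [hκ']; linarith
  have h2 : 2 * κ' ≤ 0.004 * Cst := by
    have := min_le_right κ (0.004 * Cst)
    rw [hκ']; linarith
  obtain ⟨ϵ, hϵ, ω, hω, hω1, δ, hδ, hcore⟩ := core_q (Cst / k) κ' hc hκ'0
  obtain ⟨ϱ₁, hϱ₁, hg1⟩ := phi_good hk (e := 1) (Or.inl rfl) hϵ
  obtain ⟨ϱ₂, hϱ₂, hg2⟩ := phi_good hk (e := -1) (Or.inr rfl) hϵ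
  set ϱ : ℝ := min ϵ (min ϱ₁ ϱ₂) with hϱd
  have hϱ : 0 < ϱ := lt_min hϵ (lt_min hϱ₁ hϱ₂)
  have hϱϵ : ϱ ≤ ϵ := min_le_left _ _
  have hϱ1 : ϱ ≤ ϱ₁ := (min_le_right _ _).trans (min_le_left _ _)
  have hϱ2 : ϱ ≤ ϱ₂ := (min_le_right _ _).trans (min_le_right _ _)
  obtain ⟨n₀, hn₀⟩ := eventually_atTop.mp (root_asymp hk)
  have hexp : ∀ᶠ N : ℕ in atTop, (2 : ℝ) ≤ Real.exp (κ' * Real.sqrt N) := by
    have ht : Tendsto (fun N : ℕ => Real.exp (κ' * Real.sqrt N)) atTop atTop := by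
      apply Real.tendsto_exp_atTop.comp
      apply Tendsto.const_mul_atTop hκ'0
      exact Real.tendsto_sqrt_atTop.comp tendsto_natCast_atTop_atTop
    exact ht.eventually_ge_atTop 2
  refine ⟨ω, hω, hω1, δ / 2, by positivity, ?_⟩
  filter_upwards [hcore ϱ hϱ hϱϵ, hg1 ϱ hϱ hϱ1, hg2 ϱ hϱ hϱ2, hexp, eventually_ge_atTop n₀,
    eventually_ge_atTop 1] with N hcN hp1 hp2 hN2 hNn hN1 θ G hG hGa
  have hNr : (1 : ℝ) ≤ N := by exact_mod_cast hN1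
  -- the common estimate
  have key : ∀ x ∈ G, ∃ a : ℤ, ∃ q : ℕ, (1 ≤ q ∧ (q : ℝ) ≤ Real.exp (δ * Real.sqrt N)) ∧
      ‖cexp (phi k ((-1) ^ x) x) - θ - (a : ℂ) / (q : ℂ)‖ ≤
      Real.exp (-κ' * Real.sqrt N) := by
    intro x hx
    obtain ⟨hx1, hx2⟩ := hG x hx
    obtain ⟨a, q, ⟨hq1, hq2⟩, ha⟩ := hGa x hx
    have hx4 : Real.sqrt x ≤ 2 * Real.sqrt N := by
      have hle : (N : ℝ) ^ (1 / 2 + ω) ≤ N := by
        calc (N : ℝ) ^ (1 / 2 + ω) ≤ (N : ℝ) ^ (1 : ℝ) :=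
              Real.rpow_le_rpow_of_exponent_le hNr (by linarith)
          _ = N := Real.rpow_one _
      have hx5 : (x : ℝ) ≤ 4 * N := by linarith
      calc Real.sqrt x ≤ Real.sqrt (4 * N) := Real.sqrt_le_sqrt hx5
        _ = 2 * Real.sqrt N := by
            rw [Real.sqrt_mul (by norm_num), show (4 : ℝ) = 2 ^ 2 by norm_num,
              Real.sqrt_sq (by norm_num)]
    have hqN : (q : ℝ) ≤ Real.exp (δ * Real.sqrt N) := by
      refine hq2.trans (Real.exp_le_exp.mpr ?_)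
      nlinarith
    refine ⟨a, q, ⟨hq1, hqN⟩, ?_⟩
    have hr := hn₀ x (hNn.trans hx1)
    have hsq : Real.sqrt N ≤ Real.sqrt x := Real.sqrt_le_sqrt (by exact_mod_cast hx1)
    have hsx : 0 ≤ Real.sqrt x := Real.sqrt_nonneg _
    have hsN : 0 ≤ Real.sqrt N := Real.sqrt_nonneg _
    have e1 : ‖cexp (phi k ((-1) ^ x) x) - (((pc x : ℝ) ^ ((1 : ℝ) / k) : ℝ) : ℂ)‖ ≤
        Real.exp (-(2 * κ' * Real.sqrt N)) := by
      refine hr.trans (Real.exp_le_exp.mpr ?_)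
      have : 2 * κ' * Real.sqrt N ≤ 0.004 * Cst * Real.sqrt x :=
        mul_le_mul h2 hsq hsN (by positivity)
      linarith
    have e2 : ‖((((pc x : ℝ) ^ ((1 : ℝ) / k) : ℝ) : ℂ)) - θ - (a : ℂ) / (q : ℂ)‖ ≤
        Real.exp (-(2 * κ' * Real.sqrt N)) := by
      have e3 : ((((pc x : ℝ) ^ ((1 : ℝ) / k) : ℝ) : ℂ)) - θ - (a : ℂ) / (q : ℂ) =
          ((((pc x : ℝ) ^ ((1 : ℝ) / k) - θ - (a : ℝ) / q : ℝ)) : ℂ) := by
        push_cast
        ring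
      rw [e3, Complex.norm_real, Real.norm_eq_abs]
      refine ha.trans (Real.exp_le_exp.mpr ?_)
      have : 2 * κ' * Real.sqrt N ≤ κ * Real.sqrt x :=
        mul_le_mul h1 hsq hsN hκ.le
      linarith
    have e4 : cexp (phi k ((-1) ^ x) x) - θ - (a : ℂ) / (q : ℂ) =
        (cexp (phi k ((-1) ^ x) x) - (((pc x : ℝ) ^ ((1 : ℝ) / k) : ℝ) : ℂ)) +
        (((((pc x : ℝ) ^ ((1 : ℝ) / k) : ℝ) : ℂ)) - θ - (a : ℂ) / (q : ℂ)) := by ring
    rw [e4]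
    refine (norm_add_le _ _).trans ?_
    have e5 : Real.exp (-(2 * κ' * Real.sqrt N)) =
        Real.exp (-κ' * Real.sqrt N) * Real.exp (-κ' * Real.sqrt N) := by
      rw [← Real.exp_add]; congr 1; ring
    have e6 : Real.exp (-κ' * Real.sqrt N) ≤ 1 / 2 := by
      rw [neg_mul, Real.exp_neg, ← one_div]
      exact one_div_le_one_div_of_le (by norm_num) hN2
    have e7 := Real.exp_pos (-κ' * Real.sqrt N)
    rw [e5] at e1 e2
    nlinarith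
  have hE : ((G.filter Even).card : ℝ) ≤ Real.sqrt N := by
    refine hcN (phi k 1) hp1 θ (G.filter Even) (fun x hx => hG x (Finset.mem_filter.mp hx).1) ?_
    intro x hx
    obtain ⟨hxG, hxe⟩ := Finset.mem_filter.mp hx
    have := key x hxG
    rwa [hxe.neg_one_pow] at this
  have hO : ((G.filter (fun x => ¬ Even x)).card : ℝ) ≤ Real.sqrt N := by
    refine hcN (phi k (-1)) hp2 θ (G.filter (fun x => ¬ Even x))
      (fun x hx => hG x (Finset.mem_filter.mp hx).1) ?_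
    intro x hx
    obtain ⟨hxG, hxe⟩ := Finset.mem_filter.mp hx
    have := key x hxG
    rwa [(Nat.not_even_iff_odd.mp hxe).neg_one_pow] at this
  have hcard : (G.card : ℝ) = ((G.filter Even).card : ℝ) +
      ((G.filter (fun x => ¬ Even x)).card : ℝ) := by
    have := Finset.card_filter_add_card_filter_not (s := G) (p := fun x => Even x)
    rw [← this]; push_cast; ring
  rw [hcard]
  linarith

end PRT
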