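import Mathlib
import Pool.Agent.PRT.FIN1
import Pool.Agent.PRT.COV

namespace PRT

open Filter

/-- the set of `n` at which `p(n)^{1/k}` is exponentially close to `θ + ℤ` -/
def Near (k : ℕ) (κ θ : ℝ) : Set ℕ :=
  {n : ℕ | ∃ a : ℤ, |(pc n : ℝ) ^ ((1 : ℝ) / k) - θ - a| ≤ Real.exp (-κ * Real.sqrt n)}

/-- intervals `[N, N+M]` with `M ≥ N^{1/2+ε}` -/
theorem short_intervals {k : ℕ} (hk : 2 ≤ k) {κ : ℝ} (hκ : 0 < κ) {ε : ℝ} (hε : 0 < ε) :
    ∃ δ : ℝ, 0 < δ ∧ ∃ N₀ : ℕ, ∀ N : ℕ, N₀ ≤ N → ∀ M : ℕ, (N : ℝ) ^ (1 / 2 + ε) ≤ M → M ≤ N →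
      ∀ θ : ℝ, (({n : ℕ | N ≤ n ∧ n ≤ N + M ∧ n ∈ Near k κ θ}.ncard : ℕ) : ℝ)
        ≤ M * (N : ℝ) ^ (-δ) := by
  obtain ⟨ω₀, hω₀, hω₀1, hloc⟩ := local_bound hk hκ
  set ω : ℝ := min ω₀ ε with hωdef
  have hω : 0 < ω := lt_min hω₀ hε
  have hωω₀ : ω ≤ ω₀ := min_le_left _ _
  have hωε : ω ≤ ε := min_le_right _ _
  obtain ⟨N₁, hN₁⟩ := eventually_atTop.mp hloc
  -- constants absorbed
  have hbig : ∀ᶠ N : ℕ in atTop, (12 : ℝ) ≤ (N : ℝ) ^ (ω / 2) := by
    have : Tendsto (fun N : ℕ => (N : ℝ) ^ (ω / 2)) atTop atTop :=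
      (tendsto_rpow_atTop (by positivity)).comp tendsto_natCast_atTop_atTop
    exact this.eventually_ge_atTop 12
  obtain ⟨N₂, hN₂⟩ := eventually_atTop.mp hbig
  refine ⟨ω / 2, by positivity, max (max N₁ N₂) 4, ?_⟩
  intro N hN M hM hMN θ
  have hN1 : N₁ ≤ N := le_trans (le_trans (le_max_left _ _) (le_max_left _ _)) hN
  have hN2 : N₂ ≤ N := le_trans (le_trans (le_max_right _ _) (le_max_left _ _)) hN
  have hN4 : 4 ≤ N := le_trans (le_max_right _ _) hN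
  have h12 := hN₂ N hN2
  have hNr : (4 : ℝ) ≤ N := by exact_mod_cast hN4
  have hN0 : (0 : ℝ) < N := by linarith
  have hN1r : (1 : ℝ) ≤ N := by linarith
  set W : ℝ := (N : ℝ) ^ (1 / 2 + ω) with hWdef
  have hW2 : 2 ≤ W := by
    have : (4 : ℝ) ^ ((1 : ℝ) / 2) ≤ W := by
      calc (4 : ℝ) ^ ((1 : ℝ) / 2) ≤ (N : ℝ) ^ ((1 : ℝ) / 2) :=
            Real.rpow_le_rpow (by norm_num) hNr (by norm_num)
        _ ≤ W := Real.rpow_le_rpow_of_exponent_le hN1r (by linarith)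
    have h4 : (4 : ℝ) ^ ((1 : ℝ) / 2) = 2 := by
      rw [← Real.sqrt_eq_rpow, show (4 : ℝ) = 2 ^ 2 by norm_num, Real.sqrt_sq (by norm_num)]
    linarith
  set h : ℕ := ⌊W⌋₊ with hhdef
  have hh1 : (h : ℝ) ≤ W := Nat.floor_le (by linarith)
  have hh2 : W / 2 ≤ h := by
    have := Nat.lt_floor_add_one W
    rw [← hhdef] at this
    linarith
  have hh0 : 0 < h := by
    have : (0 : ℝ) < h := by linarith
    exact_mod_cast this
  set J : ℕ := M / h + 1 with hJdef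
  set S : Set ℕ := {n : ℕ | N ≤ n ∧ n ≤ N + M ∧ n ∈ Near k κ θ} with hSdef
  classical
  -- windows
  let win : ℕ → Finset ℕ := fun i =>
    (Finset.Icc (N + i * h) (N + i * h + h)).filter (fun n => n ∈ S)
  have hcov : S ⊆ ((Finset.range J).biUnion win : Finset ℕ) := by
    intro n hn
    have hn' := hn
    obtain ⟨hn1, hn2, hn3⟩ := hn'
    simp only [Finset.coe_biUnion, Set.mem_iUnion, Finset.mem_coe, Finset.mem_range, win,
      Finset.mem_filter, Finset.mem_Icc]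
    refine ⟨(n - N) / h, ?_, ?_, hn⟩
    · rw [hJdef]
      have : (n - N) / h ≤ M / h := Nat.div_le_div_right (by omega)
      omega
    · have e1 := Nat.div_mul_le_self (n - N) h
      have e2 := Nat.lt_div_mul_add (a := n - N) hh0
      constructor <;> omega
  have hwin : ∀ i ∈ Finset.range J, ((win i).card : ℝ) ≤ 2 * Real.sqrt (2 * N) := by
    intro i hi
    have hiJ : i ≤ M / h := by
      have := Finset.mem_range.1 hi
      omega
    have hiM : i * h ≤ M := le_trans (Nat.mul_le_mul_right h hiJ) (Nat.div_mul_le_self M h)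
    have key := hN₁ (N + i * h) (by omega) θ (win i) (by
      intro x hx
      simp only [win, Finset.mem_filter, Finset.mem_Icc] at hx
      refine ⟨hx.1.1, ?_⟩
      have hx2 : (x : ℝ) ≤ ((N + i * h : ℕ) : ℝ) + h := by exact_mod_cast hx.1.2
      have h3 : W ≤ (((N + i * h : ℕ) : ℝ)) ^ (1 / 2 + ω₀) := by
        have hle : (N : ℝ) ≤ ((N + i * h : ℕ) : ℝ) := by exact_mod_cast Nat.le_add_right _ _
        calc W ≤ (N : ℝ) ^ (1 / 2 + ω₀) :=
              Real.rpow_le_rpow_of_exponent_le hN1r (by linarith)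
          _ ≤ _ := Real.rpow_le_rpow (by linarith) hle (by linarith)
      linarith) (by
      intro x hx
      simp only [win, Finset.mem_filter, Finset.mem_Icc] at hx
      exact hx.2.2.2)
    refine key.trans ?_
    have : ((N + i * h : ℕ) : ℝ) ≤ 2 * N := by
      have : N + i * h ≤ 2 * N := by omega
      exact_mod_cast this
    gcongr
  have hfin : (((Finset.range J).biUnion win : Finset ℕ) : Set ℕ).Finite := Finset.finite_toSet _
  have hc1 : S.ncard ≤ ((Finset.range J).biUnion win).card := by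
    have := Set.ncard_le_ncard hcov hfin
    rwa [Set.ncard_coe_finset] at this
  have hc2 : (((Finset.range J).biUnion win).card : ℝ) ≤ J * (2 * Real.sqrt (2 * N)) := by
    have h1 : ((Finset.range J).biUnion win).card ≤ ∑ i ∈ Finset.range J, (win i).card :=
      Finset.card_biUnion_le
    calc (((Finset.range J).biUnion win).card : ℝ) ≤ ∑ i ∈ Finset.range J, ((win i).card : ℝ) := by
          exact_mod_cast h1
      _ ≤ ∑ i ∈ Finset.range J, 2 * Real.sqrt (2 * N) := Finset.sum_le_sum hwin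
      _ = J * (2 * Real.sqrt (2 * N)) := by simp
  have hWM : W ≤ M := by
    refine le_trans ?_ hM
    exact Real.rpow_le_rpow_of_exponent_le hN1r (by linarith)
  have hJ : (J : ℝ) ≤ 3 * (M / W) := by
    have h1 : (J : ℝ) ≤ M / h + 1 := by
      rw [hJdef]
      push_cast
      have := @Nat.cast_div_le ℝ _ _ _ M h
      linarith
    have h2 : (M : ℝ) / h ≤ 2 * (M / W) := by
      have hhr : (0 : ℝ) < h := by exact_mod_cast hh0
      rw [div_le_iff₀ hhr]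
      have : (M : ℝ) = M / W * W := by field_simp
      have hMW : (0 : ℝ) ≤ M / W := by positivity
      nlinarith
    have h3 : 1 ≤ (M : ℝ) / W := by rw [le_div_iff₀ (by linarith)]; linarith
    linarith
  have hsq : Real.sqrt (2 * N) ≤ 2 * Real.sqrt N := by
    rw [Real.sqrt_le_left (by positivity), mul_pow, Real.sq_sqrt hN0.le]
    linarith
  have hfinal : 3 * (M / W) * (2 * (2 * Real.sqrt N)) ≤ M * (N : ℝ) ^ (-(ω / 2)) := by
    have e1 : W = Real.sqrt N * (N : ℝ) ^ ω := by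
      rw [hWdef, Real.rpow_add hN0, Real.sqrt_eq_rpow]
    have e2 : (N : ℝ) ^ ω = (N : ℝ) ^ (ω / 2) * (N : ℝ) ^ (ω / 2) := by
      rw [← Real.rpow_add hN0]; congr 1; ring
    have hs : 0 < Real.sqrt N := Real.sqrt_pos.2 hN0
    have hp : 0 < (N : ℝ) ^ (ω / 2) := Real.rpow_pos_of_pos hN0 _
    rw [Real.rpow_neg hN0.le, e1, e2]
    have : 3 * ((M : ℝ) / (Real.sqrt N * ((N : ℝ) ^ (ω / 2) * (N : ℝ) ^ (ω / 2)))) *
        (2 * (2 * Real.sqrt N)) = M * ((12 / (N : ℝ) ^ (ω / 2)) * ((N : ℝ) ^ (ω / 2))⁻¹) := by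
      field_simp
      ring
    rw [this]
    have h12' : 12 / (N : ℝ) ^ (ω / 2) ≤ 1 := by rw [div_le_one hp]; exact h12
    have hinv : 0 ≤ ((N : ℝ) ^ (ω / 2))⁻¹ := by positivity
    have : (12 / (N : ℝ) ^ (ω / 2)) * ((N : ℝ) ^ (ω / 2))⁻¹ ≤ 1 * ((N : ℝ) ^ (ω / 2))⁻¹ :=
      mul_le_mul_of_nonneg_right h12' hinv
    calc (M : ℝ) * ((12 / (N : ℝ) ^ (ω / 2)) * ((N : ℝ) ^ (ω / 2))⁻¹)
        ≤ M * (1 * ((N : ℝ) ^ (ω / 2))⁻¹) := mul_le_mul_of_nonneg_left this (Nat.cast_nonneg _)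
      _ = M * ((N : ℝ) ^ (ω / 2))⁻¹ := by ring
  calc ((S.ncard : ℕ) : ℝ) ≤ ((((Finset.range J).biUnion win).card : ℕ) : ℝ) := by
        exact_mod_cast hc1
    _ ≤ J * (2 * Real.sqrt (2 * N)) := hc2
    _ ≤ 3 * (M / W) * (2 * (2 * Real.sqrt N)) := by
        have hs0 : 0 ≤ Real.sqrt (2 * N) := Real.sqrt_nonneg _
        have hMW : (0 : ℝ) ≤ M / W := by positivity
        apply mul_le_mul hJ _ (by positivity) (by positivity)
        linarith
    _ ≤ _ := hfinal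

/-- counting in `[1, N]` -/
theorem global_bound {k : ℕ} (hk : 2 ≤ k) {κ : ℝ} (hκ : 0 < κ) :
    ∃ ω : ℝ, 0 < ω ∧ ∃ N₀ : ℕ, ∀ N : ℕ, N₀ ≤ N → ∀ θ : ℝ,
      (({n : ℕ | n ≤ N ∧ n ∈ Near k κ θ}.ncard : ℕ) : ℝ) ≤ (N : ℝ) ^ (1 - ω) := by
  obtain ⟨ω₀, hω₀, hω₀1, hloc⟩ := local_bound hk hκ
  obtain ⟨N₁, hN₁⟩ := eventually_atTop.mp hloc
  obtain ⟨ω', hω', f, hf⟩ := cover hω₀ hω₀1
  refine ⟨ω', hω', f N₁, ?_⟩
  intro N hN θ
  have := hf (Near k κ θ) N₁ (by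
    intro N' hN' G hG hG2
    exact hN₁ N' hN' θ G hG2 (fun x hx => hG x hx)) N hN
  have hset : {n : ℕ | n ≤ N ∧ n ∈ Near k κ θ} = {n ∈ Near k κ θ | n ≤ N} := by
    ext n; simp [and_comm]
  rw [hset]
  exact this

end PRT
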