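import Mathlib
import Pool.Agent.PRT.FIN2

namespace PRT

open Filter

/-- almost all partition numbers are far from `k`-th powers -/
theorem far_from_powers {k : ℕ} (hk : 2 ≤ k) {ε : ℝ} (hε : 0 < ε) :
    ∃ ω : ℝ, 0 < ω ∧ ∃ N₀ : ℕ, ∀ N : ℕ, N₀ ≤ N →
      (({n : ℕ | n ≤ N ∧ ∃ m : ℕ, |(pc n : ℝ) - (m : ℝ) ^ k| ≤
        (pc n : ℝ) ^ (1 - 1 / (k : ℝ) - ε)}.ncard : ℕ) : ℝ) ≤ (N : ℝ) ^ (1 - ω) := by
  obtain ⟨ω, hω, N₁, hN₁⟩ := global_bound hk hε
  obtain ⟨n₀, hn₀⟩ := eventually_atTop.mp pc_lower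
  set ω' : ℝ := min (ω / 2) (1 / 2) with hω'def
  have hω'0 : 0 < ω' := lt_min (by positivity) (by norm_num)
  have hω'1 : ω' ≤ ω / 2 := min_le_left _ _
  have hω'2 : ω' ≤ 1 / 2 := min_le_right _ _
  have hbig : ∀ᶠ N : ℕ in atTop, (2 : ℝ) * (n₀ + 1) ≤ (N : ℝ) ^ (1 - ω') ∧
      (2 : ℝ) ≤ (N : ℝ) ^ (ω / 2) := by
    have t1 : Tendsto (fun N : ℕ => (N : ℝ) ^ (1 - ω')) atTop atTop :=
      (tendsto_rpow_atTop (by linarith)).comp tendsto_natCast_atTop_atTop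
    have t2 : Tendsto (fun N : ℕ => (N : ℝ) ^ (ω / 2)) atTop atTop :=
      (tendsto_rpow_atTop (by positivity)).comp tendsto_natCast_atTop_atTop
    exact (t1.eventually_ge_atTop _).and (t2.eventually_ge_atTop _)
  obtain ⟨N₂, hN₂⟩ := eventually_atTop.mp hbig
  refine ⟨ω', hω'0, max (max N₁ N₂) 1, ?_⟩
  intro N hN
  have hN1 : N₁ ≤ N := le_trans (le_trans (le_max_left _ _) (le_max_left _ _)) hN
  have hN2 : N₂ ≤ N := le_trans (le_trans (le_max_right _ _) (le_max_left _ _)) hN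
  have hN3 : 1 ≤ N := le_trans (le_max_right _ _) hN
  have hNr : (1 : ℝ) ≤ N := by exact_mod_cast hN3
  have hN0 : (0 : ℝ) < N := by linarith
  obtain ⟨hb1, hb2⟩ := hN₂ N hN2
  have hk0 : (0 : ℝ) < k := by
    have : 0 < k := by omega
    exact_mod_cast this
  set S : Set ℕ := {n : ℕ | n ≤ N ∧ ∃ m : ℕ, |(pc n : ℝ) - (m : ℝ) ^ k| ≤
        (pc n : ℝ) ^ (1 - 1 / (k : ℝ) - ε)} with hSdef
  set T : Set ℕ := {n : ℕ | n ≤ N ∧ n ∈ Near k ε 0} with hTdef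
  have hsub : S ⊆ (Finset.range (n₀ + 1) : Set ℕ) ∪ T := by
    intro n hn
    obtain ⟨hnN, m, hm⟩ := hn
    by_cases hnn : n < n₀ + 1
    · left; simpa using hnn
    · right
      refine ⟨hnN, (m : ℤ), ?_⟩
      have hlow := hn₀ n (by omega)
      set P : ℝ := (pc n : ℝ) with hP
      have hP0 : 0 < P := lt_of_lt_of_le (Real.exp_pos _) hlow
      set a : ℝ := P ^ ((1 : ℝ) / k) with ha
      have ha0 : 0 < a := Real.rpow_pos_of_pos hP0 _
      have hak : a ^ k = P := by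
        rw [ha, ← Real.rpow_natCast, ← Real.rpow_mul hP0.le, one_div, inv_mul_cancel₀ hk0.ne',
          Real.rpow_one]
      -- a^k - m^k = (a - m) * sum
      have hfac : |a - m| * a ^ (k - 1) ≤ |a ^ k - (m : ℝ) ^ k| := by
        have h1 : (∑ i ∈ Finset.range k, a ^ i * (m : ℝ) ^ (k - 1 - i)) * (a - m)
            = a ^ k - (m : ℝ) ^ k := (Commute.all a (m : ℝ)).geom_sum₂_mul k
        rw [← h1, abs_mul, mul_comm]
        apply mul_le_mul_of_nonneg_right _ (abs_nonneg _)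
        have h2 : a ^ (k - 1) ≤ ∑ i ∈ Finset.range k, a ^ i * (m : ℝ) ^ (k - 1 - i) := by
          have : a ^ (k - 1) * (m : ℝ) ^ (k - 1 - (k - 1)) ≤
              ∑ i ∈ Finset.range k, a ^ i * (m : ℝ) ^ (k - 1 - i) :=
            Finset.single_le_sum (f := fun i => a ^ i * (m : ℝ) ^ (k - 1 - i))
              (fun i _ => by positivity) (Finset.mem_range.2 (by omega))
          simpa using this
        exact h2.trans (le_abs_self _)
      have hapow : a ^ (k - 1) = P ^ (1 - 1 / (k : ℝ)) := by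
        rw [ha, ← Real.rpow_natCast, ← Real.rpow_mul hP0.le]
        congr 1
        rw [Nat.cast_sub (by omega)]
        push_cast
        field_simp
      have h3 : |a - m| * P ^ (1 - 1 / (k : ℝ)) ≤ P ^ (1 - 1 / (k : ℝ) - ε) := by
        rw [← hapow]
        refine hfac.trans ?_
        rw [hak]
        exact hm
      have h4 : |a - m| ≤ P ^ (-ε) := by
        have hpos : 0 < P ^ (1 - 1 / (k : ℝ)) := Real.rpow_pos_of_pos hP0 _
        have h5 : P ^ (1 - 1 / (k : ℝ) - ε) = P ^ (-ε) * P ^ (1 - 1 / (k : ℝ)) := by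
          rw [← Real.rpow_add hP0]; congr 1; ring
        rw [h5] at h3
        exact le_of_mul_le_mul_right h3 hpos
      have h6 : P ^ (-ε) ≤ Real.exp (-ε * Real.sqrt n) := by
        have h7 : (Real.exp (Real.sqrt n)) ^ ε ≤ P ^ ε :=
          Real.rpow_le_rpow (Real.exp_pos _).le hlow hε.le
        rw [Real.rpow_neg hP0.le, show -ε * Real.sqrt n = -(Real.sqrt n * ε) by ring, Real.exp_neg,
          Real.exp_mul]
        exact inv_anti₀ (Real.rpow_pos_of_pos (Real.exp_pos _) _) h7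
      have h8 : |(P ^ ((1 : ℝ) / k)) - 0 - ((m : ℤ) : ℝ)| = |a - m| := by
        rw [ha]; push_cast; rw [sub_zero]
      rw [h8]
      exact h4.trans h6
  have hTfin : T.Finite := Set.Finite.subset (Set.finite_Iic N) (fun n hn => hn.1)
  have hcard : S.ncard ≤ (n₀ + 1) + T.ncard := by
    have h1 := Set.ncard_le_ncard hsub ((Finset.finite_toSet _).union hTfin)
    have h2 := Set.ncard_union_le (Finset.range (n₀ + 1) : Set ℕ) T
    rw [Set.ncard_coe_finset, Finset.card_range] at h2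
    omega
  have hT := hN₁ N hN1 0
  have hcr : ((S.ncard : ℕ) : ℝ) ≤ (n₀ + 1) + ((T.ncard : ℕ) : ℝ) := by exact_mod_cast hcard
  have hpow : (N : ℝ) ^ (1 - ω) ≤ (1 / 2) * (N : ℝ) ^ (1 - ω') := by
    have h1 : (N : ℝ) ^ (1 - ω) * (N : ℝ) ^ (ω / 2) = (N : ℝ) ^ (1 - ω / 2) := by
      rw [← Real.rpow_add hN0]; congr 1; ring
    have h2 : (N : ℝ) ^ (1 - ω / 2) ≤ (N : ℝ) ^ (1 - ω') :=
      Real.rpow_le_rpow_of_exponent_le hNr (by linarith)
    have h3 : 0 < (N : ℝ) ^ (1 - ω) := Real.rpow_pos_of_pos hN0 _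
    nlinarith
  linarith

/-- in particular the perfect `k`-th powers among the partition numbers have density zero -/
theorem perfect_powers {k : ℕ} (hk : 2 ≤ k) :
    ∃ ω : ℝ, 0 < ω ∧ ∃ N₀ : ℕ, ∀ N : ℕ, N₀ ≤ N →
      (({n : ℕ | n ≤ N ∧ ∃ m : ℕ, pc n = m ^ k}.ncard : ℕ) : ℝ) ≤ (N : ℝ) ^ (1 - ω) := by
  obtain ⟨ω, hω, N₀, h⟩ := far_from_powers hk (ε := 1) one_pos
  refine ⟨ω, hω, N₀, fun N hN => le_trans ?_ (h N hN)⟩
  have hfin : {n : ℕ | n ≤ N ∧ ∃ m : ℕ, |(pc n : ℝ) - (m : ℝ) ^ k| ≤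
        (pc n : ℝ) ^ (1 - 1 / (k : ℝ) - 1)}.Finite :=
    Set.Finite.subset (Set.finite_Iic N) (fun n hn => hn.1)
  have hsub : {n : ℕ | n ≤ N ∧ ∃ m : ℕ, pc n = m ^ k} ⊆
      {n : ℕ | n ≤ N ∧ ∃ m : ℕ, |(pc n : ℝ) - (m : ℝ) ^ k| ≤
        (pc n : ℝ) ^ (1 - 1 / (k : ℝ) - 1)} := by
    rintro n ⟨hn, m, hm⟩
    refine ⟨hn, m, ?_⟩
    rw [hm]
    push_cast
    rw [sub_self, abs_zero]
    positivity
  exact_mod_cast Set.ncard_le_ncard hsub hfin

end PRT
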